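import Pool.Agent.H49.KI.Ctx

/-! # Chb: calculus of the Wirtinger derivative

`wd` is the Wirtinger derivative on an arbitrary complex normed space. PROOFS: `fderiv ℝ` is real
linear; `wd_smul_dir`: for `t = s + i u`, `t • v = s • v + u • (I • v)` and
`I • t • v = s • (I • v) - u • v` (write real scalars: `(s : ℂ) • v = s • v`). `wd_holo`: for complex
differentiable `F`, `fderiv ℝ F x = (fderiv ℂ F x).restrictScalars ℝ`, complex linear, `I * I = -1`.
`wd_conj_holo`: `fderiv ℝ (conj ∘ F) x v = conj (fderiv ℂ F x v)`, so `1/2 (conj L - I * conj (I * L)) = 0`.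
`wd_comp`: chain rule, `fderiv ℂ ψ x` is complex linear. `wd_sum`: induction. `fderiv_re`:
`Complex.reCLM`, and `fderiv ℝ F x v = wd F x v + conj (wd (conj ∘ F) x v)`: `wd (conj ∘ F) x v =
1/2 (conj (D v) - I * conj (D (I v)))`, its conjugate is `1/2 (D v + I * D (I v))`. -/

set_option autoImplicit false

namespace KI

open Complex Metric Set Filter Topology Manifold ContDiff
open KB (V DR wirt levi rho Sesq lap lapC dz)

variable {E : Type} [NormedAddCommGroup E] [NormedSpace ℂ E] {n : ℕ}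

/-- the Wirtinger derivative on a complex normed space -/
noncomputable def wd (F : E → ℂ) (x v : E) : ℂ :=
  (1 / 2 : ℂ) * (fderiv ℝ F x v - Complex.I * fderiv ℝ F x (Complex.I • v))

theorem wirt_eq_wd (F : V n → ℂ) (x v : V n) : wirt F x v = wd F x v := rfl

theorem Chb_conj {F : E → ℂ} {x : E} (hF : DifferentiableAt ℝ F x) (v : E) :
    fderiv ℝ (fun z => (starRingEnd ℂ) (F z)) x v = (starRingEnd ℂ) (fderiv ℝ F x v) := by
  have h : HasFDerivAt (fun z => (starRingEnd ℂ) (F z))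
      ((Complex.conjCLE : ℂ →L[ℝ] ℂ).comp (fderiv ℝ F x)) x :=
    (Complex.conjCLE : ℂ →L[ℝ] ℂ).hasFDerivAt.comp x hF.hasFDerivAt
  rw [h.fderiv]
  rfl

theorem dz_eq_wd (F : ℂ → ℂ) (z : ℂ) : dz F z = wd F z 1 := by
  unfold dz wd
  rw [smul_eq_mul, mul_one]

theorem wd_congr {F H : E → ℂ} {x : E} (h : F =ᶠ[𝓝 x] H) (v : E) : wd F x v = wd H x v := by
  unfold wd
  rw [h.fderiv_eq]

theorem wd_add {F H : E → ℂ} {x : E} (hF : DifferentiableAt ℝ F x)
    (hH : DifferentiableAt ℝ H x) (v : E) : wd (fun z => F z + H z) x v = wd F x v + wd H x v := by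
  unfold wd
  have e : fderiv ℝ (fun z => F z + H z) x = fderiv ℝ F x + fderiv ℝ H x := fderiv_fun_add hF hH
  rw [e]
  simp only [ContinuousLinearMap.add_apply]
  ring

theorem wd_sum {ι : Type} (s : Finset ι) {F : ι → E → ℂ} {x : E}
    (hF : ∀ i ∈ s, DifferentiableAt ℝ (F i) x) (v : E) :
    wd (fun z => ∑ i ∈ s, F i z) x v = ∑ i ∈ s, wd (F i) x v := by
  unfold wd
  have e : fderiv ℝ (fun z => ∑ i ∈ s, F i z) x = ∑ i ∈ s, fderiv ℝ (F i) x := fderiv_fun_sum hF
  rw [e, ContinuousLinearMap.sum_apply, ContinuousLinearMap.sum_apply, Finset.mul_sum,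
    ← Finset.sum_sub_distrib, Finset.mul_sum]

theorem wd_const_mul {F : E → ℂ} {x : E} (c : ℂ) (hF : DifferentiableAt ℝ F x) (v : E) :
    wd (fun z => c * F z) x v = c * wd F x v := by
  unfold wd
  have e : fderiv ℝ (fun z => c * F z) x = c • fderiv ℝ F x := fderiv_const_mul hF c
  rw [e]
  simp only [ContinuousLinearMap.smul_apply, smul_eq_mul]
  ring

theorem wd_mul {F H : E → ℂ} {x : E} (hF : DifferentiableAt ℝ F x)
    (hH : DifferentiableAt ℝ H x) (v : E) :
    wd (fun z => F z * H z) x v = wd F x v * H x + F x * wd H x v := by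
  unfold wd
  have e : fderiv ℝ (fun z => F z * H z) x = F x • fderiv ℝ H x + H x • fderiv ℝ F x :=
    fderiv_fun_mul hF hH
  rw [e]
  simp only [ContinuousLinearMap.add_apply, ContinuousLinearMap.smul_apply, smul_eq_mul]
  ring

theorem wd_add_dir (F : E → ℂ) (x v w : E) : wd F x (v + w) = wd F x v + wd F x w := by
  unfold wd
  rw [smul_add, map_add, map_add]
  ring

theorem wd_smul_dir (F : E → ℂ) (x : E) (t : ℂ) (v : E) : wd F x (t • v) = t * wd F x v := by
  have e1 : t • v = t.re • v + t.im • (Complex.I • v) := by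
    rw [← Complex.coe_smul t.re, ← Complex.coe_smul t.im, smul_smul, ← add_smul,
      Complex.re_add_im]
  have e2 : Complex.I • t • v = t.re • (Complex.I • v) - t.im • v := by
    rw [← Complex.coe_smul t.re, ← Complex.coe_smul t.im, smul_smul, smul_smul, ← sub_smul]
    congr 1
    conv_lhs => rw [← Complex.re_add_im t]
    linear_combination (t.im : ℂ) * Complex.I_mul_I
  unfold wd
  rw [e2, e1]
  clear e1 e2
  generalize Complex.I • v = w
  rw [map_add, map_sub, map_smul, map_smul, map_smul, map_smul, Complex.real_smul,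
    Complex.real_smul, Complex.real_smul, Complex.real_smul]
  conv_rhs => rw [← Complex.re_add_im t]
  linear_combination (1 / 2 : ℂ) * (t.im : ℂ) * fderiv ℝ F x w * Complex.I_mul_I

theorem wd_holo {F : E → ℂ} {x : E} (hF : DifferentiableAt ℂ F x) (v : E) :
    wd F x v = fderiv ℂ F x v := by
  unfold wd
  rw [hF.fderiv_restrictScalars ℝ]
  show (1 / 2 : ℂ) * (fderiv ℂ F x v - Complex.I * fderiv ℂ F x (Complex.I • v)) = _
  rw [map_smul, smul_eq_mul]
  linear_combination (-(1 / 2) : ℂ) * fderiv ℂ F x v * Complex.I_mul_I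

theorem wd_conj_holo {F : E → ℂ} {x : E} (hF : DifferentiableAt ℂ F x) (v : E) :
    wd (fun z => (starRingEnd ℂ) (F z)) x v = 0 := by
  unfold wd
  rw [Chb_conj (hF.restrictScalars ℝ), Chb_conj (hF.restrictScalars ℝ),
    hF.fderiv_restrictScalars ℝ]
  show (1 / 2 : ℂ) * ((starRingEnd ℂ) (fderiv ℂ F x v) -
    Complex.I * (starRingEnd ℂ) (fderiv ℂ F x (Complex.I • v))) = _
  rw [map_smul, smul_eq_mul, map_mul, Complex.conj_I]
  linear_combination (1 / 2 : ℂ) * (starRingEnd ℂ) (fderiv ℂ F x v) * Complex.I_mul_I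

theorem wd_comp {F : V n → ℂ} {ψ : E → V n} {x : E} (hF : DifferentiableAt ℝ F (ψ x))
    (hψ : DifferentiableAt ℂ ψ x) (v : E) :
    wd (fun z => F (ψ z)) x v = wd F (ψ x) (fderiv ℂ ψ x v) := by
  unfold wd
  have e : fderiv ℝ (fun z => F (ψ z)) x = (fderiv ℝ F (ψ x)).comp (fderiv ℝ ψ x) :=
    fderiv_comp x hF (hψ.restrictScalars ℝ)
  rw [e, hψ.fderiv_restrictScalars ℝ]
  show (1 / 2 : ℂ) * (fderiv ℝ F (ψ x) (fderiv ℂ ψ x v) -
    Complex.I * fderiv ℝ F (ψ x) (fderiv ℂ ψ x (Complex.I • v))) = _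
  rw [map_smul]

theorem fderiv_eq_wd {F : E → ℂ} {x : E} (hF : DifferentiableAt ℝ F x) (v : E) :
    fderiv ℝ F x v = wd F x v + (starRingEnd ℂ) (wd (fun z => (starRingEnd ℂ) (F z)) x v) := by
  unfold wd
  rw [Chb_conj hF, Chb_conj hF, map_mul, map_sub, map_mul, Complex.conj_conj, Complex.conj_conj,
    Complex.conj_I, map_div₀, map_one, map_ofNat]
  ring

end KI
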