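import Pool.Agent.H50.KI.Cha
import Pool.Agent.H50.KI.Chb
import Pool.Agent.H49.KB.RZ

/-! # Chc: algebra of the Christoffel vector

PROOFS. `Gam_spec`: existence of `c` by `KB.riesz` (Pool/Agent/H49/KB/RZ.lean) with
`ℓ w = wirt (fun z => G e z b w) y a`: `ℓ (w + w') = ℓ w + ℓ w'` and `ℓ (t • w) = conj t * ℓ w` since
`G e z b (w + w') = …` for `z` near `y` (`G_sesq`, `Sesq.add_right`, `Sesq.smul_right`, `e.open_target`), by
`wd_congr`, `wd_add`, `wd_const_mul`, `G_diff`, `wirt_eq_wd`. Unfold `Gam` with `dif_pos`,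
`Exists.choose_spec`. `Gam_unique`: `G_ext`. All other identities from `Gam_unique` (or `G_ext`) and
`Gam_spec`: `wd_add_dir`, `wd_smul_dir` for the left argument; `Gam_symm` is `hK`;
right argument: `wd_congr`, `wd_add`, `wd_const_mul` (no Kähler condition needed). -/

set_option autoImplicit false

namespace KI

open Complex Metric Set Filter Topology Manifold ContDiff
open KB (V DR wirt levi rho Sesq lap lapC dz)

variable {n : ℕ} {X : Type} [MetricSpace X] [ChartedSpace (V n) X]
  {G : OpenPartialHomeomorph X (V n) → V n → V n → V n → ℂ}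

theorem Chc_right_add (hG : IsHermMetric G) {e : OpenPartialHomeomorph X (V n)}
    (he : e ∈ atlas (V n) X) {y : V n} (hy : y ∈ e.target) (a b w w' : V n) :
    wirt (fun z => G e z b (w + w')) y a =
      wirt (fun z => G e z b w) y a + wirt (fun z => G e z b w') y a := by
  rw [wirt_eq_wd, wirt_eq_wd, wirt_eq_wd, ← wd_add (G_diff hG he hy b w) (G_diff hG he hy b w')]
  apply wd_congr
  filter_upwards [e.open_target.mem_nhds hy] with z hz
  exact (G_sesq hG he hz).add_right b w w'

theorem Chc_right_smul (hG : IsHermMetric G) {e : OpenPartialHomeomorph X (V n)}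
    (he : e ∈ atlas (V n) X) {y : V n} (hy : y ∈ e.target) (t : ℂ) (a b w : V n) :
    wirt (fun z => G e z b (t • w)) y a =
      (starRingEnd ℂ) t * wirt (fun z => G e z b w) y a := by
  rw [wirt_eq_wd, wirt_eq_wd, ← wd_const_mul _ (G_diff hG he hy b w)]
  apply wd_congr
  filter_upwards [e.open_target.mem_nhds hy] with z hz
  exact (G_sesq hG he hz).smul_right t b w

theorem Chc_left_add (hG : IsHermMetric G) {e : OpenPartialHomeomorph X (V n)}
    (he : e ∈ atlas (V n) X) {y : V n} (hy : y ∈ e.target) (a b b' w : V n) :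
    wirt (fun z => G e z (b + b') w) y a =
      wirt (fun z => G e z b w) y a + wirt (fun z => G e z b' w) y a := by
  rw [wirt_eq_wd, wirt_eq_wd, wirt_eq_wd, ← wd_add (G_diff hG he hy b w) (G_diff hG he hy b' w)]
  apply wd_congr
  filter_upwards [e.open_target.mem_nhds hy] with z hz
  exact (G_sesq hG he hz).add b b' w

theorem Chc_left_smul (hG : IsHermMetric G) {e : OpenPartialHomeomorph X (V n)}
    (he : e ∈ atlas (V n) X) {y : V n} (hy : y ∈ e.target) (t : ℂ) (a b w : V n) :
    wirt (fun z => G e z (t • b) w) y a = t * wirt (fun z => G e z b w) y a := by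
  rw [wirt_eq_wd, wirt_eq_wd, ← wd_const_mul _ (G_diff hG he hy b w)]
  apply wd_congr
  filter_upwards [e.open_target.mem_nhds hy] with z hz
  exact (G_sesq hG he hz).smul t b w

theorem Gam_spec (hG : IsHermMetric G) {e : OpenPartialHomeomorph X (V n)}
    (he : e ∈ atlas (V n) X) {y : V n} (hy : y ∈ e.target) (a b w : V n) :
    G e y (Gam G e y a b) w = wirt (fun z => G e z b w) y a := by
  have h : ∃ c, ∀ w, G e y c w = wirt (fun z => G e z b w) y a :=
    KB.riesz (G_sesq hG he hy) (hG.pos e he y hy) (fun w => wirt (fun z => G e z b w) y a)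
      (fun w w' => Chc_right_add hG he hy a b w w')
      (fun t w => Chc_right_smul hG he hy t a b w)
  unfold Gam
  rw [dif_pos h]
  exact h.choose_spec w

theorem Gam_unique (hG : IsHermMetric G) {e : OpenPartialHomeomorph X (V n)}
    (he : e ∈ atlas (V n) X) {y : V n} (hy : y ∈ e.target) {a b c : V n}
    (hc : ∀ w, G e y c w = wirt (fun z => G e z b w) y a) : c = Gam G e y a b := by
  refine G_ext hG he hy fun w => ?_
  rw [hc w, Gam_spec hG he hy]

theorem Gam_add_left (hG : IsHermMetric G) {e : OpenPartialHomeomorph X (V n)}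
    (he : e ∈ atlas (V n) X) {y : V n} (hy : y ∈ e.target) (a a' b : V n) :
    Gam G e y (a + a') b = Gam G e y a b + Gam G e y a' b := by
  symm
  refine Gam_unique hG he hy fun w => ?_
  rw [(G_sesq hG he hy).add, Gam_spec hG he hy, Gam_spec hG he hy, wirt_eq_wd, wirt_eq_wd,
    wirt_eq_wd, wd_add_dir]

theorem Gam_smul_left (hG : IsHermMetric G) {e : OpenPartialHomeomorph X (V n)}
    (he : e ∈ atlas (V n) X) {y : V n} (hy : y ∈ e.target) (t : ℂ) (a b : V n) :
    Gam G e y (t • a) b = t • Gam G e y a b := by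
  symm
  refine Gam_unique hG he hy fun w => ?_
  rw [(G_sesq hG he hy).smul, Gam_spec hG he hy, wirt_eq_wd, wirt_eq_wd, wd_smul_dir]

theorem Gam_symm (hG : IsHermMetric G) (hK : Kaehler G) {e : OpenPartialHomeomorph X (V n)}
    (he : e ∈ atlas (V n) X) {y : V n} (hy : y ∈ e.target) (a b : V n) :
    Gam G e y a b = Gam G e y b a := by
  refine Gam_unique hG he hy fun w => ?_
  rw [Gam_spec hG he hy]
  exact hK e he y hy a b w

theorem Gam_add_right (hG : IsHermMetric G) {e : OpenPartialHomeomorph X (V n)}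
    (he : e ∈ atlas (V n) X) {y : V n} (hy : y ∈ e.target) (a b b' : V n) :
    Gam G e y a (b + b') = Gam G e y a b + Gam G e y a b' := by
  symm
  refine Gam_unique hG he hy fun w => ?_
  rw [(G_sesq hG he hy).add, Gam_spec hG he hy, Gam_spec hG he hy, Chc_left_add hG he hy]

theorem Gam_smul_right (hG : IsHermMetric G) {e : OpenPartialHomeomorph X (V n)}
    (he : e ∈ atlas (V n) X) {y : V n} (hy : y ∈ e.target) (t : ℂ) (a b : V n) :
    Gam G e y a (t • b) = t • Gam G e y a b := by
  symm
  refine Gam_unique hG he hy fun w => ?_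
  rw [(G_sesq hG he hy).smul, Gam_spec hG he hy, Chc_left_smul hG he hy]

end KI
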