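import Pool.Agent.H50.KI.Chc

/-! # Chd: smoothness of the Christoffel vector

PROOF. `c(y) = Gam G e y a b = ∑ i, c_i(y) • bv i` satisfies, for all `j`,
`∑ i, c_i(y) * G e y (bv i) (bv j) = wirt (fun z => G e z b (bv j)) y a =: v_j(y)`
(`Gam_spec`, `KB.sum_bv`, `Sesq.sum_left`). The matrix `M(y) j i = G e y (bv i) (bv j)` is invertible:
`M(y) *ᵥ c = 0` implies `G e y c (bv j) = 0` for all `j`, so `G e y c c = 0`, `c = 0`
(`Matrix.exists_mulVec_eq_zero_iff` for the determinant). So `c(y) = (det M)⁻¹ • (adjugate M *ᵥ v)`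
(`Matrix.adjugate_mul`). The entries of `M` are smooth (`hG.smooth`), `v_j` is smooth on the open set
`e.target` (`wirt` is a combination of `fderiv ℝ` of a smooth function applied to fixed vectors:
`ContDiffOn.fderiv_of_isOpen`, `contDiffOn_infty_iff_fderiv_of_isOpen`), the determinant and the adjugate
are polynomials in the entries (`Matrix.det_apply`, `Matrix.adjugate_apply`; `ContDiffOn.sum`, `contDiffOn_prod`),
division: `ContDiffOn.inv` (real structure; `det M ≠ 0`). Finally a map into `V n` is smooth if its coordinates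
are (`contDiffOn_euclidean`, or write it as `∑ i, c_i(y) • bv i`). -/

set_option autoImplicit false

namespace KI

open Complex Metric Set Filter Topology Manifold ContDiff
open KB (V DR wirt levi rho Sesq lap lapC dz)

variable {n : ℕ} {X : Type} [MetricSpace X] [ChartedSpace (V n) X]
  {G : OpenPartialHomeomorph X (V n) → V n → V n → V n → ℂ}

private theorem Chd_det {S : Set (V n)} {m : ℕ} {A : V n → Matrix (Fin m) (Fin m) ℂ}
    (hA : ∀ i j, ContDiffOn ℝ ∞ (fun y => A y i j) S) :
    ContDiffOn ℝ ∞ (fun y => (A y).det) S := by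
  simp only [Matrix.det_apply]
  refine ContDiffOn.sum fun σ _ => ?_
  have h1 : ContDiffOn ℝ ∞ (fun y => ∏ i, A y (σ i) i) S := contDiffOn_prod fun i _ => hA _ _
  rcases Int.units_eq_one_or (Equiv.Perm.sign σ) with h | h
  · simp only [h, one_smul]
    exact h1
  · simp only [h]
    have h2 : ∀ z : ℂ, (-1 : ℤˣ) • z = -z := fun z => by
      rw [Units.smul_def]
      simp
    simp only [h2]
    exact h1.neg

private theorem Chd_adj {S : Set (V n)} {m : ℕ} {A : V n → Matrix (Fin m) (Fin m) ℂ}
    (hA : ∀ i j, ContDiffOn ℝ ∞ (fun y => A y i j) S) (i j : Fin m) :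
    ContDiffOn ℝ ∞ (fun y => (A y).adjugate i j) S := by
  simp only [Matrix.adjugate_apply]
  refine Chd_det fun k l => ?_
  simp only [Matrix.updateRow_apply]
  by_cases h : k = j
  · simp only [h, if_true]
    exact contDiffOn_const
  · simp only [h, if_false]
    exact hA k l

private theorem Chd_wirt (hG : IsHermMetric G) {e : OpenPartialHomeomorph X (V n)}
    (he : e ∈ atlas (V n) X) (a b c : V n) :
    ContDiffOn ℝ ∞ (fun y => wirt (fun z => G e z b c) y a) e.target := by
  have h1 : ContDiffOn ℝ ∞ (fderiv ℝ (fun z => G e z b c)) e.target :=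
    (hG.smooth e he b c).fderiv_of_isOpen e.open_target (by simp)
  have h2 : ∀ v : V n, ContDiffOn ℝ ∞ (fun y => fderiv ℝ (fun z => G e z b c) y v) e.target :=
    fun v => h1.clm_apply contDiffOn_const
  exact contDiffOn_const.mul ((h2 a).sub (contDiffOn_const.mul (h2 (Complex.I • a))))

theorem Gam_smooth (hG : IsHermMetric G) {e : OpenPartialHomeomorph X (V n)}
    (he : e ∈ atlas (V n) X) (a b : V n) :
    ContDiffOn ℝ ∞ (fun y => Gam G e y a b) e.target := by
  set M : V n → Matrix (Fin n) (Fin n) ℂ := fun y =>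
    Matrix.of fun j i => G e y (KB.bv i) (KB.bv j) with hM
  have hMs : ∀ i j, ContDiffOn ℝ ∞ (fun y => M y i j) e.target := fun i j =>
    hG.smooth e he (KB.bv j) (KB.bv i)
  set v : V n → Fin n → ℂ := fun y j => wirt (fun z => G e z b (KB.bv j)) y a with hv
  have hvs : ∀ j, ContDiffOn ℝ ∞ (fun y => v y j) e.target := fun j =>
    Chd_wirt hG he a b (KB.bv j)
  have hsum : ∀ y ∈ e.target, ∀ w : V n, ∀ j, (M y).mulVec (fun i => w i) j = G e y w (KB.bv j) := by
    intro y hy w j
    conv_rhs => rw [KB.sum_bv w, (G_sesq hG he hy).sum_left]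
    simp only [Matrix.mulVec, dotProduct, hM, Matrix.of_apply]
    refine Finset.sum_congr rfl fun i _ => ?_
    rw [(G_sesq hG he hy).smul]
    ring
  have hdet : ∀ y ∈ e.target, (M y).det ≠ 0 := by
    intro y hy h0
    obtain ⟨w, hw, hw2⟩ := Matrix.exists_mulVec_eq_zero_iff.mpr h0
    set w' : V n := WithLp.toLp 2 w with hw'
    have hw'i : (fun i => w' i) = w := rfl
    have h3 : ∀ j, G e y w' (KB.bv j) = 0 := by
      intro j
      rw [← hsum y hy w' j, hw'i, hw2]
      rfl
    have h4 : G e y w' w' = 0 := by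
      have h5 : G e y w' (∑ i, w' i • (KB.bv i : V n)) = 0 := by
        rw [(G_sesq hG he hy).sum_right]
        refine Finset.sum_eq_zero fun i _ => ?_
        rw [(G_sesq hG he hy).smul_right, h3, mul_zero]
      rwa [← KB.sum_bv w'] at h5
    have h6 : w' ≠ 0 := by
      intro h7
      apply hw
      funext i
      have := congrArg (fun u : V n => u i) h7
      exact this
    have h7 := hG.pos e he y hy w' h6
    rw [h4, Complex.zero_re] at h7
    exact lt_irrefl _ h7
  have hc : ∀ y ∈ e.target, ∀ i, Gam G e y a b i =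
      ((M y).det)⁻¹ * ∑ j, (M y).adjugate i j * v y j := by
    intro y hy i
    have h1 : (M y).mulVec (fun i => Gam G e y a b i) = v y := by
      funext j
      rw [hsum y hy, Gam_spec hG he hy a b (KB.bv j)]
    have h2 : ((M y).adjugate).mulVec (v y) = (M y).det • (fun i => Gam G e y a b i) := by
      rw [← h1, Matrix.mulVec_mulVec, Matrix.adjugate_mul, Matrix.smul_mulVec, Matrix.one_mulVec]
    have h3 := congrFun h2 i
    simp only [Matrix.mulVec, dotProduct, Pi.smul_apply, smul_eq_mul] at h3
    rw [h3, inv_mul_cancel_left₀ (hdet y hy)]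
  have hcs : ∀ i, ContDiffOn ℝ ∞ (fun y => Gam G e y a b i) e.target := by
    intro i
    have h1 : ContDiffOn ℝ ∞ (fun y => ((M y).det)⁻¹ * ∑ j, (M y).adjugate i j * v y j) e.target :=
      ((Chd_det hMs).inv hdet).mul (ContDiffOn.sum fun j _ => (Chd_adj hMs i j).mul (hvs j))
    exact h1.congr fun y hy => hc y hy i
  have hfin : ContDiffOn ℝ ∞ (fun y => ∑ i, (((ContinuousLinearMap.toSpanSingleton ℂ
      (KB.bv i : V n)).restrictScalars ℝ) (Gam G e y a b i))) e.target := by
    refine ContDiffOn.sum fun i _ => ?_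
    exact (ContinuousLinearMap.contDiff _).comp_contDiffOn (hcs i)
  refine hfin.congr fun y _ => ?_
  conv_lhs => rw [KB.sum_bv (Gam G e y a b)]
  refine Finset.sum_congr rfl fun i _ => ?_
  rfl

end KI
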