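import Pool.Agent.H50.KI.Chc

/-! # Che: metric compatibility; the Christoffel vector is the Levi-Civita one

PROOFS. `G_deriv`: `DR (hR · b c) y a = re (fderiv ℝ (G e · b c) y a)` (`reCLM`), and by `fderiv_eq_wd`
`= re (wd (G · b c) y a) + re (wd (conj (G · b c)) y a)`, `conj (G e z b c) = G e z c b` near `y` (`wd_congr`),
so `= re G(Γ(a,b), c) + re G(Γ(a,c), b)` (`Gam_spec`), and `re G(Γ(a,c), b) = re G(b, Γ(a,c))`
(`Sesq.re_symm`). `isChristoffel_Gam`: insert `G_deriv` three times, use `Gam_symm` and `Sesq.re_symm`: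
`1/2 (h(Γ(a,b),w) + h(b,Γ(a,w)) + h(Γ(b,a),w) + h(a,Γ(b,w)) - h(Γ(w,a),b) - h(a,Γ(w,b))) = h(Γ(a,b),w)`. -/

set_option autoImplicit false

namespace KI

open Complex Metric Set Filter Topology Manifold ContDiff
open KB (V DR wirt levi rho Sesq lap lapC dz)

variable {n : ℕ} {X : Type} [MetricSpace X] [ChartedSpace (V n) X]
  {G : OpenPartialHomeomorph X (V n) → V n → V n → V n → ℂ}

/-- metric compatibility -/
theorem G_deriv (hG : IsHermMetric G) {e : OpenPartialHomeomorph X (V n)}
    (he : e ∈ atlas (V n) X) {y : V n} (hy : y ∈ e.target) (a b c : V n) :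
    DR (fun z => hR G e z b c) y a = hR G e y (Gam G e y a b) c + hR G e y b (Gam G e y a c) := by
  have hd : DifferentiableAt ℝ (fun z => G e z b c) y := G_diff hG he hy b c
  have h1 : DR (fun z => hR G e z b c) y a = (fderiv ℝ (fun z => G e z b c) y a).re := by
    have := (Complex.reCLM.hasFDerivAt.comp y hd.hasFDerivAt).fderiv
    have h2 : (fun z => hR G e z b c) = (Complex.reCLM : ℂ → ℝ) ∘ (fun z => G e z b c) := by
      funext z; rfl
    unfold DR
    rw [h2, this]
    rfl
  have h3 : wd (fun z => (starRingEnd ℂ) (G e z b c)) y a = wd (fun z => G e z c b) y a := by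
    refine wd_congr ?_ a
    filter_upwards [e.open_target.mem_nhds hy] with z hz
    exact (hG.symm e he z hz b c).symm
  rw [h1, fderiv_eq_wd hd, h3, ← wirt_eq_wd, ← wirt_eq_wd, ← Gam_spec hG he hy a b c,
    ← Gam_spec hG he hy a c b, Complex.add_re, Complex.conj_re]
  unfold hR
  rw [(G_sesq hG he hy).re_symm b (Gam G e y a c)]

theorem isChristoffel_Gam (hG : IsHermMetric G) (hK : Kaehler G)
    {e : OpenPartialHomeomorph X (V n)} (he : e ∈ atlas (V n) X) {y : V n} (hy : y ∈ e.target)
    (a b : V n) : IsChristoffel G e y a b (Gam G e y a b) := by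
  intro w
  have hs : ∀ u v : V n, hR G e y u v = hR G e y v u := fun u v =>
    (G_sesq hG he hy).re_symm v u
  rw [G_deriv hG he hy a b w, G_deriv hG he hy b a w, G_deriv hG he hy w a b,
    Gam_symm hG hK he hy b a, Gam_symm hG hK he hy w a, Gam_symm hG hK he hy w b,
    hs b (Gam G e y a w)]
  ring

end KI
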