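import Pool.Agent.H50.KI.Chc

/-! # Chf: product rule for the metric along holomorphic maps

PROOF. For `z` near `x`, `ψ z ∈ e.target` and (`KB.Sesq.expand`, `KB.mform`)
`G e (ψ z) (u z) (v z) = ∑ i, ∑ j, g_ij (ψ z) * u z i * conj (v z j)`, `g_ij y = G e y (bv i) (bv j)`. By
`wd_congr`, `wd_sum` (twice), `wd_mul` (twice): the term `(i,j)` gives
`wd g_ij (ψ x) (fderiv ℂ ψ x a) * u_i * conj v_j + g_ij * (fderiv ℂ u x a) i * conj v_j + 0`
(`wd_comp`, `wd_holo` for the coordinate `z ↦ u z i` (compose with `EuclideanSpace.proj i`), `wd_conj_holo`).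
Sum: the first part is `wd (G e · (u x) (v x))` (`wd_congr`, `wd_sum`, `wd_const_mul`, expansion of
`G e y (u x) (v x)` for `y` near `ψ x`), the second part is `G e (ψ x) (fderiv ℂ u x a) (v x)`
(`Sesq.expand`). -/

set_option autoImplicit false

namespace KI

open Complex Metric Set Filter Topology Manifold ContDiff
open KB (V DR wirt levi rho Sesq lap lapC dz)

variable {n : ℕ} {X : Type} [MetricSpace X] [ChartedSpace (V n) X]
  {G : OpenPartialHomeomorph X (V n) → V n → V n → V n → ℂ}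
  {E : Type} [NormedAddCommGroup E] [NormedSpace ℂ E]

theorem Chf_coord {u : E → V n} {x : E} (hu : DifferentiableAt ℂ u x) (i : Fin n) :
    DifferentiableAt ℂ (fun z => u z i) x ∧
      ∀ a, fderiv ℂ (fun z => u z i) x a = (fderiv ℂ u x a) i := by
  have h1 : HasFDerivAt (fun z => (EuclideanSpace.proj i : V n →L[ℂ] ℂ) (u z))
      ((EuclideanSpace.proj i : V n →L[ℂ] ℂ).comp (fderiv ℂ u x)) x :=
    (EuclideanSpace.proj i : V n →L[ℂ] ℂ).hasFDerivAt.comp x hu.hasFDerivAt
  have h2 : (fun z => (EuclideanSpace.proj i : V n →L[ℂ] ℂ) (u z)) = fun z => u z i := rfl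
  rw [h2] at h1
  refine ⟨h1.differentiableAt, fun a => ?_⟩
  rw [h1.fderiv]
  rfl

theorem Chf_conj {F : E → ℂ} {x : E} (hF : DifferentiableAt ℝ F x) :
    DifferentiableAt ℝ (fun z => (starRingEnd ℂ) (F z)) x :=
  (Complex.conjCLE.toContinuousLinearMap.differentiableAt).comp x hF

theorem wd_sesq (hG : IsHermMetric G) {e : OpenPartialHomeomorph X (V n)}
    (he : e ∈ atlas (V n) X) {ψ u v : E → V n} {x : E} (hψ : DifferentiableAt ℂ ψ x)
    (hu : DifferentiableAt ℂ u x) (hv : DifferentiableAt ℂ v x) (hx : ψ x ∈ e.target) (a : E) :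
    wd (fun z => G e (ψ z) (u z) (v z)) x a =
      wirt (fun y => G e y (u x) (v x)) (ψ x) (fderiv ℂ ψ x a) +
        G e (ψ x) (fderiv ℂ u x a) (v x) := by
  have h0 : (fun z => G e (ψ z) (u z) (v z)) =ᶠ[𝓝 x]
      fun z => ∑ i, ∑ j, G e (ψ z) (KB.bv i) (KB.bv j) * u z i * (starRingEnd ℂ) (v z j) := by
    have h1 : ∀ᶠ z in 𝓝 x, ψ z ∈ e.target :=
      hψ.continuousAt.preimage_mem_nhds (e.open_target.mem_nhds hx)
    filter_upwards [h1] with z hz
    exact (G_sesq hG he hz).expand _ _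
  have h0' : (fun y => G e y (u x) (v x)) =ᶠ[𝓝 (ψ x)]
      fun y => ∑ i, ∑ j, (u x i * (starRingEnd ℂ) (v x j)) * G e y (KB.bv i) (KB.bv j) := by
    filter_upwards [e.open_target.mem_nhds hx] with y hy
    rw [(G_sesq hG he hy).expand]
    unfold KB.mform
    refine Finset.sum_congr rfl fun i _ => Finset.sum_congr rfl fun j _ => ?_
    ring
  have dg : ∀ i j, DifferentiableAt ℝ (fun y => G e y (KB.bv i) (KB.bv j)) (ψ x) :=
    fun i j => G_diff hG he hx _ _
  have dgψ : ∀ i j, DifferentiableAt ℝ (fun z => G e (ψ z) (KB.bv i) (KB.bv j)) x :=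
    fun i j => (dg i j).comp x (hψ.restrictScalars ℝ)
  have du : ∀ i, DifferentiableAt ℝ (fun z => u z i) x :=
    fun i => (Chf_coord hu i).1.restrictScalars ℝ
  have dv : ∀ j, DifferentiableAt ℝ (fun z => (starRingEnd ℂ) (v z j)) x :=
    fun j => Chf_conj ((Chf_coord hv j).1.restrictScalars ℝ)
  have dt : ∀ i j, DifferentiableAt ℝ
      (fun z => G e (ψ z) (KB.bv i) (KB.bv j) * u z i * (starRingEnd ℂ) (v z j)) x :=
    fun i j => ((dgψ i j).mul (du i)).mul (dv j)
  have hterm : ∀ i j, wd (fun z => G e (ψ z) (KB.bv i) (KB.bv j) * u z i *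
      (starRingEnd ℂ) (v z j)) x a =
      (u x i * (starRingEnd ℂ) (v x j)) *
        wd (fun y => G e y (KB.bv i) (KB.bv j)) (ψ x) (fderiv ℂ ψ x a) +
      G e (ψ x) (KB.bv i) (KB.bv j) * (fderiv ℂ u x a) i * (starRingEnd ℂ) (v x j) := by
    intro i j
    rw [wd_mul (F := fun z => G e (ψ z) (KB.bv i) (KB.bv j) * u z i) ((dgψ i j).mul (du i)) (dv j),
      wd_mul (dgψ i j) (du i),
      wd_comp (dg i j) hψ, wd_holo (Chf_coord hu i).1, wd_conj_holo (Chf_coord hv j).1,
      (Chf_coord hu i).2]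
    ring
  rw [wd_congr h0, wirt_eq_wd, wd_congr h0', wd_sum _ (fun i _ => DifferentiableAt.fun_sum
    fun j _ => dt i j), wd_sum _ (fun i _ => DifferentiableAt.fun_sum
    fun j _ => (dg i j).const_mul _), (G_sesq hG he hx).expand]
  unfold KB.mform
  rw [← Finset.sum_add_distrib]
  refine Finset.sum_congr rfl fun i _ => ?_
  rw [wd_sum _ (fun j _ => dt i j), wd_sum _ (fun j _ => (dg i j).const_mul _),
    ← Finset.sum_add_distrib]
  refine Finset.sum_congr rfl fun j _ => ?_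
  rw [hterm, wd_const_mul _ (dg i j)]

end KI
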