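import Pool.Agent.H50.KI.Chf

/-! # Chg: transformation law of the Christoffel vector

PROOF. `ψ = trans e e'`, analytic at and near `e x` (`trans_analyticAt`). For `z` near `e x`, `z = e x'` with
`x' = e.symm z ∈ e.source ∩ e'.source`, and `G e z b w = G e' (ψ z) (fderiv ℂ ψ z b) (fderiv ℂ ψ z w)`
(`G_trans`). Take `wd` in the direction `a` (`wd_congr`, `wd_sesq` with `u z = fderiv ℂ ψ z b`,
`v z = fderiv ℂ ψ z w`, differentiable since `ψ` is analytic: `AnalyticAt.fderiv`):
`G e (e x) (Γ(a,b)) w = G e' (e' x) (Γ'(Dψ a, Dψ b)) (Dψ w) + G e' (e' x) (D(Dψ(·) b) a) (Dψ w)`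
(`Gam_spec` in both charts, `ψ (e x) = e' x`), and the left side is `G e' (e' x) (Dψ Γ(a,b)) (Dψ w)` (`G_trans`).
Every vector is `Dψ w` (`fderiv_trans_trans` for the pair `e', e`), so `G_ext` in the chart `e'`. -/

set_option autoImplicit false

namespace KI

open Complex Metric Set Filter Topology Manifold ContDiff
open KB (V DR wirt levi rho Sesq lap lapC dz)

variable {n : ℕ} {X : Type} [MetricSpace X] [ChartedSpace (V n) X]
  {G : OpenPartialHomeomorph X (V n) → V n → V n → V n → ℂ}

/-- transformation law of the Christoffel vector -/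
theorem Gam_trans [IsManifold 𝓘(ℂ, V n) ω X] (hG : IsHermMetric G)
    {e e' : OpenPartialHomeomorph X (V n)} (he : e ∈ atlas (V n) X) (he' : e' ∈ atlas (V n) X)
    {x : X} (hx : x ∈ e.source) (hx' : x ∈ e'.source) (a b : V n) :
    Gam G e' (e' x) (fderiv ℂ (trans e e') (e x) a) (fderiv ℂ (trans e e') (e x) b) =
      fderiv ℂ (trans e e') (e x) (Gam G e (e x) a b) -
        fderiv ℂ (fun z => fderiv ℂ (trans e e') z b) (e x) a := by
  have hy : e x ∈ e.target := e.map_source hx
  have hy' : e' x ∈ e'.target := e'.map_source hx'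
  have hψx : trans e e' (e x) = e' x := by
    unfold trans
    rw [e.left_inv hx]
  have han : AnalyticAt ℂ (trans e e') (e x) := trans_analyticAt he he' hx hx'
  have hd : ∀ w : V n, DifferentiableAt ℂ (fun z => fderiv ℂ (trans e e') z w) (e x) := fun w =>
    han.fderiv.differentiableAt.clm_apply (differentiableAt_const w)
  apply G_ext hG he' hy'
  intro w'
  set w : V n := fderiv ℂ (trans e' e) (e' x) w' with hw
  have hAw : fderiv ℂ (trans e e') (e x) w = w' := fderiv_trans_trans he' he hx' hx w'
  rw [(G_sesq hG he' hy').sub_left, Gam_spec hG he' hy', ← hAw]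
  have h1 : G e' (e' x) (fderiv ℂ (trans e e') (e x) (Gam G e (e x) a b))
      (fderiv ℂ (trans e e') (e x) w) = G e (e x) (Gam G e (e x) a b) w :=
    (G_trans hG he he' hx hx' _ _).symm
  rw [h1, Gam_spec hG he hy, wirt_eq_wd (fun z => G e z b w) (e x) a]
  have h2 : (fun z => G e z b w) =ᶠ[𝓝 (e x)] fun z =>
      G e' (trans e e' z) (fderiv ℂ (trans e e') z b) (fderiv ℂ (trans e e') z w) := by
    have hc : Tendsto e.symm (𝓝 (e x)) (𝓝 x) := by
      have := e.continuousAt_symm hy
      rw [ContinuousAt, e.left_inv hx] at this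
      exact this
    have hs : ∀ᶠ z in 𝓝 (e x), e.symm z ∈ e'.source :=
      hc.eventually (e'.open_source.mem_nhds hx')
    filter_upwards [hs, e.open_target.mem_nhds hy] with z hz hz'
    have h3 := G_trans hG he he' (e.map_target hz') hz b w
    rw [e.right_inv hz'] at h3
    exact h3
  rw [wd_congr h2]
  have hx2 : trans e e' (e x) ∈ e'.target := by rw [hψx]; exact hy'
  rw [wd_sesq hG he' han.differentiableAt (hd b) (hd w) hx2 a, hψx]
  ring

end KI
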