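import Pool.Agent.H50.KI.Bdf

/-! # Hq4: second derivatives in the complex case

PROOFS. `qA_A4`: `d2 u (-α) = d2 u α`: `fderiv ℝ u z (-α) = -fderiv ℝ u z α`, so
`qA A4 u = (2 d2 u 1 + 2 d2 u I)/4 = lap u 0 / 2` (the four elements are distinct: `Finset.sum_insert`, `norm_num`).
`Qf_lap`: `Qf G e c ζ = (G e (y ζ) (S ζ) (S ζ)).re` with `y ζ = c 0 + ζ • c 1 + ζ ^ 2 • c 2`,
`S ζ = c 3 + ζ • c 4 + ζ ^ 2 • c 5`, entire; `deriv y 0 = c 1`, `deriv S 0 = c 4`, `y 0 = c 0`, `S 0 = c 3`: `lf_lap` (Eca.lean).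
`HQ_complex`: `lap/2 = 2 (-bkN(w, p) + |w1 + Γ(w, p)|²)`; `w1 + Γ(w, p) = -(1/ℓ) v` (`Gam_symm`), norm squared
`vv/ℓ²` (`Sesq.smul_diag`); `bkN(w, p) = (1 - t/ℓ)² bkN(v, p)` (`bkN_smul` in Ece.lean with `t := 1`; `ww ℓ t v = ((1 - t/ℓ : ℝ) : ℂ) • v`), so
`κ t ≤ (1 - t/ℓ)² bkN(v, p)` is the hypothesis `hκ`. (The additional terms `a`, `a1` do not matter.) -/

set_option autoImplicit false

namespace KI

open Complex Metric Set Filter Topology Manifold ContDiff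
open KB (V DR wirt levi rho Sesq lap lapC dz)

theorem Hq4_sum {E : Type*} [AddCommMonoid E] (f : ℂ → E) :
    ∑ α ∈ A4, f α = f 1 + (f Complex.I + (f (-1) + f (-Complex.I))) := by
  unfold A4
  have h1 : (1 : ℂ) ∉ ({Complex.I, -1, -Complex.I} : Finset ℂ) := by
    simp [Complex.ext_iff]
    norm_num
  have h2 : (Complex.I : ℂ) ∉ ({-1, -Complex.I} : Finset ℂ) := by
    simp [Complex.ext_iff]
    norm_num
  have h3 : (-1 : ℂ) ∉ ({-Complex.I} : Finset ℂ) := by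
    simp [Complex.ext_iff]
  rw [Finset.sum_insert h1, Finset.sum_insert h2, Finset.sum_insert h3, Finset.sum_singleton]

theorem Hq4_d2 (u : ℂ → ℝ) (α : ℂ) : d2 u (-α) = d2 u α := by
  unfold d2
  have h1 : (fun z => fderiv ℝ u z (-α)) = fun z => -(fderiv ℝ u z α) := by
    funext z
    rw [map_neg]
  rw [h1, fderiv_fun_neg, map_neg]
  simp

theorem dirs_A4 : Dirs A4 := by
  refine ⟨⟨1, by simp [A4]⟩, ?_, ?_⟩
  · intro α hα
    simp only [A4, Finset.mem_insert, Finset.mem_singleton] at hα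
    rcases hα with rfl | rfl | rfl | rfl <;> simp
  · rw [Hq4_sum]
    ring

theorem card_A4 : A4.card = 4 := by
  have h := Hq4_sum (fun _ => (1 : ℕ))
  rw [Finset.sum_const, smul_eq_mul, mul_one] at h
  omega

theorem qA_A4 (u : ℂ → ℝ) : qA A4 u = lap u 0 / 2 := by
  unfold qA
  rw [Hq4_sum, card_A4, Hq4_d2, Hq4_d2]
  unfold lap d2
  push_cast
  ring

theorem mn_A4 (u : ℂ → ℝ) (z : ℂ) (ρ : ℝ) : mn A4 (fun ζ => u (z + ζ)) ρ = avg4 u z ρ := by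
  unfold mn avg4
  rw [Hq4_sum, card_A4]
  push_cast
  have h1 : z + (ρ : ℂ) * 1 = z + ρ := by ring
  have h2 : z + (ρ : ℂ) * -1 = z - ρ := by ring
  have h3 : z + (ρ : ℂ) * -Complex.I = z - ρ * Complex.I := by ring
  rw [h1, h2, h3]
  ring

variable {n : ℕ} {X : Type} [MetricSpace X] [ChartedSpace (V n) X]
  {G : OpenPartialHomeomorph X (V n) → V n → V n → V n → ℂ}

theorem Qf_lap (hG : IsHermMetric G) (hK : Kaehler G) {e : OpenPartialHomeomorph X (V n)}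
    (he : e ∈ atlas (V n) X) {c : Fin 6 → V n} (hc : c 0 ∈ e.target) :
    qA A4 (Qf G e c) = 2 * (-bkN G e (c 0) (c 1) (c 3) +
      (G e (c 0) (c 4 + Gam G e (c 0) (c 1) (c 3)) (c 4 + Gam G e (c 0) (c 1) (c 3))).re) := by
  have hA : ∀ a b d : V n, AnalyticAt ℂ (fun ζ : ℂ => a + ζ • b + ζ ^ 2 • d) 0 := by
    intro a b d
    exact (analyticAt_const.add (analyticAt_id.smul analyticAt_const)).add
      ((analyticAt_id.pow 2).smul analyticAt_const)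
  have hD : ∀ a b d : V n, deriv (fun ζ : ℂ => a + ζ • b + ζ ^ 2 • d) 0 = b := by
    intro a b d
    have h1 : HasDerivAt (fun ζ : ℂ => a + ζ • b + ζ ^ 2 • d) ((0 + (1 : ℂ) • b) +
        (((2 : ℕ) : ℂ) * (0 : ℂ) ^ (2 - 1)) • d) 0 :=
      ((hasDerivAt_const (0 : ℂ) a).add ((hasDerivAt_id (0 : ℂ)).smul_const b)).add
        ((hasDerivAt_pow 2 (0 : ℂ)).smul_const d)
    rw [h1.deriv]
    simp
  have h0 : ∀ a b d : V n, a + (0 : ℂ) • b + (0 : ℂ) ^ 2 • d = a := by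
    intro a b d
    simp
  have h := lf_lap hG hK he (y := fun ζ : ℂ => c 0 + ζ • c 1 + ζ ^ 2 • c 2)
    (S := fun ζ : ℂ => c 3 + ζ • c 4 + ζ ^ 2 • c 5) (z := 0) (hA _ _ _) (hA _ _ _)
    (by simpa using hc)
  rw [hD, hD, h0, h0] at h
  rw [qA_A4]
  have h2 : lap (Qf G e c) 0 = lap (fun w => (G e (c 0 + w • c 1 + w ^ 2 • c 2)
    (c 3 + w • c 4 + w ^ 2 • c 5) (c 3 + w • c 4 + w ^ 2 • c 5)).re) 0 := rfl
  rw [h2, h]
  ring

theorem HQ_complex (hG : IsHermMetric G) (hK : Kaehler G) {σ : ℝ → X} {ℓ vv : ℝ}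
    (hℓ : 0 < ℓ) {κ : ℝ → ℝ}
    (hκ : ∀ e ∈ atlas (V n) X, ∀ t ∈ Icc (0 : ℝ) ℓ, σ t ∈ e.source → ∀ p v : V n,
      (G e (e (σ t)) p p).re = 1 → (G e (e (σ t)) v v).re = vv →
      κ t ≤ (1 - t / ℓ) ^ 2 * bkN G e (e (σ t)) v p) :
    HQ G A4 σ ℓ vv κ True := by
  intro e he t ht hs p v w1 a a1 hp hv hw1 _
  have hy : e (σ t) ∈ e.target := e.map_source hs
  have hB := G_sesq hG he hy
  rw [Qf_lap hG hK he (c := ![e (σ t), ww ℓ t v,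
      -(1 / 2 : ℂ) • Gam G e (e (σ t)) (ww ℓ t v) (ww ℓ t v) + a, p, w1,
      dg G e (e (σ t)) p (ww ℓ t v) w1 + a1]) hy]
  have e0 : ∀ x0 x1 x2 x3 x4 x5 : V n, (![x0, x1, x2, x3, x4, x5] : Fin 6 → V n) 0 = x0 ∧
      (![x0, x1, x2, x3, x4, x5] : Fin 6 → V n) 1 = x1 ∧
      (![x0, x1, x2, x3, x4, x5] : Fin 6 → V n) 3 = x3 ∧
      (![x0, x1, x2, x3, x4, x5] : Fin 6 → V n) 4 = x4 := fun _ _ _ _ _ _ => ⟨rfl, rfl, rfl, rfl⟩
  obtain ⟨q0, q1, q3, q4⟩ := e0 (e (σ t)) (ww ℓ t v)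
    (-(1 / 2 : ℂ) • Gam G e (e (σ t)) (ww ℓ t v) (ww ℓ t v) + a) p w1
    (dg G e (e (σ t)) p (ww ℓ t v) w1 + a1)
  rw [q0, q1, q3, q4]
  have h1 : w1 + Gam G e (e (σ t)) (ww ℓ t v) p = (-((1 / ℓ : ℝ) : ℂ)) • v := by
    rw [hw1, Gam_symm hG hK he hy (ww ℓ t v) p]
    abel
  rw [h1, hB.smul_diag, hv]
  have h2 : ‖(-((1 / ℓ : ℝ) : ℂ))‖ ^ 2 = 1 / ℓ ^ 2 := by
    rw [norm_neg, Complex.norm_real, Real.norm_eq_abs, sq_abs]
    ring
  have h3 : bkN G e (e (σ t)) (ww ℓ t v) p = (1 - t / ℓ) ^ 2 * bkN G e (e (σ t)) v p := by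
    have h4 := bkN_smul hG he hy ((1 - t / ℓ : ℝ) : ℂ) 1 v p
    rw [one_smul, norm_one, Complex.norm_real, Real.norm_eq_abs, sq_abs] at h4
    unfold ww
    rw [h4]
    ring
  rw [h2, h3]
  have h5 := hκ e he t ht hs p v hp hv
  have h6 : 1 / ℓ ^ 2 * vv = vv / ℓ ^ 2 := by ring
  rw [h6]
  linarith

end KI
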