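import Pool.Agent.H50.KI.Bnd
import Pool.Agent.H50.KI.Hq4

/-! # Bco: the complex barrier -/

set_option autoImplicit false

namespace KI

open Complex Metric Set Filter Topology Manifold ContDiff
open KB (V DR wirt levi rho Sesq lap lapC dz)

theorem taylor2 {n : ℕ} {F : ℂ → V n} {z₀ : ℂ} (hF : AnalyticAt ℂ F z₀) :
    ∃ c : V n, ∀ ε > 0, ∀ᶠ ζ in 𝓝 (0 : ℂ),
      ‖F (z₀ + ζ) - (F z₀ + ζ • deriv F z₀ + ζ ^ 2 • c)‖ ≤ ε * ‖ζ‖ ^ 2 := by
  obtain ⟨p, hp⟩ := hF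
  have h1 : AnalyticAt ℂ (dslope F z₀) z₀ := ⟨_, hp.has_fpower_series_dslope_fslope⟩
  refine ⟨deriv (dslope F z₀) z₀, fun ε hε => ?_⟩
  have h2 := (hasDerivAt_iff_isLittleO.1 h1.differentiableAt.hasDerivAt).bound hε
  have h3 : Tendsto (fun ζ : ℂ => z₀ + ζ) (𝓝 0) (𝓝 z₀) := by
    have : Tendsto (fun ζ : ℂ => z₀ + ζ) (𝓝 0) (𝓝 (z₀ + 0)) :=
      Continuous.tendsto (by fun_prop) 0
    simpa using this
  filter_upwards [h3.eventually h2] with ζ hζ
  rw [add_sub_cancel_left, dslope_same] at hζ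
  have h4 : F (z₀ + ζ) = F z₀ + ζ • dslope F z₀ (z₀ + ζ) := by
    have := sub_smul_dslope F z₀ (z₀ + ζ)
    rw [add_sub_cancel_left] at this
    rw [this]
    abel
  have h5 : F (z₀ + ζ) - (F z₀ + ζ • deriv F z₀ + ζ ^ 2 • deriv (dslope F z₀) z₀) =
      ζ • (dslope F z₀ (z₀ + ζ) - deriv F z₀ - ζ • deriv (dslope F z₀) z₀) := by
    rw [h4, smul_sub, smul_sub, smul_smul, ← pow_two]
    abel
  rw [h5, norm_smul]
  calc ‖ζ‖ * ‖dslope F z₀ (z₀ + ζ) - deriv F z₀ - ζ • deriv (dslope F z₀) z₀‖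
      ≤ ‖ζ‖ * (ε * ‖ζ‖) := mul_le_mul_of_nonneg_left hζ (norm_nonneg _)
    _ = ε * ‖ζ‖ ^ 2 := by ring

theorem ray_tendsto (α : ℂ) :
    Tendsto (fun ρ : ℝ => (ρ : ℂ) * α) (𝓝[>] (0 : ℝ)) (𝓝 0) := by
  have : Tendsto (fun ρ : ℝ => (ρ : ℂ) * α) (𝓝 (0 : ℝ)) (𝓝 (((0 : ℝ) : ℂ) * α)) :=
    Continuous.tendsto (by fun_prop) 0
  rw [Complex.ofReal_zero, zero_mul] at this
  exact this.mono_left nhdsWithin_le_nhds

variable {n : ℕ} {X : Type} [MetricSpace X] [ChartedSpace (V n) X]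
  {G : OpenPartialHomeomorph X (V n) → V n → V n → V n → ℂ}

/-- complex barrier: bisectional curvature `≥ 0` everywhere, and `≥ k` on a set `N` which every
minimal geodesic from `f z₀` to `q` crosses during time `≥ 1` in its first half. -/
theorem barrier_complex [IsManifold 𝓘(ℂ, V n) ω X] [ProperSpace X] (ctx : Ctx G)
    (hS : SecNonneg G) {f : ℂ → X} {z₀ : ℂ} {r : ℝ} (hr : 0 < r) (hf : Hol n (ball z₀ r) f)
    {q : X} (hq : f z₀ ≠ q) {N : Set X} {k : ℝ} (hk : 0 ≤ k)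
    (hN : ∀ e ∈ atlas (V n) X, ∀ y ∈ e.target, e.symm y ∈ N → ∀ a b,
      k * (G e y a a).re * (G e y b b).re ≤ bkN G e y a b)
    (hcross : ∀ σ : ℝ → X, IsMGeod σ (dist (f z₀) q) → σ 0 = f z₀ → σ (dist (f z₀) q) = q →
      ∃ a b, 0 ≤ a ∧ a + 1 ≤ b ∧ b ≤ dist (f z₀) q / 2 ∧ ∀ t ∈ Icc a b, σ t ∈ N)
    {ε : ℝ} (hε : 0 < ε) :
    ∀ᶠ ρ in 𝓝[>] (0 : ℝ), avg4 (fun z => dist (f z) q) z₀ ρ - dist (f z₀) q ≤
      ρ ^ 2 / 2 * (vsq G f z₀ / dist (f z₀) q - k / 4 * vsq G f z₀ + ε) := by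
  obtain ⟨σ, hσ, hσ0, hσq⟩ := exists_mgeod ctx (f z₀) q
  obtain ⟨a, b, ha, hab, hb, hσN⟩ := hcross σ hσ hσ0 hσq
  obtain ⟨ℓ, hℓdef⟩ : ∃ ℓ, ℓ = dist (f z₀) q := ⟨_, rfl⟩
  rw [← hℓdef] at hσ hσq hb ⊢
  have hℓ : 0 < ℓ := by rw [hℓdef]; exact dist_pos.2 hq
  obtain ⟨e, he'⟩ : ∃ e, e = chartAt (V n) (f z₀) := ⟨_, rfl⟩
  have he : e ∈ atlas (V n) X := by rw [he']; exact chart_mem_atlas _ _
  have hfe : f z₀ ∈ e.source := by rw [he']; exact mem_chart_source _ _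
  obtain ⟨vv, hvv⟩ : ∃ vv, vv = vsq G f z₀ := ⟨_, rfl⟩
  have hvv' : (G e (e (f z₀)) (deriv (fun w => e (f w)) z₀)
      (deriv (fun w => e (f w)) z₀)).re = vv := by
    rw [hvv, he']
    rfl
  have hvv0 : 0 ≤ vv := by
    rw [← hvv']
    exact G_nonneg ctx.herm he (e.map_source hfe) _
  rw [← hvv]
  -- analyticity of the disc in the chart
  have hz₀ : z₀ ∈ ball z₀ r := mem_ball_self hr
  have hfc : ContinuousAt f z₀ := hf.cont.continuousAt (isOpen_ball.mem_nhds hz₀)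
  have hev : ∀ᶠ w in 𝓝 z₀, f w ∈ e.source :=
    hfc.eventually_mem (e.open_source.mem_nhds hfe)
  have hFan : AnalyticAt ℂ (fun w => e (f w)) z₀ := by
    rw [Complex.analyticAt_iff_eventually_differentiableAt]
    filter_upwards [hev, isOpen_ball.mem_nhds hz₀] with w h1 h2
    exact hf.diff w (by rwa [isOpen_ball.interior_eq]) e he h1
  obtain ⟨c, hc⟩ := taylor2 hFan
  -- the lower bound of the curvature term
  obtain ⟨κ, hκdef⟩ : ∃ κ : ℝ → ℝ, κ = (Icc a b).indicator fun _ => k / 4 * vv := ⟨_, rfl⟩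
  have hκi : MeasureTheory.Integrable κ MeasureTheory.volume := by
    rw [hκdef, MeasureTheory.integrable_indicator_iff measurableSet_Icc]
    exact continuous_const.integrableOn_Icc
  have hκ0 : ∀ t, 0 ≤ κ t := by
    intro t
    rw [hκdef]
    exact indicator_nonneg (fun _ _ => by positivity) t
  have hQ : HQ G A4 σ ℓ vv κ True := by
    refine HQ_complex ctx.herm ctx.kaehler hℓ ?_
    intro e' he' t ht hte p v hp hv
    have hyt : e' (σ t) ∈ e'.target := e'.map_source hte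
    by_cases htab : t ∈ Icc a b
    · have h1 := hN e' he' (e' (σ t)) hyt (by rw [e'.left_inv hte]; exact hσN t htab) v p
      rw [hp, hv, mul_one] at h1
      have h2 : κ t = k / 4 * vv := by
        rw [hκdef, indicator_of_mem htab]
      rw [h2]
      have h3 : t / ℓ ≤ 1 / 2 := by
        rw [div_le_iff₀ hℓ]
        linarith [htab.2]
      have h4 : (1 / 4 : ℝ) ≤ (1 - t / ℓ) ^ 2 := by nlinarith
      have h5 : 0 ≤ k * vv := by positivity
      nlinarith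
    · have h2 : κ t = 0 := by
        rw [hκdef, indicator_of_notMem htab]
      rw [h2]
      exact mul_nonneg (sq_nonneg _) (bkN_nonneg ctx.herm ctx.kaehler hS he' hyt _ _)
  have hend := mn_end (g := fun ζ => f (z₀ + ζ)) ctx dirs_A4 hℓ hσ hQ hκi.intervalIntegrable he
    (by rw [hσ0]; exact hfe) (v₀ := deriv (fun w => e (f w)) z₀)
    (a₀ := c + (1 / 2 : ℂ) • Gam G e (e (f z₀)) (deriv (fun w => e (f w)) z₀)
      (deriv (fun w => e (f w)) z₀))
    (by rw [hσ0]; exact hvv') (Or.inl trivial) ?_ ?_ hε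
  · rw [hσq] at hend
    have hint : k / 4 * vv ≤ ∫ s in (0 : ℝ)..ℓ, κ s := by
      have hi : ∀ x y : ℝ, IntervalIntegrable κ MeasureTheory.volume x y := fun x y =>
        hκi.intervalIntegrable
      have h1 : ∫ s in (0 : ℝ)..ℓ, κ s =
          (∫ s in (0 : ℝ)..a, κ s) + (∫ s in a..b, κ s) + ∫ s in b..ℓ, κ s := by
        rw [intervalIntegral.integral_add_adjacent_intervals (hi _ _) (hi _ _),
          intervalIntegral.integral_add_adjacent_intervals (hi _ _) (hi _ _)]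
      have h2 : 0 ≤ ∫ s in (0 : ℝ)..a, κ s :=
        intervalIntegral.integral_nonneg ha fun t _ => hκ0 t
      have h3 : 0 ≤ ∫ s in b..ℓ, κ s :=
        intervalIntegral.integral_nonneg (by linarith) fun t _ => hκ0 t
      have h4 : ∫ s in a..b, κ s = ∫ s in a..b, k / 4 * vv := by
        refine intervalIntegral.integral_congr fun t ht => ?_
        rw [uIcc_of_le (by linarith)] at ht
        simp only [hκdef]
        rw [indicator_of_mem ht]
      rw [intervalIntegral.integral_const, smul_eq_mul] at h4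
      have h5 : 0 ≤ k / 4 * vv := by positivity
      rw [h1, h4]
      nlinarith
    filter_upwards [hend, self_mem_nhdsWithin] with ρ h1 hρ
    rw [← mn_A4 (fun z => dist (f z) q) z₀ ρ]
    refine h1.trans (mul_le_mul_of_nonneg_left (by linarith) (by positivity))
  · intro α _
    have h1 : Tendsto (fun ρ : ℝ => z₀ + (ρ : ℂ) * α) (𝓝[>] (0 : ℝ)) (𝓝 z₀) := by
      have := (ray_tendsto α).const_add z₀
      rwa [add_zero] at this
    exact h1.eventually hev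
  · intro α hα ε' hε'
    filter_upwards [(ray_tendsto α).eventually (hc ε' hε'), self_mem_nhdsWithin] with ρ h1 hρ
    have hρ0 : 0 < ρ := hρ
    rw [hσ0]
    have h2 : jet G e (e (f z₀)) (deriv (fun w => e (f w)) z₀) ((ρ : ℂ) * α) +
        ((ρ : ℂ) * α) ^ 2 • (c + (1 / 2 : ℂ) • Gam G e (e (f z₀)) (deriv (fun w => e (f w)) z₀)
          (deriv (fun w => e (f w)) z₀)) =
        e (f z₀) + ((ρ : ℂ) * α) • deriv (fun w => e (f w)) z₀ + ((ρ : ℂ) * α) ^ 2 • c := by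
      unfold jet
      rw [smul_add, neg_smul, smul_neg]
      abel
    rw [h2]
    refine h1.trans (mul_le_mul_of_nonneg_left ?_ hε'.le)
    rw [norm_mul, Complex.norm_real, Real.norm_of_nonneg hρ0.le]
    have h3 : ρ * ‖α‖ ≤ ρ := by
      have := dirs_A4.le α hα
      nlinarith
    exact pow_le_pow_left₀ (by positivity) h3 2

end KI
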