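import Pool.Agent.H50.KI.Bdf

/-! # Pnm: derivatives along curves, parallel transport preserves the norm

PROOFS. `hR_deriv`: `(G e (y t) (v t) (u t)).re`: expand `G e (y t) (v t) (u t) = ∑ i, ∑ j, g_ij (y t) * v_i * conj u_j`
(`KB.Sesq.expand`) and differentiate within the set; the derivative is
`D_p h(v, u) + h(v', u) + h(v, u')` with `D_p h(v,u) = DR (hR · v u) y p = h(Γ(p,v),u) + h(v,Γ(p,u))` (`G_deriv`).
(Alternatively: `GE3_hasDeriv`-type lemmas in Pool/Agent/H49/KI/GE3.lean.) `par_norm`: with `v = u = W`,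
`v' = -Γ(p, W)` the derivative is 0; `constant_of_derivWithin_zero` or the mean value inequality on the interval. -/

set_option autoImplicit false

namespace KI

open Complex Metric Set Filter Topology Manifold ContDiff
open KB (V DR wirt levi rho Sesq lap lapC dz)

variable {n : ℕ} {X : Type} [MetricSpace X] [ChartedSpace (V n) X]
  {G : OpenPartialHomeomorph X (V n) → V n → V n → V n → ℂ}

/-- derivative of the Hermitian form along curves, in coordinates -/
private theorem Pnm_coord (hG : IsHermMetric G) {e : OpenPartialHomeomorph X (V n)}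
    (he : e ∈ atlas (V n) X) {y v u : ℝ → V n} {p v1 u1 : V n} {S : Set ℝ} {t : ℝ}
    (hy : HasDerivWithinAt y p S t) (hv : HasDerivWithinAt v v1 S t)
    (hu : HasDerivWithinAt u u1 S t) (ht : y t ∈ e.target) (htS : t ∈ S)
    (hyS : ∀ r ∈ S, y r ∈ e.target) :
    HasDerivWithinAt (fun r => G e (y r) (v r) (u r))
      (G e (y t) v1 (u t) + G e (y t) (v t) u1 +
        fderiv ℝ (fun z => G e z (v t) (u t)) (y t) p) S t := by
  have hco : ∀ {w : ℝ → V n} {w1 : V n} (hw : HasDerivWithinAt w w1 S t) (i : Fin n),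
      HasDerivWithinAt (fun r => w r i) (w1 i) S t := by
    intro w w1 hw i
    exact (((EuclideanSpace.proj i : V n →L[ℂ] ℂ).restrictScalars ℝ).hasFDerivAt
      (x := w t)).comp_hasDerivWithinAt t hw
  have hcj : ∀ {w : ℝ → V n} {w1 : V n} (hw : HasDerivWithinAt w w1 S t) (i : Fin n),
      HasDerivWithinAt (fun r => (starRingEnd ℂ) (w r i)) ((starRingEnd ℂ) (w1 i)) S t := by
    intro w w1 hw i
    exact (Complex.conjCLE.toContinuousLinearMap.hasFDerivAt
      (x := w t i)).comp_hasDerivWithinAt t (hco hw i)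
  have hg : ∀ i j : Fin n, HasDerivWithinAt (fun r => G e (y r) (KB.bv i) (KB.bv j))
      (fderiv ℝ (fun z => G e z (KB.bv i) (KB.bv j)) (y t) p) S t := fun i j =>
    (G_diff hG he ht _ _).hasFDerivAt.comp_hasDerivWithinAt t hy
  have hD : fderiv ℝ (fun z => G e z (v t) (u t)) (y t) p =
      ∑ i, ∑ j, v t i * (starRingEnd ℂ) (u t j) *
        fderiv ℝ (fun z => G e z (KB.bv i) (KB.bv j)) (y t) p := by
    have h1 : HasFDerivAt (fun z => ∑ i, ∑ j, (v t i * (starRingEnd ℂ) (u t j)) *
        G e z (KB.bv i) (KB.bv j)) (∑ i, ∑ j, (v t i * (starRingEnd ℂ) (u t j)) •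
          fderiv ℝ (fun z => G e z (KB.bv i) (KB.bv j)) (y t)) (y t) := by
      refine HasFDerivAt.fun_sum fun i _ => HasFDerivAt.fun_sum fun j _ => ?_
      exact (G_diff hG he ht _ _).hasFDerivAt.const_mul _
    have h2 : (fun z => G e z (v t) (u t)) =ᶠ[𝓝 (y t)] fun z => ∑ i, ∑ j,
        (v t i * (starRingEnd ℂ) (u t j)) * G e z (KB.bv i) (KB.bv j) := by
      filter_upwards [e.open_target.mem_nhds ht] with z hz
      rw [(G_sesq hG he hz).expand (v t) (u t)]
      unfold KB.mform
      refine Finset.sum_congr rfl fun i _ => Finset.sum_congr rfl fun j _ => ?_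
      ring
    rw [(h1.congr_of_eventuallyEq h2).fderiv]
    simp
  have h3 : HasDerivWithinAt (fun r => ∑ i, ∑ j, v r i * (starRingEnd ℂ) (u r j) *
      G e (y r) (KB.bv i) (KB.bv j))
      (∑ i, ∑ j, ((v1 i * (starRingEnd ℂ) (u t j) + v t i * (starRingEnd ℂ) (u1 j)) *
        G e (y t) (KB.bv i) (KB.bv j) + v t i * (starRingEnd ℂ) (u t j) *
        fderiv ℝ (fun z => G e z (KB.bv i) (KB.bv j)) (y t) p)) S t := by
    refine HasDerivWithinAt.fun_sum fun i _ => HasDerivWithinAt.fun_sum fun j _ => ?_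
    exact ((hco hv i).mul (hcj hu j)).mul (hg i j)
  have h4 : ∀ r ∈ S, G e (y r) (v r) (u r) = ∑ i, ∑ j, v r i * (starRingEnd ℂ) (u r j) *
      G e (y r) (KB.bv i) (KB.bv j) := by
    intro r hr
    rw [(G_sesq hG he (hyS r hr)).expand (v r) (u r)]
    unfold KB.mform
    refine Finset.sum_congr rfl fun i _ => Finset.sum_congr rfl fun j _ => ?_
    ring
  refine (h3.congr h4 (h4 t htS)).congr_deriv ?_
  rw [hD, (G_sesq hG he ht).expand v1 (u t), (G_sesq hG he ht).expand (v t) u1]
  unfold KB.mform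
  rw [← Finset.sum_add_distrib, ← Finset.sum_add_distrib]
  refine Finset.sum_congr rfl fun i _ => ?_
  rw [← Finset.sum_add_distrib, ← Finset.sum_add_distrib]
  refine Finset.sum_congr rfl fun j _ => ?_
  ring

theorem hR_deriv (hG : IsHermMetric G) {e : OpenPartialHomeomorph X (V n)}
    (he : e ∈ atlas (V n) X) {y v u : ℝ → V n} {p v1 u1 : V n} {S : Set ℝ} {t : ℝ}
    (hy : HasDerivWithinAt y p S t) (hv : HasDerivWithinAt v v1 S t)
    (hu : HasDerivWithinAt u u1 S t) (ht : y t ∈ e.target) (htS : t ∈ S)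
    (hyS : ∀ r ∈ S, y r ∈ e.target) :
    HasDerivWithinAt (fun r => hR G e (y r) (v r) (u r))
      (hR G e (y t) (v1 + Gam G e (y t) p (v t)) (u t) +
        hR G e (y t) (v t) (u1 + Gam G e (y t) p (u t))) S t := by
  have h1 := Pnm_coord hG he hy hv hu ht htS hyS
  have h2 := (Complex.reCLM.hasFDerivAt (x := G e (y t) (v t) (u t))).comp_hasDerivWithinAt t h1
  have hd : DifferentiableAt ℝ (fun z => G e z (v t) (u t)) (y t) := G_diff hG he ht _ _
  have h3 : DR (fun z => hR G e z (v t) (u t)) (y t) p =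
      (fderiv ℝ (fun z => G e z (v t) (u t)) (y t) p).re := by
    have h4 := (Complex.reCLM.hasFDerivAt.comp (y t) hd.hasFDerivAt).fderiv
    have h5 : (fun z => hR G e z (v t) (u t)) =
        (Complex.reCLM : ℂ → ℝ) ∘ (fun z => G e z (v t) (u t)) := by
      funext z; rfl
    unfold DR
    rw [h5, h4]
    rfl
  have h6 := G_deriv hG he ht p (v t) (u t)
  rw [h3] at h6
  refine h2.congr_deriv ?_
  have h7 : Complex.reCLM (G e (y t) v1 (u t) + G e (y t) (v t) u1 +
      fderiv ℝ (fun z => G e z (v t) (u t)) (y t) p) =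
      (G e (y t) v1 (u t)).re + (G e (y t) (v t) u1).re +
      (fderiv ℝ (fun z => G e z (v t) (u t)) (y t) p).re := by
    simp
  rw [h7, h6]
  unfold hR
  rw [(G_sesq hG he ht).add, (G_sesq hG he ht).add_right, Complex.add_re, Complex.add_re]
  ring

theorem par_norm (hG : IsHermMetric G) {e : OpenPartialHomeomorph X (V n)}
    (he : e ∈ atlas (V n) X) {y p W : ℝ → V n} {s t : ℝ} (hst : s < t)
    (hy : ∀ r ∈ Icc s t, y r ∈ e.target)
    (hyd : ∀ r ∈ Icc s t, HasDerivWithinAt y (p r) (Icc s t) r)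
    (hW : ∀ r ∈ Icc s t, HasDerivWithinAt W (-Gam G e (y r) (p r) (W r)) (Icc s t) r) :
    ∀ r ∈ Icc s t, (G e (y r) (W r) (W r)).re = (G e (y s) (W s) (W s)).re := by
  have hd : ∀ r ∈ Icc s t, HasDerivWithinAt (fun r => hR G e (y r) (W r) (W r)) 0 (Icc s t) r := by
    intro r hr
    have h1 := hR_deriv hG he (hyd r hr) (hW r hr) (hW r hr) (hy r hr) hr hy
    refine h1.congr_deriv ?_
    unfold hR
    rw [neg_add_cancel, (G_sesq hG he (hy r hr)).zero_left, (G_sesq hG he (hy r hr)).zero_right]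
    simp
  have h2 := constant_of_derivWithin_zero (f := fun r => hR G e (y r) (W r) (W r)) (a := s) (b := t)
    (fun r hr => (hd r hr).differentiableWithinAt)
    (fun r hr => (hd r (Ico_subset_Icc_self hr)).derivWithin
      ((uniqueDiffOn_Icc hst) r (Ico_subset_Icc_self hr)))
  exact h2

end KI
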