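import Pool.Agent.H50.KI.Bdf

/-! # Wdr: derivatives of the variation field and of its second order correction

PROOFS. `ww_deriv`: product rule for `r ↦ ((1 - r/ℓ : ℝ) : ℂ) • W r`:
derivative `-(1/ℓ) • W + (1 - r/ℓ) • (-Γ(p, W))` and `Gam_smul_right`.
`gam_deriv`: `Gam G e (y r) (w r) (w r) = ∑ i, ∑ j, (w r i * w r j) • Gam G e (y r) (bv i) (bv j)` for `y r ∈ e.target`
(`Gam_add_left`, `Gam_smul_left`, … as `GE3_gam` in Pool/Agent/H49/KI/GE3.lean), `Gam_smooth`, chain rule; the derivative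
is `(D_p Γ)(w, w) + Γ(w1, w) + Γ(w, w1)`, and `Γ(w, w1) = Γ(w1, w)` (`Gam_symm`); `fderiv ℝ (fun z => Gam G e z w w) y p =
∑ i, ∑ j, (w i * w j) • fderiv ℝ (fun z => Gam G e z (bv i) (bv j)) y p`. Multiply by `-(1/2)`.
`dg_cont`: the same expansion: all terms are continuous in `r` (`Gam_smooth` gives continuity of
`fderiv ℝ (fun z => Gam G e z (bv i) (bv j))` on the open set `e.target`; `Gam_cont` in Ece.lean). -/

set_option autoImplicit false

namespace KI

open Complex Metric Set Filter Topology Manifold ContDiff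
open KB (V DR wirt levi rho Sesq lap lapC dz)

variable {n : ℕ} {X : Type} [MetricSpace X] [ChartedSpace (V n) X]
  {G : OpenPartialHomeomorph X (V n) → V n → V n → V n → ℂ}

private theorem Wdr_gam (hG : IsHermMetric G) {e : OpenPartialHomeomorph X (V n)}
    (he : e ∈ atlas (V n) X) {y : V n} (hy : y ∈ e.target) (a c : V n) :
    Gam G e y a c = ∑ i, ∑ j, (a i * c j) • Gam G e y (KB.bv i) (KB.bv j) := by
  let L : V n →ₗ[ℂ] V n :=
    { toFun := fun v => Gam G e y v c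
      map_add' := fun v v' => Gam_add_left hG he hy v v' c
      map_smul' := fun t v => Gam_smul_left hG he hy t v c }
  have h1 : L a = ∑ i, a i • L (KB.bv i) := by
    conv_lhs => rw [KB.sum_bv a]
    rw [map_sum]
    simp only [map_smul]
  refine h1.trans (Finset.sum_congr rfl fun i _ => ?_)
  let L' : V n →ₗ[ℂ] V n :=
    { toFun := fun v => Gam G e y (KB.bv i) v
      map_add' := fun v v' => Gam_add_right hG he hy _ v v'
      map_smul' := fun t v => Gam_smul_right hG he hy t _ v }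
  have h2 : L' c = ∑ j, c j • L' (KB.bv j) := by
    conv_lhs => rw [KB.sum_bv c]
    rw [map_sum]
    simp only [map_smul]
  have h3 : L (KB.bv i) = ∑ j, c j • Gam G e y (KB.bv i) (KB.bv j) := h2
  rw [h3, Finset.smul_sum]
  refine Finset.sum_congr rfl fun j _ => ?_
  rw [smul_smul]

private theorem Wdr_fd (hG : IsHermMetric G) {e : OpenPartialHomeomorph X (V n)}
    (he : e ∈ atlas (V n) X) {y : V n} (hy : y ∈ e.target) (a b : V n) :
    HasFDerivAt (fun z => Gam G e z a b) (fderiv ℝ (fun z => Gam G e z a b) y) y :=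
  (((Gam_smooth hG he a b).contDiffAt (e.open_target.mem_nhds hy)).differentiableAt
    (by simp)).hasFDerivAt

private theorem Wdr_fd2 (hG : IsHermMetric G) {e : OpenPartialHomeomorph X (V n)}
    (he : e ∈ atlas (V n) X) {y : V n} (hy : y ∈ e.target) (w p : V n) :
    fderiv ℝ (fun z => Gam G e z w w) y p =
      ∑ i, ∑ j, (w i * w j) • fderiv ℝ (fun z => Gam G e z (KB.bv i) (KB.bv j)) y p := by
  have h1 : (fun z => Gam G e z w w) =ᶠ[𝓝 y]
      fun z => ∑ i, ∑ j, (w i * w j) • Gam G e z (KB.bv i) (KB.bv j) := by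
    filter_upwards [e.open_target.mem_nhds hy] with z hz
    exact Wdr_gam hG he hz w w
  rw [h1.fderiv_eq]
  have h2 : HasFDerivAt (fun z => ∑ i, ∑ j, (w i * w j) • Gam G e z (KB.bv i) (KB.bv j))
      (∑ i, ∑ j, (w i * w j) • fderiv ℝ (fun z => Gam G e z (KB.bv i) (KB.bv j)) y) y :=
    HasFDerivAt.fun_sum fun i _ => HasFDerivAt.fun_sum fun j _ =>
      (Wdr_fd hG he hy (KB.bv i) (KB.bv j)).const_smul (w i * w j)
  rw [h2.fderiv]
  simp only [ContinuousLinearMap.sum_apply, ContinuousLinearMap.smul_apply]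

theorem ww_deriv (hG : IsHermMetric G) {e : OpenPartialHomeomorph X (V n)}
    (he : e ∈ atlas (V n) X) {y W : ℝ → V n} {p : V n} {S : Set ℝ} {ℓ r : ℝ}
    (hyr : y r ∈ e.target) (hW : HasDerivWithinAt W (-Gam G e (y r) p (W r)) S r) :
    HasDerivWithinAt (fun t => ww ℓ t (W t))
      (-((1 / ℓ : ℝ) : ℂ) • W r - Gam G e (y r) p (ww ℓ r (W r))) S r := by
  have h1 : HasDerivWithinAt (fun t : ℝ => ((1 - t / ℓ : ℝ) : ℂ)) ((-(1 / ℓ) : ℝ) : ℂ) S r := by
    have h2 : HasDerivAt (fun t : ℝ => 1 - t / ℓ) (-(1 / ℓ)) r :=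
      ((hasDerivAt_id r).div_const ℓ).const_sub 1
    exact h2.ofReal_comp.hasDerivWithinAt
  have h3 := h1.smul hW
  have e1 : ((1 - r / ℓ : ℝ) : ℂ) • (-Gam G e (y r) p (W r)) + ((-(1 / ℓ) : ℝ) : ℂ) • W r =
      -((1 / ℓ : ℝ) : ℂ) • W r - Gam G e (y r) p (ww ℓ r (W r)) := by
    rw [ww, Gam_smul_right hG he hyr, smul_neg, Complex.ofReal_neg]
    abel
  rw [e1] at h3
  exact h3

theorem gam_deriv (hG : IsHermMetric G) (hK : Kaehler G) {e : OpenPartialHomeomorph X (V n)}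
    (he : e ∈ atlas (V n) X) {y w : ℝ → V n} {p w1 : V n} {S : Set ℝ} {r : ℝ}
    (hS : ∀ t ∈ S, y t ∈ e.target) (hr : r ∈ S) (hy : HasDerivWithinAt y p S r)
    (hw : HasDerivWithinAt w w1 S r) :
    HasDerivWithinAt (fun t => -(1 / 2 : ℂ) • Gam G e (y t) (w t) (w t))
      (dg G e (y r) p (w r) w1) S r := by
  have hyr := hS r hr
  have hwi : ∀ i, HasDerivWithinAt (fun t => w t i) (w1 i) S r := fun i =>
    ((EuclideanSpace.proj i : V n →L[ℂ] ℂ).restrictScalars ℝ).hasFDerivAt.comp_hasDerivWithinAt r hw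
  have hΓ : ∀ i j, HasDerivWithinAt (fun t => Gam G e (y t) (KB.bv i) (KB.bv j))
      (fderiv ℝ (fun z => Gam G e z (KB.bv i) (KB.bv j)) (y r) p) S r := fun i j =>
    (Wdr_fd hG he hyr (KB.bv i) (KB.bv j)).comp_hasDerivWithinAt r hy
  have h1 : HasDerivWithinAt
      (fun t => ∑ i, ∑ j, (w t i * w t j) • Gam G e (y t) (KB.bv i) (KB.bv j))
      (∑ i, ∑ j, ((w r i * w r j) • fderiv ℝ (fun z => Gam G e z (KB.bv i) (KB.bv j)) (y r) p +
        (w1 i * w r j + w r i * w1 j) • Gam G e (y r) (KB.bv i) (KB.bv j))) S r :=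
    HasDerivWithinAt.fun_sum fun i _ => HasDerivWithinAt.fun_sum fun j _ =>
      ((hwi i).mul (hwi j)).smul (hΓ i j)
  have h2 := (h1.const_smul (-(1 / 2 : ℂ))).congr
    (f₁ := fun t => -(1 / 2 : ℂ) • Gam G e (y t) (w t) (w t))
    (fun t ht => by
      simp only [Pi.smul_apply]
      rw [Wdr_gam hG he (hS t ht) (w t) (w t)])
    (by
      simp only [Pi.smul_apply]
      rw [Wdr_gam hG he (hS r hr) (w r) (w r)])
  have e1 : -(1 / 2 : ℂ) • (∑ i, ∑ j, ((w r i * w r j) •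
        fderiv ℝ (fun z => Gam G e z (KB.bv i) (KB.bv j)) (y r) p +
        (w1 i * w r j + w r i * w1 j) • Gam G e (y r) (KB.bv i) (KB.bv j))) =
      dg G e (y r) p (w r) w1 := by
    rw [dg, Wdr_fd2 hG he hyr]
    congr 1
    have e2 : (2 : ℂ) • Gam G e (y r) w1 (w r) =
        (∑ i, ∑ j, (w1 i * w r j) • Gam G e (y r) (KB.bv i) (KB.bv j)) +
        ∑ i, ∑ j, (w r i * w1 j) • Gam G e (y r) (KB.bv i) (KB.bv j) := by
      rw [← Wdr_gam hG he hyr w1 (w r), ← Wdr_gam hG he hyr (w r) w1,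
        Gam_symm hG hK he hyr (w r) w1, two_smul]
    rw [e2, ← Finset.sum_add_distrib, ← Finset.sum_add_distrib]
    refine Finset.sum_congr rfl fun i _ => ?_
    rw [← Finset.sum_add_distrib, ← Finset.sum_add_distrib]
    refine Finset.sum_congr rfl fun j _ => ?_
    rw [add_smul]
  rw [← e1]
  exact h2

theorem dg_cont (hG : IsHermMetric G) {e : OpenPartialHomeomorph X (V n)}
    (he : e ∈ atlas (V n) X) {y p w w1 : ℝ → V n} {S : Set ℝ}
    (hS : ∀ t ∈ S, y t ∈ e.target) (hy : ContinuousOn y S) (hp : ContinuousOn p S)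
    (hw : ContinuousOn w S) (hw1 : ContinuousOn w1 S) :
    ContinuousOn (fun t => dg G e (y t) (p t) (w t) (w1 t)) S := by
  have hwi : ∀ i, ContinuousOn (fun t => w t i) S := fun i =>
    (EuclideanSpace.proj i : V n →L[ℂ] ℂ).continuous.comp_continuousOn hw
  have hw1i : ∀ i, ContinuousOn (fun t => w1 t i) S := fun i =>
    (EuclideanSpace.proj i : V n →L[ℂ] ℂ).continuous.comp_continuousOn hw1
  have hΓ : ∀ i j, ContinuousOn (fun t => Gam G e (y t) (KB.bv i) (KB.bv j)) S := fun i j =>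
    (Gam_smooth hG he (KB.bv i) (KB.bv j)).continuousOn.comp hy hS
  have hD : ∀ i j, ContinuousOn
      (fun t => fderiv ℝ (fun z => Gam G e z (KB.bv i) (KB.bv j)) (y t) (p t)) S := fun i j =>
    (((Gam_smooth hG he (KB.bv i) (KB.bv j)).continuousOn_fderiv_of_isOpen e.open_target
      (by simp)).comp hy hS).clm_apply hp
  have h1 : ContinuousOn (fun t => -(1 / 2 : ℂ) •
      ((∑ i, ∑ j, (w t i * w t j) • fderiv ℝ (fun z => Gam G e z (KB.bv i) (KB.bv j)) (y t) (p t)) +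
      (2 : ℂ) • ∑ i, ∑ j, (w1 t i * w t j) • Gam G e (y t) (KB.bv i) (KB.bv j))) S := by
    have h3 : ContinuousOn (fun t => ∑ i, ∑ j, (w t i * w t j) •
        fderiv ℝ (fun z => Gam G e z (KB.bv i) (KB.bv j)) (y t) (p t)) S :=
      continuousOn_finsetSum _ fun i _ => continuousOn_finsetSum _ fun j _ =>
        ((hwi i).mul (hwi j)).smul (hD i j)
    have h4 : ContinuousOn (fun t => ∑ i, ∑ j, (w1 t i * w t j) •
        Gam G e (y t) (KB.bv i) (KB.bv j)) S :=
      continuousOn_finsetSum _ fun i _ => continuousOn_finsetSum _ fun j _ =>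
        ((hw1i i).mul (hwi j)).smul (hΓ i j)
    exact (h3.add (h4.const_smul (2 : ℂ))).const_smul (-(1 / 2 : ℂ))
  refine h1.congr fun t ht => ?_
  simp only [dg]
  rw [Wdr_fd2 hG he (hS t ht), Wdr_gam hG he (hS t ht) (w1 t) (w t)]

end KI
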