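import Pool.Agent.H50.KI.Bdf
import Pool.Agent.H50.KI.Pnm
import Pool.Agent.H50.KI.Wdr

/-! # Hq2: second derivatives in the real case (the second variation formula)

PROOFS. `qA_A2`: `d2 u (-1) = d2 u 1`. `d2 u 1` is the second derivative at 0 of `s ↦ u (s : ℂ)`, `s` real.
`Qf_sec`: notation `h = hR G e`, `x(s) = y + s w + s² x2`, `S(s) = p + s w1 + s² u2`, `x2 = -(1/2) Γ(w,w)`,
`u2 = dg G e y p w w1 = -(1/2)((D_p Γ)(w,w) + 2 Γ(w1, w))`, `Q(s) = h_{x(s)}(S(s), S(s))`. Then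
`Q''(0) = D_w D_w h(p,p) + D_{x''} h(p,p) + 4 (D_w h)(w1, p) + 2 h(S'', p) + 2 h(w1, w1)` with `x'' = -Γ(w,w)`,
`S'' = -(D_p Γ)(w,w) - 2 Γ(w1, w)` (all derivatives of `h(·)(c, d)` with constant `c, d`; expand bilinearly in the constants:
`Q(s) = h(p,p) + 2 s h(p, w1) + s² (h(w1,w1) + 2 h(p, u2)) + O(s³)` with `h = h_{x(s)}` and `h_{x(s)}(c,d)` differentiated twice).
(i) Christoffel identity, valid for all `z ∈ e.target`: `h_z(Γ(w,w), p) = D_w h(w, p) - 1/2 D_p h(w, w)`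
(`isChristoffel_Gam`, `hR` symmetric). Differentiate it at `y` in the direction `p` (`w`, `p` constant):
`(D_p h)(Γ(w,w), p) + h((D_p Γ)(w,w), p) = D_p D_w h(w, p) - 1/2 D_p D_p h(w, w)` (left: product rule for
`z ↦ h_z(Γ_z(w,w), p)`; expand in the basis or use that `hR G e z` is bilinear and smooth in `z`).
(ii) `G_deriv`: `(D_p h)(Γww, p) = h(Γ(p,Γww), p) + h(Γww, Γpp)`, `D_{Γww} h(p,p) = 2 h(Γ(Γww,p), p)`,
`(D_w h)(w1, p) = h(Γ(w,w1), p) + h(w1, Γ(w,p))`.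
So `Q''(0) = D_w D_w h(p,p) - 2 D_p D_w h(w,p) + D_p D_p h(w,w) + 2 (D_p h)(Γww,p) - D_{Γww} h(p,p) + 4 (D_w h)(w1,p)
- 4 h(Γ(w1,w),p) + 2 h(w1,w1) = D_w D_w h(p,p) - 2 D_p D_w h(w,p) + D_p D_p h(w,w) + 2 h(Γww,Γpp) + 4 h(w1,Γ(w,p)) + 2 h(w1,w1)
= -2 secN(p, w) + 2 h(w1 + Γ(w,p), w1 + Γ(w,p))` (unfold `secN`; `Gam_symm`; `h(Γ(p,w),Γ(p,w))` cancels).
`HQ_real`: `w1 + Γ(w, p) = -(1/ℓ) v`; `0 ≤ secN` (`hS`, `isSec_secN`); `(cplx ∨ …)` with `cplx = False` gives `a = a1 = 0`. -/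

set_option autoImplicit false
set_option maxSynthPendingDepth 3

namespace KI

open Complex Metric Set Filter Topology Manifold ContDiff
open KB (V DR wirt levi rho Sesq lap lapC dz)

private theorem Hq2_ne : (1 : ℂ) ≠ -1 := by
  intro h
  have := congrArg Complex.re h
  norm_num at this

private theorem Hq2_card : A2.card = 2 := by
  unfold A2
  exact Finset.card_pair Hq2_ne

theorem dirs_A2 : Dirs A2 := by
  refine ⟨⟨1, by simp [A2]⟩, ?_, ?_⟩
  · intro α hα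
    simp only [A2, Finset.mem_insert, Finset.mem_singleton] at hα
    rcases hα with h | h <;> rw [h] <;> simp
  · unfold A2
    rw [Finset.sum_pair Hq2_ne]
    ring

private theorem Hq2_d2_neg (u : ℂ → ℝ) : d2 u (-1) = d2 u 1 := by
  unfold d2
  have h1 : (fun z => fderiv ℝ u z (-1)) = fun z => -(fderiv ℝ u z 1) := by
    funext z
    rw [map_neg]
  rw [h1, fderiv_fun_neg, map_neg]
  simp

theorem qA_A2 (u : ℂ → ℝ) : qA A2 u = d2 u 1 := by
  unfold qA
  rw [Hq2_card]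
  unfold A2
  rw [Finset.sum_pair Hq2_ne, Hq2_d2_neg]
  push_cast
  ring

theorem mn_A2 (u : ℂ → ℝ) (ρ : ℝ) : mn A2 u ρ = (u (ρ : ℂ) + u (-(ρ : ℂ))) / 2 := by
  unfold mn
  rw [Hq2_card]
  unfold A2
  rw [Finset.sum_pair Hq2_ne, mul_one, mul_neg, mul_one]
  push_cast
  rfl

/-- the second derivative in the direction 1 -/
private theorem Hq2_d2 {u : ℂ → ℝ} (hu : ContDiffAt ℝ 2 u 0) :
    d2 u 1 = deriv (deriv (fun s : ℝ => u (s : ℂ))) 0 := by
  unfold d2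
  have hof : ∀ t : ℝ, HasDerivAt (fun s : ℝ => (s : ℂ)) 1 t := fun t =>
    Complex.ofRealCLM.hasDerivAt
  have hu1 : ∀ᶠ z in 𝓝 (0 : ℂ), DifferentiableAt ℝ u z := by
    have := hu.eventually (by norm_num)
    filter_upwards [this] with z hz
    exact hz.differentiableAt (by norm_num)
  have hc0 : Tendsto (fun s : ℝ => (s : ℂ)) (𝓝 0) (𝓝 0) := by
    have := Complex.continuous_ofReal.tendsto 0
    simpa using this
  have h1 : ∀ᶠ t : ℝ in 𝓝 0, deriv (fun s : ℝ => u (s : ℂ)) t = fderiv ℝ u (t : ℂ) 1 := by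
    filter_upwards [hc0.eventually hu1] with t ht
    exact (ht.hasFDerivAt.comp_hasDerivAt t (hof t)).deriv
  rw [Filter.EventuallyEq.deriv_eq h1]
  have h2 : DifferentiableAt ℝ (fderiv ℝ u) 0 :=
    (hu.fderiv_right (m := 1) (by norm_num)).differentiableAt (by norm_num)
  have h3 : HasFDerivAt (fun z => fderiv ℝ u z 1)
      (fderiv ℝ (fun z => fderiv ℝ u z 1) 0) ((0 : ℝ) : ℂ) := by
    have : DifferentiableAt ℝ (fun z => fderiv ℝ u z 1) 0 :=
      ((ContinuousLinearMap.apply ℝ ℝ (1 : ℂ)).differentiableAt).comp (0 : ℂ) h2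
    simpa using this.hasFDerivAt
  have h4 := h3.comp_hasDerivAt (0 : ℝ) (hof 0)
  exact h4.deriv.symm

private theorem Hq2_calc {E : Type} [NormedAddCommGroup E] [NormedSpace ℝ E]
    {H : E → E →L[ℝ] E →L[ℝ] ℝ} {T : Set E} (hT : IsOpen T) (hH : ContDiffOn ℝ ∞ H T) {y : E}
    (hy : y ∈ T) (w x2 p w1 u2 : E) :
    deriv (deriv (fun s : ℝ => H (y + s • w + s ^ 2 • x2) (p + s • w1 + s ^ 2 • u2)
      (p + s • w1 + s ^ 2 • u2))) 0 =
      ((fderiv ℝ (fderiv ℝ H) y w) w p p + (fderiv ℝ H y ((2 : ℝ) • x2)) p p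
        + (fderiv ℝ H y w) w1 p + (fderiv ℝ H y w) p w1)
      + ((fderiv ℝ H y w) w1 p + H y ((2 : ℝ) • u2) p + H y w1 w1)
      + ((fderiv ℝ H y w) p w1 + H y w1 w1 + H y p ((2 : ℝ) • u2)) := by
  have hcv : ∀ (a b c : E) (s : ℝ),
      HasDerivAt (fun s : ℝ => a + s • b + s ^ 2 • c) (b + (2 * s) • c) s := by
    intro a b c s
    have h1 : HasDerivAt (fun s : ℝ => s • b) ((1 : ℝ) • b) s := (hasDerivAt_id s).smul_const b
    have h2 : HasDerivAt (fun s : ℝ => s ^ 2 • c) ((2 * s) • c) s := by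
      have := (hasDerivAt_pow 2 s).smul_const c
      simpa using this
    have h3 := (h1.const_add a).add h2
    rw [one_smul] at h3
    exact h3
  have hcv' : ∀ (b c : E) (s : ℝ), HasDerivAt (fun s : ℝ => b + (2 * s) • c) ((2 : ℝ) • c) s := by
    intro b c s
    have h1 : HasDerivAt (fun s : ℝ => (2 * s) • c) ((2 * 1 : ℝ) • c) s :=
      ((hasDerivAt_id s).const_mul 2).smul_const c
    rw [mul_one] at h1
    exact h1.const_add b
  obtain ⟨x, hx⟩ : ∃ x : ℝ → E, x = fun s => y + s • w + s ^ 2 • x2 := ⟨_, rfl⟩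
  obtain ⟨x', hx'⟩ : ∃ x' : ℝ → E, x' = fun s => w + (2 * s) • x2 := ⟨_, rfl⟩
  obtain ⟨S, hS⟩ : ∃ S : ℝ → E, S = fun s => p + s • w1 + s ^ 2 • u2 := ⟨_, rfl⟩
  obtain ⟨S', hS'⟩ : ∃ S' : ℝ → E, S' = fun s => w1 + (2 * s) • u2 := ⟨_, rfl⟩
  have dx : ∀ s, HasDerivAt x (x' s) s := by intro s; rw [hx, hx']; exact hcv y w x2 s
  have dx' : ∀ s, HasDerivAt x' ((2 : ℝ) • x2) s := by intro s; rw [hx']; exact hcv' w x2 s
  have dS : ∀ s, HasDerivAt S (S' s) s := by intro s; rw [hS, hS']; exact hcv p w1 u2 s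
  have dS' : ∀ s, HasDerivAt S' ((2 : ℝ) • u2) s := by intro s; rw [hS']; exact hcv' w1 u2 s
  have x0 : x 0 = y := by rw [hx]; simp
  have x0' : x' 0 = w := by rw [hx']; simp
  have S0 : S 0 = p := by rw [hS]; simp
  have S0' : S' 0 = w1 := by rw [hS']; simp
  have hf : (fun s : ℝ => H (y + s • w + s ^ 2 • x2) (p + s • w1 + s ^ 2 • u2)
      (p + s • w1 + s ^ 2 • u2)) = fun s => H (x s) (S s) (S s) := by rw [hx, hS]
  rw [hf]
  have hxT : ∀ᶠ s in 𝓝 (0 : ℝ), x s ∈ T := by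
    have := (dx 0).continuousAt
    refine this.eventually_mem ?_
    rw [x0]
    exact hT.mem_nhds hy
  have hH1 : ∀ z ∈ T, HasFDerivAt H (fderiv ℝ H z) z := fun z hz =>
    ((hH.contDiffAt (hT.mem_nhds hz)).differentiableAt (by simp)).hasFDerivAt
  have hH2 : HasFDerivAt (fderiv ℝ H) (fderiv ℝ (fderiv ℝ H) y) y := by
    have h1 : ContDiffOn ℝ ∞ (fderiv ℝ H) T := hH.fderiv_of_isOpen hT (by simp)
    exact ((h1.contDiffAt (hT.mem_nhds hy)).differentiableAt (by simp)).hasFDerivAt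
  have h1 : ∀ᶠ s in 𝓝 (0 : ℝ), deriv (fun s => H (x s) (S s) (S s)) s =
      (fderiv ℝ H (x s) (x' s)) (S s) (S s) + H (x s) (S' s) (S s) + H (x s) (S s) (S' s) := by
    filter_upwards [hxT] with s hs
    have e1 : HasDerivAt (fun s => H (x s)) (fderiv ℝ H (x s) (x' s)) s :=
      (hH1 _ hs).comp_hasDerivAt s (dx s)
    have e2 := (e1.clm_apply (dS s)).clm_apply (dS s)
    rw [e2.deriv]
    simp
  rw [Filter.EventuallyEq.deriv_eq h1]
  have hH20 : HasFDerivAt (fderiv ℝ H) (fderiv ℝ (fderiv ℝ H) y) (x 0) := by rw [x0]; exact hH2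
  have hH10 : HasFDerivAt H (fderiv ℝ H y) (x 0) := by rw [x0]; exact hH1 y hy
  have f1 : HasDerivAt (fun s => fderiv ℝ H (x s)) (fderiv ℝ (fderiv ℝ H) y (x' 0)) 0 :=
    hH20.comp_hasDerivAt 0 (dx 0)
  have f2 : HasDerivAt (fun s => H (x s)) (fderiv ℝ H y (x' 0)) 0 :=
    hH10.comp_hasDerivAt 0 (dx 0)
  have g1 := ((f1.clm_apply (dx' 0)).clm_apply (dS 0)).clm_apply (dS 0)
  have g2 := (f2.clm_apply (dS' 0)).clm_apply (dS 0)
  have g3 := (f2.clm_apply (dS 0)).clm_apply (dS' 0)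
  have g := (g1.add g2).add g3
  have hg := g.deriv
  refine Eq.trans ?_ (hg.trans ?_)
  · rfl
  · simp only [x0, x0', S0, S0', add_apply]

variable {n : ℕ} {X : Type} [MetricSpace X] [ChartedSpace (V n) X]
  {G : OpenPartialHomeomorph X (V n) → V n → V n → V n → ℂ}

/-- the real bilinear form `hR` as a continuous bilinear map -/
private noncomputable def Hq2_H (G : OpenPartialHomeomorph X (V n) → V n → V n → V n → ℂ)
    (e : OpenPartialHomeomorph X (V n)) (z : V n) : V n →L[ℝ] V n →L[ℝ] ℝ :=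
  ∑ k, ∑ l, hR G e z (Module.finBasis ℝ (V n) k) (Module.finBasis ℝ (V n) l) •
    ((LinearMap.toContinuousLinearMap ((Module.finBasis ℝ (V n)).coord k)).smulRight
      (LinearMap.toContinuousLinearMap ((Module.finBasis ℝ (V n)).coord l)))

private theorem Hq2_hR_add_left (hG : IsHermMetric G) {e : OpenPartialHomeomorph X (V n)}
    (he : e ∈ atlas (V n) X) {z : V n} (hz : z ∈ e.target) (a b c : V n) :
    hR G e z (a + b) c = hR G e z a c + hR G e z b c := by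
  unfold hR
  rw [(G_sesq hG he hz).add, Complex.add_re]

private theorem Hq2_hR_symm (hG : IsHermMetric G) {e : OpenPartialHomeomorph X (V n)}
    (he : e ∈ atlas (V n) X) {z : V n} (hz : z ∈ e.target) (a b : V n) :
    hR G e z a b = hR G e z b a := (G_sesq hG he hz).re_symm b a

private theorem Hq2_hR_smul_left (hG : IsHermMetric G) {e : OpenPartialHomeomorph X (V n)}
    (he : e ∈ atlas (V n) X) {z : V n} (hz : z ∈ e.target) (r : ℝ) (a c : V n) :
    hR G e z (r • a) c = r * hR G e z a c := by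
  unfold hR
  rw [← Complex.coe_smul, (G_sesq hG he hz).smul, Complex.re_ofReal_mul]

private theorem Hq2_hR_add_right (hG : IsHermMetric G) {e : OpenPartialHomeomorph X (V n)}
    (he : e ∈ atlas (V n) X) {z : V n} (hz : z ∈ e.target) (a b c : V n) :
    hR G e z a (b + c) = hR G e z a b + hR G e z a c := by
  rw [Hq2_hR_symm hG he hz a, Hq2_hR_add_left hG he hz, Hq2_hR_symm hG he hz b,
    Hq2_hR_symm hG he hz c]

private theorem Hq2_hR_smul_right (hG : IsHermMetric G) {e : OpenPartialHomeomorph X (V n)}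
    (he : e ∈ atlas (V n) X) {z : V n} (hz : z ∈ e.target) (r : ℝ) (a c : V n) :
    hR G e z a (r • c) = r * hR G e z a c := by
  rw [Hq2_hR_symm hG he hz a, Hq2_hR_smul_left hG he hz, Hq2_hR_symm hG he hz c]

private theorem Hq2_H_apply (hG : IsHermMetric G) {e : OpenPartialHomeomorph X (V n)}
    (he : e ∈ atlas (V n) X) {z : V n} (hz : z ∈ e.target) (a c : V n) :
    Hq2_H G e z a c = hR G e z a c := by
  obtain ⟨B, hB⟩ : ∃ B : V n →ₗ[ℝ] V n →ₗ[ℝ] ℝ, ∀ a c, B a c = hR G e z a c :=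
    ⟨LinearMap.mk₂ ℝ (hR G e z) (Hq2_hR_add_left hG he hz) (Hq2_hR_smul_left hG he hz)
      (Hq2_hR_add_right hG he hz) (Hq2_hR_smul_right hG he hz), fun _ _ => rfl⟩
  rw [← hB a c]
  conv_rhs => rw [← (Module.finBasis ℝ (V n)).sum_repr a, ← (Module.finBasis ℝ (V n)).sum_repr c]
  unfold Hq2_H
  simp only [map_sum, LinearMap.sum_apply, sum_apply, map_smul,
    LinearMap.smul_apply, smul_apply, ContinuousLinearMap.smulRight_apply,
    smul_eq_mul, LinearMap.coe_toContinuousLinearMap', Module.Basis.coord_apply, Finset.mul_sum]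
  rw [Finset.sum_comm]
  refine Finset.sum_congr rfl fun l _ => ?_
  refine Finset.sum_congr rfl fun k _ => ?_
  rw [hB]
  ring

private theorem Hq2_H_smooth (hG : IsHermMetric G) {e : OpenPartialHomeomorph X (V n)}
    (he : e ∈ atlas (V n) X) : ContDiffOn ℝ ∞ (Hq2_H G e) e.target := by
  unfold Hq2_H
  refine ContDiffOn.sum fun k _ => ContDiffOn.sum fun l _ => ?_
  have h1 : ContDiffOn ℝ ∞ (fun z => hR G e z (Module.finBasis ℝ (V n) k)
      (Module.finBasis ℝ (V n) l)) e.target :=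
    Complex.reCLM.contDiff.comp_contDiffOn (hG.smooth e he _ _)
  exact h1.smul contDiffOn_const

/-- evaluation -/
private noncomputable def Hq2_ev (b c : V n) : (V n →L[ℝ] V n →L[ℝ] ℝ) →L[ℝ] ℝ :=
  (ContinuousLinearMap.apply ℝ ℝ c).comp (ContinuousLinearMap.apply ℝ (V n →L[ℝ] ℝ) b)

private theorem Hq2_DR (hG : IsHermMetric G) {e : OpenPartialHomeomorph X (V n)}
    (he : e ∈ atlas (V n) X) {z : V n} (hz : z ∈ e.target) (a b c : V n) :
    DR (fun z' => hR G e z' b c) z a = (fderiv ℝ (Hq2_H G e) z a) b c := by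
  unfold DR
  have h1 : (fun z' => hR G e z' b c) =ᶠ[𝓝 z] fun z' => Hq2_ev b c (Hq2_H G e z') := by
    filter_upwards [e.open_target.mem_nhds hz] with z' hz'
    exact (Hq2_H_apply hG he hz' b c).symm
  rw [h1.fderiv_eq]
  have h2 : DifferentiableAt ℝ (Hq2_H G e) z :=
    ((Hq2_H_smooth hG he).contDiffAt (e.open_target.mem_nhds hz)).differentiableAt (by simp)
  have h3 : HasFDerivAt (fun z' => Hq2_ev b c (Hq2_H G e z'))
      ((Hq2_ev b c).comp (fderiv ℝ (Hq2_H G e) z)) z :=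
    (Hq2_ev b c).hasFDerivAt.comp z h2.hasFDerivAt
  rw [h3.fderiv]
  rfl

private theorem Hq2_H2 (hG : IsHermMetric G) {e : OpenPartialHomeomorph X (V n)}
    (he : e ∈ atlas (V n) X) {y : V n} (hy : y ∈ e.target) :
    HasFDerivAt (fderiv ℝ (Hq2_H G e)) (fderiv ℝ (fderiv ℝ (Hq2_H G e)) y) y := by
  have h1 : ContDiffOn ℝ ∞ (fderiv ℝ (Hq2_H G e)) e.target :=
    (Hq2_H_smooth hG he).fderiv_of_isOpen e.open_target (by simp)
  exact ((h1.contDiffAt (e.open_target.mem_nhds hy)).differentiableAt (by simp)).hasFDerivAt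

private theorem Hq2_DR2 (hG : IsHermMetric G) {e : OpenPartialHomeomorph X (V n)}
    (he : e ∈ atlas (V n) X) {y : V n} (hy : y ∈ e.target) (a a' b c : V n) :
    DR (fun z => DR (fun z' => hR G e z' b c) z a') y a =
      (fderiv ℝ (fderiv ℝ (Hq2_H G e)) y a) a' b c := by
  conv_lhs => unfold DR
  have h1 : (fun z => fderiv ℝ (fun z' => hR G e z' b c) z a') =ᶠ[𝓝 y]
      fun z => Hq2_ev b c (fderiv ℝ (Hq2_H G e) z a') := by
    filter_upwards [e.open_target.mem_nhds hy] with z' hz'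
    exact Hq2_DR hG he hz' a' b c
  rw [h1.fderiv_eq]
  have h3 : HasFDerivAt (fun z => Hq2_ev b c (fderiv ℝ (Hq2_H G e) z a'))
      ((Hq2_ev b c).comp ((ContinuousLinearMap.apply ℝ (V n →L[ℝ] V n →L[ℝ] ℝ) a').comp
        (fderiv ℝ (fderiv ℝ (Hq2_H G e)) y))) y :=
    (Hq2_ev b c).hasFDerivAt.comp y
      ((ContinuousLinearMap.apply ℝ (V n →L[ℝ] V n →L[ℝ] ℝ) a').hasFDerivAt.comp y
        (Hq2_H2 hG he hy))
  rw [h3.fderiv]
  rfl

/-- the differentiated Christoffel identity -/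
private theorem Hq2_chr (hG : IsHermMetric G) (hK : Kaehler G)
    {e : OpenPartialHomeomorph X (V n)} (he : e ∈ atlas (V n) X) {y : V n} (hy : y ∈ e.target)
    (p w : V n) :
    (fderiv ℝ (Hq2_H G e) y p) (Gam G e y w w) p +
      Hq2_H G e y (fderiv ℝ (fun z => Gam G e z w w) y p) p =
    (fderiv ℝ (fderiv ℝ (Hq2_H G e)) y p) w w p -
      1 / 2 * (fderiv ℝ (fderiv ℝ (Hq2_H G e)) y p) p w w := by
  have hH1 : HasFDerivAt (Hq2_H G e) (fderiv ℝ (Hq2_H G e) y) y :=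
    (((Hq2_H_smooth hG he).contDiffAt (e.open_target.mem_nhds hy)).differentiableAt
      (by simp)).hasFDerivAt
  have hg : HasFDerivAt (fun z => Gam G e z w w) (fderiv ℝ (fun z => Gam G e z w w) y) y :=
    (((Gam_smooth hG he w w).contDiffAt (e.open_target.mem_nhds hy)).differentiableAt
      (by simp)).hasFDerivAt
  have h1 : (fun z => Hq2_H G e z (Gam G e z w w) p) =ᶠ[𝓝 y]
      fun z => Hq2_ev w p (fderiv ℝ (Hq2_H G e) z w) -
        (1 / 2 : ℝ) * Hq2_ev w w (fderiv ℝ (Hq2_H G e) z p) := by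
    filter_upwards [e.open_target.mem_nhds hy] with z hz
    have h2 := isChristoffel_Gam hG hK he hz w w p
    rw [Hq2_DR hG he hz, Hq2_DR hG he hz] at h2
    rw [Hq2_H_apply hG he hz, h2]
    show _ = (fderiv ℝ (Hq2_H G e) z w) w p - (1 / 2 : ℝ) * (fderiv ℝ (Hq2_H G e) z p) w w
    ring
  have h3 := h1.fderiv_eq (𝕜 := ℝ)
  have h4 := (hH1.clm_apply hg).clm_apply (hasFDerivAt_const p y)
  rw [h4.fderiv] at h3
  have k1 : ∀ a b c : V n, HasFDerivAt (fun z => Hq2_ev b c (fderiv ℝ (Hq2_H G e) z a))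
      ((Hq2_ev b c).comp ((ContinuousLinearMap.apply ℝ (V n →L[ℝ] V n →L[ℝ] ℝ) a).comp
        (fderiv ℝ (fderiv ℝ (Hq2_H G e)) y))) y := fun a b c =>
    (Hq2_ev b c).hasFDerivAt.comp y
      ((ContinuousLinearMap.apply ℝ (V n →L[ℝ] V n →L[ℝ] ℝ) a).hasFDerivAt.comp y
        (Hq2_H2 hG he hy))
  have h5 := (k1 w w p).sub ((k1 p w w).const_mul (1 / 2 : ℝ))
  have h6 := h5.fderiv
  have h7 : fderiv ℝ (fun z => Hq2_ev w p (fderiv ℝ (Hq2_H G e) z w) -
        (1 / 2 : ℝ) * Hq2_ev w w (fderiv ℝ (Hq2_H G e) z p)) y = _ := h6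
  rw [h7] at h3
  have h8 := congrArg (fun L : V n →L[ℝ] ℝ => L p) h3
  simp only [add_apply, sub_apply, smul_apply, ContinuousLinearMap.comp_apply,
    ContinuousLinearMap.flip_apply, zero_apply, map_zero, zero_add,
    smul_eq_mul] at h8
  have h9 : ∀ (a b c : V n), Hq2_ev b c ((ContinuousLinearMap.apply ℝ
      (V n →L[ℝ] V n →L[ℝ] ℝ) a) (fderiv ℝ (fderiv ℝ (Hq2_H G e)) y p)) =
      (fderiv ℝ (fderiv ℝ (Hq2_H G e)) y p) a b c := fun _ _ _ => rfl
  rw [h9, h9] at h8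
  rw [← h8]
  simp [add_comm]

theorem Qf_sec (hG : IsHermMetric G) (hK : Kaehler G) {e : OpenPartialHomeomorph X (V n)}
    (he : e ∈ atlas (V n) X) {y : V n} (hy : y ∈ e.target) (p w w1 : V n) :
    d2 (Qf G e ![y, w, -(1 / 2 : ℂ) • Gam G e y w w, p, w1, dg G e y p w w1]) 1 =
      2 * (-secN G e y p w +
        (G e y (w1 + Gam G e y w p) (w1 + Gam G e y w p)).re) := by
  obtain ⟨x2, hx2⟩ : ∃ x2, x2 = -(1 / 2 : ℂ) • Gam G e y w w := ⟨_, rfl⟩
  obtain ⟨u2, hu2⟩ : ∃ u2, u2 = dg G e y p w w1 := ⟨_, rfl⟩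
  rw [← hx2, ← hu2]
  have hQ : Qf G e ![y, w, x2, p, w1, u2] = fun ζ : ℂ =>
      hR G e (y + ζ • w + ζ ^ 2 • x2) (p + ζ • w1 + ζ ^ 2 • u2) (p + ζ • w1 + ζ ^ 2 • u2) := by
    funext ζ
    rfl
  have hXc : ContDiff ℝ ∞ (fun ζ : ℂ => y + ζ • w + ζ ^ 2 • x2) := by fun_prop
  have hSc : ContDiff ℝ ∞ (fun ζ : ℂ => p + ζ • w1 + ζ ^ 2 • u2) := by fun_prop
  have hX0 : y + (0 : ℂ) • w + (0 : ℂ) ^ 2 • x2 = y := by simp
  have hev : ∀ᶠ ζ in 𝓝 (0 : ℂ), y + ζ • w + ζ ^ 2 • x2 ∈ e.target := by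
    refine hXc.continuous.continuousAt.eventually_mem ?_
    rw [hX0]
    exact e.open_target.mem_nhds hy
  have hQe : Qf G e ![y, w, x2, p, w1, u2] =ᶠ[𝓝 0] fun ζ : ℂ =>
      Hq2_H G e (y + ζ • w + ζ ^ 2 • x2) (p + ζ • w1 + ζ ^ 2 • u2)
        (p + ζ • w1 + ζ ^ 2 • u2) := by
    rw [hQ]
    filter_upwards [hev] with ζ hζ
    exact (Hq2_H_apply hG he hζ _ _).symm
  have hQs : ContDiffAt ℝ 2 (Qf G e ![y, w, x2, p, w1, u2]) 0 := by
    refine ContDiffAt.congr_of_eventuallyEq ?_ hQe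
    have h1 : ContDiffAt ℝ 2 (fun ζ : ℂ => Hq2_H G e (y + ζ • w + ζ ^ 2 • x2)) 0 := by
      have h2 : ContDiffAt ℝ 2 (Hq2_H G e) (y + (0 : ℂ) • w + (0 : ℂ) ^ 2 • x2) := by
        rw [hX0]
        exact ((Hq2_H_smooth hG he).contDiffAt (e.open_target.mem_nhds hy)).of_le ENat.LEInfty.out
      have h3 : ContDiffAt ℝ 2 (fun ζ : ℂ => y + ζ • w + ζ ^ 2 • x2) 0 :=
        (hXc.contDiffAt).of_le ENat.LEInfty.out
      exact ContDiffAt.comp (g := Hq2_H G e) (0 : ℂ) h2 h3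
    have h2 : ContDiffAt ℝ 2 (fun ζ : ℂ => p + ζ • w1 + ζ ^ 2 • u2) 0 :=
      (hSc.contDiffAt).of_le ENat.LEInfty.out
    exact (h1.clm_apply h2).clm_apply h2
  rw [Hq2_d2 hQs]
  have hc0 : Tendsto (fun s : ℝ => (s : ℂ)) (𝓝 0) (𝓝 0) := by
    have := Complex.continuous_ofReal.tendsto 0
    simpa using this
  have hre : (fun s : ℝ => Qf G e ![y, w, x2, p, w1, u2] (s : ℂ)) =ᶠ[𝓝 0] fun s : ℝ =>
      Hq2_H G e (y + s • w + s ^ 2 • x2) (p + s • w1 + s ^ 2 • u2)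
        (p + s • w1 + s ^ 2 • u2) := by
    filter_upwards [hc0.eventually hQe] with s hs
    rw [hs]
    simp only [← Complex.ofReal_pow, Complex.coe_smul]
  rw [hre.deriv.deriv_eq, Hq2_calc e.open_target (Hq2_H_smooth hG he) hy]
  have hchr := Hq2_chr hG hK he hy p w
  have hs : ∀ u v : V n, hR G e y u v = hR G e y v u := fun u v => Hq2_hR_symm hG he hy u v
  have hap : ∀ u v : V n, Hq2_H G e y u v = hR G e y u v := fun u v => Hq2_H_apply hG he hy u v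
  have e1 : (2 : ℝ) • x2 = -Gam G e y w w := by
    rw [hx2, ← Complex.coe_smul, smul_smul]
    norm_num
  have e2 : (2 : ℝ) • u2 = -(fderiv ℝ (fun z => Gam G e z w w) y p) -
      (2 : ℝ) • Gam G e y w1 w := by
    rw [hu2]
    unfold dg
    rw [← Complex.coe_smul, smul_smul, ← Complex.coe_smul]
    norm_num
    abel
  have hd : ∀ a b c : V n, (fderiv ℝ (Hq2_H G e) y a) b c =
      hR G e y (Gam G e y a b) c + hR G e y b (Gam G e y a c) := by
    intro a b c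
    rw [← Hq2_DR hG he hy, G_deriv hG he hy]
  have hsec : secN G e y p w = (fderiv ℝ (fderiv ℝ (Hq2_H G e)) y p) w p w
      - 1 / 2 * (fderiv ℝ (fderiv ℝ (Hq2_H G e)) y p) p w w
      - 1 / 2 * (fderiv ℝ (fderiv ℝ (Hq2_H G e)) y w) w p p
      + hR G e y (Gam G e y p w) (Gam G e y p w) - hR G e y (Gam G e y p p) (Gam G e y w w) := by
    unfold secN
    rw [Hq2_DR2 hG he hy, Hq2_DR2 hG he hy, Hq2_DR2 hG he hy]
  have hsym2 : (fderiv ℝ (fderiv ℝ (Hq2_H G e)) y p) w w p =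
      (fderiv ℝ (fderiv ℝ (Hq2_H G e)) y p) w p w := by
    rw [← Hq2_DR2 hG he hy, ← Hq2_DR2 hG he hy]
    unfold DR
    have h1 : (fun z => fderiv ℝ (fun z' => hR G e z' w p) z w) =ᶠ[𝓝 y]
        fun z => fderiv ℝ (fun z' => hR G e z' p w) z w := by
      filter_upwards [e.open_target.mem_nhds hy] with z hz
      have h2 : (fun z' => hR G e z' w p) =ᶠ[𝓝 z] fun z' => hR G e z' p w := by
        filter_upwards [e.open_target.mem_nhds hz] with z' hz'
        exact Hq2_hR_symm hG he hz' w p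
      rw [h2.fderiv_eq]
    rw [h1.fderiv_eq]
  rw [e1, e2, hsec]
  rw [hsym2] at hchr
  simp only [map_neg, neg_apply, map_sub, sub_apply, map_smul, smul_apply, smul_eq_mul]
  simp only [hd, hap] at hchr ⊢
  have hfin : (G e y (w1 + Gam G e y w p) (w1 + Gam G e y w p)).re =
      hR G e y w1 w1 + 2 * hR G e y w1 (Gam G e y w p) +
        hR G e y (Gam G e y w p) (Gam G e y w p) := by
    show hR G e y (w1 + Gam G e y w p) (w1 + Gam G e y w p) = _
    rw [Hq2_hR_add_left hG he hy, Hq2_hR_add_right hG he hy, Hq2_hR_add_right hG he hy,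
      hs (Gam G e y w p) w1]
    ring
  rw [hfin]
  rw [Gam_symm hG hK he hy p w] at *
  rw [Gam_symm hG hK he hy (Gam G e y w w) p, Gam_symm hG hK he hy w1 w]
  have s1 := hs p (Gam G e y p (Gam G e y w w))
  have s2 := hs (Gam G e y w p) w1
  have s3 := hs p (Gam G e y w w1)
  have s4 := hs p ((fderiv ℝ (fun z => Gam G e z w w) y) p)
  have s5 := hs (Gam G e y w w) (Gam G e y p p)
  linarith

theorem HQ_real (hG : IsHermMetric G) (hK : Kaehler G) (hS : SecNonneg G) {σ : ℝ → X}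
    {ℓ vv : ℝ} (hℓ : 0 < ℓ) : HQ G A2 σ ℓ vv (fun _ => 0) False := by
  intro e he t _ hσ p v w1 a a1 _ hv hw1 hc
  rcases hc with hc | ⟨ha, ha1⟩
  · exact hc.elim
  have hy : e (σ t) ∈ e.target := e.map_source hσ
  rw [ha, ha1, add_zero, add_zero, qA_A2, Qf_sec hG hK he hy]
  have h1 : w1 + Gam G e (e (σ t)) (ww ℓ t v) p = -((1 / ℓ : ℝ) : ℂ) • v := by
    rw [hw1, Gam_symm hG hK he hy p]
    abel
  have h2 := hS e he _ hy p (ww ℓ t v) _ (isSec_secN hG hK he hy p (ww ℓ t v))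
  rw [h1, (G_sesq hG he hy).smul_diag, hv, norm_neg, Complex.norm_real, Real.norm_eq_abs,
    sq_abs]
  have h3 : (1 / ℓ) ^ 2 * vv = vv / ℓ ^ 2 := by
    field_simp
  rw [h3]
  linarith

end KI
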