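import Pool.Agent.H50.KI.Bnd
import Pool.Agent.H50.KI.Hq2
import Pool.Agent.H50.KI.Bco

/-! # Bre: the real barrier -/

set_option autoImplicit false

namespace KI

open Complex Metric Set Filter Topology Manifold ContDiff
open KB (V DR wirt levi rho Sesq lap lapC dz)

/-- second order Taylor formula for a curve with velocity `p` which is differentiable at `s` -/
theorem taylor2_real {n : ℕ} {y p : ℝ → V n} {q : V n} {s r : ℝ} (hr : 0 < r)
    (hy : ∀ t ∈ Ioo (s - r) (s + r), HasDerivAt y (p t) t) (hp : HasDerivAt p q s)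
    {ε : ℝ} (hε : 0 < ε) :
    ∀ᶠ h in 𝓝 (0 : ℝ), ‖y (s + h) - (y s + h • p s + (h ^ 2 / 2) • q)‖ ≤ ε * h ^ 2 := by
  have h1 := (hasDerivAt_iff_isLittleO.1 hp).bound hε
  have h2 : Tendsto (fun h : ℝ => s + h) (𝓝 0) (𝓝 s) := by
    have : Tendsto (fun h : ℝ => s + h) (𝓝 0) (𝓝 (s + 0)) := Continuous.tendsto (by fun_prop) 0
    simpa using this
  obtain ⟨δ, hδ, hδ'⟩ := Metric.eventually_nhds_iff.1 (h2.eventually h1)
  filter_upwards [Metric.ball_mem_nhds (0 : ℝ) (lt_min hδ hr)] with h hh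
  rw [mem_ball_zero_iff, Real.norm_eq_abs] at hh
  have hh1 : |h| < δ := hh.trans_le (min_le_left _ _)
  have hh2 : |h| < r := hh.trans_le (min_le_right _ _)
  -- mean value inequality on the segment [0, h]
  have hder : ∀ t ∈ uIcc (0 : ℝ) h, HasDerivWithinAt
      (fun t => y (s + t) - (y s + t • p s + (t ^ 2 / 2) • q))
      (p (s + t) - p s - t • q) (uIcc 0 h) t := by
    intro t ht
    have ht' : |t| ≤ |h| := by
      rcases le_total 0 h with h0 | h0
      · rw [uIcc_of_le h0] at ht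
        rw [abs_of_nonneg ht.1, abs_of_nonneg h0]
        exact ht.2
      · rw [uIcc_of_ge h0] at ht
        rw [abs_of_nonpos ht.2, abs_of_nonpos h0]
        linarith [ht.1]
    have ht2 : s + t ∈ Ioo (s - r) (s + r) := by
      have := abs_lt.1 (ht'.trans_lt hh2)
      exact ⟨by linarith [this.1], by linarith [this.2]⟩
    have e1 : HasDerivAt (fun t => y (s + t)) (p (s + t)) t := by
      have e2 : HasDerivAt (fun t : ℝ => s + t) 1 t := (hasDerivAt_id t).const_add s
      have := (hy (s + t) ht2).scomp t e2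
      rw [one_smul] at this
      exact this
    have e3 : HasDerivAt (fun t : ℝ => y s + t • p s + (t ^ 2 / 2) • q) (p s + t • q) t := by
      have e4 : HasDerivAt (fun t : ℝ => t • p s) ((1 : ℝ) • p s) t :=
        (hasDerivAt_id t).smul_const (p s)
      have e5 : HasDerivAt (fun t : ℝ => t ^ 2 / 2) t t := by
        have := (hasDerivAt_pow 2 t).div_const 2
        simpa using this
      have e6 := (e4.const_add (y s)).add (e5.smul_const q)
      rw [one_smul] at e6
      exact e6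
    have := (e1.sub e3).hasDerivWithinAt (s := uIcc 0 h)
    refine this.congr_deriv ?_
    abel
  have hbound : ∀ t ∈ uIcc (0 : ℝ) h, ‖p (s + t) - p s - t • q‖ ≤ ε * |h| := by
    intro t ht
    have ht' : |t| ≤ |h| := by
      rcases le_total 0 h with h0 | h0
      · rw [uIcc_of_le h0] at ht
        rw [abs_of_nonneg ht.1, abs_of_nonneg h0]
        exact ht.2
      · rw [uIcc_of_ge h0] at ht
        rw [abs_of_nonpos ht.2, abs_of_nonpos h0]
        linarith [ht.1]
    have e1 := hδ' (y := t) (by rw [dist_zero_right, Real.norm_eq_abs]; exact ht'.trans_lt hh1)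
    rw [add_sub_cancel_left, Real.norm_eq_abs] at e1
    exact e1.trans (mul_le_mul_of_nonneg_left ht' hε.le)
  have := Convex.norm_image_sub_le_of_norm_hasDerivWithin_le (f := fun t =>
    y (s + t) - (y s + t • p s + (t ^ 2 / 2) • q)) hder hbound (convex_uIcc 0 h)
    left_mem_uIcc right_mem_uIcc
  simp only [add_zero, zero_smul, sub_zero, ne_eq, OfNat.ofNat_ne_zero, not_false_eq_true,
    zero_pow, zero_div, sub_self, Real.norm_eq_abs] at this
  calc ‖y (s + h) - (y s + h • p s + (h ^ 2 / 2) • q)‖ ≤ ε * |h| * |h| := this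
    _ = ε * h ^ 2 := by rw [mul_assoc, abs_mul_abs_self, ← pow_two]

variable {n : ℕ} {X : Type} [MetricSpace X] [ChartedSpace (V n) X]
  {G : OpenPartialHomeomorph X (V n) → V n → V n → V n → ℂ}

/-- real barrier: the distance to `q` along a metric geodesic is almost concave. -/
theorem barrier_real [IsManifold 𝓘(ℂ, V n) ω X] [ProperSpace X] (ctx : Ctx G)
    (hS : SecNonneg G) {c : ℝ → X} {ℓ s : ℝ} (hc : IsMGeod c ℓ) (hs : s ∈ Ioo 0 ℓ) {q : X}
    (hq : c s ≠ q) {ε : ℝ} (hε : 0 < ε) :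
    ∀ᶠ h in 𝓝[>] (0 : ℝ), dist (c (s + h)) q + dist (c (s - h)) q - 2 * dist (c s) q ≤
      (1 / dist (c s) q + ε) * h ^ 2 := by
  obtain ⟨σ, hσ, hσ0, hσq⟩ := exists_mgeod ctx (c s) q
  obtain ⟨L, hL⟩ : ∃ L, L = dist (c s) q := ⟨_, rfl⟩
  rw [← hL] at hσ hσq ⊢
  have hL0 : 0 < L := by rw [hL]; exact dist_pos.2 hq
  obtain ⟨e, he'⟩ : ∃ e, e = chartAt (V n) (c s) := ⟨_, rfl⟩
  have he : e ∈ atlas (V n) X := by rw [he']; exact chart_mem_atlas _ _
  have hce : c s ∈ e.source := by rw [he']; exact mem_chart_source _ _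
  have hsI : s ∈ Icc 0 ℓ := Ioo_subset_Icc_self hs
  -- an interval around s on which c stays in the chart
  have hev : ∀ᶠ t in 𝓝[Icc 0 ℓ] s, c t ∈ e.source :=
    (hc.continuousOn s hsI).eventually_mem (e.open_source.mem_nhds hce)
  rw [nhdsWithin_eq_nhds.2 (Icc_mem_nhds hs.1 hs.2)] at hev
  obtain ⟨r₁, hr₁, hr₁'⟩ := Metric.eventually_nhds_iff.1 hev
  obtain ⟨r, hr, hr1, hr2, hr3⟩ : ∃ r > 0, r < r₁ ∧ 0 ≤ s - r ∧ s + r ≤ ℓ := by
    refine ⟨min (r₁ / 2) (min s (ℓ - s)), ?_, ?_, ?_, ?_⟩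
    · have h1 : 0 < s := hs.1
      have h2 : 0 < ℓ - s := by linarith [hs.2]
      positivity
    · exact (min_le_left _ _).trans_lt (by linarith)
    · have h1 : min (r₁ / 2) (min s (ℓ - s)) ≤ s := (min_le_right _ _).trans (min_le_left _ _)
      linarith
    · have h1 : min (r₁ / 2) (min s (ℓ - s)) ≤ ℓ - s :=
        (min_le_right _ _).trans (min_le_right _ _)
      linarith
  have hmem : ∀ t ∈ Icc (s - r) (s + r), c t ∈ e.source := by
    intro t ht
    refine hr₁' ?_
    rw [Real.dist_eq, abs_lt]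
    constructor <;> linarith [ht.1, ht.2]
  obtain ⟨p, hgeo⟩ := mgeod_chart ctx hc hr2 (by linarith : s - r < s + r) hr3 he hmem
  have hsr : s ∈ Icc (s - r) (s + r) := ⟨by linarith, by linarith⟩
  have hyd : ∀ t ∈ Ioo (s - r) (s + r), HasDerivAt (fun t => e (c t)) (p t) t := fun t ht =>
    (hgeo.vel t (Ioo_subset_Icc_self ht)).hasDerivAt (Icc_mem_nhds ht.1 ht.2)
  have hpd : HasDerivAt p (-Gam G e (e (c s)) (p s) (p s)) s :=
    (hgeo.acc s hsr).hasDerivAt (Icc_mem_nhds (by linarith) (by linarith))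
  have hunit : (G e (e (σ 0)) (p s) (p s)).re = 1 := by
    rw [hσ0]
    exact hgeo.unit s hsr
  have hend := mn_end (g := fun ζ => c (s + ζ.re)) ctx dirs_A2 hL0 hσ
    (HQ_real (σ := σ) (vv := 1) ctx.herm ctx.kaehler hS hL0)
    (intervalIntegrable_const) he (by rw [hσ0]; exact hce) (v₀ := p s) (a₀ := 0) hunit
    (Or.inr rfl) ?_ ?_ hε
  · rw [hσq] at hend
    filter_upwards [hend] with ρ h1
    rw [mn_A2] at h1
    simp only [Complex.ofReal_re, Complex.neg_re, intervalIntegral.integral_zero, sub_zero] at h1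
    have h2 : s + -ρ = s - ρ := by ring
    rw [h2] at h1
    have h3 : ρ ^ 2 / 2 * (1 / L + ε) * 2 = (1 / L + ε) * ρ ^ 2 := by ring
    linarith
  · intro α _
    have h1 : Tendsto (fun ρ : ℝ => s + ((ρ : ℂ) * α).re) (𝓝[>] (0 : ℝ)) (𝓝 s) := by
      have := ((Complex.continuous_re.tendsto 0).comp (ray_tendsto α)).const_add s
      simpa using this
    exact h1.eventually hev
  · intro α hα ε' hε'
    have h1 : Tendsto (fun ρ : ℝ => ((ρ : ℂ) * α).re) (𝓝[>] (0 : ℝ)) (𝓝 0) := by
      have := (Complex.continuous_re.tendsto 0).comp (ray_tendsto α)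
      rw [Complex.zero_re] at this
      exact this
    filter_upwards [h1.eventually (taylor2_real hr hyd hpd hε'), self_mem_nhdsWithin] with ρ h2 hρ
    have hρ0 : 0 < ρ := hρ
    have hα' : (((ρ : ℂ) * α).re : ℂ) = (ρ : ℂ) * α := by
      have h3 : α = 1 ∨ α = -1 := by
        simpa [A2] using hα
      rcases h3 with rfl | rfl <;> simp
    obtain ⟨h, hh⟩ : ∃ h : ℝ, h = ((ρ : ℂ) * α).re := ⟨_, rfl⟩
    rw [← hh] at h2 hα'
    rw [← hα', hσ0]
    have h4 : jet G e (e (c s)) (p s) (h : ℂ) + (h : ℂ) ^ 2 • (0 : V n) =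
        e (c s) + h • p s + (h ^ 2 / 2) • (-Gam G e (e (c s)) (p s) (p s)) := by
      unfold jet
      rw [smul_zero, add_zero, ← Complex.coe_smul h, ← Complex.coe_smul (h ^ 2 / 2), smul_smul,
        smul_neg, ← neg_smul]
      congr 2
      push_cast
      ring
    have h5 : c (s + (h : ℂ).re) = c (s + h) := by rw [Complex.ofReal_re]
    simp only [h5]
    rw [h4]
    refine h2.trans (mul_le_mul_of_nonneg_left ?_ hε'.le)
    have h6 : |h| ≤ ρ := by
      rw [hh]
      refine (Complex.abs_re_le_norm _).trans ?_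
      rw [norm_mul, Complex.norm_real, Real.norm_of_nonneg hρ0.le]
      have := dirs_A2.le α hα
      nlinarith
    calc h ^ 2 = |h| ^ 2 := (sq_abs h).symm
      _ ≤ ρ ^ 2 := pow_le_pow_left₀ (abs_nonneg _) h6 2

end KI
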