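import Mathlib

/-! # Bbz: an ordering principle (Brezis, Browder) -/

set_option autoImplicit false

namespace KI

open Set Filter Topology

theorem brezis_browder {α : Type} (rel : α → α → Prop)
    (htrans : ∀ a b c, rel a b → rel b c → rel a c) (lam : α → ℝ) {L : ℝ}
    (hle : ∀ a, lam a ≤ L) (hmono : ∀ a b, rel a b → lam a ≤ lam b)
    (hseq : ∀ s : ℕ → α, (∀ j, rel (s j) (s (j + 1))) → ∃ b, ∀ j, rel (s j) b)
    (hrefl : ∀ a, rel a a)
    (himp : ∀ a, lam a < L → ∃ b, rel a b ∧ lam a < lam b) (a₀ : α) :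
    ∃ b, rel a₀ b ∧ lam b = L := by
  -- the supremum of `lam` over the successors
  set S : α → ℝ := fun a => sSup (lam '' {b | rel a b}) with hS
  have hbdd : ∀ a, BddAbove (lam '' {b | rel a b}) := fun a => ⟨L, by
    rintro _ ⟨b, _, rfl⟩
    exact hle b⟩
  have hSle : ∀ a b, rel a b → lam b ≤ S a := fun a b hab =>
    le_csSup (hbdd a) ⟨b, hab, rfl⟩
  have hstep : ∀ a, ∃ b, rel a b ∧ (lam a + S a) / 2 ≤ lam b := by
    intro a
    by_cases h : lam a < S a
    · have h1 : (lam a + S a) / 2 < S a := by linarith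
      obtain ⟨_, ⟨b, hb, rfl⟩, hb2⟩ := exists_lt_of_lt_csSup (s := lam '' {b | rel a b}) ⟨lam a, a, hrefl a, rfl⟩ h1
      exact ⟨b, hb, hb2.le⟩
    · exact ⟨a, hrefl a, by linarith [not_lt.mp h]⟩
  choose nx hnx1 hnx2 using hstep
  set s : ℕ → α := fun j => Nat.rec a₀ (fun _ a => nx a) j with hs
  have hs1 : ∀ j, s (j + 1) = nx (s j) := fun j => rfl
  have hrel : ∀ j, rel (s j) (s (j + 1)) := fun j => by rw [hs1]; exact hnx1 _
  obtain ⟨b, hb⟩ := hseq s hrel
  refine ⟨b, hb 0, ?_⟩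
  by_contra hne
  have hlt : lam b < L := lt_of_le_of_ne (hle b) hne
  obtain ⟨c, hc1, hc2⟩ := himp b hlt
  have hmonoS : Monotone fun j => lam (s j) := monotone_nat_of_le_succ fun j => hmono _ _ (hrel j)
  have hbd : BddAbove (range fun j => lam (s j)) := ⟨lam b, by
    rintro _ ⟨j, rfl⟩
    exact hmono _ _ (hb j)⟩
  have hlim := tendsto_atTop_ciSup hmonoS hbd
  set l := ⨆ j, lam (s j) with hl
  have hlb : l ≤ lam b := ciSup_le fun j => hmono _ _ (hb j)
  have h1 : ∀ j, (lam (s j) + lam c) / 2 ≤ lam (s (j + 1)) := by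
    intro j
    have h2 := hnx2 (s j)
    rw [← hs1] at h2
    have h3 := hSle (s j) c (htrans _ _ _ (hb j) hc1)
    linarith
  have h2 : (l + lam c) / 2 ≤ l :=
    le_of_tendsto_of_tendsto' ((hlim.add_const _).div_const _)
      (hlim.comp (tendsto_add_atTop_nat 1)) h1
  linarith

end KI
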