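import Pool.Agent.H49.KI.TopCH

/-! # Ini: small affine discs

PROOF. `e.target` is open and `e.symm` is continuous there: there is `s > 0` with `ball (e p) s ⊆ e.target`
and `dist p (e.symm y) ≤ r₀` for `y ∈ ball (e p) s`. `λ₁ = s / (2 (‖v‖ + 1))`. For `0 < lam ≤ λ₁`:
`f z = e.symm (e p + z • ((lam : ℂ) • v))`. `Hol`: continuity on the closed ball; for `z` in the interior and
`e'` in the atlas with `f z ∈ e'.source`: `e' (f w) = trans e e' (e p + w • (lam • v))`, differentiable at `z` by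
`trans_analyticAt he he'` at `x = f z` (`e (f z) = e p + z • …` by `e.right_inv`). `f 0 = e.symm (e p) = p`;
`e (f z) = e p + z • (lam • v)` near 0 (`e.right_inv`), so its derivative at 0 is `lam • v`. -/

set_option autoImplicit false

namespace KI

open Complex Metric Set Filter Topology Manifold ContDiff
open KB (V DR wirt levi rho Sesq lap lapC dz)

variable {n : ℕ} {X : Type} [MetricSpace X] [ChartedSpace (V n) X]

theorem init_disc [IsManifold 𝓘(ℂ, V n) ω X] {p : X} {e : OpenPartialHomeomorph X (V n)}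
    (he : e ∈ atlas (V n) X) (hp : p ∈ e.source) (v : V n) {r₀ : ℝ} (hr₀ : 0 < r₀) :
    ∃ lam₁ > 0, ∀ lam : ℝ, 0 < lam → lam ≤ lam₁ → ∃ f : ℂ → X,
      Hol n (closedBall (0 : ℂ) 1) f ∧ f 0 = p ∧
      deriv (fun z => e (f z)) 0 = (lam : ℂ) • v ∧
      ∀ z ∈ closedBall (0 : ℂ) 1, dist p (f z) ≤ r₀ := by
  have hpt : e p ∈ e.target := e.map_source hp
  have h1 : ∀ᶠ y in 𝓝 (e p), y ∈ e.target ∧ e.symm y ∈ ball p r₀ := by
    have h4 : ∀ᶠ y in 𝓝 (e p), y ∈ e.target := e.open_target.mem_nhds hpt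
    have h5 : ∀ᶠ y in 𝓝 (e p), e.symm y ∈ ball p r₀ := by
      have h6 := e.continuousAt_symm hpt
      apply h6
      rw [e.left_inv hp]
      exact ball_mem_nhds p hr₀
    exact h4.and h5
  obtain ⟨s, hs, h2⟩ := Metric.eventually_nhds_iff.1 h1
  refine ⟨s / (2 * (‖v‖ + 1)), by positivity, fun lam hlam hle => ?_⟩
  have hv : 0 < 2 * (‖v‖ + 1) := by positivity
  have h3 : ∀ z ∈ closedBall (0 : ℂ) 1, dist (e p + z • ((lam : ℂ) • v)) (e p) < s := by
    intro z hz
    rw [mem_closedBall_zero_iff] at hz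
    rw [dist_eq_norm, add_sub_cancel_left, norm_smul, norm_smul, Complex.norm_real,
      Real.norm_eq_abs, abs_of_pos hlam]
    rw [le_div_iff₀ hv] at hle
    have h4 : lam * ‖v‖ < s := by nlinarith [norm_nonneg v]
    have h5 : 0 ≤ lam * ‖v‖ := by positivity
    nlinarith [norm_nonneg z]
  refine ⟨fun z => e.symm (e p + z • ((lam : ℂ) • v)), ⟨?_, ?_⟩, ?_, ?_, ?_⟩
  · have h4 : Continuous fun z : ℂ => e p + z • ((lam : ℂ) • v) := by fun_prop
    exact e.continuousOn_symm.comp h4.continuousOn fun z hz => (h2 (h3 z hz)).1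
  · intro z hz e' he' hze'
    have hz' := interior_subset hz
    have ht : e p + z • ((lam : ℂ) • v) ∈ e.target := (h2 (h3 z hz')).1
    have h4 := (trans_analyticAt he he' (e.map_target ht) hze').differentiableAt
    rw [e.right_inv ht] at h4
    have h5 : DifferentiableAt ℂ (fun w : ℂ => e p + w • ((lam : ℂ) • v)) z := by fun_prop
    exact DifferentiableAt.comp (f := fun w : ℂ => e p + w • ((lam : ℂ) • v)) z h4 h5
  · simp [e.left_inv hp]
  · have h4 : (fun z : ℂ => e (e.symm (e p + z • ((lam : ℂ) • v)))) =ᶠ[𝓝 0]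
        fun z => e p + z • ((lam : ℂ) • v) := by
      filter_upwards [ball_mem_nhds (0 : ℂ) one_pos] with z hz
      exact e.right_inv (h2 (h3 z (ball_subset_closedBall hz))).1
    rw [h4.deriv_eq]
    have h5 : HasDerivAt (fun z : ℂ => e p + z • ((lam : ℂ) • v)) ((1 : ℂ) • ((lam : ℂ) • v)) 0 :=
      ((hasDerivAt_id (0 : ℂ)).smul_const _).const_add _
    rw [h5.deriv, one_smul]
  · intro z hz
    rw [dist_comm]
    exact (mem_ball.1 (h2 (h3 z hz)).2).le

end KI
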