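import Pool.Agent.H49.KI.TopCH

/-! # Lim: uniform limits of discs

PROOF. Continuity: `TendstoUniformlyOn.continuousOn`. Let `z₀` be in the open ball (the interior of the
closed ball), `e` in the atlas with `f z₀ ∈ e.source`. Choose `ρ > 0` with `closedBall z₀ ρ ⊆ ball 0 1` and
`f '' closedBall z₀ ρ ⊆ e.source`; `C = f '' closedBall z₀ ρ` is compact. There is `σ > 0` such that
`thickening σ C ⊆ e.source` (`IsCompact.exists_thickening_subset_open`), so for large `j` and
`z ∈ closedBall z₀ ρ`, `F j z ∈ e.source`. `e ∘ F j → e ∘ f` uniformly on `closedBall z₀ ρ`: `e` is continuous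
on the open set `e.source` containing the compact set `C`, so for `ε > 0` there is `σ' > 0` with
`dist (e x) (e c) < ε` for `c ∈ C`, `dist x c < σ'` (compactness). `e ∘ F j` is differentiable on
`ball z₀ ρ` for large `j` (`(hF j).diff`). `TendstoLocallyUniformlyOn.differentiableOn` and
`TendstoLocallyUniformlyOn.deriv` (Mathlib.Analysis.Complex.LocallyUniformLimit) give both claims
(the second one with `z₀ = 0`). -/

set_option autoImplicit false

namespace KI

open Complex Metric Set Filter Topology Manifold ContDiff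
open KB (V DR wirt levi rho Sesq lap lapC dz)

variable {n : ℕ} {X : Type} [MetricSpace X] [ChartedSpace (V n) X]

lemma Lim_loc {F : ℕ → ℂ → X} {f : ℂ → X}
    (hF : ∀ j, Hol n (closedBall (0 : ℂ) 1) (F j))
    (hu : TendstoUniformlyOn F f atTop (closedBall (0 : ℂ) 1))
    (hfc : ContinuousOn f (closedBall (0 : ℂ) 1)) {z₀ : ℂ} (hz : z₀ ∈ ball (0 : ℂ) 1)
    {e : OpenPartialHomeomorph X (V n)} (he : e ∈ atlas (V n) X) (hs : f z₀ ∈ e.source) :
    ∃ ρ > 0, TendstoLocallyUniformlyOn (fun j z => e (F j z)) (fun z => e (f z)) atTop (ball z₀ ρ) ∧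
      ∀ᶠ j in atTop, DifferentiableOn ℂ (fun z => e (F j z)) (ball z₀ ρ) := by
  obtain ⟨σ, hσ, hσs⟩ := Metric.isOpen_iff.mp e.open_source (f z₀) hs
  have hfat : ∀ z ∈ ball (0 : ℂ) 1, ContinuousAt f z := fun z hz' =>
    hfc.continuousAt (Filter.mem_of_superset (isOpen_ball.mem_nhds hz') ball_subset_closedBall)
  obtain ⟨ρ₁, hρ₁, h1⟩ := Metric.continuousAt_iff.mp (hfat z₀ hz) (σ / 2) (by positivity)
  obtain ⟨ρ₂, hρ₂, h2⟩ := Metric.isOpen_iff.mp isOpen_ball z₀ hz
  have hb : ∀ z ∈ ball z₀ (min ρ₁ ρ₂), z ∈ ball (0 : ℂ) 1 ∧ dist (f z) (f z₀) < σ / 2 := by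
    intro z hz'
    have h3 : dist z z₀ < min ρ₁ ρ₂ := hz'
    exact ⟨h2 (lt_of_lt_of_le h3 (min_le_right _ _)), h1 (lt_of_lt_of_le h3 (min_le_left _ _))⟩
  have hu' := Metric.tendstoUniformlyOn_iff.mp hu
  refine ⟨min ρ₁ ρ₂, lt_min hρ₁ hρ₂, ?_, ?_⟩
  · rw [Metric.tendstoLocallyUniformlyOn_iff]
    intro ε hε z hz'
    obtain ⟨hz1, hz2⟩ := hb z hz'
    have hzs : f z ∈ e.source := hσs (lt_trans hz2 (by linarith))
    have hce : ContinuousAt e (f z) := e.continuousAt hzs
    obtain ⟨τ, hτ, h4⟩ := Metric.continuousAt_iff.mp hce (ε / 2) (by positivity)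
    obtain ⟨r, hr, h5⟩ := Metric.continuousAt_iff.mp (hfat z hz1) (τ / 2) (by positivity)
    refine ⟨ball z r ∩ ball z₀ (min ρ₁ ρ₂), inter_mem (mem_nhdsWithin_of_mem_nhds (ball_mem_nhds z hr))
      self_mem_nhdsWithin, ?_⟩
    filter_upwards [hu' (τ / 2) (by positivity)] with j hj w hw
    have h6 : dist (f w) (f z) < τ / 2 := h5 hw.1
    have h7 : dist (f w) (F j w) < τ / 2 := hj w (ball_subset_closedBall (hb w hw.2).1)
    have h8 : dist (F j w) (f z) < τ := by
      calc dist (F j w) (f z) ≤ dist (F j w) (f w) + dist (f w) (f z) := dist_triangle _ _ _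
        _ < τ / 2 + τ / 2 := by
          rw [dist_comm (F j w) (f w)]
          exact add_lt_add h7 h6
        _ = τ := by ring
    have h9 := h4 h8
    have h10 := h4 (lt_trans h6 (by linarith : τ / 2 < τ))
    calc dist (e (f w)) (e (F j w)) ≤ dist (e (f w)) (e (f z)) + dist (e (f z)) (e (F j w)) :=
          dist_triangle _ _ _
      _ < ε / 2 + ε / 2 := by
          rw [dist_comm (e (f z)) (e (F j w))]
          exact add_lt_add h10 h9
      _ = ε := by ring
  · filter_upwards [hu' (σ / 2) (by positivity)] with j hj z hz'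
    obtain ⟨hz1, hz2⟩ := hb z hz'
    have h3 : dist (f z) (F j z) < σ / 2 := hj z (ball_subset_closedBall hz1)
    have h4 : dist (F j z) (f z₀) < σ := by
      calc dist (F j z) (f z₀) ≤ dist (F j z) (f z) + dist (f z) (f z₀) := dist_triangle _ _ _
        _ < σ / 2 + σ / 2 := by
          rw [dist_comm (F j z) (f z)]
          exact add_lt_add h3 hz2
        _ = σ := by ring
    have h5 : z ∈ interior (closedBall (0 : ℂ) 1) := ball_subset_interior_closedBall hz1
    exact ((hF j).diff z h5 e he (hσs h4)).differentiableWithinAt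

theorem hol_limit {F : ℕ → ℂ → X} {f : ℂ → X}
    (hF : ∀ j, Hol n (closedBall (0 : ℂ) 1) (F j))
    (hu : TendstoUniformlyOn F f atTop (closedBall (0 : ℂ) 1)) :
    Hol n (closedBall (0 : ℂ) 1) f ∧ ∀ e ∈ atlas (V n) X, f 0 ∈ e.source →
      Tendsto (fun j => deriv (fun z => e (F j z)) 0) atTop
        (𝓝 (deriv (fun z => e (f z)) 0)) := by
  have hfc : ContinuousOn f (closedBall (0 : ℂ) 1) :=
    hu.continuousOn (Filter.Eventually.frequently (Filter.Eventually.of_forall fun j => (hF j).cont))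
  have hint : interior (closedBall (0 : ℂ) 1) = ball (0 : ℂ) 1 := interior_closedBall (0 : ℂ) one_ne_zero
  refine ⟨⟨hfc, ?_⟩, ?_⟩
  · intro z hz e he hs
    rw [hint] at hz
    obtain ⟨ρ, hρ, h1, h2⟩ := Lim_loc hF hu hfc hz he hs
    exact (h1.differentiableOn h2 isOpen_ball).differentiableAt (ball_mem_nhds z hρ)
  · intro e he hs
    obtain ⟨ρ, hρ, h1, h2⟩ := Lim_loc hF hu hfc (mem_ball_self one_pos) he hs
    exact (h1.deriv h2 isOpen_ball).tendsto_at (mem_ball_self hρ)

end KI
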