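import Pool.Agent.H50.KI.Mov
import Pool.Agent.H50.KI.Lim
import Pool.Agent.H50.KI.Ini
import Pool.Agent.H50.KI.Bbz

/-! # Big: the ordering argument

State: pairs `(f, l)`: `f` a disc through `p` with derivative `l v`, `l₀ ≤ l ≤ lam`, the disc is in
`closedBall p R₁` and its boundary is within `r₀ + a (l - l₀)` of `p`, where `a = |v| + ε₀` and
`r₀ + a lam ≤ R`. Relation: `(f, l) ≤ (h, l')` iff `l ≤ l'`, `dist (f z) (h z) ≤ a (l' - l)` on the circle and
`≤ C'' (l' - l)` on the closed disc. -/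

set_option autoImplicit false

namespace KI

open Complex Metric Set Filter Topology Manifold ContDiff
open KB (V DR wirt levi rho Sesq lap lapC dz)

variable {n : ℕ} {X : Type} [MetricSpace X] [ChartedSpace (V n) X]
  {G : OpenPartialHomeomorph X (V n) → V n → V n → V n → ℂ}

/-- a sequence of maps which is uniformly Cauchy with rates converges uniformly -/
theorem unif_lim [CompleteSpace X] {S : Set ℂ} {F : ℕ → ℂ → X} {l : ℕ → ℝ} {L C : ℝ}
    (hC : 0 ≤ C) (hl : Tendsto l atTop (𝓝 L)) (hlL : ∀ j, l j ≤ L)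
    (hF : ∀ j k, j ≤ k → ∀ z ∈ S, dist (F j z) (F k z) ≤ C * (l k - l j)) :
    ∃ f : ℂ → X, (∀ z ∈ S, Tendsto (fun j => F j z) atTop (𝓝 (f z))) ∧
      (∀ j, ∀ z ∈ S, dist (F j z) (f z) ≤ C * (L - l j)) ∧
      TendstoUniformlyOn F f atTop S := by
  have hcau : ∀ z ∈ S, CauchySeq fun j => F j z := by
    intro z hz
    refine cauchySeq_of_le_tendsto_0 (fun j => C * (L - l j) + C * (L - l j)) ?_ ?_
    · intro i k j hi hk
      have h1 := hF j i hi z hz
      have h2 := hF j k hk z hz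
      have h3 := dist_triangle_left (F i z) (F k z) (F j z)
      have h4 : C * (l i - l j) ≤ C * (L - l j) :=
        mul_le_mul_of_nonneg_left (by linarith [hlL i]) hC
      have h5 : C * (l k - l j) ≤ C * (L - l j) :=
        mul_le_mul_of_nonneg_left (by linarith [hlL k]) hC
      linarith
    · have h1 : Tendsto (fun j => C * (L - l j) + C * (L - l j)) atTop
          (𝓝 (C * (L - L) + C * (L - L))) :=
        ((hl.const_sub L).const_mul C).add ((hl.const_sub L).const_mul C)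
      simpa using h1
  have hex : ∀ z : ℂ, ∃ x : X, z ∈ S → Tendsto (fun j => F j z) atTop (𝓝 x) := by
    intro z
    by_cases hz : z ∈ S
    · obtain ⟨x, hx⟩ := cauchySeq_tendsto_of_complete (hcau z hz)
      exact ⟨x, fun _ => hx⟩
    · exact ⟨F 0 z, fun h => absurd h hz⟩
  choose f hf using hex
  have hd : ∀ j, ∀ z ∈ S, dist (F j z) (f z) ≤ C * (L - l j) := by
    intro j z hz
    have h1 : Tendsto (fun k => dist (F j z) (F k z)) atTop (𝓝 (dist (F j z) (f z))) :=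
      tendsto_const_nhds.dist (hf z hz)
    have h2 : Tendsto (fun k => C * (l k - l j)) atTop (𝓝 (C * (L - l j))) :=
      (hl.sub_const _).const_mul C
    exact le_of_tendsto_of_tendsto h1 h2 (by
      filter_upwards [eventually_ge_atTop j] with k hk
      exact hF j k hk z hz)
  refine ⟨f, hf, hd, ?_⟩
  rw [Metric.tendstoUniformlyOn_iff]
  intro ε hε
  have h1 : Tendsto (fun j => C * (L - l j)) atTop (𝓝 (C * (L - L))) :=
    (hl.const_sub L).const_mul C
  rw [sub_self, mul_zero] at h1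
  filter_upwards [h1.eventually_lt_const hε] with j hj z hz
  rw [dist_comm]
  exact (hd j z hz).trans_lt hj

/-- Ordering argument: if trapping holds, every multiple of `v` is the derivative of a disc.
`htrap`: a disc whose boundary is in `closedBall p R` and which lies in `closedBall p (R₁ + 1)` lies in
`closedBall p R₁`. -/
theorem big_disc [IsManifold 𝓘(ℂ, V n) ω X] [ProperSpace X] (ctx : Ctx G) (hS : SecNonneg G)
    {p : X} {e : OpenPartialHomeomorph X (V n)} (he : e ∈ atlas (V n) X) (hp : p ∈ e.source)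
    {v : V n} {lam R R₁ : ℝ} (hlam : 0 < lam)
    (hR : lam * Real.sqrt (G e (e p) v v).re < R) (hR₁ : R ≤ R₁)
    (htrap : ∀ f : ℂ → X, Hol n (closedBall (0 : ℂ) 1) f →
      (∀ z ∈ sphere (0 : ℂ) 1, dist p (f z) ≤ R) →
      (∀ z ∈ closedBall (0 : ℂ) 1, dist p (f z) ≤ R₁ + 1) →
      ∀ z ∈ closedBall (0 : ℂ) 1, dist p (f z) ≤ R₁)
    {ψ : X → ℝ} {k : ℝ} (hk : 0 < k) (hψc : Continuous ψ)
    (hψ : StrictPSH G ψ (closedBall p (R₁ + 1)) k) :
    ∃ f : ℂ → X, Hol n (closedBall (0 : ℂ) 1) f ∧ f 0 = p ∧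
      deriv (fun z => e (f z)) 0 = (lam : ℂ) • v := by
  have h00 : (0 : ℂ) ∈ closedBall (0 : ℂ) 1 := mem_closedBall_self zero_le_one
  have h0b : (0 : ℂ) ∈ ball (0 : ℂ) 1 := mem_ball_self zero_lt_one
  have hyt : e p ∈ e.target := e.map_source hp
  obtain ⟨C', hC'0, hmove⟩ := move ctx hS (isCompact_closedBall p (R₁ + 1)) hk hψc hψ
  -- constants
  obtain ⟨q, hq⟩ : ∃ q, q = Real.sqrt (G e (e p) v v).re := ⟨_, rfl⟩
  have hq0 : 0 ≤ q := by rw [hq]; exact Real.sqrt_nonneg _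
  rw [← hq] at hR
  obtain ⟨ε₀, hε₀, hε₀R⟩ : ∃ ε₀ > 0, lam * (q + ε₀) < R := by
    refine ⟨(R - lam * q) / (2 * lam), div_pos (by linarith) (by positivity), ?_⟩
    have : lam * (q + (R - lam * q) / (2 * lam)) = (R + lam * q) / 2 := by
      field_simp
      ring
    rw [this]
    linarith
  set r₀ : ℝ := R - lam * (q + ε₀) with hr₀
  have hr₀0 : 0 < r₀ := by rw [hr₀]; linarith
  have hr₀R : r₀ ≤ R := by
    rw [hr₀]
    have : 0 ≤ lam * (q + ε₀) := by positivity
    linarith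
  obtain ⟨lam₁, hlam₁, hini⟩ := init_disc he hp v hr₀0
  set l₀ : ℝ := min lam₁ lam with hl₀
  have hl₀0 : 0 < l₀ := lt_min hlam₁ hlam
  have hl₀1 : l₀ ≤ lam := min_le_right _ _
  obtain ⟨f₀, hf₀, hf₀p, hf₀d, hf₀r⟩ := hini l₀ hl₀0 (min_le_left _ _)
  set C'' : ℝ := C' * (q + ε₀) with hC''
  have hC''0 : 0 < C'' := by positivity
  -- the speed of a disc at 0
  have hspeed : ∀ (f : ℂ → X) (l : ℝ), Hol n (closedBall (0 : ℂ) 1) f → f 0 = p →
      deriv (fun z => e (f z)) 0 = (l : ℂ) • v → 0 ≤ l → Real.sqrt (vsq G f 0) = l * q := by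
    intro f l hf hfp hfd hl
    have hfe : f 0 ∈ e.source := by rw [hfp]; exact hp
    rw [vsq_chart ctx.herm (hf.continuousAt h0b)
      (fun e' he' hfe' => hf.diff' h0b he' hfe') he hfe, hfd, hfp,
      (G_sesq ctx.herm he hyt).smul_diag, Complex.norm_real, Real.norm_of_nonneg hl,
      Real.sqrt_mul (by positivity), Real.sqrt_sq hl, hq]
  -- the set of states
  let St : Type := {s : (ℂ → X) × ℝ // Hol n (closedBall (0 : ℂ) 1) s.1 ∧ s.1 0 = p ∧
    deriv (fun z => e (s.1 z)) 0 = (s.2 : ℂ) • v ∧ l₀ ≤ s.2 ∧ s.2 ≤ lam ∧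
    (∀ z ∈ closedBall (0 : ℂ) 1, dist p (s.1 z) ≤ R₁) ∧
    ∀ z ∈ sphere (0 : ℂ) 1, dist p (s.1 z) ≤ r₀ + (q + ε₀) * (s.2 - l₀)}
  let rel : St → St → Prop := fun s t => s.1.2 ≤ t.1.2 ∧
    (∀ z ∈ sphere (0 : ℂ) 1, dist (s.1.1 z) (t.1.1 z) ≤ (q + ε₀) * (t.1.2 - s.1.2)) ∧
    ∀ z ∈ closedBall (0 : ℂ) 1, dist (s.1.1 z) (t.1.1 z) ≤ C'' * (t.1.2 - s.1.2)
  have hrefl : ∀ s, rel s s := by
    intro s
    refine ⟨le_refl _, fun z _ => ?_, fun z _ => ?_⟩ <;> simp
  have htrans : ∀ s t u, rel s t → rel t u → rel s u := by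
    intro s t u h1 h2
    refine ⟨h1.1.trans h2.1, fun z hz => ?_, fun z hz => ?_⟩
    · have h3 := h1.2.1 z hz
      have h4 := h2.2.1 z hz
      have h5 := dist_triangle (s.1.1 z) (t.1.1 z) (u.1.1 z)
      linarith
    · have h3 := h1.2.2 z hz
      have h4 := h2.2.2 z hz
      have h5 := dist_triangle (s.1.1 z) (t.1.1 z) (u.1.1 z)
      linarith
  have hseq : ∀ s : ℕ → St, (∀ j, rel (s j) (s (j + 1))) → ∃ b, ∀ j, rel (s j) b := by
    intro s hs
    have hrel : ∀ j k, j ≤ k → rel (s j) (s k) := by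
      intro j k hjk
      induction k, hjk using Nat.le_induction with
      | base => exact hrefl _
      | succ k _ ih => exact htrans _ _ _ ih (hs k)
    have hmono : Monotone fun j => (s j).1.2 := fun j k hjk => (hrel j k hjk).1
    have hbd : BddAbove (range fun j => (s j).1.2) := ⟨lam, by
      rintro _ ⟨j, rfl⟩
      exact (s j).2.2.2.2.2.1⟩
    obtain ⟨l, hl⟩ : ∃ l, Tendsto (fun j => (s j).1.2) atTop (𝓝 l) :=
      ⟨_, tendsto_atTop_ciSup hmono hbd⟩
    have hlj : ∀ j, (s j).1.2 ≤ l := fun j => hmono.ge_of_tendsto hl j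
    obtain ⟨f, hf1, hf2, hf3⟩ := unif_lim (F := fun j => (s j).1.1) hC''0.le hl hlj
      (fun j k hjk z hz => (hrel j k hjk).2.2 z hz)
    obtain ⟨hfh, hfd⟩ := hol_limit (fun j => (s j).2.1) hf3
    have hf0 : f 0 = p := by
      refine tendsto_nhds_unique (hf1 0 h00) ?_
      have : (fun j => (s j).1.1 0) = fun _ => p := funext fun j => (s j).2.2.1
      rw [this]
      exact tendsto_const_nhds
    have hfder : deriv (fun z => e (f z)) 0 = (l : ℂ) • v := by
      have h1 := hfd e he (by rw [hf0]; exact hp)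
      refine tendsto_nhds_unique h1 ?_
      have h2 : (fun j => deriv (fun z => e ((s j).1.1 z)) 0) = fun j => (((s j).1.2 : ℝ) : ℂ) • v :=
        funext fun j => (s j).2.2.2.1
      rw [h2]
      exact ((Complex.continuous_ofReal.tendsto l).comp hl).smul_const v
    have hdp : ∀ z ∈ closedBall (0 : ℂ) 1,
        Tendsto (fun j => dist p ((s j).1.1 z)) atTop (𝓝 (dist p (f z))) := fun z hz =>
      tendsto_const_nhds.dist (hf1 z hz)
    refine ⟨⟨(f, l), hfh, hf0, hfder, ?_, ?_, ?_, ?_⟩, ?_⟩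
    · exact (s 0).2.2.2.2.1.trans (hlj 0)
    · exact le_of_tendsto' hl fun j => (s j).2.2.2.2.2.1
    · intro z hz
      exact le_of_tendsto' (hdp z hz) fun j => (s j).2.2.2.2.2.2.1 z hz
    · intro z hz
      refine le_of_tendsto_of_tendsto' (hdp z (sphere_subset_closedBall hz))
        (((hl.sub_const l₀).const_mul (q + ε₀)).const_add r₀)
        fun j => (s j).2.2.2.2.2.2.2 z hz
    · intro j
      refine ⟨hlj j, fun z hz => ?_, fun z hz => hf2 j z hz⟩
      refine le_of_tendsto_of_tendsto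
        (tendsto_const_nhds.dist (hf1 z (sphere_subset_closedBall hz)))
        ((hl.sub_const _).const_mul (q + ε₀)) ?_
      filter_upwards [eventually_ge_atTop j] with k hk
      exact (hrel j k hk).2.1 z hz
  -- improvement
  have himp : ∀ s : St, s.1.2 < lam → ∃ t, rel s t ∧ s.1.2 < t.1.2 := by
    rintro ⟨⟨f, l⟩, hf, hfp, hfd, hl0, hl1, hfR, hfc⟩ hlt
    simp only at hf hfp hfd hl0 hl1 hfR hfc hlt
    have hlpos : 0 < l := hl₀0.trans_le hl0
    have hfe : f 0 ∈ e.source := by rw [hfp]; exact hp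
    have hsp := hspeed f l hf hfp hfd hlpos.le
    have hfK : ∀ z ∈ closedBall (0 : ℂ) 1, f z ∈ closedBall p (R₁ + 1) := by
      intro z hz
      rw [mem_closedBall, dist_comm]
      linarith [hfR z hz]
    have hmv := hmove f hf hfK e he hfe (ε₀ * l) (by positivity)
    rw [hsp] at hmv
    -- δ small
    have hs1 : ∀ᶠ δ : ℝ in 𝓝[>] (0 : ℝ), (1 + δ) * l < lam := by
      have h1 : Tendsto (fun δ : ℝ => (1 + δ) * l) (𝓝[>] 0) (𝓝 ((1 + 0) * l)) :=
        Tendsto.mono_left (Continuous.tendsto (by fun_prop) 0) nhdsWithin_le_nhds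
      rw [add_zero, one_mul] at h1
      exact h1.eventually_lt_const hlt
    have hs2 : ∀ᶠ δ : ℝ in 𝓝[>] (0 : ℝ), δ * (C'' * l) < 1 := by
      have h1 : Tendsto (fun δ : ℝ => δ * (C'' * l)) (𝓝[>] 0) (𝓝 (0 * (C'' * l))) :=
        Tendsto.mono_left (Continuous.tendsto (by fun_prop) 0) nhdsWithin_le_nhds
      rw [zero_mul] at h1
      exact h1.eventually_lt_const one_pos
    obtain ⟨δ, ⟨⟨⟨f', hf'1, hf'2, hf'3, hf'4, hf'5⟩, hδ1⟩, hδ2⟩, hδ3⟩ :=
      (((hmv.and hs1).and hs2).and self_mem_nhdsWithin).exists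
    have hδ0 : 0 < δ := hδ3
    -- estimates
    have hcirc : ∀ z ∈ sphere (0 : ℂ) 1, dist (f z) (f' z) ≤ (q + ε₀) * ((1 + δ) * l - l) := by
      intro z hz
      rw [dist_comm]
      refine (hf'4 z hz).trans (le_of_eq ?_)
      ring
    have hdisc : ∀ z ∈ closedBall (0 : ℂ) 1, dist (f z) (f' z) ≤ C'' * ((1 + δ) * l - l) := by
      intro z hz
      rw [dist_comm]
      refine (hf'5 z hz).trans (le_of_eq ?_)
      rw [hC'']
      ring
    have hf'c : ∀ z ∈ sphere (0 : ℂ) 1,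
        dist p (f' z) ≤ r₀ + (q + ε₀) * ((1 + δ) * l - l₀) := by
      intro z hz
      have h1 := hfc z hz
      have h2 := hcirc z hz
      have h3 := dist_triangle p (f z) (f' z)
      linarith
    have hf'R : ∀ z ∈ sphere (0 : ℂ) 1, dist p (f' z) ≤ R := by
      intro z hz
      refine (hf'c z hz).trans ?_
      have h1 : (q + ε₀) * ((1 + δ) * l - l₀) ≤ (q + ε₀) * lam :=
        mul_le_mul_of_nonneg_left (by linarith) (by positivity)
      rw [hr₀]
      linarith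
    have hf'B : ∀ z ∈ closedBall (0 : ℂ) 1, dist p (f' z) ≤ R₁ + 1 := by
      intro z hz
      have h1 := hfR z hz
      have h2 := hdisc z hz
      have h3 := dist_triangle p (f z) (f' z)
      have h4 : C'' * ((1 + δ) * l - l) = δ * (C'' * l) := by ring
      linarith
    have hf'T := htrap f' hf'1 hf'R hf'B
    refine ⟨⟨(f', (1 + δ) * l), hf'1, hf'2.trans hfp, ?_, ?_, hδ1.le, hf'T, hf'c⟩,
      ⟨?_, hcirc, hdisc⟩, ?_⟩
    · show deriv (fun z => e (f' z)) 0 = (((1 + δ) * l : ℝ) : ℂ) • v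
      rw [hf'3, hfd, smul_smul, ← Complex.ofReal_mul]
    · show l₀ ≤ (1 + δ) * l
      nlinarith
    · show l ≤ (1 + δ) * l
      nlinarith
    · show l < (1 + δ) * l
      nlinarith
  -- initial state
  have hinit : Hol n (closedBall (0 : ℂ) 1) f₀ ∧ f₀ 0 = p ∧
      deriv (fun z => e (f₀ z)) 0 = (l₀ : ℂ) • v ∧ l₀ ≤ l₀ ∧ l₀ ≤ lam ∧
      (∀ z ∈ closedBall (0 : ℂ) 1, dist p (f₀ z) ≤ R₁) ∧
      ∀ z ∈ sphere (0 : ℂ) 1, dist p (f₀ z) ≤ r₀ + (q + ε₀) * (l₀ - l₀) := by
    refine ⟨hf₀, hf₀p, hf₀d, le_refl _, hl₀1, fun z hz => ?_, fun z hz => ?_⟩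
    · exact (hf₀r z hz).trans (hr₀R.trans hR₁)
    · rw [sub_self, mul_zero, add_zero]
      exact hf₀r z (sphere_subset_closedBall hz)
  obtain ⟨b, -, hb⟩ := brezis_browder rel htrans (fun s => s.1.2) (L := lam)
    (fun s => s.2.2.2.2.2.1) (fun s t h => h.1) hseq hrefl himp ⟨(f₀, l₀), hinit⟩
  have hb' : b.1.2 = lam := hb
  refine ⟨b.1.1, b.2.1, b.2.2.1, ?_⟩
  rw [b.2.2.2.1, hb']

end KI
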