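import Pool.Agent.H50.KI.Eca
import Pool.Agent.H50.KI.Chg

/-! # Ecd: the bisectional curvature is invariant under changes of charts

PROOF. `ψ = trans e e'`, `y z = e x + z • a`, `S z = b - z • Gam G e (e x) a b`; `y₂ z = ψ (y z)`,
`S₂ z = fderiv ℂ ψ (y z) (S z)` (analytic at 0: `trans_analyticAt`). For `z` near 0,
`G e (y z) (S z) (S z) = G e' (y₂ z) (S₂ z) (S₂ z)` (`G_trans` at `e.symm (y z)`), so the two Laplacians of the
real parts at 0 agree (`KB.lap_congr`, Pool/Agent/H49/KB/SB1.lean). `lf_lap` in the chart `e`: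
`deriv S 0 + Γ(a, b) = 0`, so it is `-4 bkN G e (e x) a b`. `lf_lap` in `e'`: `deriv y₂ 0 = Dψ a`, `S₂ 0 = Dψ b`,
`deriv S₂ 0 = D(Dψ(·) b) a - Dψ Γ(a,b)` (product rule for `z ↦ fderiv ℂ ψ (y z) (S z)`:
`fderiv ℂ ψ (y z) b - z • fderiv ℂ ψ (y z) Γ`), so `deriv S₂ 0 + Γ'(Dψ a, Dψ b) = 0` by `Gam_trans`, and the Laplacian
is `-4 bkN G e' (e' x) (Dψ a) (Dψ b)`. -/

set_option autoImplicit false

namespace KI

open Complex Metric Set Filter Topology Manifold ContDiff
open KB (V DR wirt levi rho Sesq lap lapC dz)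

variable {n : ℕ} {X : Type} [MetricSpace X] [ChartedSpace (V n) X]
  {G : OpenPartialHomeomorph X (V n) → V n → V n → V n → ℂ}

/-- the bisectional curvature is invariant under changes of charts -/
theorem bkN_trans [IsManifold 𝓘(ℂ, V n) ω X] (hG : IsHermMetric G) (hK : Kaehler G)
    {e e' : OpenPartialHomeomorph X (V n)} (he : e ∈ atlas (V n) X) (he' : e' ∈ atlas (V n) X)
    {x : X} (hx : x ∈ e.source) (hx' : x ∈ e'.source) (a b : V n) :
    bkN G e' (e' x) (fderiv ℂ (trans e e') (e x) a) (fderiv ℂ (trans e e') (e x) b) =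
      bkN G e (e x) a b := by
  have hy : e x ∈ e.target := e.map_source hx
  have hy' : e' x ∈ e'.target := e'.map_source hx'
  set ψ : V n → V n := trans e e' with hψ
  have hψx : ψ (e x) = e' x := by
    rw [hψ]
    unfold trans
    rw [e.left_inv hx]
  have han : AnalyticAt ℂ ψ (e x) := trans_analyticAt he he' hx hx'
  set Γ : V n := Gam G e (e x) a b with hΓ
  set y : ℂ → V n := fun z => e x + z • a with hyd
  set S : ℂ → V n := fun z => b - z • Γ with hSd
  have y0 : y 0 = e x := by simp [hyd]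
  have S0 : S 0 = b := by simp [hSd]
  have hya : AnalyticAt ℂ y 0 := by
    rw [hyd]
    exact analyticAt_const.add (analyticAt_id.smul analyticAt_const)
  have hSa : AnalyticAt ℂ S 0 := by
    rw [hSd]
    exact analyticAt_const.sub (analyticAt_id.smul analyticAt_const)
  have hyD : HasDerivAt y a 0 := by
    have := ((hasDerivAt_id (0 : ℂ)).smul_const a).const_add (e x)
    simpa [hyd] using this
  have hSD : HasDerivAt S (-Γ) 0 := by
    have := ((hasDerivAt_id (0 : ℂ)).smul_const Γ).const_sub b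
    simpa [hSd] using this
  -- chart `e`
  have hz0 : ∀ {ee : OpenPartialHomeomorph X (V n)} {yy : V n}, ee ∈ atlas (V n) X →
      yy ∈ ee.target → G ee yy 0 0 = 0 := by
    intro ee yy hee hyy
    have := hG.smul ee hee yy hyy 0 0 0
    rwa [zero_smul, zero_mul] at this
  have hL1 : lap (fun w => (G e (y w) (S w) (S w)).re) 0 = 4 * -bkN G e (e x) a b := by
    have h := lf_lap hG hK he hya hSa (by rw [y0]; exact hy)
    rw [hyD.deriv, hSD.deriv, y0, S0] at h
    rw [h, ← hΓ, neg_add_cancel, hz0 he hy]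
    simp
  -- chart `e'`
  have hDa : AnalyticAt ℂ (fderiv ℂ ψ) (e x) := han.fderiv
  have hyt : Tendsto y (𝓝 0) (𝓝 (e x)) := by
    have := hya.continuousAt.tendsto
    rwa [y0] at this
  have hy2a : AnalyticAt ℂ (fun z => ψ (y z)) 0 := by
    have : AnalyticAt ℂ ψ (y 0) := by rw [y0]; exact han
    exact this.comp hya
  have hDya : AnalyticAt ℂ (fun z => fderiv ℂ ψ (y z)) 0 := by
    have : AnalyticAt ℂ (fderiv ℂ ψ) (y 0) := by rw [y0]; exact hDa
    exact this.comp hya
  have hS2a : AnalyticAt ℂ (fun z => fderiv ℂ ψ (y z) (S z)) 0 := by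
    have h1 := (ContinuousLinearMap.id ℂ (V n →L[ℂ] V n)).analyticAt_bilinear
      (fderiv ℂ ψ (y 0), S 0)
    exact h1.comp₂ (f := fun z => fderiv ℂ ψ (y z)) (g := S) hDya hSa
  have hy2D : HasDerivAt (fun z => ψ (y z)) (fderiv ℂ ψ (e x) a) 0 := by
    have h1 : HasFDerivAt ψ (fderiv ℂ ψ (e x)) (y 0) := by
      rw [y0]
      exact han.differentiableAt.hasFDerivAt
    exact h1.comp_hasDerivAt 0 hyD
  have hg : ∀ w : V n, HasDerivAt (fun z => fderiv ℂ ψ (y z) w)
      (fderiv ℂ (fun z => fderiv ℂ ψ z w) (e x) a) 0 := by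
    intro w
    have h1 : DifferentiableAt ℂ (fun z => fderiv ℂ ψ z w) (e x) :=
      hDa.differentiableAt.clm_apply (differentiableAt_const w)
    have h2 : HasFDerivAt (fun z => fderiv ℂ ψ z w)
        (fderiv ℂ (fun z => fderiv ℂ ψ z w) (e x)) (y 0) := by
      rw [y0]
      exact h1.hasFDerivAt
    exact h2.comp_hasDerivAt 0 hyD
  have hS2D : HasDerivAt (fun z => fderiv ℂ ψ (y z) (S z))
      (fderiv ℂ (fun z => fderiv ℂ ψ z b) (e x) a - fderiv ℂ ψ (e x) Γ) 0 := by
    have h1 := (hg b).sub ((hasDerivAt_id (0 : ℂ)).smul (hg Γ))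
    have h2 : (fun z => fderiv ℂ ψ (y z) (S z)) =
        (fun z => fderiv ℂ ψ (y z) b) - (fun z => id z • fderiv ℂ ψ (y z) Γ) := by
      funext z
      show fderiv ℂ ψ (y z) (b - z • Γ) = fderiv ℂ ψ (y z) b - z • fderiv ℂ ψ (y z) Γ
      rw [map_sub, map_smul]
    rw [h2]
    convert! h1 using 1
    simp [y0]
  have hL2 : lap (fun w => (G e' (ψ (y w)) (fderiv ℂ ψ (y w) (S w))
      (fderiv ℂ ψ (y w) (S w))).re) 0 =
      4 * -bkN G e' (e' x) (fderiv ℂ ψ (e x) a) (fderiv ℂ ψ (e x) b) := by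
    have h := lf_lap hG hK he' hy2a hS2a (by simp only [y0, hψx]; exact hy')
    rw [hy2D.deriv, hS2D.deriv] at h
    simp only [y0, S0, hψx] at h
    have hT := Gam_trans hG he he' hx hx' a b
    rw [← hψ, ← hΓ] at hT
    rw [h, hT, show fderiv ℂ (fun z => fderiv ℂ ψ z b) (e x) a - fderiv ℂ ψ (e x) Γ +
      (fderiv ℂ ψ (e x) Γ - fderiv ℂ (fun z => fderiv ℂ ψ z b) (e x) a) = 0 by abel, hz0 he' hy']
    simp
  have hL3 : lap (fun w => (G e (y w) (S w) (S w)).re) 0 =
      lap (fun w => (G e' (ψ (y w)) (fderiv ℂ ψ (y w) (S w)) (fderiv ℂ ψ (y w) (S w))).re) 0 := by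
    apply KB.lap_congr
    have h1 : ∀ᶠ z in 𝓝 (0 : ℂ), y z ∈ e.target := hyt.eventually (e.open_target.mem_nhds hy)
    have h2 : Tendsto (fun z => e.symm (y z)) (𝓝 0) (𝓝 x) := by
      have h3 := (e.continuousAt_symm hy).tendsto
      rw [e.left_inv hx] at h3
      exact h3.comp hyt
    filter_upwards [h1, h2.eventually (e'.open_source.mem_nhds hx')] with z hz1 hz2
    have h3 := G_trans hG he he' (e.map_target hz1) hz2 (S z) (S z)
    rw [e.right_inv hz1] at h3
    rw [h3]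
    rfl
  rw [hL1, hL2] at hL3
  linarith

end KI
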