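import Pool.Agent.H50.KI.Chd

/-! # Ece: joint continuity and homogeneity of the bisectional curvature

PROOFS. For `y ∈ e.target` (open): `G e y b b = ∑ k, ∑ l, g_kl y * b k * conj (b l)` (`KB.Sesq.expand`), so
`levi (G e · b b) y a = ∑ k, ∑ l, levi g_kl y a * b k * conj (b l)` (finite sums and constants: `fderiv` twice, functions
`C^∞` near `y`), and `levi g y a = 1/4 (D²g(y)(a, a) + D²g(y)(I a, I a))`, `D²g = fderiv ℝ (fderiv ℝ g)` continuous
on `e.target` (`fderiv ℝ (fun y => fderiv ℝ g y a) y a = fderiv ℝ (fderiv ℝ g) y a a`), jointly continuous in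
`(y, a)`. `Gam G e y a b = ∑ i, ∑ j, a i * b j • Gam G e y (bv i) (bv j)` (`Gam_add_left`, …, `KB.sum_bv`), jointly continuous
by `Gam_smooth`. `G e y c d` jointly continuous: `KB.Sesq.continuousOn`. Homogeneity: `Gam_smul_left`,
`Gam_smul_right`, `Sesq.smul_diag`; `levi F y (t • a) = |t|² levi F y a` for `F` of class `C²` (from
`D²F` bilinear: with `t = s + i u`, `D²(ta,ta) + D²(ita,ita) = (s²+u²)(D²(a,a) + D²(ia,ia))`, symmetry of `D²F` is
needed: `ContDiffAt.isSymmSndFDerivAt`; or: the cross terms `2su D²(a,ia)` and `-2su D²(a, ia)` cancel using it). -/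

set_option autoImplicit false

namespace KI

open Complex Metric Set Filter Topology Manifold ContDiff
open KB (V DR wirt levi rho Sesq lap lapC dz)

variable {n : ℕ} {X : Type} [MetricSpace X] [ChartedSpace (V n) X]
  {G : OpenPartialHomeomorph X (V n) → V n → V n → V n → ℂ}

private theorem Ece_ctd {F : V n → ℂ} {S : Set (V n)} (hS : IsOpen S)
    (hF : ContDiffOn ℝ ∞ F S) : ContDiffOn ℝ ∞ (fderiv ℝ F) S :=
  hF.fderiv_of_isOpen hS (by simp)

private theorem Ece_ctd2 {F : V n → ℂ} {S : Set (V n)} (hS : IsOpen S)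
    (hF : ContDiffOn ℝ ∞ F S) : ContDiffOn ℝ ∞ (fderiv ℝ (fderiv ℝ F)) S :=
  (Ece_ctd hS hF).fderiv_of_isOpen hS (by simp)

private theorem Ece_snd {F : V n → ℂ} {S : Set (V n)} (hS : IsOpen S)
    (hF : ContDiffOn ℝ ∞ F S) {y : V n} (hy : y ∈ S) (v w : V n) :
    fderiv ℝ (fun z => fderiv ℝ F z v) y w = fderiv ℝ (fderiv ℝ F) y w v := by
  have h1 : DifferentiableAt ℝ (fderiv ℝ F) y :=
    ((Ece_ctd hS hF).contDiffAt (hS.mem_nhds hy)).differentiableAt (by simp)
  have h2 : HasFDerivAt (fun z => fderiv ℝ F z v)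
      ((ContinuousLinearMap.apply ℝ ℂ v).comp (fderiv ℝ (fderiv ℝ F) y)) y :=
    (ContinuousLinearMap.apply ℝ ℂ v).hasFDerivAt.comp y h1.hasFDerivAt
  rw [h2.fderiv]
  rfl

private theorem Ece_levi {F : V n → ℂ} {S : Set (V n)} (hS : IsOpen S)
    (hF : ContDiffOn ℝ ∞ F S) {y : V n} (hy : y ∈ S) (a : V n) :
    levi F y a = (1 / 4 : ℂ) * (fderiv ℝ (fderiv ℝ F) y a a +
      fderiv ℝ (fderiv ℝ F) y (Complex.I • a) (Complex.I • a)) := by
  unfold levi KB.D
  rw [Ece_snd hS hF hy, Ece_snd hS hF hy]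

private theorem Ece_sum {ι : Type} (s : Finset ι) {F : ι → V n → ℂ} (c : ι → ℂ) {y : V n}
    (hF : ∀ i ∈ s, DifferentiableAt ℝ (F i) y) (v : V n) :
    fderiv ℝ (fun z => ∑ i ∈ s, c i * F i z) y v = ∑ i ∈ s, c i * fderiv ℝ (F i) y v := by
  have e : fderiv ℝ (fun z => ∑ i ∈ s, c i * F i z) y
      = ∑ i ∈ s, fderiv ℝ (fun z => c i * F i z) y :=
    fderiv_fun_sum fun i hi => (hF i hi).const_mul (c i)
  rw [e, sum_apply]
  refine Finset.sum_congr rfl fun i hi => ?_
  have e2 : fderiv ℝ (fun z => c i * F i z) y = c i • fderiv ℝ (F i) y :=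
    fderiv_const_mul (hF i hi) (c i)
  rw [e2]
  simp

private theorem Ece_sum2 {ι : Type} (s : Finset ι) {F : ι → V n → ℂ} (c : ι → ℂ)
    {S : Set (V n)} (hS : IsOpen S) (hF : ∀ i ∈ s, ContDiffOn ℝ ∞ (F i) S) {H : V n → ℂ}
    (hH : ∀ z ∈ S, H z = ∑ i ∈ s, c i * F i z) {y : V n} (hy : y ∈ S) (v w : V n) :
    fderiv ℝ (fun z => fderiv ℝ H z v) y w
      = ∑ i ∈ s, c i * fderiv ℝ (fun z => fderiv ℝ (F i) z v) y w := by
  have h1 : (fun z => fderiv ℝ H z v) =ᶠ[𝓝 y] fun z => ∑ i ∈ s, c i * fderiv ℝ (F i) z v := by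
    filter_upwards [hS.mem_nhds hy] with z hz
    have h2 : H =ᶠ[𝓝 z] fun z => ∑ i ∈ s, c i * F i z := by
      filter_upwards [hS.mem_nhds hz] with x hx using hH x hx
    rw [h2.fderiv_eq]
    exact Ece_sum s c (fun i hi => ((hF i hi).contDiffAt (hS.mem_nhds hz)).differentiableAt
      (by simp)) v
  rw [h1.fderiv_eq]
  refine Ece_sum s c (fun i hi => ?_) w
  have h3 : DifferentiableAt ℝ (fderiv ℝ (F i)) y :=
    ((Ece_ctd hS (hF i hi)).contDiffAt (hS.mem_nhds hy)).differentiableAt (by simp)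
  exact ((ContinuousLinearMap.apply ℝ ℂ v).differentiableAt).comp y h3

private theorem Ece_levi_sum {ι : Type} (s : Finset ι) {F : ι → V n → ℂ} (c : ι → ℂ)
    {S : Set (V n)} (hS : IsOpen S) (hF : ∀ i ∈ s, ContDiffOn ℝ ∞ (F i) S) {H : V n → ℂ}
    (hH : ∀ z ∈ S, H z = ∑ i ∈ s, c i * F i z) {y : V n} (hy : y ∈ S) (a : V n) :
    levi H y a = ∑ i ∈ s, c i * levi (F i) y a := by
  unfold levi KB.D
  rw [Ece_sum2 s c hS hF hH hy, Ece_sum2 s c hS hF hH hy, ← Finset.sum_add_distrib,
    Finset.mul_sum]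
  refine Finset.sum_congr rfl fun i _ => ?_
  ring

private theorem Ece_levi_cont {F : V n → ℂ} {S : Set (V n)} (hS : IsOpen S)
    (hF : ContDiffOn ℝ ∞ F S) :
    ContinuousOn (fun q : V n × V n × V n => levi F q.1 q.2.1) (S ×ˢ (univ : Set (V n × V n))) := by
  have h1 : ContinuousOn (fderiv ℝ (fderiv ℝ F)) S := ((Ece_ctd2 hS hF).continuousOn)
  have h2 : ContinuousOn (fun q : V n × V n × V n => fderiv ℝ (fderiv ℝ F) q.1)
      (S ×ˢ (univ : Set (V n × V n))) :=
    h1.comp continuousOn_fst fun q hq => hq.1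
  have h3 : ContinuousOn (fun q : V n × V n × V n => q.2.1) (S ×ˢ (univ : Set (V n × V n))) := by
    fun_prop
  have h4 : ContinuousOn (fun q : V n × V n × V n => Complex.I • q.2.1)
      (S ×ˢ (univ : Set (V n × V n))) := by
    fun_prop
  refine ContinuousOn.congr (f := fun q : V n × V n × V n =>
    (1 / 4 : ℂ) * (fderiv ℝ (fderiv ℝ F) q.1 q.2.1 q.2.1 +
      fderiv ℝ (fderiv ℝ F) q.1 (Complex.I • q.2.1) (Complex.I • q.2.1))) ?_ ?_
  · exact continuousOn_const.mul (((h2.clm_apply h3).clm_apply h3).add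
      ((h2.clm_apply h4).clm_apply h4))
  · intro q hq
    exact Ece_levi hS hF hq.1 q.2.1

private theorem Ece_exp (hG : IsHermMetric G) {e : OpenPartialHomeomorph X (V n)}
    (he : e ∈ atlas (V n) X) {y : V n} (hy : y ∈ e.target) (b : V n) :
    G e y b b = ∑ p : Fin n × Fin n, (b p.1 * (starRingEnd ℂ) (b p.2)) *
      G e y (KB.bv p.1) (KB.bv p.2) := by
  rw [(G_sesq hG he hy).expand b b, Fintype.sum_prod_type]
  unfold KB.mform
  refine Finset.sum_congr rfl fun i _ => Finset.sum_congr rfl fun j _ => ?_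
  ring

private theorem Ece_levi_exp (hG : IsHermMetric G) {e : OpenPartialHomeomorph X (V n)}
    (he : e ∈ atlas (V n) X) {y : V n} (hy : y ∈ e.target) (a b : V n) :
    levi (fun z => G e z b b) y a = ∑ p : Fin n × Fin n, (b p.1 * (starRingEnd ℂ) (b p.2)) *
      levi (fun z => G e z (KB.bv p.1) (KB.bv p.2)) y a :=
  Ece_levi_sum Finset.univ (F := fun (p : Fin n × Fin n) z => G e z (KB.bv p.1) (KB.bv p.2))
    (fun p => b p.1 * (starRingEnd ℂ) (b p.2)) e.open_target
    (fun p _ => hG.smooth e he _ _) (fun z hz => Ece_exp hG he hz b) hy a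

private theorem Ece_gam_exp (hG : IsHermMetric G) {e : OpenPartialHomeomorph X (V n)}
    (he : e ∈ atlas (V n) X) {y : V n} (hy : y ∈ e.target) (a b : V n) :
    Gam G e y a b = ∑ i, ∑ j, (a i * b j) • Gam G e y (KB.bv i) (KB.bv j) := by
  have h1 : ∀ b' : V n, Gam G e y a b' = ∑ i, a i • Gam G e y (KB.bv i) b' := by
    intro b'
    have h2 := map_sum (AddMonoidHom.mk' (fun a => Gam G e y a b')
      (fun a a' => Gam_add_left hG he hy a a' b')) (fun i => a i • (KB.bv i : V n)) Finset.univ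
    simp only [AddMonoidHom.mk'_apply] at h2
    rw [← KB.sum_bv a] at h2
    rw [h2]
    exact Finset.sum_congr rfl fun i _ => Gam_smul_left hG he hy _ _ _
  rw [h1 b]
  refine Finset.sum_congr rfl fun i _ => ?_
  have h3 := map_sum (AddMonoidHom.mk' (fun b => Gam G e y (KB.bv i) b)
    (fun b b' => Gam_add_right hG he hy (KB.bv i) b b')) (fun j => b j • (KB.bv j : V n))
    Finset.univ
  simp only [AddMonoidHom.mk'_apply] at h3
  rw [← KB.sum_bv b] at h3
  rw [h3, Finset.smul_sum]
  refine Finset.sum_congr rfl fun j _ => ?_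
  rw [Gam_smul_right hG he hy, smul_smul]

private theorem Ece_coord (i : Fin n) : Continuous (fun a : V n => a i) := by
  fun_prop

theorem Gam_cont (hG : IsHermMetric G) {e : OpenPartialHomeomorph X (V n)}
    (he : e ∈ atlas (V n) X) :
    ContinuousOn (fun q : V n × V n × V n => Gam G e q.1 q.2.1 q.2.2)
      (e.target ×ˢ (univ : Set (V n × V n))) := by
  refine ContinuousOn.congr (f := fun q : V n × V n × V n =>
    ∑ i, ∑ j, (q.2.1 i * q.2.2 j) • Gam G e q.1 (KB.bv i) (KB.bv j)) ?_ ?_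
  · refine continuousOn_finsetSum _ fun i _ => continuousOn_finsetSum _ fun j _ => ?_
    have h1 : ContinuousOn (fun q : V n × V n × V n => q.2.1 i * q.2.2 j)
        (e.target ×ˢ (univ : Set (V n × V n))) :=
      (((Ece_coord i).comp (continuous_fst.comp continuous_snd)).mul
        ((Ece_coord j).comp (continuous_snd.comp continuous_snd))).continuousOn
    have h2 : ContinuousOn (fun q : V n × V n × V n => Gam G e q.1 (KB.bv i) (KB.bv j))
        (e.target ×ˢ (univ : Set (V n × V n))) :=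
      (Gam_smooth hG he (KB.bv i) (KB.bv j)).continuousOn.comp continuousOn_fst
        fun q hq => hq.1
    exact h1.smul h2
  · intro q hq
    exact Ece_gam_exp hG he hq.1 _ _

theorem G_cont (hG : IsHermMetric G) {e : OpenPartialHomeomorph X (V n)}
    (he : e ∈ atlas (V n) X) :
    ContinuousOn (fun q : V n × V n × V n => G e q.1 q.2.1 q.2.2)
      (e.target ×ˢ (univ : Set (V n × V n))) := by
  refine Sesq.continuousOn (A := fun q : V n × V n × V n => G e q.1) (fun q hq => ?_)
    (fun a b => ?_) ?_ ?_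
  · exact G_sesq hG he hq.1
  · exact (hG.smooth e he a b).continuousOn.comp continuousOn_fst fun q hq => hq.1
  · exact (continuous_fst.comp continuous_snd).continuousOn
  · exact (continuous_snd.comp continuous_snd).continuousOn

theorem bkN_cont (hG : IsHermMetric G) {e : OpenPartialHomeomorph X (V n)}
    (he : e ∈ atlas (V n) X) :
    ContinuousOn (fun q : V n × V n × V n => bkN G e q.1 q.2.1 q.2.2)
      (e.target ×ˢ (univ : Set (V n × V n))) := by
  unfold bkN
  refine Complex.continuous_re.comp_continuousOn (ContinuousOn.add (ContinuousOn.neg ?_) ?_)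
  · refine ContinuousOn.congr (f := fun q : V n × V n × V n =>
      ∑ p : Fin n × Fin n, (q.2.2 p.1 * (starRingEnd ℂ) (q.2.2 p.2)) *
      levi (fun z => G e z (KB.bv p.1) (KB.bv p.2)) q.1 q.2.1) ?_ ?_
    · refine continuousOn_finsetSum _ fun p _ => ContinuousOn.mul ?_ ?_
      · exact (((Ece_coord p.1).comp (continuous_snd.comp continuous_snd)).mul
          (Complex.continuous_conj.comp
            ((Ece_coord p.2).comp (continuous_snd.comp continuous_snd)))).continuousOn
      · exact Ece_levi_cont e.open_target (hG.smooth e he _ _)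
    · intro q hq
      exact Ece_levi_exp hG he hq.1 _ _
  · refine Sesq.continuousOn (A := fun q : V n × V n × V n => G e q.1) (fun q hq => ?_)
      (fun a b => ?_) ?_ ?_
    · exact G_sesq hG he hq.1
    · exact (hG.smooth e he a b).continuousOn.comp continuousOn_fst fun q hq => hq.1
    · exact Gam_cont hG he
    · exact Gam_cont hG he

private theorem Ece_bil {E : Type} [NormedAddCommGroup E] [NormedSpace ℂ E]
    (L : E →L[ℝ] E →L[ℝ] ℂ) (s : ℂ) (a : E) :
    L (s • a) (s • a) + L (Complex.I • s • a) (Complex.I • s • a)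
      = (‖s‖ ^ 2 : ℝ) * (L a a + L (Complex.I • a) (Complex.I • a)) := by
  have e1 : s • a = s.re • a + s.im • (Complex.I • a) := by
    rw [← Complex.coe_smul s.re, ← Complex.coe_smul s.im, smul_smul, ← add_smul,
      Complex.re_add_im]
  have e2 : Complex.I • s • a = s.re • (Complex.I • a) - s.im • a := by
    rw [← Complex.coe_smul s.re, ← Complex.coe_smul s.im, smul_smul, smul_smul, ← sub_smul]
    congr 1
    conv_lhs => rw [← Complex.re_add_im s]
    linear_combination (s.im : ℂ) * Complex.I_mul_I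
  rw [e2, e1]
  clear e1 e2
  generalize Complex.I • a = w
  have h3 : (‖s‖ ^ 2 : ℝ) = s.re * s.re + s.im * s.im := by
    rw [← Complex.normSq_eq_norm_sq, Complex.normSq_apply]
  rw [h3]
  simp only [map_add, map_sub, map_smul, ContinuousLinearMap.add_apply,
    ContinuousLinearMap.sub_apply, ContinuousLinearMap.smul_apply, Complex.real_smul]
  push_cast
  ring

theorem bkN_smul (hG : IsHermMetric G) {e : OpenPartialHomeomorph X (V n)}
    (he : e ∈ atlas (V n) X) {y : V n} (hy : y ∈ e.target) (s t : ℂ) (a b : V n) :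
    bkN G e y (s • a) (t • b) = ‖s‖ ^ 2 * ‖t‖ ^ 2 * bkN G e y a b := by
  have h1 : levi (fun z => G e z (t • b) (t • b)) y (s • a)
      = ((‖s‖ ^ 2 * ‖t‖ ^ 2 : ℝ) : ℂ) * levi (fun z => G e z b b) y a := by
    have h2 : levi (fun z => G e z (t • b) (t • b)) y (s • a)
        = ∑ i ∈ ({0} : Finset ℕ), ((‖t‖ ^ 2 : ℝ) : ℂ) * levi (fun z => G e z b b) y (s • a) := by
      refine Ece_levi_sum ({0} : Finset ℕ) (F := fun _ z => G e z b b)
        (fun _ => ((‖t‖ ^ 2 : ℝ) : ℂ)) e.open_target (fun p _ => hG.smooth e he _ _)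
        (fun z hz => ?_) hy _
      rw [Finset.sum_singleton, (G_sesq hG he hz).smul, (G_sesq hG he hz).smul_right,
        ← mul_assoc, Complex.mul_conj, Complex.normSq_eq_norm_sq]
    rw [h2, Finset.sum_singleton, Ece_levi e.open_target (hG.smooth e he b b) hy,
      Ece_levi e.open_target (hG.smooth e he b b) hy, Ece_bil]
    push_cast
    ring
  have h4 : Gam G e y (s • a) (t • b) = (s * t) • Gam G e y a b := by
    rw [Gam_smul_left hG he hy, Gam_smul_right hG he hy, smul_smul]
  unfold bkN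
  rw [h1, h4, Complex.add_re, (G_sesq hG he hy).smul_diag, Complex.add_re, norm_mul,
    Complex.neg_re, Complex.re_ofReal_mul, Complex.neg_re]
  ring

end KI
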