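import Pool.Agent.H50.KI.Ecc
import Pool.Agent.H50.KI.Ecd
import Pool.Agent.H50.KI.Ece

/-! # Ecf: bounds of the bisectional curvature on compact sets

PROOFS. Local statement: let `x₀ ∈ K`, `e₀ = chartAt (V n) x₀`, `D` a compact neighbourhood of `e₀ x₀` in
`e₀.target` (closed ball). On the compact set `D ×ˢ sphere 0 1 ×ˢ sphere 0 1` (if empty, `n = 0`, all vectors are 0
and everything vanishes: `bkN_smul` with `s = 0`) the function `bkN G e₀ y a b` is continuous (`bkN_cont`) and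
`(G e₀ y a a).re * (G e₀ y b b).re` is continuous (`G_cont`) and positive, so `bkN ≤ C * (G a a).re * (G b b).re` there;
homogeneity (`bkN_smul`, `Sesq.smul_diag`; write `a = ‖a‖ • a'`) gives all `a, b`. For another chart `e` and `y ∈ e.target`
with `x = e.symm y ∈ e₀.source`, `e₀ x ∈ D`: `bkN G e y a b = bkN G e₀ (e₀ x) (Dψ a) (Dψ b)`, `ψ = trans e e₀` (`bkN_trans`,
`e x = y`), `G e y a a = G e₀ (e₀ x) (Dψ a) (Dψ a)` (`G_trans`): the same bound. Finitely many neighbourhoods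
`e₀.source ∩ e₀ ⁻¹' interior D` cover `K` (`IsCompact.induction_on` or `elim_nhds_subcover`); take the maximum of
the constants (the products `(G a a).re * (G b b).re` are nonnegative; take all `C > 0`).
`bkN_lower`: the same with `bkN > 0` (`bkN_pos` at points of `K ⊆ S`; use the compact set
`{(y, a, b) | y ∈ D, e₀.symm y ∈ K, ‖a‖ = 1, ‖b‖ = 1}`: the set `D ∩ e₀.symm ⁻¹' K` is compact, since `e₀.symm` is
continuous on `D` and `K` is closed) and the minimum of the constants. -/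

set_option autoImplicit false

namespace KI

open Complex Metric Set Filter Topology Manifold ContDiff
open KB (V DR wirt levi rho Sesq lap lapC dz)

variable {n : ℕ} {X : Type} [MetricSpace X] [ChartedSpace (V n) X]
  {G : OpenPartialHomeomorph X (V n) → V n → V n → V n → ℂ}

private theorem Ecf_aux {T : Set (V n)} {D : Set (V n)} (hD : IsCompact D) (hDt : D ⊆ T)
    (P Q : V n × V n × V n → ℝ) (hP : ContinuousOn P (T ×ˢ (univ : Set (V n × V n))))
    (hQ : ContinuousOn Q (T ×ˢ (univ : Set (V n × V n))))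
    (hpos : ∀ y ∈ D, ∀ a b : V n, a ≠ 0 → b ≠ 0 → 0 < Q (y, a, b))
    (hPs : ∀ y ∈ D, ∀ (s t : ℂ) (a b : V n), P (y, s • a, t • b) = ‖s‖ ^ 2 * ‖t‖ ^ 2 * P (y, a, b))
    (hQs : ∀ y ∈ D, ∀ (s t : ℂ) (a b : V n),
      Q (y, s • a, t • b) = ‖s‖ ^ 2 * ‖t‖ ^ 2 * Q (y, a, b)) :
    ∃ C > 0, ∀ y ∈ D, ∀ a b : V n, P (y, a, b) ≤ C * Q (y, a, b) := by
  set S : Set (V n × V n × V n) := D ×ˢ (sphere (0 : V n) 1 ×ˢ sphere (0 : V n) 1) with hS
  have hSc : IsCompact S := hD.prod ((isCompact_sphere 0 1).prod (isCompact_sphere 0 1))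
  have hne : ∀ a : V n, a ∈ sphere (0 : V n) 1 → a ≠ 0 := by
    intro a ha h0
    rw [h0, mem_sphere_zero_iff_norm, norm_zero] at ha
    exact zero_ne_one ha
  have hSQ : ∀ q ∈ S, 0 < Q q := by
    rintro ⟨y, a, b⟩ ⟨h1, h2, h3⟩
    exact hpos y h1 a b (hne a h2) (hne b h3)
  have hSs : S ⊆ T ×ˢ (univ : Set (V n × V n)) := by
    rintro ⟨y, a, b⟩ ⟨h1, _⟩
    exact ⟨hDt h1, mem_univ _⟩
  have hf : ContinuousOn (fun q => P q / Q q) S :=
    (hP.mono hSs).div (hQ.mono hSs) fun q hq => (hSQ q hq).ne'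
  obtain ⟨C0, hC0⟩ := (hSc.image_of_continuousOn hf).bddAbove
  refine ⟨max C0 1, lt_of_lt_of_le one_pos (le_max_right _ _), ?_⟩
  intro y hy a b
  by_cases ha : a = 0
  · have h1 : P (y, a, b) = 0 := by
      have := hPs y hy 0 1 a b
      rw [zero_smul, one_smul, norm_zero] at this
      rw [ha, this]
      ring
    have h2 : Q (y, a, b) = 0 := by
      have := hQs y hy 0 1 a b
      rw [zero_smul, one_smul, norm_zero] at this
      rw [ha, this]
      ring
    rw [h1, h2, mul_zero]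
  by_cases hb : b = 0
  · have h1 : P (y, a, b) = 0 := by
      have := hPs y hy 1 0 a b
      rw [zero_smul, one_smul, norm_zero] at this
      rw [hb, this]
      ring
    have h2 : Q (y, a, b) = 0 := by
      have := hQs y hy 1 0 a b
      rw [zero_smul, one_smul, norm_zero] at this
      rw [hb, this]
      ring
    rw [h1, h2, mul_zero]
  have hna : ‖a‖ ≠ 0 := norm_ne_zero_iff.2 ha
  have hnb : ‖b‖ ≠ 0 := norm_ne_zero_iff.2 hb
  have hu : ∀ c : V n, ‖c‖ ≠ 0 → ((‖c‖⁻¹ : ℝ) : ℂ) • c ∈ sphere (0 : V n) 1 := by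
    intro c hc
    rw [mem_sphere_zero_iff_norm, norm_smul, Complex.norm_real, norm_inv, norm_norm,
      inv_mul_cancel₀ hc]
  have hr : ∀ c : V n, ‖c‖ ≠ 0 → ((‖c‖ : ℝ) : ℂ) • (((‖c‖⁻¹ : ℝ) : ℂ) • c) = c := by
    intro c hc
    rw [smul_smul, ← Complex.ofReal_mul, mul_inv_cancel₀ hc, Complex.ofReal_one, one_smul]
  have hq : ((y, ((‖a‖⁻¹ : ℝ) : ℂ) • a, ((‖b‖⁻¹ : ℝ) : ℂ) • b) : V n × V n × V n) ∈ S :=
    ⟨hy, hu a hna, hu b hnb⟩
  have h1 : P (y, ((‖a‖⁻¹ : ℝ) : ℂ) • a, ((‖b‖⁻¹ : ℝ) : ℂ) • b) ≤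
      max C0 1 * Q (y, ((‖a‖⁻¹ : ℝ) : ℂ) • a, ((‖b‖⁻¹ : ℝ) : ℂ) • b) := by
    have h2 := hC0 (mem_image_of_mem _ hq)
    rw [div_le_iff₀ (hSQ _ hq)] at h2
    exact h2.trans (mul_le_mul_of_nonneg_right (le_max_left _ _) (hSQ _ hq).le)
  have h3 := hPs y hy (‖a‖ : ℝ) (‖b‖ : ℝ) (((‖a‖⁻¹ : ℝ) : ℂ) • a) (((‖b‖⁻¹ : ℝ) : ℂ) • b)
  have h4 := hQs y hy (‖a‖ : ℝ) (‖b‖ : ℝ) (((‖a‖⁻¹ : ℝ) : ℂ) • a) (((‖b‖⁻¹ : ℝ) : ℂ) • b)
  rw [hr a hna, hr b hnb] at h3 h4
  rw [h3, h4]
  have h5 : 0 ≤ ‖((‖a‖ : ℝ) : ℂ)‖ ^ 2 * ‖((‖b‖ : ℝ) : ℂ)‖ ^ 2 := by positivity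
  nlinarith [mul_le_mul_of_nonneg_left h1 h5]

/-- the product of the squared norms -/
private noncomputable def Ecf_N (G : OpenPartialHomeomorph X (V n) → V n → V n → V n → ℂ)
    (e : OpenPartialHomeomorph X (V n)) (q : V n × V n × V n) : ℝ :=
  (G e q.1 q.2.1 q.2.1).re * (G e q.1 q.2.2 q.2.2).re

private theorem Ecf_N_cont (hG : IsHermMetric G) {e : OpenPartialHomeomorph X (V n)}
    (he : e ∈ atlas (V n) X) :
    ContinuousOn (Ecf_N G e) (e.target ×ˢ (univ : Set (V n × V n))) := by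
  have h1 : ContinuousOn (fun q : V n × V n × V n => G e q.1 q.2.1 q.2.1)
      (e.target ×ˢ (univ : Set (V n × V n))) := by
    have := (G_cont hG he).comp (f := fun q : V n × V n × V n => (q.1, q.2.1, q.2.1))
      (s := e.target ×ˢ (univ : Set (V n × V n))) (by fun_prop)
      (fun q hq => ⟨hq.1, mem_univ _⟩)
    exact this
  have h2 : ContinuousOn (fun q : V n × V n × V n => G e q.1 q.2.2 q.2.2)
      (e.target ×ˢ (univ : Set (V n × V n))) := by
    have := (G_cont hG he).comp (f := fun q : V n × V n × V n => (q.1, q.2.2, q.2.2))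
      (s := e.target ×ˢ (univ : Set (V n × V n))) (by fun_prop)
      (fun q hq => ⟨hq.1, mem_univ _⟩)
    exact this
  exact (Complex.continuous_re.comp_continuousOn h1).mul
    (Complex.continuous_re.comp_continuousOn h2)

private theorem Ecf_N_smul (hG : IsHermMetric G) {e : OpenPartialHomeomorph X (V n)}
    (he : e ∈ atlas (V n) X) {y : V n} (hy : y ∈ e.target) (s t : ℂ) (a b : V n) :
    Ecf_N G e (y, s • a, t • b) = ‖s‖ ^ 2 * ‖t‖ ^ 2 * Ecf_N G e (y, a, b) := by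
  unfold Ecf_N
  simp only
  rw [(G_sesq hG he hy).smul_diag, (G_sesq hG he hy).smul_diag]
  ring

private theorem Ecf_N_pos (hG : IsHermMetric G) {e : OpenPartialHomeomorph X (V n)}
    (he : e ∈ atlas (V n) X) {y : V n} (hy : y ∈ e.target) {a b : V n} (ha : a ≠ 0)
    (hb : b ≠ 0) : 0 < Ecf_N G e (y, a, b) :=
  mul_pos (hG.pos e he y hy a ha) (hG.pos e he y hy b hb)

/-- transfer of the quantities to another chart -/
private theorem Ecf_tr [IsManifold 𝓘(ℂ, V n) ω X] (hG : IsHermMetric G) (hK : Kaehler G)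
    {e e' : OpenPartialHomeomorph X (V n)} (he : e ∈ atlas (V n) X) (he' : e' ∈ atlas (V n) X)
    {y : V n} (hy : y ∈ e.target) (hx' : e.symm y ∈ e'.source) (a b : V n) :
    ∃ a' b' : V n, bkN G e y a b = bkN G e' (e' (e.symm y)) a' b' ∧
      (G e y a a).re * (G e y b b).re = Ecf_N G e' (e' (e.symm y), a', b') := by
  have hx : e.symm y ∈ e.source := e.map_target hy
  have h1 : e (e.symm y) = y := e.right_inv hy
  have h2 := bkN_trans hG hK he he' hx hx' a b
  have h3 := G_trans hG he he' hx hx' a a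
  have h4 := G_trans hG he he' hx hx' b b
  rw [h1] at h2 h3 h4
  refine ⟨fderiv ℂ (trans e e') y a, fderiv ℂ (trans e e') y b, h2.symm, ?_⟩
  rw [h3, h4]
  rfl

theorem bkN_bound [IsManifold 𝓘(ℂ, V n) ω X] (hG : IsHermMetric G) (hK : Kaehler G)
    {K : Set X} (hKc : IsCompact K) : ∃ C > 0, ∀ e ∈ atlas (V n) X, ∀ y ∈ e.target,
      e.symm y ∈ K → ∀ a b, bkN G e y a b ≤ C * (G e y a a).re * (G e y b b).re := by
  refine hKc.induction_on (p := fun K => ∃ C > 0, ∀ e ∈ atlas (V n) X, ∀ y ∈ e.target,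
      e.symm y ∈ K → ∀ a b, bkN G e y a b ≤ C * (G e y a a).re * (G e y b b).re) ?_ ?_ ?_ ?_
  · exact ⟨1, one_pos, fun e _ y _ h => absurd h (notMem_empty _)⟩
  · rintro s t hst ⟨C, hC, h⟩
    exact ⟨C, hC, fun e he y hy hs => h e he y hy (hst hs)⟩
  · rintro s t ⟨C, hC, h⟩ ⟨C', hC', h'⟩
    refine ⟨max C C', lt_max_of_lt_left hC, fun e he y hy hs a b => ?_⟩
    have hn : 0 ≤ (G e y a a).re * (G e y b b).re :=
      mul_nonneg (G_nonneg hG he hy a) (G_nonneg hG he hy b)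
    rcases hs with hs | hs
    · have h1 := h e he y hy hs a b
      have h2 := mul_le_mul_of_nonneg_right (le_max_left C C') hn
      rw [mul_assoc] at h1 ⊢
      exact h1.trans h2
    · have h1 := h' e he y hy hs a b
      have h2 := mul_le_mul_of_nonneg_right (le_max_right C C') hn
      rw [mul_assoc] at h1 ⊢
      exact h1.trans h2
  · intro x hxK
    set e0 := chartAt (V n) x with he0
    have he0a : e0 ∈ atlas (V n) X := chart_mem_atlas _ _
    have hx0 : x ∈ e0.source := mem_chart_source _ _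
    obtain ⟨D, hDc, hxD, hDt⟩ := exists_compact_subset e0.open_target (e0.map_source hx0)
    obtain ⟨C, hC, h⟩ := Ecf_aux hDc hDt (fun q => bkN G e0 q.1 q.2.1 q.2.2) (Ecf_N G e0)
      (bkN_cont hG he0a) (Ecf_N_cont hG he0a)
      (fun y hy a b ha hb => Ecf_N_pos hG he0a (hDt hy) ha hb)
      (fun y hy s t a b => bkN_smul hG he0a (hDt hy) s t a b)
      (fun y hy s t a b => Ecf_N_smul hG he0a (hDt hy) s t a b)
    refine ⟨e0.source ∩ e0 ⁻¹' (interior D), mem_nhdsWithin_of_mem_nhds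
      ((e0.isOpen_inter_preimage isOpen_interior).mem_nhds ⟨hx0, hxD⟩), C, hC, ?_⟩
    intro e he y hy hs a b
    obtain ⟨a', b', h1, h2⟩ := Ecf_tr hG hK he he0a hy hs.1 a b
    rw [mul_assoc, h1, h2]
    exact h _ (interior_subset hs.2) a' b'

theorem bkN_lower [IsManifold 𝓘(ℂ, V n) ω X] (hG : IsHermMetric G) (hK : Kaehler G)
    (hS : SecNonneg G) {K S : Set X} (hKc : IsCompact K) (hKS : K ⊆ S) (hP : SecPosOn G S) :
    ∃ k > 0, ∀ e ∈ atlas (V n) X, ∀ y ∈ e.target,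
      e.symm y ∈ K → ∀ a b, k * (G e y a a).re * (G e y b b).re ≤ bkN G e y a b := by
  have main : ∃ k > 0, ∀ e ∈ atlas (V n) X, ∀ y ∈ e.target,
      e.symm y ∈ K → e.symm y ∈ K → ∀ a b,
        k * (G e y a a).re * (G e y b b).re ≤ bkN G e y a b := by
    refine hKc.induction_on (p := fun K' => ∃ k > 0, ∀ e ∈ atlas (V n) X, ∀ y ∈ e.target,
      e.symm y ∈ K' → e.symm y ∈ K → ∀ a b,
        k * (G e y a a).re * (G e y b b).re ≤ bkN G e y a b) ?_ ?_ ?_ ?_
    · exact ⟨1, one_pos, fun e _ y _ h => absurd h (notMem_empty _)⟩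
    · rintro s t hst ⟨C, hC, h⟩
      exact ⟨C, hC, fun e he y hy hs => h e he y hy (hst hs)⟩
    · rintro s t ⟨C, hC, h⟩ ⟨C', hC', h'⟩
      refine ⟨min C C', lt_min hC hC', fun e he y hy hs hsK a b => ?_⟩
      have hn : 0 ≤ (G e y a a).re * (G e y b b).re :=
        mul_nonneg (G_nonneg hG he hy a) (G_nonneg hG he hy b)
      rcases hs with hs | hs
      · have h1 := h e he y hy hs hsK a b
        have h2 := mul_le_mul_of_nonneg_right (min_le_left C C') hn
        rw [mul_assoc] at h1 ⊢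
        exact h2.trans h1
      · have h1 := h' e he y hy hs hsK a b
        have h2 := mul_le_mul_of_nonneg_right (min_le_right C C') hn
        rw [mul_assoc] at h1 ⊢
        exact h2.trans h1
    · intro x hxK
      set e0 := chartAt (V n) x with he0
      have he0a : e0 ∈ atlas (V n) X := chart_mem_atlas _ _
      have hx0 : x ∈ e0.source := mem_chart_source _ _
      obtain ⟨D, hDc, hxD, hDt⟩ := exists_compact_subset e0.open_target (e0.map_source hx0)
      have hD'c : IsCompact (D ∩ e0.symm ⁻¹' K) := by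
        have hcl : IsClosed (D ∩ e0.symm ⁻¹' K) :=
          (e0.continuousOn_symm.mono hDt).preimage_isClosed_of_isClosed hDc.isClosed
            hKc.isClosed
        exact hDc.of_isClosed_subset hcl inter_subset_left
      obtain ⟨C, hC, h⟩ := Ecf_aux hD'c (inter_subset_left.trans hDt) (Ecf_N G e0)
        (fun q => bkN G e0 q.1 q.2.1 q.2.2) (Ecf_N_cont hG he0a) (bkN_cont hG he0a)
        (fun y hy a b ha hb => bkN_pos hG hK hS hP he0a (hDt hy.1) (hKS hy.2) ha hb)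
        (fun y hy s t a b => Ecf_N_smul hG he0a (hDt hy.1) s t a b)
        (fun y hy s t a b => bkN_smul hG he0a (hDt hy.1) s t a b)
      refine ⟨e0.source ∩ e0 ⁻¹' (interior D), mem_nhdsWithin_of_mem_nhds
        ((e0.isOpen_inter_preimage isOpen_interior).mem_nhds ⟨hx0, hxD⟩), C⁻¹, inv_pos.2 hC, ?_⟩
      intro e he y hy hs hsK a b
      obtain ⟨a', b', h1, h2⟩ := Ecf_tr hG hK he he0a hy hs.1 a b
      rw [mul_assoc, h1, h2]
      have h3 : e0 (e.symm y) ∈ D ∩ e0.symm ⁻¹' K := by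
        refine ⟨interior_subset hs.2, ?_⟩
        rw [mem_preimage, e0.left_inv hs.1]
        exact hsK
      have h4 := h _ h3 a' b'
      rw [inv_mul_le_iff₀ hC]
      exact h4
  obtain ⟨k, hk, h⟩ := main
  exact ⟨k, hk, fun e he y hy hyK => h e he y hy hyK hyK⟩

end KI
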