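import Pool.Agent.H50.KI.Frb
import Pool.Agent.H49.KI.TopE

/-! # Dmt: the metric in the frame of a thickening

PROOF. `e = chartAt (V n) (f z₀)`. `sesq`, `pos`: `G_sesq`, `ctx.herm.pos` at `e (f z) ∈ e.target` and linearity
and injectivity of `frm Φ e z` (`hΦ.inv`). `cont` at `z₀`: near `z₀` within the closed ball `f z ∈ e.source` and
`Bf_chart`: `Bf G f Φ z a b = G e (e (f z)) (frm Φ e z a) (frm Φ e z b)`; `frm_cont`, continuity of
`y ↦ G e y c d` on `e.target` (`ctx.herm.smooth`) and `KB.Sesq.continuousOn` or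
`KB.mform_continuousOn` (expand by `KB.Sesq.expand`). `c2`: the same with `frm_holo` (analytic, so `C²` over `ℝ`),
`z ↦ e (f z)` is analytic near `z₀` in the open ball (`hf.diff`; differentiable near `z₀`), `G e` smooth on
`e.target`, coordinates.
`curv` at `z₀`, `u`: `e` as above, `y z = e (f z)`, `F = frm Φ e z₀` bijective; choose `d` with
`F d = (deriv of z ↦ frm Φ e z u at z₀) + Gam G e (y z₀) (deriv y z₀) (F u)`; then with
`S z = frm Φ e z (u - (z - z₀) • d)`: `S z₀ = F u`,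
`deriv S z₀ = (deriv of frm Φ e · u) - F d = - Gam …` (write `S z = frm Φ e z u - (z - z₀) • frm Φ e z d`). `lf_lap`:
`lap = 4 (-bkN … + 0) ≤ 0` by `bkN_nonneg`; `lap` is local (`KB.lap_congr`), `Bf_chart` near `z₀`. -/

set_option autoImplicit false

namespace KI

open Complex Metric Set Filter Topology Manifold ContDiff
open KB (V DR wirt levi rho Sesq lap lapC dz)

variable {n : ℕ} {X : Type} [MetricSpace X] [ChartedSpace (V n) X]
  {G : OpenPartialHomeomorph X (V n) → V n → V n → V n → ℂ}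

theorem Dmt_interior {z : ℂ} (hz : z ∈ ball (0 : ℂ) 1) : z ∈ interior (closedBall (0 : ℂ) 1) := by
  rw [interior_closedBall (0 : ℂ) one_ne_zero]
  exact hz

/-- the points near `z₀` which `f` maps into the source of `e` -/
theorem Dmt_nhds {f : ℂ → X} (hf : Hol n (closedBall (0 : ℂ) 1) f) {z₀ : ℂ}
    (hz₀ : z₀ ∈ closedBall (0 : ℂ) 1) {e : OpenPartialHomeomorph X (V n)}
    (hfe : f z₀ ∈ e.source) : ∀ᶠ z in 𝓝[closedBall (0 : ℂ) 1] z₀, f z ∈ e.source :=
  (hf.cont z₀ hz₀) (e.open_source.mem_nhds hfe)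

theorem Dmt_nhds' {f : ℂ → X} (hf : Hol n (closedBall (0 : ℂ) 1) f) {z₀ : ℂ}
    (hz₀ : z₀ ∈ ball (0 : ℂ) 1) {e : OpenPartialHomeomorph X (V n)}
    (hfe : f z₀ ∈ e.source) : ∀ᶠ z in 𝓝 z₀, z ∈ ball (0 : ℂ) 1 ∧ f z ∈ e.source := by
  have h1 := Dmt_nhds hf (ball_subset_closedBall hz₀) hfe
  have h2 : 𝓝[closedBall (0 : ℂ) 1] z₀ = 𝓝 z₀ :=
    nhdsWithin_eq_nhds.2 (mem_of_superset (isOpen_ball.mem_nhds hz₀) ball_subset_closedBall)
  rw [h2] at h1
  exact (Filter.eventually_of_mem (isOpen_ball.mem_nhds hz₀) (fun z hz => hz)).and h1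

theorem Dmt_an {f : ℂ → X} (hf : Hol n (closedBall (0 : ℂ) 1) f) {z₀ : ℂ}
    (hz₀ : z₀ ∈ ball (0 : ℂ) 1) {e : OpenPartialHomeomorph X (V n)} (he : e ∈ atlas (V n) X)
    (hfe : f z₀ ∈ e.source) : AnalyticAt ℂ (fun z => e (f z)) z₀ := by
  rw [Complex.analyticAt_iff_eventually_differentiableAt]
  filter_upwards [Dmt_nhds' hf hz₀ hfe] with z hz
  exact hf.diff z (Dmt_interior hz.1) e he hz.2

theorem Dmt_sesq (ctx : Ctx G) {f : ℂ → X} {Φ : ℂ → V n → X} (z : ℂ) : Sesq (Bf G f Φ z) := by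
  have he := chart_mem_atlas (V n) (f z)
  have hy : (chartAt (V n) (f z)) (f z) ∈ (chartAt (V n) (f z)).target :=
    (chartAt (V n) (f z)).map_source (mem_chart_source (V n) (f z))
  have hs := G_sesq ctx.herm he hy
  refine ⟨?_, ?_, ?_⟩
  · intro a b c
    unfold Bf
    rw [map_add, hs.add]
  · intro t a b
    unfold Bf
    rw [map_smul, hs.smul]
  · intro a b
    unfold Bf
    exact hs.symm _ _

theorem Dmt_cont [IsManifold 𝓘(ℂ, V n) ω X] (ctx : Ctx G) {f : ℂ → X}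
    (hf : Hol n (closedBall (0 : ℂ) 1) f) {r : ℝ} {Φ : ℂ → V n → X} (hΦ : Thick f r Φ)
    (a b : V n) : ContinuousOn (fun z => Bf G f Φ z a b) (closedBall 0 1) := by
  intro z₀ hz₀
  obtain ⟨e, he'⟩ : ∃ e, e = chartAt (V n) (f z₀) := ⟨_, rfl⟩
  have he : e ∈ atlas (V n) X := by rw [he']; exact chart_mem_atlas (V n) (f z₀)
  have hfe : f z₀ ∈ e.source := by rw [he']; exact mem_chart_source (V n) (f z₀)
  obtain ⟨S, hS⟩ : ∃ S : Set ℂ, S = {z | z ∈ closedBall (0 : ℂ) 1 ∧ f z ∈ e.source} := ⟨_, rfl⟩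
  have hSD : ∀ z ∈ S, z ∈ closedBall (0 : ℂ) 1 := fun z hz => by rw [hS] at hz; exact hz.1
  have hSe : ∀ z ∈ S, f z ∈ e.source := fun z hz => by rw [hS] at hz; exact hz.2
  have hSn : S ∈ 𝓝[closedBall (0 : ℂ) 1] z₀ := by
    rw [hS]
    filter_upwards [self_mem_nhdsWithin, Dmt_nhds hf hz₀ hfe] with z h1 h2
    exact ⟨h1, h2⟩
  have hz₀S : z₀ ∈ S := by rw [hS]; exact ⟨hz₀, hfe⟩
  have hyc : ContinuousOn (fun z => e (f z)) S :=
    e.continuousOn.comp (hf.cont.mono hSD) hSe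
  have hfr : ∀ c : V n, ContinuousOn (fun z => frm Φ e z c) S := by
    intro c z hz
    have h1 := (frm_cont hΦ (hSD z hz) he (hSe z hz)).mono (fun w hw => hSD w hw)
    exact h1.clm_apply continuousWithinAt_const
  have hg : ContinuousOn (fun z => G e (e (f z)) (frm Φ e z a) (frm Φ e z b)) S := by
    refine KB.Sesq.continuousOn (A := fun z => G e (e (f z))) ?_ ?_ (hfr a) (hfr b)
    · intro z hz
      exact G_sesq ctx.herm he (e.map_source (hSe z hz))
    · intro c d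
      exact (ctx.herm.smooth e he c d).continuousOn.comp hyc (fun z hz => e.map_source (hSe z hz))
  have hB : ContinuousOn (fun z => Bf G f Φ z a b) S :=
    hg.congr fun z hz => Bf_chart ctx hΦ (hSD z hz) he (hSe z hz) a b
  exact (hB z₀ hz₀S).mono_of_mem_nhdsWithin hSn

theorem Dmt_c2 [IsManifold 𝓘(ℂ, V n) ω X] (ctx : Ctx G) {f : ℂ → X}
    (hf : Hol n (closedBall (0 : ℂ) 1) f) {r : ℝ} {Φ : ℂ → V n → X} (hΦ : Thick f r Φ)
    (a b : V n) : ContDiffOn ℝ 2 (fun z => Bf G f Φ z a b) (ball 0 1) := by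
  intro z₀ hz₀
  apply ContDiffAt.contDiffWithinAt
  obtain ⟨e, he'⟩ : ∃ e, e = chartAt (V n) (f z₀) := ⟨_, rfl⟩
  have he : e ∈ atlas (V n) X := by rw [he']; exact chart_mem_atlas (V n) (f z₀)
  have hfe : f z₀ ∈ e.source := by rw [he']; exact mem_chart_source (V n) (f z₀)
  have hya := Dmt_an hf hz₀ he hfe
  have hyr : ContDiffAt ℝ 2 (fun z => e (f z)) z₀ := (hya.contDiffAt (n := 2)).restrict_scalars ℝ
  have hfr : ∀ c : V n, ContDiffAt ℝ 2 (fun z => frm Φ e z c) z₀ := fun c =>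
    ((frm_holo hΦ hz₀ he hfe c).contDiffAt (n := 2)).restrict_scalars ℝ
  have hτ : ∀ i j : Fin n, ContDiffAt ℝ 2 (fun z => G e (e (f z)) (KB.bv i) (KB.bv j)) z₀ := by
    intro i j
    have h1 : ContDiffAt ℝ 2 (fun y => G e y (KB.bv i) (KB.bv j)) (e (f z₀)) :=
      ((ctx.herm.smooth e he (KB.bv i) (KB.bv j)).contDiffAt
        (e.open_target.mem_nhds (e.map_source hfe))).of_le (by norm_cast)
    exact h1.comp z₀ hyr
  have hm : ContDiffAt ℝ 2 (fun z => KB.mform (fun i j => G e (e (f z)) (KB.bv i) (KB.bv j))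
      (frm Φ e z a) (frm Φ e z b)) z₀ := by
    unfold KB.mform
    refine ContDiffAt.sum fun i _ => ContDiffAt.sum fun j _ => ?_
    have p1 : ContDiffAt ℝ 2 (fun z => (frm Φ e z a) i) z₀ :=
      (((EuclideanSpace.proj i : V n →L[ℂ] ℂ).restrictScalars ℝ).contDiff.contDiffAt).comp z₀ (hfr a)
    have p2 : ContDiffAt ℝ 2 (fun z => (starRingEnd ℂ) ((frm Φ e z b) j)) z₀ := by
      have q1 : ContDiffAt ℝ 2 (fun z => (frm Φ e z b) j) z₀ :=
        (((EuclideanSpace.proj j : V n →L[ℂ] ℂ).restrictScalars ℝ).contDiff.contDiffAt).comp z₀ (hfr b)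
      exact (Complex.conjCLE.contDiff.contDiffAt).comp z₀ q1
    exact ((hτ i j).mul p1).mul p2
  refine hm.congr_of_eventuallyEq ?_
  filter_upwards [Dmt_nhds' hf hz₀ hfe] with z hz
  rw [Bf_chart ctx hΦ (ball_subset_closedBall hz.1) he hz.2 a b]
  exact (G_sesq ctx.herm he (e.map_source hz.2)).expand _ _

theorem Dmt_curv [IsManifold 𝓘(ℂ, V n) ω X] (ctx : Ctx G) (hS : SecNonneg G) {f : ℂ → X}
    (hf : Hol n (closedBall (0 : ℂ) 1) f) {r : ℝ} {Φ : ℂ → V n → X} (hΦ : Thick f r Φ)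
    {z₀ : ℂ} (hz₀ : z₀ ∈ ball (0 : ℂ) 1) (u : V n) : ∃ d,
    lap (fun z => (Bf G f Φ z (u - (z - z₀) • d) (u - (z - z₀) • d)).re) z₀ ≤ 0 := by
  obtain ⟨e, he'⟩ : ∃ e, e = chartAt (V n) (f z₀) := ⟨_, rfl⟩
  have he : e ∈ atlas (V n) X := by rw [he']; exact chart_mem_atlas (V n) (f z₀)
  have hfe : f z₀ ∈ e.source := by rw [he']; exact mem_chart_source (V n) (f z₀)
  have hya := Dmt_an hf hz₀ he hfe
  have hyt : e (f z₀) ∈ e.target := e.map_source hfe
  obtain ⟨d, hd⟩ := (hΦ.inv z₀ (ball_subset_closedBall hz₀) e he hfe).2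
    (deriv (fun z => frm Φ e z u) z₀ +
      Gam G e (e (f z₀)) (deriv (fun z => e (f z)) z₀) (frm Φ e z₀ u))
  have hd' : frm Φ e z₀ d = deriv (fun z => frm Φ e z u) z₀ +
      Gam G e (e (f z₀)) (deriv (fun z => e (f z)) z₀) (frm Φ e z₀ u) := hd
  refine ⟨d, ?_⟩
  obtain ⟨S, hSdef⟩ : ∃ S : ℂ → V n, S = fun z => frm Φ e z u - (z - z₀) • frm Φ e z d := ⟨_, rfl⟩
  have hu := frm_holo hΦ hz₀ he hfe u
  have hda := frm_holo hΦ hz₀ he hfe d
  have hSa : AnalyticAt ℂ S z₀ := by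
    rw [hSdef]
    exact hu.sub ((analyticAt_id.sub analyticAt_const).smul hda)
  have hS0 : S z₀ = frm Φ e z₀ u := by
    rw [hSdef]
    simp
  have hSd : deriv S z₀ = deriv (fun z => frm Φ e z u) z₀ - frm Φ e z₀ d := by
    have h1 := hu.differentiableAt.hasDerivAt
    have h2 := hda.differentiableAt.hasDerivAt
    have h3 : HasDerivAt (fun z : ℂ => z - z₀) 1 z₀ := (hasDerivAt_id z₀).sub_const z₀
    have h4 := h1.sub (h3.smul h2)
    rw [hSdef]
    have h5 := h4.deriv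
    rw [sub_self, zero_smul, zero_add, one_smul] at h5
    exact h5
  have hlap : lap (fun z => (Bf G f Φ z (u - (z - z₀) • d) (u - (z - z₀) • d)).re) z₀ =
      lap (fun w => (G e ((fun z => e (f z)) w) (S w) (S w)).re) z₀ := by
    apply KB.lap_congr
    filter_upwards [Dmt_nhds' hf hz₀ hfe] with z hz
    rw [Bf_chart ctx hΦ (ball_subset_closedBall hz.1) he hz.2, map_sub, map_smul, hSdef]
  rw [hlap, lf_lap ctx.herm ctx.kaehler he hya hSa hyt]
  have hzero : deriv S z₀ + Gam G e (e (f z₀)) (deriv (fun z => e (f z)) z₀) (S z₀) = 0 := by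
    rw [hSd, hS0, hd']
    abel
  rw [hzero, (G_sesq ctx.herm he hyt).zero_left]
  have hb := bkN_nonneg ctx.herm ctx.kaehler hS he hyt (deriv (fun z => e (f z)) z₀) (S z₀)
  simp only [Complex.zero_re, add_zero]
  linarith

theorem discMet_of_thick [IsManifold 𝓘(ℂ, V n) ω X] (ctx : Ctx G) (hS : SecNonneg G) {f : ℂ → X}
    (hf : Hol n (closedBall (0 : ℂ) 1) f) {r : ℝ} {Φ : ℂ → V n → X} (hΦ : Thick f r Φ) :
    DiscMet (Bf G f Φ) := by
  refine ⟨fun z _ => Dmt_sesq ctx z, ?_, Dmt_cont ctx hf hΦ, Dmt_c2 ctx hf hΦ,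
    fun z₀ hz₀ u => Dmt_curv ctx hS hf hΦ hz₀ u⟩
  intro z hz a ha
  have he := chart_mem_atlas (V n) (f z)
  have hfe := mem_chart_source (V n) (f z)
  have hy : (chartAt (V n) (f z)) (f z) ∈ (chartAt (V n) (f z)).target :=
    (chartAt (V n) (f z)).map_source hfe
  apply ctx.herm.pos _ he _ hy
  intro h0
  apply ha
  apply (hΦ.inv z hz _ he hfe).1
  have h1 : fderiv ℂ (fun y' => (chartAt (V n) (f z)) (Φ z y')) 0 a = 0 := h0
  rw [h1, map_zero]

end KI
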