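import Pool.Agent.H49.KI.Ctx

/-! # Dc2: the squared norm of a holomorphic section

PROOF. `KB.Sesq.expand`, `KB.mform` (Pool/Agent/H49/KB/SQ.lean, Base.lean): for `w` in the closed ball,
`B w (η w) (η w) = ∑ i, ∑ j, B w (bv i) (bv j) * η w i * conj (η w j)`. `ContDiffAt ℝ 2`: `h.c2` near `z`
(the ball is open), `η` is entire so `ContDiff ℂ ⊤`, `restrict_scalars ℝ`, coordinates by
`EuclideanSpace.proj`, conj is a continuous real linear map; congruence near `z`
(`ContDiffAt.congr_of_eventuallyEq`). Continuity on the closed ball: `KB.Sesq.continuousOn`. -/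

set_option autoImplicit false

namespace KI

open Complex Metric Set Filter Topology Manifold ContDiff
open KB (V DR wirt levi rho Sesq lap lapC dz)

variable {n : ℕ}

theorem sec_c2 {B : ℂ → V n → V n → ℂ} (h : DiscMet B) {η : ℂ → V n} (hη : Differentiable ℂ η)
    {z : ℂ} (hz : z ∈ ball (0 : ℂ) 1) : ContDiffAt ℝ 2 (fun w => (B w (η w) (η w)).re) z := by
  have hηr : ContDiff ℝ 2 η := (hη.contDiff (n := 2)).restrict_scalars ℝ
  have hb : ball (0 : ℂ) 1 ∈ 𝓝 z := isOpen_ball.mem_nhds hz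
  have hcoord : ∀ i : Fin n, ContDiffAt ℝ 2 (fun w => (η w) i) z := by
    intro i
    exact (((EuclideanSpace.proj i : V n →L[ℂ] ℂ).restrictScalars ℝ).contDiff.comp hηr).contDiffAt
  have hconj : ∀ i : Fin n, ContDiffAt ℝ 2 (fun w => (starRingEnd ℂ) ((η w) i)) z := by
    intro i
    exact Complex.conjCLE.contDiff.contDiffAt.comp z (hcoord i)
  have h1 : ContDiffAt ℝ 2 (fun w => KB.mform (fun i j => B w (KB.bv i) (KB.bv j)) (η w) (η w)) z := by
    unfold KB.mform
    refine ContDiffAt.sum fun i _ => ContDiffAt.sum fun j _ => ?_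
    exact (((h.c2 (KB.bv i) (KB.bv j)).contDiffAt hb).mul (hcoord i)).mul (hconj j)
  have h2 : ContDiffAt ℝ 2
      (fun w => (KB.mform (fun i j => B w (KB.bv i) (KB.bv j)) (η w) (η w)).re) z :=
    Complex.reCLM.contDiff.contDiffAt.comp z h1
  refine h2.congr_of_eventuallyEq ?_
  filter_upwards [hb] with w hw
  rw [(h.sesq w (ball_subset_closedBall hw)).expand (η w) (η w)]

theorem sec_cont {B : ℂ → V n → V n → ℂ} (h : DiscMet B) {η : ℂ → V n}
    (hη : Differentiable ℂ η) :
    ContinuousOn (fun w => (B w (η w) (η w)).re) (closedBall 0 1) :=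
  Complex.continuous_re.comp_continuousOn
    (KB.Sesq.continuousOn h.sesq h.cont hη.continuous.continuousOn hη.continuous.continuousOn)

theorem sec_zero {B : ℂ → V n → V n → ℂ} (h : DiscMet B) {z : ℂ}
    (hz : z ∈ closedBall (0 : ℂ) 1) : (B z 0 0).re = 0 := by
  rw [(h.sesq z hz).zero_left]
  rfl

theorem sec_nonneg {B : ℂ → V n → V n → ℂ} (h : DiscMet B) {z : ℂ}
    (hz : z ∈ closedBall (0 : ℂ) 1) (a : V n) : 0 ≤ (B z a a).re := by
  by_cases ha : a = 0
  · rw [ha, sec_zero h hz]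
  · exact (h.pos z hz a ha).le

end KI
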