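import Pool.Agent.H50.KI.Avx
import Pool.Agent.H50.KI.Dc2

/-! # Int: the interior estimate -/

set_option autoImplicit false

namespace KI

open Complex Metric Set Filter Topology Manifold ContDiff
open KB (V DR wirt levi rho Sesq lap lapC dz)

variable {n : ℕ}

theorem avg4_norm_sq (z : ℂ) (ρ : ℝ) :
    avg4 (fun w => ‖w‖ ^ 2) z ρ = ‖z‖ ^ 2 + ρ ^ 2 := by
  unfold avg4
  simp only [← Complex.normSq_eq_norm_sq, Complex.normSq_apply, Complex.add_re, Complex.add_im,
    Complex.sub_re, Complex.sub_im, Complex.mul_re, Complex.mul_im, Complex.ofReal_re,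
    Complex.ofReal_im, Complex.I_re, Complex.I_im]
  ring

theorem avg4_le_of_forall {u : ℂ → ℝ} {z : ℂ} {ρ A : ℝ}
    (h : ∀ w : ℂ, dist w z ≤ |ρ| → u w ≤ A) : avg4 u z ρ ≤ A := by
  have e1 : dist (z + ρ) z ≤ |ρ| := by simp [dist_eq_norm]
  have e2 : dist (z + ρ * Complex.I) z ≤ |ρ| := by simp [dist_eq_norm]
  have e3 : dist (z - ρ) z ≤ |ρ| := by simp [dist_eq_norm]
  have e4 : dist (z - ρ * Complex.I) z ≤ |ρ| := by simp [dist_eq_norm]
  have h1 := h _ e1
  have h2 := h _ e2
  have h3 := h _ e3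
  have h4 := h _ e4
  unfold avg4
  linarith

/-- interior estimate; `m z ≥ 0` plays the role of `|f'(z)|²`, `ψ` of `-dist (f z) q`. -/
theorem interior {B : ℂ → V n → V n → ℂ} (h : DiscMet B) {m : ℂ → ℝ} {ψ : ℂ → ℝ} {C k : ℝ}
    (hC : 0 ≤ C) (hk : 0 < k) (hψ : ContinuousOn ψ (closedBall 0 1))
    (hlog : ∀ z ∈ ball (0 : ℂ) 1, ∀ η : ℂ → V n, Differentiable ℂ η → η z ≠ 0 →
      -(4 * C * m z) ≤ lap (fun w => Real.log (B w (η w) (η w)).re) z)
    (hψ2 : ∀ z ∈ ball (0 : ℂ) 1, ∀ ε : ℝ, 0 < ε → ∀ᶠ ρ in 𝓝[>] (0 : ℝ),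
      (k * m z - ε) * ρ ^ 2 ≤ avg4 ψ z ρ - ψ z)
    {a b : ℝ} (hab : ∀ z ∈ closedBall (0 : ℂ) 1, a ≤ ψ z ∧ ψ z ≤ b)
    {η : ℂ → V n} (hη : Differentiable ℂ η) {A : ℝ}
    (hA : ∀ z ∈ sphere (0 : ℂ) 1, (B z (η z) (η z)).re ≤ A) :
    ∀ z ∈ closedBall (0 : ℂ) 1, (B z (η z) (η z)).re ≤ Real.exp (C / k * (b - a)) * A := by
  set F : ℂ → ℝ := fun w => (B w (η w) (η w)).re with hF
  have hFc : ContinuousOn F (closedBall 0 1) := sec_cont h hη
  have hF0 : ∀ z ∈ closedBall (0 : ℂ) 1, 0 ≤ F z := fun z hz => sec_nonneg h hz _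
  have hA0 : 0 ≤ A := (hF0 1 (by simp)).trans (hA 1 (by simp))
  have hCk : 0 ≤ C / k := div_nonneg hC hk.le
  -- for every ε
  have key : ∀ ε : ℝ, 0 < ε → ∀ z ∈ closedBall (0 : ℂ) 1,
      F z ≤ Real.exp (C / k * (b - a) + ε) * A := by
    intro ε hε z hz
    set P : ℂ → ℝ := fun w => C / k * ψ w + ε * ‖w‖ ^ 2 with hP
    have hPc : ContinuousOn P (closedBall 0 1) := by
      have h1 : ContinuousOn (fun w : ℂ => ε * ‖w‖ ^ 2) (closedBall 0 1) := by fun_prop
      exact (hψ.const_mul _).add h1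
    set H : ℂ → ℝ := fun w => F w * Real.exp (P w) with hH
    have hHc : ContinuousOn H (closedBall 0 1) := hFc.mul (Real.continuous_exp.comp_continuousOn hPc)
    obtain ⟨z₀, hz₀, hmax⟩ := (isCompact_closedBall (0 : ℂ) 1).exists_isMaxOn
      ⟨0, mem_closedBall_self zero_le_one⟩ hHc
    have hmax' : ∀ w ∈ closedBall (0 : ℂ) 1, H w ≤ H z₀ := fun w hw => hmax hw
    -- the value at z₀ is controlled by the circle
    have hz₀b : H z₀ ≤ A * Real.exp (C / k * b + ε) := by
      rcases (hF0 z₀ hz₀).eq_or_lt with h0 | h0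
      · have : H z₀ = 0 := by simp only [hH, ← h0, zero_mul]
        rw [this]
        positivity
      by_cases hs : z₀ ∈ sphere (0 : ℂ) 1
      · have h1 : P z₀ ≤ C / k * b + ε := by
          have h2 := (hab z₀ hz₀).2
          have h3 : ‖z₀‖ = 1 := by rwa [mem_sphere_zero_iff_norm] at hs
          simp only [hP, h3]
          nlinarith
        exact mul_le_mul (hA z₀ hs) (Real.exp_le_exp.2 h1) (Real.exp_pos _).le hA0
      · exfalso
        have hzb : z₀ ∈ ball (0 : ℂ) 1 := by
          rw [mem_ball_zero_iff]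
          rw [mem_closedBall_zero_iff] at hz₀
          rw [mem_sphere_zero_iff_norm] at hs
          exact lt_of_le_of_ne hz₀ hs
        have hηz : η z₀ ≠ 0 := by
          intro h1
          rw [hF] at h0
          simp only [h1] at h0
          rw [sec_zero h hz₀] at h0
          exact lt_irrefl _ h0
        have hc2 : ContDiffAt ℝ 2 (fun w => Real.log (F w)) z₀ :=
          (sec_c2 h hη hzb).log h0.ne'
        have t1 := avg4_taylor hc2 (ε := ε / 4) (by positivity)
        have t2 := hψ2 z₀ hzb (ε / (4 * (C / k + 1))) (by positivity)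
        have t3 := hlog z₀ hzb η hη hηz
        -- a neighbourhood on which F > 0
        have t4 : ∀ᶠ w in 𝓝 z₀, w ∈ closedBall (0 : ℂ) 1 ∧ 0 < F w := by
          have h1 : closedBall (0 : ℂ) 1 ∈ 𝓝 z₀ := mem_of_superset (isOpen_ball.mem_nhds hzb)
            ball_subset_closedBall
          exact (eventually_mem_nhds_iff.2 h1 |>.mono fun w hw => mem_of_mem_nhds hw).and
            ((hFc.continuousAt h1).eventually_const_lt h0)
        obtain ⟨s, hs0, hsub⟩ := Metric.eventually_nhds_iff.1 t4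
        have t5 : ∀ᶠ ρ in 𝓝[>] (0 : ℝ), ρ < s :=
          (eventually_lt_nhds hs0).filter_mono nhdsWithin_le_nhds
        obtain ⟨ρ, ⟨⟨h1, h2⟩, h3⟩, h4⟩ := (((t1.and t2).and t5).and self_mem_nhdsWithin).exists
        have hρ : 0 < ρ := h4
        have hρs : |ρ| < s := by rwa [abs_of_pos hρ]
        -- u = log H near z₀
        have hu : ∀ w : ℂ, dist w z₀ ≤ |ρ| →
            Real.log (F w) + P w ≤ Real.log (F z₀) + P z₀ := by
          intro w hw
          obtain ⟨hw1, hw2⟩ := hsub (hw.trans_lt hρs)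
          have h5 := Real.log_le_log (by positivity : 0 < H w) (hmax' w hw1)
          simp only [hH] at h5
          rwa [Real.log_mul hw2.ne' (Real.exp_pos _).ne', Real.log_exp,
            Real.log_mul h0.ne' (Real.exp_pos _).ne', Real.log_exp] at h5
        have h6 := avg4_le_of_forall (u := fun w => Real.log (F w) + P w) hu
        have h7 : avg4 (fun w => Real.log (F w) + P w) z₀ ρ =
            avg4 (fun w => Real.log (F w)) z₀ ρ + C / k * avg4 ψ z₀ ρ +
              ε * avg4 (fun w => ‖w‖ ^ 2) z₀ ρ := by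
          unfold avg4
          simp only [hP]
          ring
        rw [h7, avg4_norm_sq] at h6
        simp only [hP] at h6
        have h8 := (abs_le.1 h1).1
        have h9 : C / k * ((k * m z₀ - ε / (4 * (C / k + 1))) * ρ ^ 2) ≤
            C / k * (avg4 ψ z₀ ρ - ψ z₀) := mul_le_mul_of_nonneg_left h2 hCk
        have h10 : C / k * (k * m z₀) = C * m z₀ := by
          field_simp
        have h11 : C / k * (ε / (4 * (C / k + 1))) ≤ ε / 4 := by
          have h12 : C / k * (ε / (4 * (C / k + 1))) = (C / k) / (C / k + 1) * (ε / 4) := by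
            field_simp
          rw [h12]
          have h13 : (C / k) / (C / k + 1) ≤ 1 := by
            rw [div_le_one (by positivity)]
            linarith
          nlinarith
        have h14 : 0 < ρ ^ 2 := by positivity
        have h15 : ρ ^ 2 / 4 * (-(4 * C * m z₀)) ≤ ρ ^ 2 / 4 *
            lap (fun w => Real.log (B w (η w) (η w)).re) z₀ :=
          mul_le_mul_of_nonneg_left t3 (by positivity)
        have h16 : C / k * ((k * m z₀ - ε / (4 * (C / k + 1))) * ρ ^ 2) =
            (C * m z₀ - C / k * (ε / (4 * (C / k + 1)))) * ρ ^ 2 := by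
          rw [← h10]
          ring
        rw [h16] at h9
        have h17 : C / k * (ε / (4 * (C / k + 1))) * ρ ^ 2 ≤ ε / 4 * ρ ^ 2 :=
          mul_le_mul_of_nonneg_right h11 h14.le
        have h18 : 0 < ε * ρ ^ 2 := by positivity
        nlinarith
    have h1 := hmax' z hz
    have h2 : C / k * a ≤ P z := by
      have h3 := (hab z hz).1
      simp only [hP]
      have h4 : 0 ≤ ε * ‖z‖ ^ 2 := by positivity
      nlinarith [mul_le_mul_of_nonneg_left h3 hCk]
    have h3 : F z * Real.exp (C / k * a) ≤ A * Real.exp (C / k * b + ε) :=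
      (mul_le_mul_of_nonneg_left (Real.exp_le_exp.2 h2) (hF0 z hz)).trans (h1.trans hz₀b)
    have h4 : A * Real.exp (C / k * b + ε) =
        (Real.exp (C / k * (b - a) + ε) * A) * Real.exp (C / k * a) := by
      have h5 : C / k * b + ε = (C / k * (b - a) + ε) + C / k * a := by ring
      rw [h5, Real.exp_add]
      ring
    rw [h4] at h3
    exact le_of_mul_le_mul_right h3 (Real.exp_pos _)
  intro z hz
  have hlim : Tendsto (fun ε : ℝ => Real.exp (C / k * (b - a) + ε) * A) (𝓝[>] 0)
      (𝓝 (Real.exp (C / k * (b - a) + 0) * A)) := by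
    refine Tendsto.mono_left ?_ nhdsWithin_le_nhds
    exact Continuous.tendsto (by fun_prop) 0
  rw [add_zero] at hlim
  exact ge_of_tendsto hlim (by
    filter_upwards [self_mem_nhdsWithin] with ε hε
    exact key ε hε z hz)

end KI
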