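import Pool.Agent.H50.KI.Frb
import Pool.Agent.H49.KI.TopE

/-! # Llg: lower bound for the Laplacian of the logarithm of the norm of a section

PROOF. `lap_log_formula`: for `F : ℂ → ℝ` of class `C²` at `z`, `F z > 0`:
`lap (log F) z = lap F z / F z - ((D_1 F z)² + (D_I F z)²) / (F z)²` (chain rule; `fderiv` of
`log F` is `F⁻¹ • fderiv F` near `z`, differentiate again by the quotient rule).
`lap_log`: `e = chartAt (V n) (f z)`, `y w = e (f w)`, `S w = frm Φ e w (η w)` (analytic at `z`: sum over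
`bv i` of `η w i • frm Φ e w (bv i)`, `frm_holo`, `KB.sum_bv`); near `z`, `f w ∈ e.source` and (`Bf_chart`)
`Bf G f Φ w (η w) (η w) = G e (y w) (S w) (S w)`. Let `N = deriv S z + Gam G e (y z) (deriv y z) (S z)`,
`F w = (G e (y w) (S w) (S w)).re`, `F z > 0` (`S z ≠ 0` by `hΦ.inv`). `lf_lap`:
`lap F z = 4 (-bkN(y', S) + (G(N, N)).re)`. `lf_dz` with `T = S`: `dz (G(S,S)) z = G(N, S)`; `G(S,S)` is real
(`KB.Sesq.im_diag`), so `dz = (1/2)(D_1 F - I D_I F)` and `(D_1 F)² + (D_I F)² = 4 |G(N,S)|²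
≤ 4 (G(N,N)).re F` (`KB.Sesq.cs`). So `lap log F ≥ -4 bkN(y', S)/F z ≥ -4 C (G(y',y')).re` by `hC`
(`bkN G e y a b ≤ C (G a a).re (G b b).re` with `a = y'`, `b = S`, `(G(S,S)).re = F z`), and
`(G e (y z) y' y').re = vsq G f z` by definition of `vsq`. -/

set_option autoImplicit false

namespace KI

open Complex Metric Set Filter Topology Manifold ContDiff
open KB (V DR wirt levi rho Sesq lap lapC dz)

theorem lap_log_formula {F : ℂ → ℝ} {z : ℂ} (hF : ContDiffAt ℝ 2 F z) (h0 : 0 < F z) :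
    lap (fun w => Real.log (F w)) z =
      lap F z / F z - ((fderiv ℝ F z 1) ^ 2 + (fderiv ℝ F z Complex.I) ^ 2) / (F z) ^ 2 := by
  have key : ∀ v : ℂ, fderiv ℝ (fun y => fderiv ℝ (fun w => Real.log (F w)) y v) z v =
      fderiv ℝ (fun y => fderiv ℝ F y v) z v / F z - (fderiv ℝ F z v) ^ 2 / (F z) ^ 2 := by
    intro v
    have h1 : (fun y => fderiv ℝ (fun w => Real.log (F w)) y v) =ᶠ[𝓝 z]
        fun y => (F y)⁻¹ * fderiv ℝ F y v := by
      have hpos : ∀ᶠ y in 𝓝 z, 0 < F y :=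
        hF.continuousAt.eventually (lt_mem_nhds h0)
      filter_upwards [KB.SB1_ev hF, hpos] with y hy hy0
      have h2 : HasFDerivAt (fun w => Real.log (F w)) ((F y)⁻¹ • fderiv ℝ F y) y :=
        hy.hasFDerivAt.log hy0.ne'
      rw [h2.fderiv]
      simp
    rw [h1.fderiv_eq]
    have hd : DifferentiableAt ℝ F z := hF.differentiableAt (by norm_num)
    have h3 : HasFDerivAt (fun y => (F y)⁻¹) (-((F z) ^ 2)⁻¹ • fderiv ℝ F z) z :=
      (hasDerivAt_inv h0.ne').comp_hasFDerivAt z hd.hasFDerivAt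
    have h4 := (KB.SB1_df hF v).hasFDerivAt
    have h5 := h3.mul h4
    have h6 : fderiv ℝ (fun y => (F y)⁻¹ * fderiv ℝ F y v) z = _ := h5.fderiv
    rw [h6]
    simp only [add_apply, smul_apply, smul_eq_mul]
    field_simp
    ring
  unfold lap
  rw [key 1, key Complex.I]
  ring

variable {n : ℕ} {X : Type} [MetricSpace X] [ChartedSpace (V n) X]
  {G : OpenPartialHomeomorph X (V n) → V n → V n → V n → ℂ}

private theorem LLG_contDiff {n : ℕ} {A : ℂ → V n → V n → ℂ} {S : ℂ → V n} {z : ℂ}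
    (hs : ∀ᶠ w in 𝓝 z, Sesq (A w))
    (hA : ∀ a b, ContDiffAt ℝ 2 (fun w => A w a b) z) (hS : AnalyticAt ℂ S z) :
    ContDiffAt ℝ 2 (fun w => A w (S w) (S w)) z := by
  have h1 : (fun w => A w (S w) (S w)) =ᶠ[𝓝 z]
      fun w => KB.mform (fun i j => A w (KB.bv i) (KB.bv j)) (S w) (S w) := by
    filter_upwards [hs] with w hw
    exact hw.expand _ _
  refine ContDiffAt.congr_of_eventuallyEq ?_ h1
  unfold KB.mform
  have hSi : ∀ i, ContDiffAt ℝ 2 (fun w => S w i) z := by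
    intro i
    have h2 : ContDiffAt ℝ 2 S z := (hS.contDiffAt (n := 2)).restrict_scalars ℝ
    have h3 : ContDiff ℝ 2 (fun v : V n => v i) :=
      ((EuclideanSpace.proj i : V n →L[ℂ] ℂ).restrictScalars ℝ).contDiff
    exact h3.contDiffAt.comp z h2
  refine ContDiffAt.sum fun i _ => ContDiffAt.sum fun j _ => ?_
  refine ((hA _ _).mul (hSi i)).mul ?_
  have h4 : ContDiff ℝ 2 (fun c : ℂ => (starRingEnd ℂ) c) := Complex.conjCLE.contDiff
  exact h4.contDiffAt.comp z (hSi j)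

theorem lap_log [IsManifold 𝓘(ℂ, V n) ω X] (ctx : Ctx G) {f : ℂ → X}
    (hf : Hol n (closedBall (0 : ℂ) 1) f) {r : ℝ} {Φ : ℂ → V n → X} (hΦ : Thick f r Φ)
    {K : Set X} {C : ℝ}
    (hC : ∀ e ∈ atlas (V n) X, ∀ y ∈ e.target, e.symm y ∈ K → ∀ a b,
      bkN G e y a b ≤ C * (G e y a a).re * (G e y b b).re)
    (hfK : ∀ z ∈ closedBall (0 : ℂ) 1, f z ∈ K) {z : ℂ} (hz : z ∈ ball (0 : ℂ) 1)
    {η : ℂ → V n} (hη : Differentiable ℂ η) (hηz : η z ≠ 0) :
    -(4 * C * vsq G f z) ≤ lap (fun w => Real.log (Bf G f Φ w (η w) (η w)).re) z := by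
  have hG := ctx.herm
  set e := chartAt (V n) (f z) with hedef
  have he : e ∈ atlas (V n) X := chart_mem_atlas _ _
  have hfe : f z ∈ e.source := mem_chart_source _ _
  have hzc : z ∈ closedBall (0 : ℂ) 1 := ball_subset_closedBall hz
  have hball : ∀ᶠ w in 𝓝 z, w ∈ ball (0 : ℂ) 1 := isOpen_ball.mem_nhds hz
  have hfcont : ContinuousAt f z :=
    (hf.cont z hzc).continuousAt (Filter.mem_of_superset (isOpen_ball.mem_nhds hz)
      ball_subset_closedBall)
  have hsrc : ∀ᶠ w in 𝓝 z, f w ∈ e.source :=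
    hfcont.eventually (e.open_source.mem_nhds hfe)
  -- the disc in the chart
  have hyan : AnalyticAt ℂ (fun w => e (f w)) z := by
    rw [Complex.analyticAt_iff_eventually_differentiableAt]
    filter_upwards [hball, hsrc] with w hw hws
    exact hf.diff w (by rwa [interior_closedBall (0 : ℂ) one_ne_zero]) e he hws
  have hyt : e (f z) ∈ e.target := e.map_source hfe
  -- the section
  have hSan : AnalyticAt ℂ (fun w => frm Φ e w (η w)) z := by
    have h1 : (fun w => frm Φ e w (η w)) = fun w => ∑ i, (η w i) • frm Φ e w (KB.bv i) := by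
      funext w
      conv_lhs => rw [KB.sum_bv (η w)]
      rw [map_sum]
      exact Finset.sum_congr rfl fun i _ => by rw [map_smul]
    rw [h1]
    refine Finset.analyticAt_fun_sum _ fun i _ => ?_
    refine AnalyticAt.fun_smul ?_ (frm_holo hΦ hz he hfe _)
    have h2 : AnalyticAt ℂ η z := hη.analyticAt z
    exact ((EuclideanSpace.proj i : V n →L[ℂ] ℂ).analyticAt (η z)).comp h2
  have hS0 : frm Φ e z (η z) ≠ 0 := by
    intro h0
    have hb := (hΦ.inv z hzc e he hfe).1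
    have : frm Φ e z (η z) = frm Φ e z 0 := by rw [h0, map_zero]
    exact hηz (hb this)
  have hsesq : ∀ᶠ w in 𝓝 z, Sesq (G e (e (f w))) := by
    filter_upwards [hsrc] with w hw
    exact G_sesq hG he (e.map_source hw)
  have hsz : Sesq (G e (e (f z))) := G_sesq hG he hyt
  set F : ℂ → ℝ := fun w => (G e (e (f w)) (frm Φ e w (η w)) (frm Φ e w (η w))).re with hFdef
  have hcongr : (fun w => Real.log (Bf G f Φ w (η w) (η w)).re) =ᶠ[𝓝 z]
      fun w => Real.log (F w) := by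
    filter_upwards [hball, hsrc] with w hw hws
    rw [Bf_chart ctx hΦ (ball_subset_closedBall hw) he hws]
  rw [KB.lap_congr hcongr]
  have hFpos : 0 < F z := hG.pos e he _ hyt _ hS0
  have hFc : ContDiffAt ℝ 2
      (fun w => G e (e (f w)) (frm Φ e w (η w)) (frm Φ e w (η w))) z := by
    refine LLG_contDiff hsesq ?_ hSan
    intro a b
    have h1 : ContDiffAt ℝ 2 (fun y => G e y a b) (e (f z)) :=
      ((hG.smooth e he a b).contDiffAt (e.open_target.mem_nhds hyt)).of_le (WithTop.coe_le_coe.2 (le_top : (2 : ℕ∞) ≤ ⊤))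
    have h2 : ContDiffAt ℝ 2 (fun w => e (f w)) z :=
      (hyan.contDiffAt (n := 2)).restrict_scalars ℝ
    exact h1.comp z h2
  have hFsm : ContDiffAt ℝ 2 F z := by
    have h1 : ContDiff ℝ 2 (fun c : ℂ => c.re) := Complex.reCLM.contDiff
    exact h1.contDiffAt.comp z hFc
  rw [lap_log_formula hFsm hFpos]
  -- the derivatives
  have hlap := lf_lap hG ctx.kaehler he hyan hSan hyt
  have hdz := lf_dz hG ctx.kaehler he hyan hSan hSan hyt
  set y' : V n := deriv (fun w => e (f w)) z with hy'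
  set Sz : V n := frm Φ e z (η z) with hSz
  set N : V n := deriv (fun w => frm Φ e w (η w)) z + Gam G e (e (f z)) y' Sz with hN
  have hreal : (fun w => G e (e (f w)) (frm Φ e w (η w)) (frm Φ e w (η w))) =ᶠ[𝓝 z]
      fun w => ((F w : ℝ) : ℂ) := by
    filter_upwards [hsesq] with w hw
    exact hw.ofReal_diag _
  have hfd : ∀ v : ℂ, fderiv ℝ
      (fun w => G e (e (f w)) (frm Φ e w (η w)) (frm Φ e w (η w))) z v =
      ((fderiv ℝ F z v : ℝ) : ℂ) := by
    intro v
    rw [hreal.fderiv_eq]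
    have h1 : HasFDerivAt F (fderiv ℝ F z) z :=
      (hFsm.differentiableAt (by norm_num)).hasFDerivAt
    have h2 := (Complex.ofRealCLM.hasFDerivAt (x := F z)).comp z h1
    have h3 : fderiv ℝ (fun w => ((F w : ℝ) : ℂ)) z = _ := h2.fderiv
    rw [h3]
    rfl
  have hcs := hsz.cs (fun a => by
    by_cases ha : a = 0
    · rw [ha, hsz.zero_left]; simp
    · exact (hG.pos e he _ hyt a ha).le) N Sz
  have hdz2 : G e (e (f z)) N Sz = (1 / 2 : ℂ) * (((fderiv ℝ F z 1 : ℝ) : ℂ) -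
      Complex.I * ((fderiv ℝ F z Complex.I : ℝ) : ℂ)) := by
    rw [← hdz]
    unfold dz
    rw [hfd 1, hfd Complex.I]
  have hnorm : ‖G e (e (f z)) N Sz‖ ^ 2 =
      ((fderiv ℝ F z 1) ^ 2 + (fderiv ℝ F z Complex.I) ^ 2) / 4 := by
    rw [hdz2, norm_mul, mul_pow, ← Complex.normSq_eq_norm_sq (_ - _), Complex.normSq_apply]
    simp
    ring
  rw [hnorm] at hcs
  have hFz : F z = (G e (e (f z)) Sz Sz).re := rfl
  have hlap' : lap F z = 4 * (-bkN G e (e (f z)) y' Sz + (G e (e (f z)) N N).re) := hlap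
  have hbk : bkN G e (e (f z)) y' Sz ≤ C * (G e (e (f z)) y' y').re * (G e (e (f z)) Sz Sz).re :=
    hC e he _ hyt (by rw [e.left_inv hfe]; exact hfK z hzc) _ _
  have hvsq : vsq G f z = (G e (e (f z)) y' y').re := rfl
  rw [hvsq, hlap']
  rw [← hFz] at hcs hbk
  set D := (fderiv ℝ F z 1) ^ 2 + (fderiv ℝ F z Complex.I) ^ 2 with hD
  set g := (G e (e (f z)) N N).re
  set b := bkN G e (e (f z)) y' Sz
  set v := (G e (e (f z)) y' y').re
  have h1 : D / (F z) ^ 2 ≤ 4 * g / F z := by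
    rw [div_le_div_iff₀ (by positivity) hFpos]
    nlinarith
  have h2 : b / F z ≤ C * v := by
    rw [div_le_iff₀ hFpos]
    exact hbk
  have h3 : 4 * (-b + g) / F z = -(4 * (b / F z)) + 4 * g / F z := by ring
  rw [h3]
  linarith

end KI
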