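import Pool.Agent.H49.KI.Ctx

/-! # Dcm: comparison of a metric and its dilation on the circle

PROOF. Compactness of `closedBall 0 1 × sphere (0 : V n) 1`: the function `(z, a) ↦ (B z a a).re` is
continuous there (`KB.Sesq.continuousOn`, Pool/Agent/H49/KB/SQ.lean, applied to functions on
`ℂ × V n`) and positive, so `≥ c > 0` (if the unit sphere of `V n` is empty, `n = 0`, every `a` is 0 and
both sides vanish), and uniformly continuous: there is `σ > 0` with
`|(B z a a).re - (B z' a a).re| ≤ ε c` for `|z - z'| ≤ σ`, `z, z'` in the closed ball, `‖a‖ = 1`.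
Take `ρ = max (1 - σ) (1/2)` (so `|z - ρ z| = 1 - ρ ≤ σ` on the circle): for `‖a‖ = 1`,
`(B z a a).re ≤ (B (ρ z) a a).re + ε c ≤ (1 + ε) (B (ρ z) a a).re`; homogeneity
(`KB.Sesq.smul_diag`) gives all `a ≠ 0`, and `a = 0` is trivial. -/

set_option autoImplicit false

namespace KI

open Complex Metric Set Filter Topology Manifold ContDiff
open KB (V DR wirt levi rho Sesq lap lapC dz)

variable {n : ℕ}

theorem Dcm_sphere {B : ℂ → V n → V n → ℂ} (h : DiscMet B) {ε : ℝ} (hε : 0 < ε) :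
    ∃ ρ : ℝ, 0 < ρ ∧ ρ < 1 ∧ ∀ z ∈ sphere (0 : ℂ) 1, ∀ a : V n, ‖a‖ = 1 →
      (B z a a).re ≤ (1 + ε) * (B (ρ * z) a a).re := by
  set K : Set (ℂ × V n) := closedBall (0 : ℂ) 1 ×ˢ sphere (0 : V n) 1 with hK
  have hKc : IsCompact K := (isCompact_closedBall (0 : ℂ) 1).prod (isCompact_sphere (0 : V n) 1)
  set g : ℂ × V n → ℝ := fun q => (B q.1 q.2 q.2).re with hg
  have hgc : ContinuousOn g K := by
    have h1 : ContinuousOn (fun q : ℂ × V n => B q.1 q.2 q.2) K :=
      KB.Sesq.continuousOn (A := fun q : ℂ × V n => B q.1) (a := fun q => q.2) (b := fun q => q.2)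
        (fun q hq => h.sesq q.1 hq.1)
        (fun a b => (h.cont a b).comp continuousOn_fst (fun q hq => hq.1))
        continuousOn_snd continuousOn_snd
    exact Complex.continuous_re.comp_continuousOn h1
  rcases K.eq_empty_or_nonempty with hemp | hne
  · refine ⟨1 / 2, by norm_num, by norm_num, fun z hz a ha => ?_⟩
    exfalso
    have : (z, a) ∈ K := ⟨sphere_subset_closedBall hz, by simpa using ha⟩
    rw [hemp] at this
    exact this
  · obtain ⟨q0, hq0, hmin⟩ := hKc.exists_isMinOn hne hgc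
    have hc : 0 < g q0 := by
      apply h.pos q0.1 hq0.1 q0.2
      intro h0
      have h1 : ‖q0.2‖ = 1 := by simpa using hq0.2
      rw [h0, norm_zero] at h1
      exact zero_ne_one h1
    have huc := hKc.uniformContinuousOn_of_continuous hgc
    rw [Metric.uniformContinuousOn_iff] at huc
    obtain ⟨δ, hδ, hδ'⟩ := huc (ε * g q0) (mul_pos hε hc)
    set ρ : ℝ := max (1 - δ / 2) (1 / 2) with hρ
    have hρ0 : 0 < ρ := lt_of_lt_of_le (by norm_num) (le_max_right _ _)
    have hρ1 : ρ < 1 := max_lt (by linarith) (by norm_num)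
    refine ⟨ρ, hρ0, hρ1, fun z hz a ha => ?_⟩
    have hz1 : ‖z‖ = 1 := by simpa using hz
    have hz' : (ρ : ℂ) * z ∈ closedBall (0 : ℂ) 1 := by
      rw [mem_closedBall, dist_zero_right, norm_mul, Complex.norm_real, Real.norm_of_nonneg hρ0.le,
        hz1, mul_one]
      exact hρ1.le
    have m1 : (z, a) ∈ K := ⟨sphere_subset_closedBall hz, by simpa using ha⟩
    have m2 : ((ρ : ℂ) * z, a) ∈ K := ⟨hz', by simpa using ha⟩
    have hdist : dist (z, a) ((ρ : ℂ) * z, a) < δ := by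
      rw [Prod.dist_eq, dist_self, max_eq_left dist_nonneg, dist_eq_norm]
      have e1 : z - (ρ : ℂ) * z = ((1 - ρ : ℝ) : ℂ) * z := by push_cast; ring
      rw [e1, norm_mul, hz1, mul_one, Complex.norm_real, Real.norm_of_nonneg (by linarith)]
      have : 1 - δ / 2 ≤ ρ := le_max_left _ _
      linarith
    have h1 := hδ' _ m1 _ m2 hdist
    rw [Real.dist_eq, abs_lt] at h1
    have h2 : g q0 ≤ g ((ρ : ℂ) * z, a) := hmin m2
    have h3 : g (z, a) ≤ g ((ρ : ℂ) * z, a) + ε * g ((ρ : ℂ) * z, a) := by nlinarith [h1.2]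
    calc (B z a a).re = g (z, a) := rfl
      _ ≤ g ((ρ : ℂ) * z, a) + ε * g ((ρ : ℂ) * z, a) := h3
      _ = (1 + ε) * g ((ρ : ℂ) * z, a) := by ring
      _ = (1 + ε) * (B (ρ * z) a a).re := rfl

theorem dil_le {B : ℂ → V n → V n → ℂ} (h : DiscMet B) {ε : ℝ} (hε : 0 < ε) :
    ∃ ρ : ℝ, 0 < ρ ∧ ρ < 1 ∧ ∀ z ∈ sphere (0 : ℂ) 1, ∀ a,
      (B z a a).re ≤ (1 + ε) * (B (ρ * z) a a).re := by
  obtain ⟨ρ, hρ0, hρ1, hρ⟩ := Dcm_sphere h hε
  refine ⟨ρ, hρ0, hρ1, fun z hz a => ?_⟩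
  have hz1 : ‖z‖ = 1 := by simpa using hz
  have hz' : (ρ : ℂ) * z ∈ closedBall (0 : ℂ) 1 := by
    rw [mem_closedBall, dist_zero_right, norm_mul, Complex.norm_real, Real.norm_of_nonneg hρ0.le,
      hz1, mul_one]
    exact hρ1.le
  have s1 : Sesq (B z) := h.sesq z (sphere_subset_closedBall hz)
  have s2 : Sesq (B (ρ * z)) := h.sesq _ hz'
  by_cases ha : a = 0
  · rw [ha, s1.zero_left, s2.zero_left]
    simp
  · have hna : 0 < ‖a‖ := norm_pos_iff.mpr ha
    set b : V n := ((‖a‖⁻¹ : ℝ) : ℂ) • a with hb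
    have hb1 : ‖b‖ = 1 := by
      rw [hb, norm_smul, Complex.norm_real, Real.norm_of_nonneg (by positivity)]
      exact inv_mul_cancel₀ hna.ne'
    have hab : a = ((‖a‖ : ℝ) : ℂ) • b := by
      rw [hb, smul_smul, ← Complex.ofReal_mul, mul_inv_cancel₀ hna.ne', Complex.ofReal_one, one_smul]
    have h1 := hρ z hz b hb1
    rw [hab, s1.smul_diag, s2.smul_diag]
    have h2 : 0 ≤ ‖((‖a‖ : ℝ) : ℂ)‖ ^ 2 := by positivity
    nlinarith [mul_le_mul_of_nonneg_left h1 h2]

end KI
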