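import Pool.Agent.H50.KI.Dil
import Pool.Agent.H50.KI.Dcm

/-! # St1: step 1 for `DiscMet` -/

set_option autoImplicit false

namespace KI

open Complex Metric Set Filter Topology Manifold ContDiff
open KB (V DR wirt levi rho Sesq lap lapC dz)

variable {n : ℕ}

/-- `KB.step1` with `P = id`: the section is entire. -/
theorem step1e {B : ℂ → V n → V n → ℂ}
    (h : KB.DiscData (fun _ => ContinuousLinearMap.id ℂ (V n)) B) (w : V n) (ε : ℝ)
    (hε : 0 < ε) :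
    ∃ η : ℂ → V n, Differentiable ℂ η ∧ η 0 = w ∧
      ∀ z ∈ sphere (0 : ℂ) 1, (B z (η z) (η z)).re ≤ (B 0 w w).re + ε := by
  have h0 : (0 : ℂ) ∈ closedBall (0 : ℂ) 1 := mem_closedBall_self zero_le_one
  have hsc : ∀ z ∈ sphere (0 : ℂ) 1, z ∈ closedBall (0 : ℂ) 1 := fun z hz =>
    sphere_subset_closedBall hz
  have hw : (ContinuousLinearMap.id ℂ (V n)) w = w := rfl
  have hc0 := KB.ST1_re_nonneg h h0 w
  set e : ℝ := ε / ((B 0 w w).re + 1) with he
  have he0 : 0 < e := by positivity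
  have he1 : (1 + e) * (B 0 w w).re + e = (B 0 w w).re + ε := by
    rw [he]
    field_simp
    ring
  obtain ⟨y, d, T, m, a, b, hy0, hT, hna, hbn, hAT, hmean⟩ :=
    KB.hardy (KB.ST1A (fun _ => ContinuousLinearMap.id ℂ (V n)) B)
    (fun z hz => KB.ST1A_sesq h (hsc z hz)) (fun z hz => KB.ST1A_pos h (hsc z hz))
    (fun a b => (KB.ST1A_cont h a b).mono sphere_subset_closedBall) w (B 0 w w).re hc0
    (fun om q hom hq => KB.ST1_hsub h w hw om q hom hq) e he0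
  have hT0 : ∀ z : ℂ, ‖z‖ = 1 → 0 ≤ (T z).re := by
    intro z hz
    have hz' : z ∈ sphere (0 : ℂ) 1 := by rwa [mem_sphere_zero_iff_norm]
    refine le_trans ?_ (hAT z hz')
    rw [KB.ST1A_diag_re]
    have := KB.ST1_re_nonneg h (hsc z hz') (KB.vp y d z)
    positivity
  obtain ⟨E, hEd, hE0, hE⟩ := KB.jensen hT hT0 m hna hbn e he0
  refine ⟨fun z => E z • KB.vp y d z, ?_, ?_, ?_⟩
  · exact hEd.smul (KB.ST1_vp_diff y d)
  · show E 0 • (KB.vp y d 0) = w
    rw [hE0, one_smul, KB.ST1_vp_zero, hy0]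
  · intro z hz
    have hz1 : ‖z‖ = 1 := by rwa [mem_sphere_zero_iff_norm] at hz
    show (B z (E z • KB.vp y d z) (E z • KB.vp y d z)).re ≤ (B 0 w w).re + ε
    rw [(h.sesq z (hsc z hz)).smul_diag]
    have h1 := hAT z hz
    rw [KB.ST1A_diag_re] at h1
    have h2 : (B z (KB.vp y d z) (KB.vp y d z)).re ≤ (T z).re := by
      have := sq_nonneg ‖KB.vp y d z - (ContinuousLinearMap.id ℂ (V n)) (KB.vp y d z)‖
      linarith
    have h3 : ‖E z‖ ^ 2 * (B z (KB.vp y d z) (KB.vp y d z)).re ≤ ‖E z‖ ^ 2 * (T z).re :=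
      mul_le_mul_of_nonneg_left h2 (sq_nonneg _)
    have h4 := hE z hz1
    linarith

theorem step1' {B : ℂ → V n → V n → ℂ} (h : DiscMet B) (w : V n) {ε : ℝ} (hε : 0 < ε) :
    ∃ η : ℂ → V n, Differentiable ℂ η ∧ η 0 = w ∧
      ∀ z ∈ sphere (0 : ℂ) 1, (B z (η z) (η z)).re ≤ (B 0 w w).re + ε := by
  have h0 : (0 : ℂ) ∈ closedBall (0 : ℂ) 1 := mem_closedBall_self zero_le_one
  have hc0 : 0 ≤ (B 0 w w).re := by
    by_cases hw : w = 0
    · rw [hw, (h.sesq 0 h0).zero_left]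
      simp
    · exact (h.pos 0 h0 w hw).le
  set e : ℝ := min 1 (ε / (2 * ((B 0 w w).re + 1))) with he
  have he0 : 0 < e := by positivity
  have he1 : e ≤ 1 := min_le_left _ _
  have he2 : e * ((B 0 w w).re + 1) ≤ ε / 2 := by
    have h1 : e ≤ ε / (2 * ((B 0 w w).re + 1)) := min_le_right _ _
    have h2 : ε / (2 * ((B 0 w w).re + 1)) * ((B 0 w w).re + 1) = ε / 2 := by
      field_simp
    calc e * ((B 0 w w).re + 1) ≤ ε / (2 * ((B 0 w w).re + 1)) * ((B 0 w w).re + 1) :=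
          mul_le_mul_of_nonneg_right h1 (by linarith)
      _ = ε / 2 := h2
  obtain ⟨ρ, hρ0, hρ1, hρ⟩ := dil_le h he0
  obtain ⟨η, hη1, hη2, hη3⟩ := step1e (dil h hρ0 hρ1) w (ε / 4) (by positivity)
  refine ⟨η, hη1, hη2, fun z hz => ?_⟩
  have h1 := hρ z hz (η z)
  have h2 := hη3 z hz
  simp only [mul_zero] at h2
  have h3 : (1 + e) * (B (ρ * z) (η z) (η z)).re ≤ (1 + e) * ((B 0 w w).re + ε / 4) :=
    mul_le_mul_of_nonneg_left h2 (by linarith)
  nlinarith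

end KI
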