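import Pool.Agent.H49.KI.Ctx

/-! # Avx: four point means of a `C²` function

PROOF. It is enough to prove, for `e = 1` and `e = I`, that
`|F (z + ρ e) + F (z - ρ e) - 2 F z - ρ² D_e D_e F (z)| ≤ ε ρ²` for small `ρ > 0` and add (`avg4` is the mean
of the four values; `lap F z = D_1 D_1 F + D_I D_I F`). For fixed `e`, let
`g t = F (z + t e) + F (z - t e) - 2 F z - t² c`, `c = D_e D_e F (z)`: `g 0 = 0`, and
`g' t = D_e F (z + t e) - D_e F (z - t e) - 2 t c` for small `t` (`F` differentiable near `z`,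
`KB.SB1_ev`), and `|g' t| ≤ ε t` for small `t ≥ 0` because `y ↦ D_e F y` is differentiable at `z`
(`KB.SB1_df`), with derivative `c` in the direction `e`. So `|g ρ| ≤ ε ρ²` by the mean value
inequality on `[0, ρ]`. -/

set_option autoImplicit false

namespace KI

open Complex Metric Set Filter Topology Manifold ContDiff
open KB (V DR wirt levi rho Sesq lap lapC dz)

theorem Avx_dir {F : ℂ → ℝ} {z : ℂ} (hF : ContDiffAt ℝ 2 F z) (e : ℂ) {ε : ℝ} (hε : 0 < ε) :
    ∀ᶠ ρ : ℝ in 𝓝[>] (0 : ℝ), |F (z + ρ * e) + F (z - ρ * e) - 2 * F z -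
      ρ ^ 2 * fderiv ℝ (fun y => fderiv ℝ F y e) z e| ≤ ε * ρ ^ 2 := by
  obtain ⟨c, hc⟩ : ∃ c, c = fderiv ℝ (fun y => fderiv ℝ F y e) z e := ⟨_, rfl⟩
  rw [← hc]
  have hline : ∀ t : ℝ, HasDerivAt (fun t : ℝ => z + t * e) e t := by
    intro t
    have h := ((Complex.ofRealCLM.hasDerivAt (x := t)).mul_const e).const_add z
    simpa using h
  have hlin0 : Tendsto (fun t : ℝ => z + t * e) (𝓝 0) (𝓝 z) := by
    have h := (hline 0).continuousAt.tendsto
    simpa using h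
  -- the derivative of `F` near `z`
  have hev : ∀ᶠ t : ℝ in 𝓝 (0 : ℝ), DifferentiableAt ℝ F (z + t * e) :=
    hlin0.eventually (KB.SB1_ev hF)
  -- the derivative of the derivative
  have hd : HasDerivAt (fun t : ℝ => fderiv ℝ F (z + t * e) e) c 0 := by
    have h1 : HasFDerivAt (fun y => fderiv ℝ F y e) (fderiv ℝ (fun y => fderiv ℝ F y e) z)
        (z + ((0 : ℝ) : ℂ) * e) := by
      simpa using (KB.SB1_df hF e).hasFDerivAt
    have h2 := h1.comp_hasDerivAt (0 : ℝ) (hline 0)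
    rw [← hc] at h2
    exact h2
  have hlit := hd.isLittleO.def (show (0 : ℝ) < ε / 2 by positivity)
  obtain ⟨δ, hδ, hball⟩ := Metric.eventually_nhds_iff.1 (hev.and hlit)
  have hδ' : ∀ t : ℝ, |t| < δ → DifferentiableAt ℝ F (z + t * e) ∧
      |fderiv ℝ F (z + t * e) e - fderiv ℝ F z e - t * c| ≤ ε / 2 * |t| := by
    intro t ht
    have h1 := hball (y := t) (by simpa [Real.dist_eq] using ht)
    refine ⟨h1.1, ?_⟩
    have h2 := h1.2
    simpa using h2
  have hsmall : ∀ᶠ ρ in 𝓝[>] (0 : ℝ), ρ ∈ Ioo 0 δ := Ioo_mem_nhdsGT hδ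
  filter_upwards [hsmall] with ρ hρ
  have hder : ∀ t ∈ Icc (0 : ℝ) ρ, HasDerivWithinAt
      (fun t : ℝ => F (z + t * e) + F (z - t * e) - 2 * F z - t ^ 2 * c)
      (fderiv ℝ F (z + t * e) e - fderiv ℝ F (z - t * e) e - 2 * t * c) (Icc 0 ρ) t := by
    intro t ht
    have h1 : |t| < δ := by
      rw [abs_of_nonneg ht.1]
      exact lt_of_le_of_lt ht.2 hρ.2
    have h2 : |-t| < δ := by rwa [abs_neg]
    have h3 := (hδ' t h1).1.hasFDerivAt.comp_hasDerivAt t (hline t)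
    have h4 : HasDerivAt (fun t : ℝ => z - t * e) (-e) t := by
      have h := ((Complex.ofRealCLM.hasDerivAt (x := t)).mul_const e).const_sub z
      simpa using h
    have h5 : DifferentiableAt ℝ F (z - t * e) := by
      have h := (hδ' (-t) h2).1
      simpa [sub_eq_add_neg] using h
    have h6 := h5.hasFDerivAt.comp_hasDerivAt t h4
    have h7 : HasDerivAt (fun t : ℝ => t ^ 2 * c) (2 * t * c) t := by
      have h := (hasDerivAt_pow 2 t).mul_const c
      simpa using h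
    have h8 := ((h3.add h6).sub_const (2 * F z)).sub h7
    rw [map_neg, ← sub_eq_add_neg] at h8
    exact h8.hasDerivWithinAt
  have hbound : ∀ t ∈ Ico (0 : ℝ) ρ,
      ‖fderiv ℝ F (z + t * e) e - fderiv ℝ F (z - t * e) e - 2 * t * c‖ ≤ ε * ρ := by
    intro t ht
    have h1 : |t| < δ := by
      rw [abs_of_nonneg ht.1]
      exact lt_trans ht.2 hρ.2
    have h2 : |-t| < δ := by rwa [abs_neg]
    have h3 := (hδ' t h1).2
    have h4 := (hδ' (-t) h2).2
    have h5 : z + ((-t : ℝ) : ℂ) * e = z - t * e := by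
      push_cast
      ring
    rw [h5, abs_neg] at h4
    have h6 : fderiv ℝ F (z + t * e) e - fderiv ℝ F (z - t * e) e - 2 * t * c =
        (fderiv ℝ F (z + t * e) e - fderiv ℝ F z e - t * c) -
          (fderiv ℝ F (z - t * e) e - fderiv ℝ F z e - -t * c) := by ring
    rw [h6]
    refine (norm_sub_le _ _).trans ?_
    rw [Real.norm_eq_abs, Real.norm_eq_abs]
    rw [abs_of_nonneg ht.1] at h3 h4
    nlinarith [ht.2]
  have hmv := norm_image_sub_le_of_norm_deriv_le_segment' hder hbound ρ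
    (right_mem_Icc.2 hρ.1.le)
  have h0 : F (z + ((0 : ℝ) : ℂ) * e) + F (z - ((0 : ℝ) : ℂ) * e) - 2 * F z - (0 : ℝ) ^ 2 * c = 0 := by
    simp
    ring
  simp only [h0, sub_zero] at hmv
  rw [Real.norm_eq_abs] at hmv
  refine hmv.trans (le_of_eq ?_)
  ring

theorem avg4_taylor {F : ℂ → ℝ} {z : ℂ} (hF : ContDiffAt ℝ 2 F z) {ε : ℝ} (hε : 0 < ε) :
    ∀ᶠ ρ in 𝓝[>] (0 : ℝ), |avg4 F z ρ - F z - ρ ^ 2 / 4 * lap F z| ≤ ε * ρ ^ 2 := by
  filter_upwards [Avx_dir hF 1 hε, Avx_dir hF Complex.I hε] with ρ h1 h2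
  have h3 : avg4 F z ρ - F z - ρ ^ 2 / 4 * lap F z =
      ((F (z + ρ * 1) + F (z - ρ * 1) - 2 * F z -
        ρ ^ 2 * fderiv ℝ (fun y => fderiv ℝ F y 1) z 1) +
      (F (z + ρ * Complex.I) + F (z - ρ * Complex.I) - 2 * F z -
        ρ ^ 2 * fderiv ℝ (fun y => fderiv ℝ F y Complex.I) z Complex.I)) / 4 := by
    unfold avg4 lap
    rw [mul_one]
    ring
  rw [h3, abs_div]
  have h4 := abs_add_le (F (z + ρ * 1) + F (z - ρ * 1) - 2 * F z -
        ρ ^ 2 * fderiv ℝ (fun y => fderiv ℝ F y 1) z 1)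
      (F (z + ρ * Complex.I) + F (z - ρ * Complex.I) - 2 * F z -
        ρ ^ 2 * fderiv ℝ (fun y => fderiv ℝ F y Complex.I) z Complex.I)
  rw [show |(4 : ℝ)| = 4 by norm_num, div_le_iff₀ (by norm_num : (0 : ℝ) < 4)]
  have h5 : 0 ≤ ε * ρ ^ 2 := by positivity
  linarith

end KI
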