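import Pool.Agent.H50.KI.Bst

/-! # Bba: the initial step

PROOF. Chart `e`, `σ 0 ∈ e.source`. Choose `b ∈ (0, ℓ]` with `σ t ∈ e.source` for `t ∈ Icc 0 b` (`σ` is continuous on
`Icc 0 ℓ`, `hσ`), `p` from `mgeod_chart ctx hσ` on `[0, b]`, `δ` from `par_exists`; take `δ' = min b δ`. For `0 < t < δ'`: `W` with
`W 0 = v₀` on `[0, t]` (`par_exists`); `piece_par` with `s = 0`, `a = a₀` (`ww ℓ 0 v = v`). The initial
points: `dist (g ζ) (e.symm (jet G e (e (σ 0)) v₀ ζ + ζ ^ 2 • a₀)) = o(ρ²)` for `ζ = ρ α`, `α ∈ A`: by `hg` (coordinates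
`o(ρ²)` apart; `g (ρ α) ∈ e.source` for small `ρ`, `g ζ = e.symm (e (g ζ))`) and `loc_upper` at `σ 0` with
`Real.sqrt (G e (e (σ 0)) a a).re ≤ L ‖a‖` (`rup_norm`, Pool/Agent/H49/KI/RUP.lean). Triangle inequality, `mn_add`, `mn_mono`.
The state at `t`: chart `e`, vector `W t` (`par_norm`). -/

set_option autoImplicit false

namespace KI

open Complex Metric Set Filter Topology Manifold ContDiff
open KB (V DR wirt levi rho Sesq lap lapC dz)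

variable {n : ℕ} {X : Type} [MetricSpace X] [ChartedSpace (V n) X]
  {G : OpenPartialHomeomorph X (V n) → V n → V n → V n → ℂ}

/-- comparison of the initial points -/
theorem Bba_init [IsManifold 𝓘(ℂ, V n) ω X] (ctx : Ctx G) {g : ℂ → X} {x : X} {α : ℂ}
    {e : OpenPartialHomeomorph X (V n)} (he : e ∈ atlas (V n) X) (h0 : x ∈ e.source)
    {v₀ a₀ : V n}
    (hgs : ∀ᶠ ρ : ℝ in 𝓝[>] (0 : ℝ), g ((ρ : ℂ) * α) ∈ e.source)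
    (hg : ∀ ε > 0, ∀ᶠ ρ : ℝ in 𝓝[>] (0 : ℝ),
      ‖e (g ((ρ : ℂ) * α)) - (jet G e (e x) v₀ ((ρ : ℂ) * α) +
        ((ρ : ℂ) * α) ^ 2 • a₀)‖ ≤ ε * ρ ^ 2) {ε : ℝ} (hε : 0 < ε) :
    ∀ᶠ ρ : ℝ in 𝓝[>] (0 : ℝ), dist (g ((ρ : ℂ) * α))
      (e.symm (jet G e (e x) v₀ ((ρ : ℂ) * α) + ((ρ : ℂ) * α) ^ 2 • a₀)) ≤ ε * ρ ^ 2 := by
  obtain ⟨r, hr, hrt, hloc⟩ := loc_upper ctx he h0 (ε := 1) one_pos
  obtain ⟨r', hr', -, κ, -, C, hC, hnorm⟩ := rup_norm ctx.herm he h0 (ε := 1) one_pos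
  have hCn : ∀ a, Real.sqrt (G e (e x) a a).re ≤ C * ‖a‖ := fun a =>
    (hnorm (e x) (mem_closedBall_self hr'.le) a).2.1
  have hjet : Tendsto (fun ρ : ℝ => jet G e (e x) v₀ ((ρ : ℂ) * α) + ((ρ : ℂ) * α) ^ 2 • a₀)
      (𝓝[>] (0 : ℝ)) (𝓝 (e x)) := by
    have hc : Continuous (fun ρ : ℝ => jet G e (e x) v₀ ((ρ : ℂ) * α) +
        ((ρ : ℂ) * α) ^ 2 • a₀) := by
      unfold jet
      fun_prop
    have h1 := (hc.tendsto 0).mono_left (nhdsWithin_le_nhds (s := Ioi (0 : ℝ)))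
    have h2 : jet G e (e x) v₀ (((0 : ℝ) : ℂ) * α) + (((0 : ℝ) : ℂ) * α) ^ 2 • a₀ = e x := by
      unfold jet
      simp
    rwa [h2] at h1
  have hev1 : ∀ᶠ ρ : ℝ in 𝓝[>] (0 : ℝ),
      jet G e (e x) v₀ ((ρ : ℂ) * α) + ((ρ : ℂ) * α) ^ 2 • a₀ ∈ ball (e x) (r / 2) :=
    hjet.eventually (isOpen_ball.mem_nhds (mem_ball_self (by linarith)))
  have hev2 : ∀ᶠ ρ : ℝ in 𝓝[>] (0 : ℝ), 1 * ρ ^ 2 < r / 2 := by
    have h1 : Tendsto (fun ρ : ℝ => 1 * ρ ^ 2) (𝓝[>] (0 : ℝ)) (𝓝 0) := by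
      have hc : Continuous (fun ρ : ℝ => 1 * ρ ^ 2) := by fun_prop
      have h1 := (hc.tendsto 0).mono_left (nhdsWithin_le_nhds (s := Ioi (0 : ℝ)))
      simpa using h1
    exact h1.eventually (gt_mem_nhds (by linarith))
  have hε2 : 0 < ε / (2 * C) := by positivity
  filter_upwards [hgs, hg 1 one_pos, hg _ hε2, hev1, hev2] with ρ h1 h2 h3 h4 h5
  generalize g ((ρ : ℂ) * α) = q at *
  generalize jet G e (e x) v₀ ((ρ : ℂ) * α) + ((ρ : ℂ) * α) ^ 2 • a₀ = z at *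
  have h6 : e q ∈ ball (e x) r := by
    rw [mem_ball]
    have h7 : dist (e q) (e x) ≤ dist (e q) z + dist z (e x) := dist_triangle _ _ _
    rw [dist_eq_norm (e q) z] at h7
    rw [mem_ball] at h4
    linarith
  have h8 : z ∈ ball (e x) r := ball_subset_ball (by linarith) h4
  have h9 := hloc (e q) h6 z h8
  rw [e.left_inv h1] at h9
  have h10 := hCn (z - e q)
  rw [norm_sub_rev] at h10
  calc dist q (e.symm z) ≤ (1 + 1) * Real.sqrt (G e (e x) (z - e q) (z - e q)).re := h9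
    _ ≤ (1 + 1) * (C * ‖e q - z‖) := mul_le_mul_of_nonneg_left h10 (by norm_num)
    _ ≤ (1 + 1) * (C * (ε / (2 * C) * ρ ^ 2)) :=
      mul_le_mul_of_nonneg_left (mul_le_mul_of_nonneg_left h3 hC.le) (by norm_num)
    _ = ε * ρ ^ 2 := by field_simp; norm_num

theorem Bba_mono {e : OpenPartialHomeomorph X (V n)} {y p : ℝ → V n} {b t : ℝ} (htb : t ≤ b)
    (h : IsGeodOn G e y p 0 b) : IsGeodOn G e y p 0 t :=
  have hs : Icc (0 : ℝ) t ⊆ Icc 0 b := Icc_subset_Icc le_rfl htb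
  ⟨fun r hr => h.mem r (hs hr), fun r hr => (h.vel r (hs hr)).mono hs,
    fun r hr => (h.acc r (hs hr)).mono hs, fun r hr => h.unit r (hs hr)⟩

theorem bs_base [IsManifold 𝓘(ℂ, V n) ω X] (ctx : Ctx G) {A : Finset ℂ} (hA : Dirs A)
    {g : ℂ → X} {σ : ℝ → X} {ℓ vv : ℝ} (hℓ : 0 < ℓ) (hσ : IsMGeod σ ℓ) {κ : ℝ → ℝ}
    {cplx : Prop} (hQ : HQ G A σ ℓ vv κ cplx)
    (hκ : IntervalIntegrable κ MeasureTheory.volume 0 ℓ)
    {e : OpenPartialHomeomorph X (V n)} (he : e ∈ atlas (V n) X) (h0 : σ 0 ∈ e.source)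
    {v₀ a₀ : V n} (hv₀ : (G e (e (σ 0)) v₀ v₀).re = vv) (ha₀ : cplx ∨ a₀ = 0)
    (hgs : ∀ α ∈ A, ∀ᶠ ρ : ℝ in 𝓝[>] (0 : ℝ), g ((ρ : ℂ) * α) ∈ e.source)
    (hg : ∀ α ∈ A, ∀ ε > 0, ∀ᶠ ρ : ℝ in 𝓝[>] (0 : ℝ),
      ‖e (g ((ρ : ℂ) * α)) - (jet G e (e (σ 0)) v₀ ((ρ : ℂ) * α) +
        ((ρ : ℂ) * α) ^ 2 • a₀)‖ ≤ ε * ρ ^ 2) :
    ∃ δ > 0, ∀ t ∈ Ioo (0 : ℝ) δ, BS G A g σ ℓ vv κ t := by
  have hG := ctx.herm
  obtain ⟨r, hr, hrs⟩ := Metric.isOpen_iff.1 e.open_source (σ 0) h0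
  obtain ⟨b, hb⟩ : ∃ b : ℝ, b = min ℓ (r / 2) := ⟨_, rfl⟩
  have hb0 : 0 < b := by rw [hb]; exact lt_min hℓ (by linarith)
  have hbℓ : b ≤ ℓ := by rw [hb]; exact min_le_left _ _
  have hbr : b ≤ r / 2 := by rw [hb]; exact min_le_right _ _
  have hmem : ∀ t ∈ Icc (0 : ℝ) b, σ t ∈ e.source := by
    intro t ht
    apply hrs
    rw [mem_ball, hσ t ⟨ht.1, ht.2.trans hbℓ⟩ 0 ⟨le_rfl, hℓ.le⟩, sub_zero, abs_of_nonneg ht.1]
    linarith [ht.2]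
  obtain ⟨p, hgeo⟩ := mgeod_chart ctx hσ le_rfl hb0 hbℓ he hmem
  obtain ⟨δ, hδ, hpar⟩ := par_exists hG he hgeo
  refine ⟨min b δ, lt_min hb0 hδ, ?_⟩
  intro t ht
  have ht0 : 0 < t := ht.1
  have htb : t < b := ht.2.trans_le (min_le_left _ _)
  have htδ : t < δ := ht.2.trans_le (min_le_right _ _)
  obtain ⟨W, hW0, hW⟩ := hpar 0 ⟨le_rfl, hb0.le⟩ t ⟨ht0.le, htb.le⟩ ht0 (by linarith) v₀
  have hgeo' := Bba_mono htb.le hgeo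
  have hmem' : ∀ s ∈ Icc (0 : ℝ) t, σ s ∈ e.source := fun s hs =>
    hmem s ⟨hs.1, hs.2.trans htb.le⟩
  have hWs : (G e (e (σ 0)) (W 0) (W 0)).re = vv := by rw [hW0]; exact hv₀
  have hnorm := par_norm hG he ht0 hgeo'.mem hgeo'.vel hW t ⟨ht0.le, le_rfl⟩
  rw [hWs] at hnorm
  refine ⟨e, he, hmem' t ⟨ht0.le, le_rfl⟩, W t, hnorm, ?_⟩
  intro ε hε
  have hκ' : IntervalIntegrable κ MeasureTheory.volume 0 t := by
    apply hκ.mono_set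
    rw [uIcc_of_le ht0.le, uIcc_of_le hℓ.le]
    exact Icc_subset_Icc le_rfl (htb.le.trans hbℓ)
  have h1 := piece_par ctx hA hℓ hQ he le_rfl ht0 (htb.le.trans hbℓ) hκ' hmem' hgeo' hW hWs a₀ ha₀
    (ε := ε / 2) (by linarith)
  have h2 : ∀ᶠ ρ : ℝ in 𝓝[>] (0 : ℝ), ∀ α ∈ A, dist (g ((ρ : ℂ) * α))
      (e.symm (jet G e (e (σ 0)) v₀ ((ρ : ℂ) * α) + ((ρ : ℂ) * α) ^ 2 • a₀)) ≤
        (ε / 4) * ρ ^ 2 := by
    rw [Filter.eventually_all_finset]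
    intro α hα
    exact Bba_init ctx he h0 (hgs α hα) (hg α hα) (by linarith)
  have hww : ww ℓ 0 (W 0) = v₀ := by
    unfold ww
    rw [hW0, zero_div, sub_zero, Complex.ofReal_one, one_smul]
  filter_upwards [h1, h2] with ρ h3 h4
  rw [hww] at h3
  have h5 : mn A (fun ζ => dist (g ζ) (e.symm (jet G e (e (σ t)) (ww ℓ t (W t)) ζ))) ρ ≤
      mn A (fun ζ => (ε / 4) * ρ ^ 2 +
        dist (e.symm (jet G e (e (σ 0)) v₀ ζ + ζ ^ 2 • a₀))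
          (e.symm (jet G e (e (σ t)) (ww ℓ t (W t)) ζ))) ρ := by
    apply mn_mono
    intro α hα
    exact (dist_triangle _ (e.symm (jet G e (e (σ 0)) v₀ ((ρ : ℂ) * α) +
      ((ρ : ℂ) * α) ^ 2 • a₀)) _).trans (add_le_add (h4 α hα) le_rfl)
  rw [mn_add A (fun _ => (ε / 4) * ρ ^ 2), mn_const hA.ne] at h5
  rw [sub_zero] at h3
  linarith

end KI
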