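import Pool.Agent.H49.KI.TopB
import Pool.Agent.H49.KI.TopE

/-! # Bdf: definitions for the second variation (real and complex)

* `mn A u ρ`: mean of `u` over the points `ρ α`, `α ∈ A`; `qA A u`: mean of the second derivatives of
  `u` at 0 in the directions `α ∈ A`; `A4 = {1, i, -1, -i}`, `A2 = {1, -1}`.
* `Qf G e c ζ = |c 3 + ζ c 4 + ζ² c 5|²` at the point `c 0 + ζ c 1 + ζ² c 2`.
* `jet G e y w ζ = y + ζ w - ζ²/2 Γ(w, w)`.
* `ww ℓ t v = (1 - t/ℓ) v`.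
* `BS … t`: the state of the induction along the geodesic `σ` at time `t`.
* `HQ …`: the hypothesis on second derivatives (proved from the curvature assumptions). -/

set_option autoImplicit false

namespace KI

open Complex Metric Set Filter Topology Manifold ContDiff
open KB (V DR wirt levi rho Sesq lap lapC dz)

noncomputable def mn (A : Finset ℂ) (u : ℂ → ℝ) (ρ : ℝ) : ℝ :=
  (∑ α ∈ A, u ((ρ : ℂ) * α)) / (A.card : ℝ)

/-- second derivative of `u` at 0 in the direction `α` -/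
noncomputable def d2 (u : ℂ → ℝ) (α : ℂ) : ℝ := fderiv ℝ (fun z => fderiv ℝ u z α) 0 α

noncomputable def qA (A : Finset ℂ) (u : ℂ → ℝ) : ℝ := (∑ α ∈ A, d2 u α) / (A.card : ℝ)

/-- sets of directions -/
structure Dirs (A : Finset ℂ) : Prop where
  ne : A.Nonempty
  le : ∀ α ∈ A, ‖α‖ ≤ 1
  sum : ∑ α ∈ A, α = 0

noncomputable def A4 : Finset ℂ := {1, Complex.I, -1, -Complex.I}

noncomputable def A2 : Finset ℂ := {1, -1}

variable {n : ℕ} {X : Type} [MetricSpace X] [ChartedSpace (V n) X]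

noncomputable def Qf (G : OpenPartialHomeomorph X (V n) → V n → V n → V n → ℂ)
    (e : OpenPartialHomeomorph X (V n)) (c : Fin 6 → V n) (ζ : ℂ) : ℝ :=
  (G e (c 0 + ζ • c 1 + ζ ^ 2 • c 2) (c 3 + ζ • c 4 + ζ ^ 2 • c 5)
    (c 3 + ζ • c 4 + ζ ^ 2 • c 5)).re

noncomputable def jet (G : OpenPartialHomeomorph X (V n) → V n → V n → V n → ℂ)
    (e : OpenPartialHomeomorph X (V n)) (y w : V n) (ζ : ℂ) : V n :=
  y + ζ • w + ζ ^ 2 • (-(1 / 2 : ℂ) • Gam G e y w w)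

noncomputable def ww (ℓ t : ℝ) (v : V n) : V n := ((1 - t / ℓ : ℝ) : ℂ) • v

/-- the `t`-derivative of `-1/2 Γ(y)(w, w)` if `y' = p` and `w' = w1` -/
noncomputable def dg (G : OpenPartialHomeomorph X (V n) → V n → V n → V n → ℂ)
    (e : OpenPartialHomeomorph X (V n)) (y p w w1 : V n) : V n :=
  -(1 / 2 : ℂ) • (fderiv ℝ (fun z => Gam G e z w w) y p + (2 : ℂ) • Gam G e y w1 w)

/-- the state at time `t` -/
def BS (G : OpenPartialHomeomorph X (V n) → V n → V n → V n → ℂ) (A : Finset ℂ) (g : ℂ → X)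
    (σ : ℝ → X) (ℓ vv : ℝ) (κ : ℝ → ℝ) (t : ℝ) : Prop :=
  ∃ e ∈ atlas (V n) X, σ t ∈ e.source ∧ ∃ v : V n, (G e (e (σ t)) v v).re = vv ∧
    ∀ ε > 0, ∀ᶠ ρ : ℝ in 𝓝[>] (0 : ℝ),
      mn A (fun ζ => dist (g ζ) (e.symm (jet G e (e (σ t)) (ww ℓ t v) ζ))) ρ - t ≤
        ρ ^ 2 / 2 * (vv * t / ℓ ^ 2 - (∫ s in (0 : ℝ)..t, κ s) + ε)

/-- the hypothesis on second derivatives; `cplx` allows arbitrary additional second order terms -/
def HQ (G : OpenPartialHomeomorph X (V n) → V n → V n → V n → ℂ) (A : Finset ℂ)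
    (σ : ℝ → X) (ℓ vv : ℝ) (κ : ℝ → ℝ) (cplx : Prop) : Prop :=
  ∀ e ∈ atlas (V n) X, ∀ t ∈ Icc (0 : ℝ) ℓ, σ t ∈ e.source → ∀ p v w1 a a1 : V n,
    (G e (e (σ t)) p p).re = 1 → (G e (e (σ t)) v v).re = vv →
    w1 = -((1 / ℓ : ℝ) : ℂ) • v - Gam G e (e (σ t)) p (ww ℓ t v) →
    (cplx ∨ (a = 0 ∧ a1 = 0)) →
    qA A (Qf G e ![e (σ t), ww ℓ t v,
      -(1 / 2 : ℂ) • Gam G e (e (σ t)) (ww ℓ t v) (ww ℓ t v) + a, p, w1,
      dg G e (e (σ t)) p (ww ℓ t v) w1 + a1]) ≤ 2 * (vv / ℓ ^ 2 - κ t)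

end KI
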