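import Mathlib

/-! # Cin: induction along an interval

PROOF. Let `T = {t ∈ (0, ℓ] | P t}`; nonempty, near 0. Let `t₁ = sSup T ≤ ℓ`, `t₁ > 0`; `δ` from `hloc t₁`. There is `s ∈ T`
with `t₁ - δ < s ≤ t₁` (`exists_lt_of_lt_csSup`). If `t₁ < ℓ` take `t = min ℓ (t₁ + δ/2) > t₁ ≥ s`: `P t`, contradiction with
`t₁ = sup`. So `t₁ = ℓ`: if `s = ℓ` done, else `s < ℓ < t₁ + δ`, `P ℓ`. -/

set_option autoImplicit false

namespace KI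

open Set Filter Topology

theorem cont_ind {P : ℝ → Prop} {ℓ : ℝ} (hℓ : 0 < ℓ) (h0 : ∃ δ > 0, ∀ t ∈ Ioo (0 : ℝ) δ, P t)
    (hloc : ∀ t₁ ∈ Icc (0 : ℝ) ℓ, ∃ δ > 0, ∀ s ∈ Ioc (0 : ℝ) ℓ, ∀ t ∈ Ioc (0 : ℝ) ℓ,
      t₁ - δ < s → s < t → t < t₁ + δ → P s → P t) : P ℓ := by
  obtain ⟨δ₀, hδ₀, h0⟩ := h0
  set T : Set ℝ := {t | t ∈ Ioc (0 : ℝ) ℓ ∧ P t} with hT
  have hbdd : BddAbove T := ⟨ℓ, fun t ht => ht.1.2⟩
  have hm : min ℓ (δ₀ / 2) ∈ T := by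
    refine ⟨⟨by positivity, min_le_left _ _⟩, h0 _ ⟨by positivity, ?_⟩⟩
    exact (min_le_right _ _).trans_lt (by linarith)
  have hne : T.Nonempty := ⟨_, hm⟩
  set t₁ : ℝ := sSup T with ht₁
  have ht0 : 0 < t₁ := lt_of_lt_of_le (by positivity : 0 < min ℓ (δ₀ / 2)) (le_csSup hbdd hm)
  have htℓ : t₁ ≤ ℓ := csSup_le hne fun t ht => ht.1.2
  obtain ⟨δ, hδ, hl⟩ := hloc t₁ ⟨ht0.le, htℓ⟩
  obtain ⟨s, hs, hs2⟩ := exists_lt_of_lt_csSup hne (show t₁ - δ < sSup T by rw [← ht₁]; linarith)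
  have hs3 : s ≤ t₁ := le_csSup hbdd hs
  rcases htℓ.lt_or_eq with h | h
  · exfalso
    have h1 : t₁ < min ℓ (t₁ + δ / 2) := lt_min h (by linarith)
    have h2 : min ℓ (t₁ + δ / 2) ∈ T := by
      refine ⟨⟨by linarith, min_le_left _ _⟩, ?_⟩
      refine hl s hs.1 _ ⟨by linarith, min_le_left _ _⟩ hs2 (by linarith) ?_ hs.2
      exact (min_le_right _ _).trans_lt (by linarith)
    exact absurd (le_csSup hbdd h2) (not_le.mpr h1)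
  · rcases hs.1.2.lt_or_eq with h3 | h3
    · exact hl s hs.1 ℓ ⟨hℓ, le_refl _⟩ hs2 h3 (by linarith) hs.2
    · rw [← h3]
      exact hs.2

end KI
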