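import Pool.Agent.H50.KI.Bba
import Pool.Agent.H50.KI.Cin

/-! # Bnd: the second variation inequality for a minimal geodesic -/

set_option autoImplicit false

namespace KI

open Complex Metric Set Filter Topology Manifold ContDiff
open KB (V DR wirt levi rho Sesq lap lapC dz)

variable {n : ℕ} {X : Type} [MetricSpace X] [ChartedSpace (V n) X]
  {G : OpenPartialHomeomorph X (V n) → V n → V n → V n → ℂ}

theorem IsMGeod.continuousOn {σ : ℝ → X} {ℓ : ℝ} (hσ : IsMGeod σ ℓ) :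
    ContinuousOn σ (Icc 0 ℓ) := by
  rw [Metric.continuousOn_iff]
  intro s hs ε hε
  refine ⟨ε, hε, fun t ht hts => ?_⟩
  rw [hσ t ht s hs]
  rwa [Real.dist_eq] at hts

theorem Gam_zero (hG : IsHermMetric G) {e : OpenPartialHomeomorph X (V n)}
    (he : e ∈ atlas (V n) X) {y : V n} (hy : y ∈ e.target) (b : V n) :
    Gam G e y 0 b = 0 := by
  have h := Gam_smul_left hG he hy 0 0 b
  simpa using h

theorem bs_end [IsManifold 𝓘(ℂ, V n) ω X] (ctx : Ctx G) {A : Finset ℂ} (hA : Dirs A)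
    {g : ℂ → X} {σ : ℝ → X} {ℓ vv : ℝ} (hℓ : 0 < ℓ) (hσ : IsMGeod σ ℓ) {κ : ℝ → ℝ}
    {cplx : Prop} (hQ : HQ G A σ ℓ vv κ cplx)
    (hκ : IntervalIntegrable κ MeasureTheory.volume 0 ℓ)
    {e : OpenPartialHomeomorph X (V n)} (he : e ∈ atlas (V n) X) (h0 : σ 0 ∈ e.source)
    {v₀ a₀ : V n} (hv₀ : (G e (e (σ 0)) v₀ v₀).re = vv) (ha₀ : cplx ∨ a₀ = 0)
    (hgs : ∀ α ∈ A, ∀ᶠ ρ : ℝ in 𝓝[>] (0 : ℝ), g ((ρ : ℂ) * α) ∈ e.source)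
    (hg : ∀ α ∈ A, ∀ ε > 0, ∀ᶠ ρ : ℝ in 𝓝[>] (0 : ℝ),
      ‖e (g ((ρ : ℂ) * α)) - (jet G e (e (σ 0)) v₀ ((ρ : ℂ) * α) +
        ((ρ : ℂ) * α) ^ 2 • a₀)‖ ≤ ε * ρ ^ 2) :
    BS G A g σ ℓ vv κ ℓ := by
  refine cont_ind (P := fun t => BS G A g σ ℓ vv κ t) hℓ
    (bs_base ctx hA hℓ hσ hQ hκ he h0 hv₀ ha₀ hgs hg) ?_
  intro t₁ ht₁
  have he₁ := chart_mem_atlas (V n) (σ t₁)
  have hs₁ : σ t₁ ∈ (chartAt (V n) (σ t₁)).source := mem_chart_source _ _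
  have hc := hσ.continuousOn t₁ ht₁
  have hev : ∀ᶠ t in 𝓝[Icc 0 ℓ] t₁, σ t ∈ (chartAt (V n) (σ t₁)).source :=
    hc.eventually_mem ((chartAt (V n) (σ t₁)).open_source.mem_nhds hs₁)
  obtain ⟨r, hr, hr'⟩ := Metric.eventually_nhds_iff.1 (eventually_nhdsWithin_iff.1 hev)
  set a : ℝ := max 0 (t₁ - r / 2) with ha
  set b : ℝ := min ℓ (t₁ + r / 2) with hb
  have ha0 : 0 ≤ a := le_max_left _ _
  have hbℓ : b ≤ ℓ := min_le_left _ _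
  have hab : a < b := by
    rw [ha, hb]
    refine lt_min (max_lt hℓ (by linarith [ht₁.2])) (max_lt (by linarith [ht₁.1]) (by linarith))
  have hmem : ∀ t ∈ Icc a b, σ t ∈ (chartAt (V n) (σ t₁)).source := by
    intro t ht
    refine hr' ?_ ⟨ha0.trans ht.1, ht.2.trans hbℓ⟩
    rw [Real.dist_eq, abs_lt]
    have h1 : t₁ - r / 2 ≤ a := le_max_right _ _
    have h2 : b ≤ t₁ + r / 2 := min_le_right _ _
    constructor <;> linarith [ht.1, ht.2]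
  obtain ⟨p, hgeo⟩ := mgeod_chart ctx hσ ha0 hab hbℓ he₁ hmem
  obtain ⟨δ, hδ, hstep⟩ := bs_step (g := g) ctx hA hℓ hQ hκ he₁ ha0 hbℓ hmem hgeo
  refine ⟨min (r / 2) (δ / 2), by positivity, ?_⟩
  intro s hs t ht h1 h2 h3 hP
  have h4 : min (r / 2) (δ / 2) ≤ r / 2 := min_le_left _ _
  have h5 : min (r / 2) (δ / 2) ≤ δ / 2 := min_le_right _ _
  refine hstep s ⟨?_, ?_⟩ t ⟨?_, ?_⟩ h2 (by linarith) hP
  · exact max_le hs.1.le (by linarith)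
  · exact le_min hs.2 (by linarith)
  · exact max_le ht.1.le (by linarith)
  · exact le_min ht.2 (by linarith)

theorem mn_end [IsManifold 𝓘(ℂ, V n) ω X] (ctx : Ctx G) {A : Finset ℂ} (hA : Dirs A)
    {g : ℂ → X} {σ : ℝ → X} {ℓ vv : ℝ} (hℓ : 0 < ℓ) (hσ : IsMGeod σ ℓ) {κ : ℝ → ℝ}
    {cplx : Prop} (hQ : HQ G A σ ℓ vv κ cplx)
    (hκ : IntervalIntegrable κ MeasureTheory.volume 0 ℓ)
    {e : OpenPartialHomeomorph X (V n)} (he : e ∈ atlas (V n) X) (h0 : σ 0 ∈ e.source)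
    {v₀ a₀ : V n} (hv₀ : (G e (e (σ 0)) v₀ v₀).re = vv) (ha₀ : cplx ∨ a₀ = 0)
    (hgs : ∀ α ∈ A, ∀ᶠ ρ : ℝ in 𝓝[>] (0 : ℝ), g ((ρ : ℂ) * α) ∈ e.source)
    (hg : ∀ α ∈ A, ∀ ε > 0, ∀ᶠ ρ : ℝ in 𝓝[>] (0 : ℝ),
      ‖e (g ((ρ : ℂ) * α)) - (jet G e (e (σ 0)) v₀ ((ρ : ℂ) * α) +
        ((ρ : ℂ) * α) ^ 2 • a₀)‖ ≤ ε * ρ ^ 2) {ε : ℝ} (hε : 0 < ε) :
    ∀ᶠ ρ : ℝ in 𝓝[>] (0 : ℝ), mn A (fun ζ => dist (g ζ) (σ ℓ)) ρ - ℓ ≤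
      ρ ^ 2 / 2 * (vv / ℓ - (∫ s in (0 : ℝ)..ℓ, κ s) + ε) := by
  obtain ⟨e₁, he₁, hs₁, v, -, hv⟩ := bs_end ctx hA hℓ hσ hQ hκ he h0 hv₀ ha₀ hgs hg
  have hy : e₁ (σ ℓ) ∈ e₁.target := e₁.map_source hs₁
  have hw : ww ℓ ℓ v = 0 := by
    unfold ww
    rw [div_self hℓ.ne']
    simp
  have hj : ∀ ζ : ℂ, e₁.symm (jet G e₁ (e₁ (σ ℓ)) (ww ℓ ℓ v) ζ) = σ ℓ := by
    intro ζ
    unfold jet
    rw [hw, Gam_zero ctx.herm he₁ hy]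
    simp only [smul_zero, add_zero]
    exact e₁.left_inv hs₁
  have h := hv ε hε
  simp only [hj] at h
  have h2 : vv * ℓ / ℓ ^ 2 = vv / ℓ := by
    field_simp
  rwa [h2] at h

end KI
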