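import Pool.Agent.H50.KI.Bdf

/-! # Jct: change of charts for second order jets

PROOF. `ψ = trans e e'`, analytic at `y = e x`; `ψ y = e' x`. Taylor: `ψ (y + h) = ψ y + Dψ h + (1/2) D²ψ(h, h) +
o(‖h‖²)` with `D²ψ(a, b) = fderiv ℂ (fun z => fderiv ℂ ψ z b) y a` (e.g. along `h = ζ w + ζ² c`: the function
`φ ζ = ψ (y + ζ • w + ζ ^ 2 • c)` is analytic at `0`, `φ 0 = ψ y`, `deriv φ 0 = Dψ w`, `deriv (deriv φ) 0 =
D²ψ(w, w) + 2 Dψ c`, and `φ ζ = φ 0 + ζ φ' 0 + ζ²/2 φ'' 0 + O(|ζ|³)`: `AnalyticAt` power series or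
`taylor`), with `c = -(1/2) Γ(w, w)`: `φ ζ = ψ y + ζ Dψ w + ζ²/2 (D²ψ(w,w) - Dψ Γ(w,w)) + o(ζ²)
= jet G e' (e' x) (Dψ w) ζ + o(ζ²)` by `Gam_trans`. For small `ζ`, `e' (e.symm (jet G e y w ζ)) = φ ζ` and
`e.symm (jet G e y w ζ) = e'.symm (φ ζ)` (it is in `e'.source`). `loc_upper ctx he' hx'` (`ε = 1`) and
`Real.sqrt (G e' (e' x) a a).re ≤ L ‖a‖` (e.g. `rup_norm`, Pool/Agent/H49/KI/RUP.lean, or `RUP_cont`): the distance
is `≤ 2 L ‖φ ζ - jet‖ = o(|ζ|²)`. -/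

set_option autoImplicit false

namespace KI

open Complex Metric Set Filter Topology Manifold ContDiff
open KB (V DR wirt levi rho Sesq lap lapC dz)

variable {n : ℕ} {X : Type} [MetricSpace X] [ChartedSpace (V n) X]
  {G : OpenPartialHomeomorph X (V n) → V n → V n → V n → ℂ}

/-- second order Taylor expansion along a quadratic curve -/
private theorem Jct_taylor {ψ : V n → V n} {y : V n} (hψ : AnalyticAt ℂ ψ y) (w c : V n) {ε : ℝ}
    (hε : 0 < ε) : ∀ᶠ ζ in 𝓝 (0 : ℂ), ‖ψ (y + ζ • w + ζ ^ 2 • c) -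
      (ψ y + ζ • fderiv ℂ ψ y w + ζ ^ 2 • (fderiv ℂ ψ y c +
        (1 / 2 : ℂ) • fderiv ℂ (fun z => fderiv ℂ ψ z w) y w))‖ ≤ ε * ‖ζ‖ ^ 2 := by
  obtain ⟨γ, hγ⟩ : ∃ γ : ℂ → V n, γ = fun ζ => y + ζ • w + ζ ^ 2 • c := ⟨_, rfl⟩
  obtain ⟨D, hD⟩ : ∃ D : V n, D = fderiv ℂ ψ y c +
        (1 / 2 : ℂ) • fderiv ℂ (fun z => fderiv ℂ ψ z w) y w := ⟨_, rfl⟩
  have hγd : ∀ ζ, HasDerivAt γ (w + (2 * ζ) • c) ζ := by
    intro ζ
    have h1 : HasDerivAt (fun ζ : ℂ => ζ • w) ((1 : ℂ) • w) ζ := (hasDerivAt_id ζ).smul_const w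
    have h2 : HasDerivAt (fun ζ : ℂ => ζ ^ 2 • c) ((2 * ζ) • c) ζ := by
      have h3 : HasDerivAt (fun ζ : ℂ => ζ ^ 2) (2 * ζ) ζ := by
        simpa using hasDerivAt_pow 2 ζ
      exact h3.smul_const c
    rw [hγ]
    have h4 := (h1.const_add y).add h2
    rw [one_smul] at h4
    exact h4
  have hγ0 : γ 0 = y := by rw [hγ]; simp
  have hγc : Tendsto γ (𝓝 0) (𝓝 y) := by
    have := (hγd 0).continuousAt
    rw [ContinuousAt, hγ0] at this
    exact this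
  -- the first derivative
  have hev : ∀ᶠ ζ in 𝓝 (0 : ℂ), AnalyticAt ℂ ψ (γ ζ) := hγc.eventually hψ.eventually_analyticAt
  obtain ⟨g, hg⟩ : ∃ g : ℂ → V n, g = fun ζ => ψ (γ ζ) - (ψ y + ζ • fderiv ℂ ψ y w + ζ ^ 2 • D) :=
    ⟨_, rfl⟩
  obtain ⟨g1, hg1⟩ : ∃ g1 : ℂ → V n, g1 = fun ζ => fderiv ℂ ψ (γ ζ) (w + (2 * ζ) • c) -
      (fderiv ℂ ψ y w + (2 * ζ) • D) := ⟨_, rfl⟩
  have hgd : ∀ᶠ ζ in 𝓝 (0 : ℂ), HasDerivAt g (g1 ζ) ζ := by
    filter_upwards [hev] with ζ hζ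
    have h1 := hζ.differentiableAt.hasFDerivAt.comp_hasDerivAt ζ (hγd ζ)
    have h2 : HasDerivAt (fun ζ : ℂ => ζ • fderiv ℂ ψ y w) ((1 : ℂ) • fderiv ℂ ψ y w) ζ :=
      (hasDerivAt_id ζ).smul_const _
    have h3 : HasDerivAt (fun ζ : ℂ => ζ ^ 2 • D) ((2 * ζ) • D) ζ := by
      have h3 : HasDerivAt (fun ζ : ℂ => ζ ^ 2) (2 * ζ) ζ := by
        simpa using hasDerivAt_pow 2 ζ
      exact h3.smul_const D
    have h4 := h1.sub ((h2.const_add (ψ y)).add h3)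
    rw [one_smul] at h4
    rw [hg, hg1]
    exact h4
  -- the derivative of the first derivative vanishes at 0
  have hg2 : HasDerivAt g1 0 0 := by
    have hF : HasFDerivAt (fderiv ℂ ψ) (fderiv ℂ (fderiv ℂ ψ) y) (γ 0) := by
      rw [hγ0]
      exact hψ.fderiv.differentiableAt.hasFDerivAt
    have h1 := hF.comp_hasDerivAt (0 : ℂ) (hγd 0)
    have h2 : HasDerivAt (fun ζ : ℂ => w + (2 * ζ) • c) ((2 : ℂ) • c) 0 := by
      have h3 : HasDerivAt (fun ζ : ℂ => 2 * ζ) 2 0 := by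
        simpa using (hasDerivAt_id (0 : ℂ)).const_mul 2
      exact (h3.smul_const c).const_add w
    have h3 := h1.clm_apply h2
    have h4 : HasDerivAt (fun ζ : ℂ => fderiv ℂ ψ y w + (2 * ζ) • D) ((2 : ℂ) • D) 0 := by
      have h3 : HasDerivAt (fun ζ : ℂ => 2 * ζ) 2 0 := by
        simpa using (hasDerivAt_id (0 : ℂ)).const_mul 2
      exact (h3.smul_const D).const_add _
    have h5 := h3.sub h4
    rw [hg1]
    refine h5.congr_deriv ?_
    have h6 : fderiv ℂ (fun z => fderiv ℂ ψ z w) y w = fderiv ℂ (fderiv ℂ ψ) y w w := by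
      have h7 := hψ.fderiv.differentiableAt.hasFDerivAt.clm_apply (hasFDerivAt_const w y)
      rw [h7.fderiv]
      simp
    rw [hD, h6]
    simp only [Function.comp, hγ0]
    simp only [mul_zero, zero_smul, add_zero, map_smul, smul_add, smul_smul]
    norm_num
    abel
  have hg10 : g1 0 = 0 := by
    rw [hg1]
    simp [hγ0]
  have hg0 : g 0 = 0 := by
    rw [hg]
    simp [hγ0]
  rw [hasDerivAt_iff_isLittleO] at hg2
  have hb : ∀ᶠ ζ in 𝓝 (0 : ℂ), ‖g1 ζ‖ ≤ ε * ‖ζ‖ := by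
    have := hg2.def hε
    filter_upwards [this] with ζ hζ
    rw [hg10] at hζ
    simpa using hζ
  obtain ⟨δ, hδ, hball⟩ := Metric.eventually_nhds_iff_ball.1 (hgd.and hb)
  filter_upwards [Metric.ball_mem_nhds (0 : ℂ) hδ] with ζ hζ
  have hsub : closedBall (0 : ℂ) ‖ζ‖ ⊆ ball 0 δ := by
    apply closedBall_subset_ball
    rwa [mem_ball_zero_iff] at hζ
  have h1 := (convex_closedBall (0 : ℂ) ‖ζ‖).norm_image_sub_le_of_norm_hasDerivWithin_le
    (f := g) (f' := g1) (C := ε * ‖ζ‖) (x := 0) (y := ζ)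
    (fun z hz => (hball z (hsub hz)).1.hasDerivWithinAt)
    (fun z hz => (hball z (hsub hz)).2.trans (by
      rw [mem_closedBall_zero_iff] at hz
      exact mul_le_mul_of_nonneg_left hz hε.le))
    (by simp) (by simp)
  rw [hg0, sub_zero, sub_zero] at h1
  have h2 : ‖g ζ‖ ≤ ε * ‖ζ‖ ^ 2 := by
    refine h1.trans (le_of_eq ?_)
    ring
  rw [hg, hγ] at h2
  rw [← hD]
  exact h2

theorem junction [IsManifold 𝓘(ℂ, V n) ω X] (ctx : Ctx G)
    {e e' : OpenPartialHomeomorph X (V n)} (he : e ∈ atlas (V n) X) (he' : e' ∈ atlas (V n) X)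
    {x : X} (hx : x ∈ e.source) (hx' : x ∈ e'.source) (w : V n) {ε : ℝ} (hε : 0 < ε) :
    ∀ᶠ ζ in 𝓝 (0 : ℂ), dist (e.symm (jet G e (e x) w ζ))
      (e'.symm (jet G e' (e' x) (fderiv ℂ (trans e e') (e x) w) ζ)) ≤ ε * ‖ζ‖ ^ 2 := by
  have hy : e x ∈ e.target := e.map_source hx
  have hψx : trans e e' (e x) = e' x := by
    unfold trans
    rw [e.left_inv hx]
  have han : AnalyticAt ℂ (trans e e') (e x) := trans_analyticAt he he' hx hx'
  obtain ⟨ρ, hρ, -, hup⟩ := loc_upper ctx he' hx' one_pos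
  obtain ⟨ρ₁, hρ₁, -, κ, -, C, hC, hnm⟩ := rup_norm ctx.herm he' hx' one_pos
  have hN : ∀ a, Real.sqrt (G e' (e' x) a a).re ≤ C * ‖a‖ := fun a =>
    (hnm (e' x) (mem_closedBall_self hρ₁.le) a).2.1
  have htay := Jct_taylor han w (-(1 / 2 : ℂ) • Gam G e (e x) w w)
    (show 0 < ε / (2 * C) by positivity)
  rw [hψx] at htay
  -- the jet in the chart `e'`
  have hjet : ∀ ζ, jet G e' (e' x) (fderiv ℂ (trans e e') (e x) w) ζ =
      e' x + ζ • fderiv ℂ (trans e e') (e x) w + ζ ^ 2 •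
        (fderiv ℂ (trans e e') (e x) (-(1 / 2 : ℂ) • Gam G e (e x) w w) +
        (1 / 2 : ℂ) • fderiv ℂ (fun z => fderiv ℂ (trans e e') z w) (e x) w) := by
    intro ζ
    unfold jet
    rw [Gam_trans ctx.herm he he' hx hx' w w, map_smul, smul_sub, sub_eq_add_neg]
    simp only [neg_smul, neg_neg]
  -- continuity
  have hjc : ∀ (f : OpenPartialHomeomorph X (V n)) (u v : V n),
      Tendsto (fun ζ => jet G f u v ζ) (𝓝 0) (𝓝 u) := by
    intro f u v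
    have h1 : Continuous (fun ζ : ℂ => u + ζ • v + ζ ^ 2 • (-(1 / 2 : ℂ) • Gam G f u v v)) := by
      fun_prop
    have h2 := h1.tendsto 0
    simp only [zero_smul, add_zero, ne_eq, OfNat.ofNat_ne_zero, not_false_eq_true, zero_pow] at h2
    exact h2
  have h1 := hjc e (e x) w
  have h2 := hjc e' (e' x) (fderiv ℂ (trans e e') (e x) w)
  have hsc : Tendsto e.symm (𝓝 (e x)) (𝓝 x) := by
    have := e.continuousAt_symm hy
    rw [ContinuousAt, e.left_inv hx] at this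
    exact this
  have h3 : ∀ᶠ ζ in 𝓝 (0 : ℂ), e.symm (jet G e (e x) w ζ) ∈ e'.source :=
    (hsc.comp h1).eventually (e'.open_source.mem_nhds hx')
  have h4 : ∀ᶠ ζ in 𝓝 (0 : ℂ), trans e e' (jet G e (e x) w ζ) ∈ ball (e' x) ρ := by
    have h5 : Tendsto (trans e e') (𝓝 (e x)) (𝓝 (e' x)) := by
      have := han.continuousAt
      rw [ContinuousAt, hψx] at this
      exact this
    exact (h5.comp h1).eventually (Metric.ball_mem_nhds _ hρ)
  have h5 : ∀ᶠ ζ in 𝓝 (0 : ℂ), jet G e' (e' x) (fderiv ℂ (trans e e') (e x) w) ζ ∈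
      ball (e' x) ρ := h2.eventually (Metric.ball_mem_nhds _ hρ)
  filter_upwards [h3, h4, h5, htay] with ζ k3 k4 k5 k6
  have e1 : e.symm (jet G e (e x) w ζ) = e'.symm (trans e e' (jet G e (e x) w ζ)) := by
    unfold trans
    rw [e'.left_inv k3]
  rw [e1]
  refine (hup _ k4 _ k5).trans ?_
  have e2 : ‖jet G e' (e' x) (fderiv ℂ (trans e e') (e x) w) ζ -
      trans e e' (jet G e (e x) w ζ)‖ ≤ ε / (2 * C) * ‖ζ‖ ^ 2 := by
    rw [norm_sub_rev, hjet]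
    exact k6
  have e3 := (hN (jet G e' (e' x) (fderiv ℂ (trans e e') (e x) w) ζ -
      trans e e' (jet G e (e x) w ζ))).trans (mul_le_mul_of_nonneg_left e2 hC.le)
  have e4 : (1 + 1) * (C * (ε / (2 * C) * ‖ζ‖ ^ 2)) = ε * ‖ζ‖ ^ 2 := by
    field_simp
    ring
  rw [← e4]
  exact mul_le_mul_of_nonneg_left e3 (by norm_num)

end KI
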