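import Pool.Agent.H50.KI.Bdf

/-! # Ode: parallel transport over short times

PROOFS. `lin_ode`: linear equation `V' = A(r) V` on `[s, t]` with `A` continuous, `‖A‖ ≤ K`, `K (t - s) ≤ 1/2`: the map
`V ↦ (r ↦ V₀ + ∫_s^r A V)` is a contraction (constant 1/2) of the complete space of continuous functions
`C(Icc s t, E)` (or use `IsPicardLindelof` with the ball of radius `‖V₀‖ + 1`, or iterate
Picard's approximations); its fixed point, extended (`IccExtend`), is the solution
(`GE5_prim`-type primitive: derivative of `∫_s^r f` within `Icc s t` for `f` continuous on `Icc s t`,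
Pool/Agent/H49/KI/GE5.lean).
`par_exists`: `A r` is the real linear map `V ↦ -Gam G e (y r) (p r) V` (`Gam_add_right`, `Gam_smul_right`), continuous in
`r ∈ Icc a b` (`Gam_cont` in Ece.lean, finite dimension: a family of linear maps which is continuous at each vector is
continuous in norm; `y`, `p` are continuous by `h.vel`, `h.acc`), bounded by some `K` on the compact interval;
`δ = 1/(2 K + 2)`. -/

set_option autoImplicit false

namespace KI

open Complex Metric Set Filter Topology Manifold ContDiff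
open KB (V DR wirt levi rho Sesq lap lapC dz)

theorem lin_ode {E : Type} [NormedAddCommGroup E] [NormedSpace ℝ E] [CompleteSpace E]
    {s t : ℝ} (hst : s < t) {A : ℝ → E →L[ℝ] E} (hA : ContinuousOn A (Icc s t)) {K : ℝ}
    (hK : ∀ r ∈ Icc s t, ‖A r‖ ≤ K) (hKs : K * (t - s) ≤ 1 / 2) (V₀ : E) :
    ∃ W : ℝ → E, W s = V₀ ∧ ∀ r ∈ Icc s t, HasDerivWithinAt W (A r (W r)) (Icc s t) r := by
  classical
  have hst' : s ≤ t := hst.le
  set pr : ℝ → Icc s t := projIcc s t hst' with hpr
  have hprc : Continuous pr := continuous_projIcc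
  have hAc : Continuous (fun x : ℝ => A (pr x)) :=
    hA.comp_continuous (continuous_subtype_val.comp hprc) fun x => (pr x).2
  -- the integrand
  let g : C(Icc s t, E) → ℝ → E := fun f x => A (pr x) (f (pr x))
  have hg : ∀ f, Continuous (g f) := fun f => hAc.clm_apply (f.continuous.comp hprc)
  have hgi : ∀ (f : C(Icc s t, E)) (a b : ℝ), IntervalIntegrable (g f) MeasureTheory.volume a b :=
    fun f a b => (hg f).intervalIntegrable a b
  have hprim : ∀ f (r : ℝ), HasDerivAt (fun r => V₀ + ∫ x in s..r, g f x) (g f r) r := fun f r =>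
    ((hg f).integral_hasStrictDerivAt s r).hasDerivAt.const_add V₀
  let T : C(Icc s t, E) → C(Icc s t, E) := fun f =>
    ⟨fun r => V₀ + ∫ x in s..(r : ℝ), g f x,
      (continuous_iff_continuousAt.2 fun r => (hprim f r).continuousAt).comp continuous_subtype_val⟩
  have hT : ∀ f (r : Icc s t), T f r = V₀ + ∫ x in s..(r : ℝ), g f x := fun f r => rfl
  have hK0 : 0 ≤ K := (norm_nonneg _).trans (hK s ⟨le_rfl, hst'⟩)
  have hlip : LipschitzWith (1 / 2 : NNReal) T := by
    refine LipschitzWith.of_dist_le_mul fun f h => ?_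
    have hd0 : (0 : ℝ) ≤ ((1 / 2 : NNReal) : ℝ) * dist f h := by positivity
    rw [ContinuousMap.dist_le hd0]
    intro r
    rw [hT, hT, dist_eq_norm, add_sub_add_left_eq_sub,
      ← intervalIntegral.integral_sub (hgi f _ _) (hgi h _ _)]
    have h1 : ∀ x ∈ Set.uIoc s (r : ℝ), ‖g f x - g h x‖ ≤ K * dist f h := by
      intro x _
      have h2 : g f x - g h x = A (pr x) (f (pr x) - h (pr x)) := by
        simp only [g, map_sub]
      rw [h2]
      refine ((A (pr x)).le_opNorm _).trans ?_
      refine mul_le_mul (hK _ (pr x).2) ?_ (norm_nonneg _) hK0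
      rw [← dist_eq_norm]
      exact ContinuousMap.dist_apply_le_dist _
    refine (intervalIntegral.norm_integral_le_of_norm_le_const h1).trans ?_
    have h3 : |(r : ℝ) - s| ≤ t - s := by
      rw [abs_of_nonneg (sub_nonneg.2 r.2.1)]
      exact sub_le_sub_right r.2.2 s
    have h4 : 0 ≤ K * dist f h := mul_nonneg hK0 dist_nonneg
    calc K * dist f h * |(r : ℝ) - s| ≤ K * dist f h * (t - s) := mul_le_mul_of_nonneg_left h3 h4
      _ = (K * (t - s)) * dist f h := by ring
      _ ≤ 1 / 2 * dist f h := mul_le_mul_of_nonneg_right hKs dist_nonneg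
      _ = ((1 / 2 : NNReal) : ℝ) * dist f h := by norm_num
  have hcontr : ContractingWith (1 / 2 : NNReal) T := ⟨by
    rw [← NNReal.coe_lt_coe]
    norm_num, hlip⟩
  have : Nonempty C(Icc s t, E) := ⟨0⟩
  obtain ⟨f, hf⟩ : ∃ f, T f = f := ⟨_, hcontr.fixedPoint_isFixedPt⟩
  refine ⟨fun r => V₀ + ∫ x in s..r, g f x, by simp, fun r hr => ?_⟩
  have h1 := (hprim f r).hasDerivWithinAt (s := Icc s t)
  have h2 : pr r = ⟨r, hr⟩ := projIcc_of_mem hst' hr
  have h3 : V₀ + ∫ x in s..r, g f x = f ⟨r, hr⟩ := by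
    have h4 := hT f ⟨r, hr⟩
    rw [hf] at h4
    exact h4.symm
  have h5 : g f r = A r (V₀ + ∫ x in s..r, g f x) := by
    rw [h3]
    simp only [g, h2]
  rw [h5] at h1
  exact h1

variable {n : ℕ} {X : Type} [MetricSpace X] [ChartedSpace (V n) X]
  {G : OpenPartialHomeomorph X (V n) → V n → V n → V n → ℂ}

/-- the linear map `V ↦ -Γ(y)(p, V)` -/
noncomputable def Ode_A (G : OpenPartialHomeomorph X (V n) → V n → V n → V n → ℂ)
    (e : OpenPartialHomeomorph X (V n)) (y p : V n) : V n →L[ℝ] V n :=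
  -∑ j : Fin n, (((EuclideanSpace.proj j : V n →L[ℂ] ℂ).smulRight
    (Gam G e y p (KB.bv j))).restrictScalars ℝ)

theorem Ode_A_apply (hG : IsHermMetric G) {e : OpenPartialHomeomorph X (V n)}
    (he : e ∈ atlas (V n) X) {y : V n} (hy : y ∈ e.target) (p W : V n) :
    Ode_A G e y p W = -Gam G e y p W := by
  have h3 := map_sum (AddMonoidHom.mk' (fun b => Gam G e y p b)
    (fun b b' => Gam_add_right hG he hy p b b')) (fun j => W j • (KB.bv j : V n)) Finset.univ
  simp only [AddMonoidHom.mk'_apply] at h3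
  rw [← KB.sum_bv W] at h3
  rw [h3]
  simp only [Ode_A, _root_.neg_apply, _root_.sum_apply,
    ContinuousLinearMap.coe_restrictScalars', ContinuousLinearMap.smulRight_apply]
  refine congrArg _ (Finset.sum_congr rfl fun j _ => ?_)
  rw [Gam_smul_right hG he hy]
  rfl

theorem Ode_A_cont (hG : IsHermMetric G) {e : OpenPartialHomeomorph X (V n)}
    (he : e ∈ atlas (V n) X) {y p : ℝ → V n} {S : Set ℝ} (hy : ContinuousOn y S)
    (hp : ContinuousOn p S) (hm : ∀ r ∈ S, y r ∈ e.target) :
    ContinuousOn (fun r => Ode_A G e (y r) (p r)) S := by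
  unfold Ode_A
  refine ContinuousOn.neg (continuousOn_finsetSum _ fun j _ => ?_)
  have h1 : ContinuousOn (fun r => Gam G e (y r) (p r) (KB.bv j)) S :=
    (Gam_cont hG he).comp (hy.prodMk (hp.prodMk continuousOn_const)) fun r hr => ⟨hm r hr, mem_univ _⟩
  have h2 : Continuous (fun c : V n => (((EuclideanSpace.proj j : V n →L[ℂ] ℂ).smulRight
      c).restrictScalars ℝ : V n →L[ℝ] V n)) := by
    have h3 : Continuous (fun c : V n => ((EuclideanSpace.proj j : V n →L[ℂ] ℂ).smulRight c)) :=
      (ContinuousLinearMap.smulRightL ℂ (V n) (V n) (EuclideanSpace.proj j)).continuous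
    exact (ContinuousLinearMap.restrictScalarsL ℂ (V n) (V n) ℝ ℝ).continuous.comp h3
  exact h2.comp_continuousOn h1

theorem par_exists (hG : IsHermMetric G) {e : OpenPartialHomeomorph X (V n)}
    (he : e ∈ atlas (V n) X) {y p : ℝ → V n} {a b : ℝ} (h : IsGeodOn G e y p a b) :
    ∃ δ > 0, ∀ s ∈ Icc a b, ∀ t ∈ Icc a b, s < t → t - s < δ → ∀ V₀ : V n,
      ∃ W : ℝ → V n, W s = V₀ ∧ ∀ r ∈ Icc s t,
        HasDerivWithinAt W (-Gam G e (y r) (p r) (W r)) (Icc s t) r := by
  have hyc : ContinuousOn y (Icc a b) := fun r hr => (h.vel r hr).continuousWithinAt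
  have hpc : ContinuousOn p (Icc a b) := fun r hr => (h.acc r hr).continuousWithinAt
  have hAc := Ode_A_cont hG he hyc hpc h.mem
  obtain ⟨K, hK⟩ := isCompact_Icc.exists_bound_of_continuousOn hAc
  set K' : ℝ := max K 0 with hK'
  have hK'0 : 0 ≤ K' := le_max_right _ _
  refine ⟨1 / (2 * K' + 2), by positivity, fun s hs t ht hst hd V₀ => ?_⟩
  have hsub : Icc s t ⊆ Icc a b := Icc_subset_Icc hs.1 ht.2
  have hKs : K' * (t - s) ≤ 1 / 2 := by
    have h1 : K' * (t - s) ≤ K' * (1 / (2 * K' + 2)) := mul_le_mul_of_nonneg_left hd.le hK'0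
    have h2 : K' * (1 / (2 * K' + 2)) ≤ 1 / 2 := by
      rw [mul_one_div, div_le_div_iff₀ (by positivity) (by norm_num)]
      linarith
    exact h1.trans h2
  obtain ⟨W, hW0, hW⟩ := lin_ode hst (hAc.mono hsub) (K := K')
    (fun r hr => (hK r (hsub hr)).trans (le_max_left _ _)) hKs V₀
  refine ⟨W, hW0, fun r hr => ?_⟩
  have h1 := hW r hr
  rw [Ode_A_apply hG he (h.mem r (hsub hr))] at h1
  exact h1

end KI
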