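import Pool.Agent.H50.KI.Ppr
import Pool.Agent.H50.KI.Jct
import Pool.Agent.H50.KI.Ode

/-! # Bst: propagation of the state along the geodesic

PROOFS. `mn_le_add`, `mn_mono`: finite sums. `BS_chart`: from the chart `e`, vector `v` of the state to the chart `e'`,
`v' = fderiv ℂ (trans e e') (e (σ t)) v`: `(G e' … v' v').re = vv` (`G_trans`), `ww ℓ t v' = Dψ (ww ℓ t v)` (linear), and by
`junction` (with `ε/4`), triangle inequality and `mn_mono`: the mean increases by at most `(ε/4) ρ²` (`‖ρ α‖ ≤ ρ`,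
`hA.le`); use the state with `ε/2`. `bs_step`: `δ` from `par_exists` for `hgeo`. Let `a ≤ s < t ≤ b`, `t - s < δ`. State at `s` in the
chart `e` (`BS_chart`): `v`; `W` from `par_exists` with `W s = v`; `piece_par` with `a = 0` on `[s, t]` (restrict `hgeo` to
`[s, t]`: `HasDerivWithinAt.mono`), `ε/2`; triangle inequality
`dist (g ζ) (X_t ζ) ≤ dist (g ζ) (X_s ζ) + dist (X_s ζ) (X_t ζ)`, `mn` of the sum; `∫_0^s κ + ∫_s^t κ = ∫_0^t κ`
(`hκ` restricted); `vv s/ℓ² + vv (t-s)/ℓ² = vv t/ℓ²`. The new vector is `W t` (`par_norm`). -/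

set_option autoImplicit false

namespace KI

open Complex Metric Set Filter Topology Manifold ContDiff
open KB (V DR wirt levi rho Sesq lap lapC dz)

theorem mn_mono {A : Finset ℂ} {u v : ℂ → ℝ} {ρ : ℝ}
    (h : ∀ α ∈ A, u ((ρ : ℂ) * α) ≤ v ((ρ : ℂ) * α)) : mn A u ρ ≤ mn A v ρ :=
  div_le_div_of_nonneg_right (Finset.sum_le_sum h) (Nat.cast_nonneg _)

theorem mn_add (A : Finset ℂ) (u v : ℂ → ℝ) (ρ : ℝ) :
    mn A (fun ζ => u ζ + v ζ) ρ = mn A u ρ + mn A v ρ := by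
  unfold mn
  rw [Finset.sum_add_distrib, add_div]

theorem mn_const {A : Finset ℂ} (hA : A.Nonempty) (c ρ : ℝ) : mn A (fun _ => c) ρ = c := by
  unfold mn
  have h : (A.card : ℝ) ≠ 0 := by
    have := hA.card_pos
    positivity
  rw [Finset.sum_const, nsmul_eq_mul, mul_div_cancel_left₀ _ h]

variable {n : ℕ} {X : Type} [MetricSpace X] [ChartedSpace (V n) X]
  {G : OpenPartialHomeomorph X (V n) → V n → V n → V n → ℂ}

theorem Bst_tri {A : Finset ℂ} (g X₁ X₂ : ℂ → X) (ρ : ℝ) :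
    mn A (fun ζ => dist (g ζ) (X₂ ζ)) ρ ≤
      mn A (fun ζ => dist (g ζ) (X₁ ζ)) ρ + mn A (fun ζ => dist (X₁ ζ) (X₂ ζ)) ρ := by
  rw [← mn_add]
  exact mn_mono fun α _ => dist_triangle _ _ _

theorem BS_chart [IsManifold 𝓘(ℂ, V n) ω X] (ctx : Ctx G) {A : Finset ℂ} (hA : Dirs A)
    {g : ℂ → X} {σ : ℝ → X} {ℓ vv : ℝ} {κ : ℝ → ℝ} {t : ℝ} (h : BS G A g σ ℓ vv κ t)
    {e : OpenPartialHomeomorph X (V n)} (he : e ∈ atlas (V n) X) (hte : σ t ∈ e.source) :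
    ∃ v : V n, (G e (e (σ t)) v v).re = vv ∧ ∀ ε > 0, ∀ᶠ ρ : ℝ in 𝓝[>] (0 : ℝ),
      mn A (fun ζ => dist (g ζ) (e.symm (jet G e (e (σ t)) (ww ℓ t v) ζ))) ρ - t ≤
        ρ ^ 2 / 2 * (vv * t / ℓ ^ 2 - (∫ s in (0 : ℝ)..t, κ s) + ε) := by
  obtain ⟨e₀, he₀, ht₀, v₀, hv₀, hB⟩ := h
  refine ⟨fderiv ℂ (trans e₀ e) (e₀ (σ t)) v₀, ?_, ?_⟩
  · have := ctx.herm.compat e₀ he₀ e he (σ t) ⟨ht₀, hte⟩ v₀ v₀
    rw [this] at hv₀
    exact hv₀
  · intro ε hε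
    have h1 := hB (ε / 2) (by positivity)
    have h2 := junction ctx he₀ he ht₀ hte (ww ℓ t v₀) (ε := ε / 4) (by positivity)
    rw [Metric.eventually_nhds_iff] at h2
    obtain ⟨r, hr, h2⟩ := h2
    have h3 : ∀ᶠ ρ : ℝ in 𝓝[>] (0 : ℝ), ρ ∈ Ioo (0 : ℝ) r := Ioo_mem_nhdsGT hr
    filter_upwards [h1, h3] with ρ h4 h5
    have hw : fderiv ℂ (trans e₀ e) (e₀ (σ t)) (ww ℓ t v₀) =
        ww ℓ t (fderiv ℂ (trans e₀ e) (e₀ (σ t)) v₀) := by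
      unfold ww
      rw [map_smul]
    have h6 := Bst_tri (A := A) g (fun ζ => e₀.symm (jet G e₀ (e₀ (σ t)) (ww ℓ t v₀) ζ))
      (fun ζ => e.symm (jet G e (e (σ t)) (ww ℓ t (fderiv ℂ (trans e₀ e) (e₀ (σ t)) v₀)) ζ)) ρ
    have h7 : mn A (fun ζ => dist (e₀.symm (jet G e₀ (e₀ (σ t)) (ww ℓ t v₀) ζ))
        (e.symm (jet G e (e (σ t)) (ww ℓ t (fderiv ℂ (trans e₀ e) (e₀ (σ t)) v₀)) ζ))) ρ ≤
        ε / 4 * ρ ^ 2 := by
      rw [← mn_const hA.ne (ε / 4 * ρ ^ 2) ρ]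
      refine mn_mono fun α hα => ?_
      have h8 : ‖(ρ : ℂ) * α‖ ≤ ρ := by
        rw [norm_mul, Complex.norm_real, Real.norm_of_nonneg h5.1.le]
        have := mul_le_mul_of_nonneg_left (hA.le α hα) h5.1.le
        linarith
      have h9 := h2 (y := (ρ : ℂ) * α) (by
        rw [dist_zero_right]
        exact h8.trans_lt h5.2)
      rw [hw] at h9
      refine h9.trans ?_
      refine mul_le_mul_of_nonneg_left ?_ (by positivity)
      exact pow_le_pow_left₀ (norm_nonneg _) h8 2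
    have h10 : ρ ^ 2 / 2 * (vv * t / ℓ ^ 2 - (∫ s in (0 : ℝ)..t, κ s) + ε / 2) +
        ε / 4 * ρ ^ 2 = ρ ^ 2 / 2 * (vv * t / ℓ ^ 2 - (∫ s in (0 : ℝ)..t, κ s) + ε) := by ring
    linarith

theorem bs_step [IsManifold 𝓘(ℂ, V n) ω X] (ctx : Ctx G) {A : Finset ℂ} (hA : Dirs A)
    {g : ℂ → X} {σ : ℝ → X} {ℓ vv : ℝ} (hℓ : 0 < ℓ) {κ : ℝ → ℝ} {cplx : Prop}
    (hQ : HQ G A σ ℓ vv κ cplx)
    (hκ : IntervalIntegrable κ MeasureTheory.volume 0 ℓ)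
    {e : OpenPartialHomeomorph X (V n)} (he : e ∈ atlas (V n) X) {a b : ℝ} (ha : 0 ≤ a)
    (hb : b ≤ ℓ) (hmem : ∀ t ∈ Icc a b, σ t ∈ e.source) {p : ℝ → V n}
    (hgeo : IsGeodOn G e (fun t => e (σ t)) p a b) :
    ∃ δ > 0, ∀ s ∈ Icc a b, ∀ t ∈ Icc a b, s < t → t - s < δ →
      BS G A g σ ℓ vv κ s → BS G A g σ ℓ vv κ t := by
  obtain ⟨δ, hδ, hpar⟩ := par_exists ctx.herm he hgeo
  refine ⟨δ, hδ, fun s hs t ht hst hts hBS => ?_⟩
  have hsub : Icc s t ⊆ Icc a b := Icc_subset_Icc hs.1 ht.2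
  obtain ⟨v, hv, hB⟩ := BS_chart ctx hA hBS he (hmem s hs)
  obtain ⟨W, hWs, hW⟩ := hpar s hs t ht hst hts v
  have hgeo' : IsGeodOn G e (fun t => e (σ t)) p s t :=
    ⟨fun r hr => hgeo.mem r (hsub hr), fun r hr => (hgeo.vel r (hsub hr)).mono hsub,
      fun r hr => (hgeo.acc r (hsub hr)).mono hsub, fun r hr => hgeo.unit r (hsub hr)⟩
  have hs0 : 0 ≤ s := ha.trans hs.1
  have htl : t ≤ ℓ := ht.2.trans hb
  have hκ1 : IntervalIntegrable κ MeasureTheory.volume 0 s := by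
    refine hκ.mono_set ?_
    rw [uIcc_of_le hs0, uIcc_of_le hℓ.le]
    exact Icc_subset_Icc_right (hst.le.trans htl)
  have hκ2 : IntervalIntegrable κ MeasureTheory.volume s t := by
    refine hκ.mono_set ?_
    rw [uIcc_of_le hst.le, uIcc_of_le hℓ.le]
    exact Icc_subset_Icc hs0 htl
  refine ⟨e, he, hmem t ht, W t, ?_, fun ε hε => ?_⟩
  · have h1 := par_norm ctx.herm he hst hgeo'.mem hgeo'.vel hW t ⟨hst.le, le_rfl⟩
    rw [h1, hWs]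
    exact hv
  · have h1 := hB (ε / 2) (by positivity)
    have h2 := piece_par ctx hA hℓ hQ he hs0 hst htl hκ2 (fun r hr => hmem r (hsub hr)) hgeo' hW
      (by rw [hWs]; exact hv) 0 (Or.inr rfl) (ε := ε / 2) (by positivity)
    filter_upwards [h1, h2] with ρ h3 h4
    have h5 := Bst_tri (A := A) g (fun ζ => e.symm (jet G e (e (σ s)) (ww ℓ s v) ζ))
      (fun ζ => e.symm (jet G e (e (σ t)) (ww ℓ t (W t)) ζ)) ρ
    simp only [smul_zero, add_zero, hWs] at h4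
    have h6 := intervalIntegral.integral_add_adjacent_intervals hκ1 hκ2
    rw [← h6]
    have h7 : ρ ^ 2 / 2 * (vv * s / ℓ ^ 2 - (∫ s in (0 : ℝ)..s, κ s) + ε / 2) +
        ρ ^ 2 / 2 * (vv * (t - s) / ℓ ^ 2 - (∫ s in s..t, κ s) + ε / 2) =
        ρ ^ 2 / 2 * (vv * t / ℓ ^ 2 - ((∫ s in (0 : ℝ)..s, κ s) + ∫ s in s..t, κ s) + ε) := by
      ring
    linarith

end KI
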