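import Pool.Agent.H49.KI.Ctx

/-! # Cdh: the `y`-derivative of a holomorphic map of `(z, y)` is holomorphic in `z`

PROOF. Fix `z₀ ∈ U` and `a`; put `G(z, t) = g z (t • a)`, a function on `U' × ball 0 s` (`U'` a ball around
`z₀`, `s ‖a‖ < r`), jointly differentiable, so continuous. The difference quotients
`q_t (z) = t⁻¹ • (G(z, t) - G(z, 0))` (`t ≠ 0` small) are holomorphic in `z ∈ U'`; they converge to
`fderiv ℂ (g z) 0 a` as `t → 0`, uniformly on a smaller ball: `G` is bounded by `M` on a compact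
product `closedBall z₀ ρ × closedBall 0 s'`, and for `h` holomorphic on `|t| ≤ s'`, bounded by `M`:
`‖t⁻¹ (h t - h 0) - h' 0‖ ≤ 2 M |t| / s'^2`-type bound for `|t| ≤ s'/2` (e.g. `dslope h 0` is holomorphic,
bounded by `2 M / s'` on the circle, so its derivative is bounded by `8 M / s'^2` on the half disc; mean
value). Then `TendstoLocallyUniformlyOn.differentiableOn` (limit along `t = s'/(k+2)`, `k → ∞`).
Alternative: `∂_t G(z, 0) = (2πi)⁻¹ ∮ G(z, t) t⁻² dt` and differentiate under the integral. -/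

set_option autoImplicit false

namespace KI

open Complex Metric Set Filter Topology Manifold ContDiff
open KB (V DR wirt levi rho Sesq lap lapC dz)

variable {n : ℕ}

theorem Cdh_quot {E : Type*} [NormedAddCommGroup E] [NormedSpace ℂ E] [CompleteSpace E]
    {h : ℂ → E} {s M : ℝ} (hs : 0 < s) (hd : DifferentiableOn ℂ h (ball 0 s))
    (hb : ∀ t ∈ ball (0 : ℂ) s, ‖h t‖ ≤ M) {t : ℂ} (ht : t ∈ ball (0 : ℂ) s) (ht0 : t ≠ 0) :
    ‖t⁻¹ • (h t - h 0) - deriv h 0‖ ≤ (2 * M / s + 2 * M / s) / s * ‖t‖ := by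
  have h0 : (0 : ℂ) ∈ ball (0 : ℂ) s := mem_ball_self hs
  have hm : Set.MapsTo h (ball 0 s) (closedBall (h 0) (2 * M)) := by
    intro z hz
    rw [mem_closedBall, dist_eq_norm]
    have h1 := norm_sub_le (h z) (h 0)
    have h2 := hb z hz
    have h3 := hb 0 h0
    linarith
  have hD : ∀ z ∈ ball (0 : ℂ) s, ‖dslope h 0 z‖ ≤ 2 * M / s := fun z hz =>
    norm_dslope_le_div_of_mapsTo_ball hd hm hz
  have hdd : DifferentiableOn ℂ (dslope h 0) (ball 0 s) :=
    (differentiableOn_dslope (isOpen_ball.mem_nhds h0)).2 hd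
  have hm2 : Set.MapsTo (dslope h 0) (ball 0 s)
      (closedBall (dslope h 0 0) (2 * M / s + 2 * M / s)) := by
    intro z hz
    rw [mem_closedBall, dist_eq_norm]
    have h1 := norm_sub_le (dslope h 0 z) (dslope h 0 0)
    have h2 := hD z hz
    have h3 := hD 0 h0
    linarith
  have hfin := dist_le_div_mul_dist_of_mapsTo_ball hdd hm2 ht
  rw [dist_eq_norm, dist_eq_norm, dslope_same, dslope_of_ne _ ht0, slope_def_module, sub_zero]
    at hfin
  exact hfin

theorem cdh {U : Set ℂ} (hU : IsOpen U) {r : ℝ} (hr : 0 < r) {g : ℂ → V n → V n}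
    (hd : ∀ z ∈ U, ∀ y ∈ ball (0 : V n) r,
      DifferentiableAt ℂ (fun q : ℂ × V n => g q.1 q.2) (z, y)) (a : V n) :
    DifferentiableOn ℂ (fun z => fderiv ℂ (g z) 0 a) U := by
  intro z₀ hz₀
  obtain ⟨ρ, hρ, hρU⟩ := Metric.isOpen_iff.1 hU z₀ hz₀
  obtain ⟨s, hs, hsr⟩ : ∃ s : ℝ, 0 < s ∧ s * ‖a‖ < r := by
    refine ⟨r / (‖a‖ + 1), by positivity, ?_⟩
    rw [div_mul_eq_mul_div, div_lt_iff₀ (by positivity)]
    nlinarith [norm_nonneg a]
  have hta : ∀ t ∈ closedBall (0 : ℂ) s, t • a ∈ ball (0 : V n) r := by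
    intro t ht
    rw [mem_closedBall, dist_zero_right] at ht
    rw [mem_ball, dist_zero_right, norm_smul]
    exact lt_of_le_of_lt (mul_le_mul_of_nonneg_right ht (norm_nonneg a)) hsr
  have hzU : ∀ z ∈ closedBall z₀ (ρ / 2), z ∈ U := fun z hz =>
    hρU (lt_of_le_of_lt (mem_closedBall.1 hz) (by linarith))
  -- bound on the compact product
  have hG : ∀ z ∈ closedBall z₀ (ρ / 2), ∀ t ∈ closedBall (0 : ℂ) s,
      DifferentiableAt ℂ (fun q : ℂ × ℂ => g q.1 (q.2 • a)) (z, t) := by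
    intro z hz t ht
    have h1 := hd z (hzU z hz) (t • a) (hta t ht)
    have h2 : DifferentiableAt ℂ (fun q : ℂ × ℂ => (q.1, q.2 • a)) (z, t) := by fun_prop
    exact DifferentiableAt.comp (z, t) (g := fun q : ℂ × V n => g q.1 q.2) h1 h2
  obtain ⟨M, hM⟩ := ((isCompact_closedBall z₀ (ρ / 2)).prod
    (isCompact_closedBall (0 : ℂ) s)).exists_bound_of_continuousOn
    (f := fun q : ℂ × ℂ => g q.1 (q.2 • a)) (fun q hq =>
      (hG q.1 hq.1 q.2 hq.2).continuousAt.continuousWithinAt)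
  have hMz : ∀ z ∈ closedBall z₀ (ρ / 2), ∀ t ∈ closedBall (0 : ℂ) s, ‖g z (t • a)‖ ≤ M :=
    fun z hz t ht => hM (z, t) ⟨hz, ht⟩
  -- derivative in `t` at `0`
  have hder : ∀ z ∈ closedBall z₀ (ρ / 2),
      deriv (fun t : ℂ => g z (t • a)) 0 = fderiv ℂ (g z) 0 a := by
    intro z hz
    have h1 : DifferentiableAt ℂ (g z) 0 := by
      have h2 := hd z (hzU z hz) 0 (mem_ball_self hr)
      have h3 : DifferentiableAt ℂ (fun y : V n => (z, y)) 0 := by fun_prop
      exact DifferentiableAt.comp (0 : V n) (g := fun q : ℂ × V n => g q.1 q.2) h2 h3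
    have h4 : HasDerivAt (fun t : ℂ => t • a) a 0 := by
      simpa using (hasDerivAt_id (0 : ℂ)).smul_const a
    have h5 : HasFDerivAt (g z) (fderiv ℂ (g z) 0) ((0 : ℂ) • a) := by
      rw [zero_smul]; exact h1.hasFDerivAt
    exact (h5.comp_hasDerivAt (0 : ℂ) h4).deriv
  have hdt : ∀ z ∈ closedBall z₀ (ρ / 2),
      DifferentiableOn ℂ (fun t : ℂ => g z (t • a)) (ball 0 s) := by
    intro z hz t ht
    have h1 := hG z hz t (ball_subset_closedBall ht)
    have h3 : DifferentiableAt ℂ (fun t : ℂ => (z, t)) t := by fun_prop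
    exact (DifferentiableAt.comp t (g := fun q : ℂ × ℂ => g q.1 (q.2 • a)) h1
      h3).differentiableWithinAt
  set C : ℝ := (2 * M / s + 2 * M / s) / s with hC
  have hM0 : 0 ≤ M := le_trans (norm_nonneg _)
    (hMz z₀ (mem_closedBall_self (by positivity)) 0 (mem_closedBall_self hs.le))
  have hC0 : 0 ≤ C := by positivity
  let τ : ℕ → ℂ := fun k => ((s / (k + 2) : ℝ) : ℂ)
  have hτn : ∀ k, ‖τ k‖ = s / (k + 2) := by
    intro k
    simp only [τ, Complex.norm_real, Real.norm_eq_abs]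
    exact abs_of_nonneg (by positivity)
  have hτ0 : ∀ k, τ k ≠ 0 := by
    intro k
    rw [← norm_ne_zero_iff, hτn]
    positivity
  have hτb : ∀ k, τ k ∈ ball (0 : ℂ) s := by
    intro k
    rw [mem_ball, dist_zero_right, hτn, div_lt_iff₀ (by positivity)]
    have : (0 : ℝ) ≤ k := Nat.cast_nonneg k
    nlinarith
  have hunif : TendstoLocallyUniformlyOn
      (fun (k : ℕ) (z : ℂ) => (τ k)⁻¹ • (g z (τ k • a) - g z ((0 : ℂ) • a)))
      (fun z => fderiv ℂ (g z) 0 a) atTop (ball z₀ (ρ / 2)) := by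
    apply TendstoUniformlyOn.tendstoLocallyUniformlyOn
    rw [Metric.tendstoUniformlyOn_iff]
    intro ε hε
    have hlim : Tendsto (fun k : ℕ => C * (s / ((k : ℝ) + 2))) atTop (𝓝 (C * 0)) := by
      apply Tendsto.const_mul
      exact tendsto_const_nhds.div_atTop
        (tendsto_atTop_add_const_right _ _ tendsto_natCast_atTop_atTop)
    rw [mul_zero] at hlim
    filter_upwards [hlim.eventually (gt_mem_nhds hε)] with k hk z hz
    have hz' := ball_subset_closedBall hz
    have h1 := Cdh_quot hs (hdt z hz') (fun t ht => hMz z hz' t (ball_subset_closedBall ht))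
      (hτb k) (hτ0 k)
    rw [hder z hz', ← hC, hτn] at h1
    rw [dist_comm, dist_eq_norm]
    exact lt_of_le_of_lt h1 hk
  have hdz : ∀ k : ℕ, DifferentiableOn ℂ
      (fun z : ℂ => (τ k)⁻¹ • (g z (τ k • a) - g z ((0 : ℂ) • a))) (ball z₀ (ρ / 2)) := by
    intro k z hz
    have hz' := ball_subset_closedBall hz
    have key : ∀ t ∈ closedBall (0 : ℂ) s, DifferentiableAt ℂ (fun z : ℂ => g z (t • a)) z := by
      intro t ht
      have h3 : DifferentiableAt ℂ (fun z : ℂ => (z, t)) z := by fun_prop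
      exact DifferentiableAt.comp z (g := fun q : ℂ × ℂ => g q.1 (q.2 • a)) (hG z hz' t ht) h3
    exact (((key _ (ball_subset_closedBall (hτb k))).sub
      (key 0 (mem_closedBall_self hs.le))).const_smul ((τ k)⁻¹ : ℂ)).differentiableWithinAt
  have hfin := hunif.differentiableOn (Eventually.of_forall hdz) isOpen_ball
  exact (hfin.differentiableAt (isOpen_ball.mem_nhds
    (mem_ball_self (by positivity)))).differentiableWithinAt

end KI
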