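import Pool.Agent.H49.KI.Ctx

/-! # Cdy: joint continuity of derivatives of a continuous family of holomorphic maps

PROOF. Fix `(z₀, y₀)` in `K ×ˢ ball 0 r` and `s > 0` with `‖y₀‖ + 2 s < r`. Given `ε > 0`: the function
`(q, u) ↦ g q.1 (q.2 + u) - g z₀ (y₀ + u)` is continuous on `(K ×ˢ ball y₀ s) × closedBall 0 s` and
vanishes for `q = (z₀, y₀)`; by compactness of `closedBall (0 : V n) s` (tube lemma,
`IsCompact.eventually_forall_of_forall_eventually` or
`generalized_tube_lemma`), for `q` near `(z₀, y₀)` within `K ×ˢ ball 0 r`: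
`‖g q.1 (q.2 + u) - g z₀ (y₀ + u)‖ ≤ ε s` for all `‖u‖ ≤ s`. For `‖a‖ ≤ 1`, the function
`t ↦ g q.1 (q.2 + t • a) - g z₀ (y₀ + t • a)` of `t ∈ ℂ` is holomorphic near `closedBall 0 s`, has
derivative `fderiv ℂ (g q.1) q.2 a - fderiv ℂ (g z₀) y₀ a` at `t = 0`, and Cauchy
(`Complex.norm_deriv_le_of_forall_mem_sphere_norm_le`) bounds this by `ε s / s = ε`.
So the operator norm of the difference is `≤ ε` (`ContinuousLinearMap.opNorm_le_bound`, homogeneity). -/

set_option autoImplicit false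

namespace KI

open Complex Metric Set Filter Topology Manifold ContDiff
open KB (V DR wirt levi rho Sesq lap lapC dz)

variable {n : ℕ}

theorem cdy {K : Set ℂ} {r : ℝ} {g : ℂ → V n → V n}
    (hc : ContinuousOn (fun q : ℂ × V n => g q.1 q.2) (K ×ˢ ball 0 r))
    (hd : ∀ z ∈ K, ∀ y ∈ ball (0 : V n) r, DifferentiableAt ℂ (g z) y) :
    ContinuousOn (fun q : ℂ × V n => fderiv ℂ (g q.1) q.2) (K ×ˢ ball 0 r) := by
  rintro ⟨z₀, y₀⟩ ⟨hz₀, hy₀⟩
  have hy₀' : ‖y₀‖ < r := by simpa using hy₀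
  have hz₀' : z₀ ∈ K := hz₀
  obtain ⟨s, hs, hs2⟩ : ∃ s : ℝ, 0 < s ∧ ‖y₀‖ + 2 * s < r :=
    ⟨(r - ‖y₀‖) / 3, by linarith, by linarith⟩
  rw [ContinuousWithinAt, Metric.tendsto_nhds]
  intro ε hε
  -- the tube
  have htube : ∀ᶠ q in 𝓝 (z₀, y₀), ∀ u ∈ closedBall (0 : V n) s,
      q ∈ K ×ˢ ball (0 : V n) r → ‖g q.1 (q.2 + u) - g z₀ (y₀ + u)‖ ≤ ε / 2 * s := by
    refine (isCompact_closedBall (0 : V n) s).eventually_forall_of_forall_eventually
      (P := fun q u => q ∈ K ×ˢ ball (0 : V n) r → ‖g q.1 (q.2 + u) - g z₀ (y₀ + u)‖ ≤ ε / 2 * s) ?_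
    intro u hu
    have hu' : ‖u‖ ≤ s := by simpa using hu
    have hyu : y₀ + u ∈ ball (0 : V n) r := by
      rw [mem_ball_zero_iff]
      calc ‖y₀ + u‖ ≤ ‖y₀‖ + ‖u‖ := norm_add_le _ _
        _ < r := by linarith
    have h1 := hc (z₀, y₀ + u) ⟨hz₀', hyu⟩
    rw [ContinuousWithinAt, Metric.tendsto_nhds] at h1
    have h2 := h1 (ε / 4 * s) (by positivity)
    rw [eventually_nhdsWithin_iff] at h2
    have hφ : Tendsto (fun z : (ℂ × V n) × V n => (z.1.1, z.1.2 + z.2)) (𝓝 ((z₀, y₀), u))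
        (𝓝 (z₀, y₀ + u)) := by
      have : Continuous (fun z : (ℂ × V n) × V n => (z.1.1, z.1.2 + z.2)) := by fun_prop
      exact this.tendsto' _ _ rfl
    have hψ : Tendsto (fun z : (ℂ × V n) × V n => (z₀, y₀ + z.2)) (𝓝 ((z₀, y₀), u))
        (𝓝 (z₀, y₀ + u)) := by
      have : Continuous (fun z : (ℂ × V n) × V n => (z₀, y₀ + z.2)) := by fun_prop
      exact this.tendsto' _ _ rfl
    have hball : ∀ᶠ p : ℂ × V n in 𝓝 (z₀, y₀ + u), p.2 ∈ ball (0 : V n) r :=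
      (continuous_snd.tendsto (z₀, y₀ + u)).eventually (isOpen_ball.mem_nhds hyu)
    filter_upwards [hφ.eventually h2, hψ.eventually h2, hφ.eventually hball, hψ.eventually hball]
      with z e1 e2 e3 e4 hz
    have e1' := e1 ⟨hz.1, e3⟩
    have e2' := e2 ⟨hz₀', e4⟩
    rw [← dist_eq_norm]
    have := dist_triangle_right (g z.1.1 (z.1.2 + z.2)) (g z₀ (y₀ + z.2)) (g z₀ (y₀ + u))
    linarith
  have hnear : ∀ᶠ q : ℂ × V n in 𝓝 (z₀, y₀), dist q.2 y₀ < s :=
    (continuous_snd.tendsto (z₀, y₀)).eventually (Metric.ball_mem_nhds y₀ hs)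
  filter_upwards [eventually_nhdsWithin_of_eventually_nhds htube,
    eventually_nhdsWithin_of_eventually_nhds hnear, self_mem_nhdsWithin] with q hq hqs hqK
  have hqs' : ‖q.2‖ < ‖y₀‖ + s := by
    have := norm_le_norm_add_norm_sub' q.2 y₀
    rw [dist_eq_norm] at hqs
    linarith
  rw [dist_eq_norm]
  refine lt_of_le_of_lt ?_ (half_lt_self hε)
  refine ContinuousLinearMap.opNorm_le_bound _ (by positivity) fun a => ?_
  rcases eq_or_ne a 0 with rfl | ha
  · simp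
  have ha' : 0 < ‖a‖ := norm_pos_iff.mpr ha
  have hmem : ∀ t : ℂ, t ∈ closedBall (0 : ℂ) (s / ‖a‖) → t • a ∈ closedBall (0 : V n) s := by
    intro t ht
    rw [mem_closedBall_zero_iff] at ht ⊢
    rw [norm_smul]
    calc ‖t‖ * ‖a‖ ≤ s / ‖a‖ * ‖a‖ := by gcongr
      _ = s := by field_simp
  have hm1 : ∀ t ∈ closedBall (0 : ℂ) (s / ‖a‖), q.2 + t • a ∈ ball (0 : V n) r := by
    intro t ht
    have h := hmem t ht
    rw [mem_closedBall_zero_iff] at h
    rw [mem_ball_zero_iff]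
    have := norm_add_le q.2 (t • a)
    linarith
  have hm2 : ∀ t ∈ closedBall (0 : ℂ) (s / ‖a‖), y₀ + t • a ∈ ball (0 : V n) r := by
    intro t ht
    have h := hmem t ht
    rw [mem_closedBall_zero_iff] at h
    rw [mem_ball_zero_iff]
    have := norm_add_le y₀ (t • a)
    linarith
  set f : ℂ → V n := fun t => g q.1 (q.2 + t • a) - g z₀ (y₀ + t • a) with hf
  have hlin : ∀ (w : V n) (t : ℂ), HasDerivAt (fun t : ℂ => w + t • a) a t := by
    intro w t
    have h := ((hasDerivAt_id t).smul_const a).const_add w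
    simpa using h
  have hD : ∀ t ∈ closedBall (0 : ℂ) (s / ‖a‖), HasDerivAt f
      (fderiv ℂ (g q.1) (q.2 + t • a) a - fderiv ℂ (g z₀) (y₀ + t • a) a) t := by
    intro t ht
    exact ((hd q.1 hqK.1 _ (hm1 t ht)).hasFDerivAt.comp_hasDerivAt t (hlin q.2 t)).sub
      ((hd z₀ hz₀' _ (hm2 t ht)).hasFDerivAt.comp_hasDerivAt t (hlin y₀ t))
  have hdc : DiffContOnCl ℂ f (ball (0 : ℂ) (s / ‖a‖)) := by
    apply DifferentiableOn.diffContOnCl
    intro t ht
    rw [closure_ball (0 : ℂ) (by positivity)] at ht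
    exact (hD t ht).differentiableAt.differentiableWithinAt
  have hC : ∀ t ∈ sphere (0 : ℂ) (s / ‖a‖), ‖f t‖ ≤ ε / 2 * s := by
    intro t ht
    exact hq (t • a) (hmem t (sphere_subset_closedBall ht)) hqK
  have hmain := Complex.norm_deriv_le_of_forall_mem_sphere_norm_le (by positivity) hdc hC
  have h0 := hD 0 (by simp; positivity)
  rw [h0.deriv] at hmain
  simp only [zero_smul, add_zero] at hmain
  calc ‖(fderiv ℂ (g q.1) q.2 - fderiv ℂ (g z₀) y₀) a‖
      = ‖fderiv ℂ (g q.1) q.2 a - fderiv ℂ (g z₀) y₀ a‖ := by rfl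
    _ ≤ ε / 2 * s / (s / ‖a‖) := hmain
    _ = ε / 2 * ‖a‖ := by field_simp

end KI
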