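import Pool.Agent.H49.KI.Ctx

/-! # Cha: changes of charts, the metric in charts

PROOFS. `trans_analyticAt`: `e.symm ≫ₕ e' ∈ contDiffGroupoid ω 𝓘(ℂ, V n)`
(`HasGroupoid.compatible he he'`, `StructureGroupoid.compatible`; or Mathlib
`contDiffOn_extend_coord_change`-type lemmas), so `ContDiffOn ℂ ω (e' ∘ e.symm)` on the open set
`e.target ∩ e.symm ⁻¹' e'.source`, hence `ContDiffAt ℂ ω` at `e x`, hence `AnalyticAt`
(`ContDiffAt.analyticAt`; over `ℂ`, `ContDiffAt ℂ ω` is analyticity).
`G_sesq`: `hG.add`, `hG.smul`, `hG.symm`. `G_trans`: this is `hG.compat` (`trans` unfolds by `rfl`).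
`fderiv_trans_trans`: `trans e' e (trans e e' y) = y` for `y` near `e x` (`e'.left_inv`, `e.right_inv`);
differentiate with the chain rule. `G_diff`: `hG.smooth` on the open set `e.target`. -/

set_option autoImplicit false

namespace KI

open Complex Metric Set Filter Topology Manifold ContDiff
open KB (V DR wirt levi rho Sesq lap lapC dz)

variable {n : ℕ} {X : Type} [MetricSpace X] [ChartedSpace (V n) X]
  {G : OpenPartialHomeomorph X (V n) → V n → V n → V n → ℂ}

theorem trans_analyticAt [IsManifold 𝓘(ℂ, V n) ω X] {e e' : OpenPartialHomeomorph X (V n)}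
    (he : e ∈ atlas (V n) X) (he' : e' ∈ atlas (V n) X) {x : X} (hx : x ∈ e.source)
    (hx' : x ∈ e'.source) : AnalyticAt ℂ (trans e e') (e x) := by
  have h1 : e.symm ≫ₕ e' ∈ contDiffGroupoid ω 𝓘(ℂ, V n) :=
    HasGroupoid.compatible he he'
  rw [contDiffGroupoid, mem_groupoid_of_pregroupoid] at h1
  have h2 := h1.1
  simp only [contDiffPregroupoid] at h2
  have h3 : ContDiffOn ℂ ω (trans e e') (e.symm ≫ₕ e').source := by
    refine (h2.mono ?_).congr ?_
    · intro y hy
      simpa using hy
    · intro y hy
      simp [trans]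
  have h4 : (e.symm ≫ₕ e').source ∈ 𝓝 (e x) := by
    apply (e.symm ≫ₕ e').open_source.mem_nhds
    rw [OpenPartialHomeomorph.trans_source]
    refine ⟨?_, ?_⟩
    · rw [OpenPartialHomeomorph.symm_source]
      exact e.map_source hx
    · rw [mem_preimage, e.left_inv hx]
      exact hx'
  exact (h3.contDiffAt h4).analyticAt

theorem G_sesq (hG : IsHermMetric G) {e : OpenPartialHomeomorph X (V n)}
    (he : e ∈ atlas (V n) X) {y : V n} (hy : y ∈ e.target) : Sesq (G e y) :=
  ⟨hG.add e he y hy, hG.smul e he y hy, hG.symm e he y hy⟩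

theorem G_trans (hG : IsHermMetric G) {e e' : OpenPartialHomeomorph X (V n)}
    (he : e ∈ atlas (V n) X) (he' : e' ∈ atlas (V n) X) {x : X} (hx : x ∈ e.source)
    (hx' : x ∈ e'.source) (a b : V n) :
    G e (e x) a b = G e' (e' x) (fderiv ℂ (trans e e') (e x) a)
      (fderiv ℂ (trans e e') (e x) b) :=
  hG.compat e he e' he' x ⟨hx, hx'⟩ a b

/-- the derivative of the change of charts is invertible, with inverse the derivative of the inverse
change of charts -/
theorem fderiv_trans_trans [IsManifold 𝓘(ℂ, V n) ω X] {e e' : OpenPartialHomeomorph X (V n)}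
    (he : e ∈ atlas (V n) X) (he' : e' ∈ atlas (V n) X) {x : X} (hx : x ∈ e.source)
    (hx' : x ∈ e'.source) (a : V n) :
    fderiv ℂ (trans e' e) (e' x) (fderiv ℂ (trans e e') (e x) a) = a := by
  have h1 := (trans_analyticAt he he' hx hx').differentiableAt
  have h2 := (trans_analyticAt he' he hx' hx).differentiableAt
  have hT : trans e e' (e x) = e' x := by simp [trans, e.left_inv hx]
  have h3 : (fun y => trans e' e (trans e e' y)) =ᶠ[𝓝 (e x)] fun y => y := by
    have h4 : (e.symm ≫ₕ e').source ∈ 𝓝 (e x) := by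
      apply (e.symm ≫ₕ e').open_source.mem_nhds
      rw [OpenPartialHomeomorph.trans_source]
      refine ⟨?_, ?_⟩
      · rw [OpenPartialHomeomorph.symm_source]
        exact e.map_source hx
      · rw [mem_preimage, e.left_inv hx]
        exact hx'
    filter_upwards [h4] with y hy
    rw [OpenPartialHomeomorph.trans_source, OpenPartialHomeomorph.symm_source] at hy
    have h5 : e'.symm (e' (e.symm y)) = e.symm y := e'.left_inv hy.2
    have h6 : e (e.symm y) = y := e.right_inv hy.1
    simp only [trans]
    rw [h5, h6]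
  have h7 : fderiv ℂ (fun y => trans e' e (trans e e' y)) (e x)
      = (fderiv ℂ (trans e' e) (trans e e' (e x))).comp (fderiv ℂ (trans e e') (e x)) := by
    apply fderiv_fun_comp
    · rw [hT]; exact h2
    · exact h1
  rw [h3.fderiv_eq] at h7
  have h8 := congrArg (fun L : V n →L[ℂ] V n => L a) h7
  simp only [ContinuousLinearMap.comp_apply, hT] at h8
  rw [← h8]
  simp

/-- the metric is smooth in charts -/
theorem G_cd (hG : IsHermMetric G) {e : OpenPartialHomeomorph X (V n)}
    (he : e ∈ atlas (V n) X) {y : V n} (hy : y ∈ e.target) (a b : V n) :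
    ContDiffAt ℝ ∞ (fun z => G e z a b) y :=
  (hG.smooth e he a b).contDiffAt (e.open_target.mem_nhds hy)

theorem G_diff (hG : IsHermMetric G) {e : OpenPartialHomeomorph X (V n)}
    (he : e ∈ atlas (V n) X) {y : V n} (hy : y ∈ e.target) (a b : V n) :
    DifferentiableAt ℝ (fun z => G e z a b) y :=
  (G_cd hG he hy a b).differentiableAt (by simp)

/-- a Hermitian form which is positive definite is nondegenerate -/
theorem G_ext (hG : IsHermMetric G) {e : OpenPartialHomeomorph X (V n)}
    (he : e ∈ atlas (V n) X) {y : V n} (hy : y ∈ e.target) {a b : V n}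
    (h : ∀ w, G e y a w = G e y b w) : a = b := by
  by_contra hne
  have h1 := hG.pos e he y hy (a - b) (sub_ne_zero.mpr hne)
  have h2 : G e y (a - b) (a - b) = 0 := by
    have h3 : G e y (a - b) (a - b) = G e y a (a - b) + G e y (-b) (a - b) := by
      rw [sub_eq_add_neg]
      exact hG.add e he y hy a (-b) _
    have h4 : G e y (-b) (a - b) = -G e y b (a - b) := by
      have := hG.smul e he y hy (-1) b (a - b)
      simpa using this
    rw [h3, h4, h (a - b)]
    ring
  rw [h2] at h1
  simp at h1

theorem G_nonneg (hG : IsHermMetric G) {e : OpenPartialHomeomorph X (V n)}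
    (he : e ∈ atlas (V n) X) {y : V n} (hy : y ∈ e.target) (a : V n) :
    0 ≤ (G e y a a).re := by
  by_cases ha : a = 0
  · subst ha
    have h := hG.smul e he y hy 0 (0 : V n) 0
    simp only [zero_smul, zero_mul] at h
    rw [h]
    simp
  · exact (hG.pos e he y hy a ha).le

end KI
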