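import Pool.Agent.H49.KI.Ctx
import Pool.Agent.H49.KB.ST1

/-! # Dil: dilations of a family of metrics on the disc

PROOFS. `lap_dil`: chain rule, `fderiv ℝ (fun z => F (ρ * z)) z e = ρ * fderiv ℝ F (ρ * z) e` for `z` near
`z₀` (`F` is differentiable near `ρ z₀` by `ContDiffAt ℝ 2`, see `KB.SB1_ev`, `KB.SB1_df` in
Pool/Agent/H49/KB/SB1.lean), twice, with `e = 1` and `e = I`.
`dil`: `O = ball 0 (1/ρ)`; `ρ z ∈ ball 0 1` for `z ∈ O`, in particular for `z` in the closed ball. `curv` at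
`z₀`, `u`: let `d` be from `h.curv (ρ z₀) _ u`; use `ρ • d`:
`(B (ρ z) (u - (z - z₀) • ρ • d) _).re = F (ρ z)` with `F z' = (B z' (u - (z' - ρ z₀) • d) _).re`,
`F` is `C²` at `ρ z₀` (expand with `Sesq.expand_sub` near `ρ z₀`: `B z' u u - t * B z' d u - conj t * B z' u d +
t * conj t * B z' d d`, `t = z' - ρ z₀`; congruence near the point), and `lap_dil`:
`lap = ρ² * lap F (ρ z₀) ≤ 0`. -/

set_option autoImplicit false

namespace KI

open Complex Metric Set Filter Topology Manifold ContDiff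
open KB (V DR wirt levi rho Sesq lap lapC dz)

variable {n : ℕ}

theorem Dil_fd {F : ℂ → ℝ} {ρ : ℝ} {z : ℂ} (hF : DifferentiableAt ℝ F (ρ * z)) (e : ℂ) :
    fderiv ℝ (fun z => F (ρ * z)) z e = ρ * fderiv ℝ F (ρ * z) e := by
  have h1 : HasFDerivAt (fun z : ℂ => (ρ : ℂ) * z) ((ρ : ℝ) • ContinuousLinearMap.id ℝ ℂ) z := by
    have h2 := (hasFDerivAt_id (𝕜 := ℝ) z).const_smul (ρ : ℝ)
    have h3 : (fun z : ℂ => (ρ : ℂ) * z) = fun z : ℂ => (ρ : ℝ) • (id z) := by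
      funext w
      simp
    rw [h3]
    exact h2
  have h4 : HasFDerivAt (fun z => F (ρ * z)) ((fderiv ℝ F (ρ * z)).comp
      ((ρ : ℝ) • ContinuousLinearMap.id ℝ ℂ)) z := hF.hasFDerivAt.comp z h1
  rw [h4.fderiv]
  simp

theorem lap_dil {F : ℂ → ℝ} {ρ : ℝ} {z₀ : ℂ} (hF : ContDiffAt ℝ 2 F (ρ * z₀)) :
    lap (fun z => F (ρ * z)) z₀ = ρ ^ 2 * lap F (ρ * z₀) := by
  have hc : Tendsto (fun z : ℂ => (ρ : ℂ) * z) (𝓝 z₀) (𝓝 (ρ * z₀)) := by
    have : Continuous fun z : ℂ => (ρ : ℂ) * z := by fun_prop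
    exact this.tendsto z₀
  have key : ∀ e : ℂ, fderiv ℝ (fun y => fderiv ℝ (fun z => F (ρ * z)) y e) z₀ e =
      ρ ^ 2 * fderiv ℝ (fun y => fderiv ℝ F y e) (ρ * z₀) e := by
    intro e
    have h1 : (fun y => fderiv ℝ (fun z => F (ρ * z)) y e) =ᶠ[𝓝 z₀]
        fun y => ρ * (fun w => fderiv ℝ F w e) (ρ * y) := by
      filter_upwards [hc.eventually (KB.SB1_ev hF)] with y hy
      exact Dil_fd hy e
    have h2 : DifferentiableAt ℝ (fun w => fderiv ℝ F w e) (ρ * z₀) := KB.SB1_df hF e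
    have h3 : DifferentiableAt ℝ (fun y : ℂ => (fun w => fderiv ℝ F w e) (ρ * y)) z₀ := by
      have h5 : DifferentiableAt ℝ (fun z : ℂ => (ρ : ℂ) * z) z₀ := by fun_prop
      exact DifferentiableAt.comp z₀ h2 h5
    rw [h1.fderiv_eq, fderiv_const_mul h3]
    show ρ * (fderiv ℝ (fun y : ℂ => (fun w => fderiv ℝ F w e) (ρ * y)) z₀ e) = _
    rw [Dil_fd h2]
    ring
  unfold lap
  rw [key, key]
  ring

theorem Dil_mem {ρ : ℝ} (h0 : 0 < ρ) {z : ℂ} (hz : z ∈ ball (0 : ℂ) (1 / ρ)) :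
    (ρ : ℂ) * z ∈ ball (0 : ℂ) 1 := by
  rw [mem_ball_zero_iff] at hz ⊢
  rw [norm_mul, Complex.norm_real, Real.norm_eq_abs, abs_of_pos h0]
  rw [lt_div_iff₀ h0] at hz
  linarith

theorem Dil_sub {ρ : ℝ} (h0 : 0 < ρ) (h1 : ρ < 1) : closedBall (0 : ℂ) 1 ⊆ ball 0 (1 / ρ) := by
  apply closedBall_subset_ball
  rw [lt_div_iff₀ h0]
  linarith

theorem Dil_c2 {B : ℂ → V n → V n → ℂ} (h : DiscMet B) {z₀ : ℂ} (hz : z₀ ∈ ball (0 : ℂ) 1)
    (u d : V n) :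
    ContDiffAt ℝ 2 (fun z => (B z (u - (z - z₀) • d) (u - (z - z₀) • d)).re) z₀ := by
  have hB : ∀ a b, ContDiffAt ℝ 2 (fun z => B z a b) z₀ := fun a b =>
    (h.c2 a b).contDiffAt (isOpen_ball.mem_nhds hz)
  have h1 : (fun z => (B z (u - (z - z₀) • d) (u - (z - z₀) • d)).re) =ᶠ[𝓝 z₀]
      fun z => (B z u u - (z - z₀) * B z d u - (starRingEnd ℂ) (z - z₀) * B z u d
        + (z - z₀) * (starRingEnd ℂ) (z - z₀) * B z d d).re := by
    filter_upwards [isOpen_ball.mem_nhds hz] with z hz'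
    have hs := h.sesq z (ball_subset_closedBall hz')
    rw [hs.sub_left, hs.sub_right, hs.sub_right, hs.smul, hs.smul_right, hs.smul, hs.smul_right]
    congr 1
    ring
  refine ContDiffAt.congr_of_eventuallyEq ?_ h1
  have ht : ContDiffAt ℝ 2 (fun z : ℂ => z - z₀) z₀ := contDiffAt_id.sub contDiffAt_const
  have htc : ContDiffAt ℝ 2 (fun z : ℂ => (starRingEnd ℂ) (z - z₀)) z₀ :=
    (Complex.conjCLE.contDiff.contDiffAt).comp z₀ ht
  have h2 : ContDiffAt ℝ 2 (fun z => B z u u - (z - z₀) * B z d u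
      - (starRingEnd ℂ) (z - z₀) * B z u d
        + (z - z₀) * (starRingEnd ℂ) (z - z₀) * B z d d) z₀ :=
    (((hB u u).sub (ht.mul (hB d u))).sub (htc.mul (hB u d))).add ((ht.mul htc).mul (hB d d))
  exact (Complex.reCLM.contDiff.contDiffAt).comp z₀ h2

theorem dil {B : ℂ → V n → V n → ℂ} (h : DiscMet B) {ρ : ℝ} (h0 : 0 < ρ) (h1 : ρ < 1) :
    KB.DiscData (fun _ => ContinuousLinearMap.id ℂ (V n)) (fun z a b => B (ρ * z) a b) := by
  have hb : ∀ z ∈ closedBall (0 : ℂ) 1, (ρ : ℂ) * z ∈ ball (0 : ℂ) 1 := fun z hz =>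
    Dil_mem h0 (Dil_sub h0 h1 hz)
  have hcb : ∀ z ∈ closedBall (0 : ℂ) 1, (ρ : ℂ) * z ∈ closedBall (0 : ℂ) 1 := fun z hz =>
    ball_subset_closedBall (hb z hz)
  refine ⟨analyticOnNhd_const, fun z _ a => rfl, fun z hz => h.sesq _ (hcb z hz),
    fun z _ a b => rfl, fun z hz a ha => h.pos _ (hcb z hz) a ha, ?_, ?_⟩
  · refine ⟨ball 0 (1 / ρ), isOpen_ball, Dil_sub h0 h1, fun a b => ?_⟩
    have h2 : ContDiffOn ℝ 2 (fun z : ℂ => (ρ : ℂ) * z) (ball 0 (1 / ρ)) := by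
      have : ContDiff ℝ 2 (fun z : ℂ => (ρ : ℂ) * z) := by fun_prop
      exact this.contDiffOn
    exact (h.c2 a b).comp h2 fun z hz => Dil_mem h0 hz
  · intro z₀ hz₀ u _
    have hz1 : (ρ : ℂ) * z₀ ∈ ball (0 : ℂ) 1 := hb z₀ (ball_subset_closedBall hz₀)
    obtain ⟨d, hd⟩ := h.curv (ρ * z₀) hz1 u
    refine ⟨(ρ : ℂ) • d, ?_⟩
    have h3 : (fun z : ℂ => (B (ρ * z) (u - (z - z₀) • (ρ : ℂ) • d)
        (u - (z - z₀) • (ρ : ℂ) • d)).re) =
        fun z => (fun z' : ℂ => (B z' (u - (z' - ρ * z₀) • d) (u - (z' - ρ * z₀) • d)).re)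
          (ρ * z) := by
      funext z
      have h4 : (z - z₀) • (ρ : ℂ) • d = ((ρ : ℂ) * z - ρ * z₀) • d := by
        rw [smul_smul]
        congr 1
        ring
      rw [h4]
    show lap (fun z : ℂ => (B (ρ * z) (u - (z - z₀) • (ρ : ℂ) • d)
        (u - (z - z₀) • (ρ : ℂ) • d)).re) z₀ ≤ 0
    rw [h3, lap_dil (Dil_c2 h hz1 u d)]
    have h5 : 0 ≤ ρ ^ 2 := sq_nonneg ρ
    nlinarith

end KI
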