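import Pool.Agent.H50.KI.Chf
import Pool.Agent.H49.KB.CHN
import Pool.Agent.H49.KB.LPB

/-! # Eca: first and second derivatives of `G(S, S)` along a holomorphic curve

PROOFS. `lf_dz`: `dz_eq_wd`, `wd_sesq` with `E = ℂ`, `a = 1`, `fderiv ℂ y z 1 = deriv y z`
(`fderiv_apply_one_eq_deriv`), `Gam_spec`, `Sesq.add`.
`lapC_prod3`: `KB.LPB_mul` (Pool/Agent/H49/KB/LPB.lean) for `h * p`, `p = a * conj b`; for `v = 1, I`:
`fderiv ℝ p z v = deriv a z * v * conj (b z) + a z * conj (deriv b z * v)`,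
`lapC p z = 4 * deriv a z * conj (deriv b z)` (again `LPB_mul`; `lapC a z = 0` and `lapC (conj b) z = 0` for analytic
`a`, `b`: the second derivatives in the directions 1 and I are `a''` and `I * I * a'' = -a''`), and
`D_1 h + I D_I h = 2 conj (dz (conj h) z)`, `D_1 h - I D_I h = 2 dz h z`.
`lf_lap`: near `z`, `y w ∈ e.target` and `G e (y w) (S w) (S w) = ∑ i, ∑ j, h_ij w * S w i * conj (S w j)`,
`h_ij w = G e (y w) (bv i) (bv j)` (`KB.Sesq.expand`), `C²` at `z`. `KB.LPB_re`: `lap (re F) = re (lapC F)`;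
`LPB_add` over the finite sums (induction); `lapC_prod3` for each term. With `S = S z`, `S' = deriv S z`,
`y' = deriv y z`, `Γ = Gam G e (y z) y' S`:
`∑ lapC h_ij S_i conj S_j = lapC (w ↦ G e (y w) S S) z = 4 levi (G e · S S) (y z) y'` (`KB.lapC_comp`, U = e.target);
`∑ dz h_ij S_i conj S'_j = dz (w ↦ G e (y w) S S') z = G(Γ, S')` (`lf_dz` with constant `S`, `T = S'`: it gives
`G e (y z) (0 + Γ) S'`); `∑ conj (dz (conj h_ij)) S'_i conj S_j = conj (∑ dz h_ji S_j conj S'_i) = conj G(Γ, S') = G(S', Γ)`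
(`conj h_ij = h_ji` near `z`, `G_sesq`); `∑ h_ij S'_i conj S'_j = G(S', S')`. Sum:
`re (4 levi + 4 G(Γ,S') + 4 G(S',Γ) + 4 G(S',S')) = 4 (-bkN + G(S'+Γ, S'+Γ).re)` (`Sesq.add`, `Sesq.add_right`). -/

set_option autoImplicit false

namespace KI

open Complex Metric Set Filter Topology Manifold ContDiff
open KB (V DR wirt levi rho Sesq lap lapC dz)

theorem Eca_d {a : ℂ → ℂ} {y : ℂ} (ha : DifferentiableAt ℂ a y) (e : ℂ) :
    fderiv ℝ a y e = deriv a y * e := by
  rw [ha.fderiv_restrictScalars ℝ]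
  show fderiv ℂ a y e = _
  rw [fderiv_eq_smul_deriv, smul_eq_mul, mul_comm]

theorem Eca_dc {a : ℂ → ℂ} {y : ℂ} (ha : DifferentiableAt ℂ a y) (e : ℂ) :
    fderiv ℝ (fun w => (starRingEnd ℂ) (a w)) y e = (starRingEnd ℂ) (deriv a y * e) := by
  rw [Chb_conj (ha.restrictScalars ℝ), Eca_d ha]

theorem Eca_ev {a : ℂ → ℂ} {z : ℂ} (ha : AnalyticAt ℂ a z) :
    ∀ᶠ y in 𝓝 z, DifferentiableAt ℂ a y := by
  filter_upwards [ha.eventually_analyticAt] with y hy
  exact hy.differentiableAt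

theorem Eca_lap {a : ℂ → ℂ} {z : ℂ} (ha : AnalyticAt ℂ a z) : lapC a z = 0 := by
  have key : ∀ e : ℂ, fderiv ℝ (fun y => fderiv ℝ a y e) z e = deriv (deriv a) z * (e * e) := by
    intro e
    have h1 : (fun y => fderiv ℝ a y e) =ᶠ[𝓝 z] fun y => deriv a y * e := by
      filter_upwards [Eca_ev ha] with y hy
      exact Eca_d hy e
    have h2 : DifferentiableAt ℂ (fun y => deriv a y * e) z :=
      ha.deriv.differentiableAt.mul_const e
    rw [h1.fderiv_eq, Eca_d h2, deriv_mul_const ha.deriv.differentiableAt]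
    ring
  unfold lapC
  rw [key, key, Complex.I_mul_I]
  ring

theorem Eca_lapc {a : ℂ → ℂ} {z : ℂ} (ha : AnalyticAt ℂ a z) :
    lapC (fun w => (starRingEnd ℂ) (a w)) z = 0 := by
  have key : ∀ e : ℂ, fderiv ℝ (fun y => fderiv ℝ (fun w => (starRingEnd ℂ) (a w)) y e) z e =
      (starRingEnd ℂ) (deriv (deriv a) z * (e * e)) := by
    intro e
    have h1 : (fun y => fderiv ℝ (fun w => (starRingEnd ℂ) (a w)) y e) =ᶠ[𝓝 z]
        fun y => (starRingEnd ℂ) (deriv a y * e) := by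
      filter_upwards [Eca_ev ha] with y hy
      exact Eca_dc hy e
    have h2 : DifferentiableAt ℂ (fun y => deriv a y * e) z :=
      ha.deriv.differentiableAt.mul_const e
    rw [h1.fderiv_eq, Eca_dc h2, deriv_mul_const ha.deriv.differentiableAt]
    congr 1
    ring
  unfold lapC
  rw [key, key, Complex.I_mul_I, ← map_add]
  have : deriv (deriv a) z * (1 * 1) + deriv (deriv a) z * -1 = 0 := by ring
  rw [this, map_zero]

theorem Eca_cd {a : ℂ → ℂ} {z : ℂ} (ha : AnalyticAt ℂ a z) : ContDiffAt ℝ 2 a z :=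
  (ha.contDiffAt (n := 2)).restrict_scalars ℝ

theorem Eca_cdc {a : ℂ → ℂ} {z : ℂ} (ha : AnalyticAt ℂ a z) :
    ContDiffAt ℝ 2 (fun w => (starRingEnd ℂ) (a w)) z :=
  (Complex.conjCLE : ℂ →L[ℝ] ℂ).contDiff.contDiffAt.comp z (Eca_cd ha)

theorem Eca_congr {F H : ℂ → ℂ} {z : ℂ} (h : F =ᶠ[𝓝 z] H) : lapC F z = lapC H z := by
  have key : ∀ e : ℂ, fderiv ℝ (fun y => fderiv ℝ F y e) z e =
      fderiv ℝ (fun y => fderiv ℝ H y e) z e := by
    intro e
    have h1 : (fun y => fderiv ℝ F y e) =ᶠ[𝓝 z] fun y => fderiv ℝ H y e := by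
      filter_upwards [h.fderiv (𝕜 := ℝ)] with y hy
      rw [hy]
    rw [h1.fderiv_eq]
  unfold lapC
  rw [key, key]

theorem Eca_zero (z : ℂ) : lapC (fun _ : ℂ => (0 : ℂ)) z = 0 := Eca_lap analyticAt_const

theorem Eca_const_mul {F : ℂ → ℂ} {z : ℂ} (c : ℂ) (hF : ContDiffAt ℝ 2 F z) :
    lapC (fun w => c * F w) z = c * lapC F z := by
  have hc : AnalyticAt ℂ (fun _ : ℂ => c) z := analyticAt_const
  rw [KB.LPB_mul (Eca_cd hc) hF, Eca_lap hc, Eca_d hc.differentiableAt, Eca_d hc.differentiableAt,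
    deriv_const]
  ring

theorem Eca_sum {ι : Type} (s : Finset ι) {F : ι → ℂ → ℂ} {z : ℂ}
    (hF : ∀ i ∈ s, ContDiffAt ℝ 2 (F i) z) :
    lapC (fun w => ∑ i ∈ s, F i w) z = ∑ i ∈ s, lapC (F i) z := by
  classical
  induction s using Finset.induction_on with
  | empty =>
    simp only [Finset.sum_empty]
    exact Eca_zero z
  | insert a t hat ih =>
    have h1 : ∀ i ∈ t, ContDiffAt ℝ 2 (F i) z := fun i hi => hF i (Finset.mem_insert_of_mem hi)
    simp only [Finset.sum_insert hat]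
    rw [KB.LPB_add (hF a (Finset.mem_insert_self a t)) (ContDiffAt.sum h1), ih h1]

theorem lapC_prod3 {h a b : ℂ → ℂ} {z : ℂ} (hh : ContDiffAt ℝ 2 h z) (ha : AnalyticAt ℂ a z)
    (hb : AnalyticAt ℂ b z) :
    lapC (fun w => h w * a w * (starRingEnd ℂ) (b w)) z =
      lapC h z * a z * (starRingEnd ℂ) (b z) +
      4 * (dz h z * a z * (starRingEnd ℂ) (deriv b z) +
        (starRingEnd ℂ) (dz (fun w => (starRingEnd ℂ) (h w)) z) * deriv a z *
          (starRingEnd ℂ) (b z)) +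
      4 * (h z * deriv a z * (starRingEnd ℂ) (deriv b z)) := by
  have dh : DifferentiableAt ℝ h z := hh.differentiableAt (by norm_num)
  have da : DifferentiableAt ℝ a z := ha.differentiableAt.restrictScalars ℝ
  have e1 : ∀ v : ℂ, fderiv ℝ (fun w => h w * a w) z v =
      fderiv ℝ h z v * a z + h z * (deriv a z * v) := by
    intro v
    rw [fderiv_fun_mul dh da]
    simp only [add_apply, smul_apply, smul_eq_mul]
    rw [Eca_d ha.differentiableAt]
    ring
  rw [KB.LPB_mul (F := fun w => h w * a w) (hh.mul (Eca_cd ha)) (Eca_cdc hb), KB.LPB_mul hh (Eca_cd ha),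
    Eca_lap ha, Eca_lapc hb, e1, e1, Eca_d ha.differentiableAt, Eca_d ha.differentiableAt,
    Eca_dc hb.differentiableAt, Eca_dc hb.differentiableAt]
  unfold dz
  rw [Chb_conj dh, Chb_conj dh]
  simp only [map_mul, map_sub, map_one, map_div₀, map_ofNat, Complex.conj_conj, Complex.conj_I]
  linear_combination (-2 * h z * deriv a z * (starRingEnd ℂ) (deriv b z)) * Complex.I_mul_I

theorem Eca_coord {n : ℕ} {S : ℂ → V n} {z : ℂ} (hS : AnalyticAt ℂ S z) (i : Fin n) :
    AnalyticAt ℂ (fun w => S w i) z ∧ deriv (fun w => S w i) z = (deriv S z) i := by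
  have h1 : AnalyticAt ℂ (fun w => (EuclideanSpace.proj i : V n →L[ℂ] ℂ) (S w)) z :=
    ((EuclideanSpace.proj i : V n →L[ℂ] ℂ).analyticAt (S z)).comp hS
  have h2 : HasDerivAt (fun w => (EuclideanSpace.proj i : V n →L[ℂ] ℂ) (S w))
      ((EuclideanSpace.proj i : V n →L[ℂ] ℂ) (deriv S z)) z :=
    (EuclideanSpace.proj i : V n →L[ℂ] ℂ).hasFDerivAt.comp_hasDerivAt z
      hS.differentiableAt.hasDerivAt
  exact ⟨h1, h2.deriv⟩

variable {n : ℕ} {X : Type} [MetricSpace X] [ChartedSpace (V n) X]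
  {G : OpenPartialHomeomorph X (V n) → V n → V n → V n → ℂ}

theorem lf_dz (hG : IsHermMetric G) (hK : Kaehler G) {e : OpenPartialHomeomorph X (V n)}
    (he : e ∈ atlas (V n) X) {y S T : ℂ → V n} {z : ℂ} (hy : AnalyticAt ℂ y z)
    (hS : AnalyticAt ℂ S z) (hT : AnalyticAt ℂ T z) (hyt : y z ∈ e.target) :
    dz (fun w => G e (y w) (S w) (T w)) z =
      G e (y z) (deriv S z + Gam G e (y z) (deriv y z) (S z)) (T z) := by
  rw [dz_eq_wd, wd_sesq hG he hy.differentiableAt hS.differentiableAt hT.differentiableAt hyt 1,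
    fderiv_apply_one_eq_deriv, fderiv_apply_one_eq_deriv, ← Gam_spec hG he hyt,
    (G_sesq hG he hyt).add]
  ring

theorem lf_lap (hG : IsHermMetric G) (hK : Kaehler G) {e : OpenPartialHomeomorph X (V n)}
    (he : e ∈ atlas (V n) X) {y S : ℂ → V n} {z : ℂ} (hy : AnalyticAt ℂ y z)
    (hS : AnalyticAt ℂ S z) (hyt : y z ∈ e.target) :
    lap (fun w => (G e (y w) (S w) (S w)).re) z =
      4 * (-bkN G e (y z) (deriv y z) (S z) +
        (G e (y z) (deriv S z + Gam G e (y z) (deriv y z) (S z))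
          (deriv S z + Gam G e (y z) (deriv y z) (S z))).re) := by
  have hB := G_sesq hG he hyt
  obtain ⟨h, hh⟩ : ∃ h : Fin n → Fin n → ℂ → ℂ,
    ∀ i j w, h i j w = G e (y w) (KB.bv i) (KB.bv j) := ⟨fun i j w => _, fun _ _ _ => rfl⟩
  have hyev : ∀ᶠ w in 𝓝 z, y w ∈ e.target :=
    hy.continuousAt.preimage_mem_nhds (e.open_target.mem_nhds hyt)
  have hcy : ContDiffAt ℝ 2 y z := (hy.contDiffAt (n := 2)).restrict_scalars ℝ
  have hch : ∀ i j, ContDiffAt ℝ 2 (h i j) z := by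
    intro i j
    have h1 : h i j = fun w => G e (y w) (KB.bv i) (KB.bv j) := funext fun w => hh i j w
    rw [h1]
    exact ((G_cd hG he hyt _ _).of_le (WithTop.coe_le_coe.2 le_top)).comp z hcy
  have hdh : ∀ i j, DifferentiableAt ℝ (h i j) z := fun i j =>
    (hch i j).differentiableAt (by norm_num)
  -- expansion with arbitrary vectors
  have hexp : ∀ a b : V n, (fun w => G e (y w) a b) =ᶠ[𝓝 z]
      fun w => ∑ i, ∑ j, (a i * (starRingEnd ℂ) (b j)) * h i j w := by
    intro a b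
    filter_upwards [hyev] with w hw
    rw [(G_sesq hG he hw).expand]
    unfold KB.mform
    refine Finset.sum_congr rfl fun i _ => Finset.sum_congr rfl fun j _ => ?_
    rw [hh]
    ring
  have hdz : ∀ a b : V n, dz (fun w => G e (y w) a b) z =
      ∑ i, ∑ j, (a i * (starRingEnd ℂ) (b j)) * dz (h i j) z := by
    intro a b
    simp only [dz_eq_wd]
    rw [wd_congr (hexp a b), wd_sum _ (fun i _ => DifferentiableAt.fun_sum
      fun j _ => (hdh i j).const_mul _)]
    refine Finset.sum_congr rfl fun i _ => ?_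
    rw [wd_sum _ (fun j _ => (hdh i j).const_mul _)]
    refine Finset.sum_congr rfl fun j _ => ?_
    rw [wd_const_mul _ (hdh i j)]
  have hlap : ∀ a b : V n, lapC (fun w => G e (y w) a b) z =
      ∑ i, ∑ j, (a i * (starRingEnd ℂ) (b j)) * lapC (h i j) z := by
    intro a b
    rw [Eca_congr (hexp a b), Eca_sum _ (fun i _ => ContDiffAt.sum
      fun j _ => contDiffAt_const.mul (hch i j))]
    refine Finset.sum_congr rfl fun i _ => ?_
    rw [Eca_sum _ (fun j _ => contDiffAt_const.mul (hch i j))]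
    refine Finset.sum_congr rfl fun j _ => ?_
    rw [Eca_const_mul _ (hch i j)]
  obtain ⟨S', hS'⟩ : ∃ S', S' = deriv S z := ⟨_, rfl⟩
  obtain ⟨Γ, hΓ⟩ : ∃ Γ, Γ = Gam G e (y z) (deriv y z) (S z) := ⟨_, rfl⟩
  have hSc := fun i => Eca_coord hS i
  -- the four sums
  have hT1 : ∑ i, ∑ j, (S z i * (starRingEnd ℂ) (S z j)) * lapC (h i j) z =
      4 * levi (fun x => G e x (S z) (S z)) (y z) (deriv y z) := by
    rw [← hlap]
    exact KB.lapC_comp e.open_target ((hG.smooth e he _ _).of_le (WithTop.coe_le_coe.2 le_top)) hy hyt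
  have hT2 : ∑ i, ∑ j, (S z i * (starRingEnd ℂ) (S' j)) * dz (h i j) z = G e (y z) Γ S' := by
    rw [← hdz]
    have h1 := lf_dz hG hK he hy (S := fun _ => S z) (T := fun _ => S') (z := z)
      analyticAt_const analyticAt_const hyt
    rw [deriv_const, zero_add, ← hΓ] at h1
    exact h1
  have hT3 : ∑ i, ∑ j, (starRingEnd ℂ) (dz (fun w => (starRingEnd ℂ) (h i j w)) z) * S' i *
      (starRingEnd ℂ) (S z j) = G e (y z) S' Γ := by
    rw [hB.symm Γ S', ← hT2, map_sum, Finset.sum_comm]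
    refine Finset.sum_congr rfl fun j _ => ?_
    rw [map_sum]
    refine Finset.sum_congr rfl fun i _ => ?_
    have h1 : (fun w => (starRingEnd ℂ) (h i j w)) =ᶠ[𝓝 z] h j i := by
      filter_upwards [hyev] with w hw
      rw [hh, hh]
      exact ((G_sesq hG he hw).symm _ _).symm
    have h2 : dz (fun w => (starRingEnd ℂ) (h i j w)) z = dz (h j i) z := by
      rw [dz_eq_wd, dz_eq_wd, wd_congr h1]
    rw [h2, map_mul, map_mul, Complex.conj_conj]
    ring
  have hT4 : ∑ i, ∑ j, h i j z * S' i * (starRingEnd ℂ) (S' j) = G e (y z) S' S' := by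
    rw [hB.expand]
    unfold KB.mform
    refine Finset.sum_congr rfl fun i _ => Finset.sum_congr rfl fun j _ => ?_
    rw [hh]
  -- the Laplacian
  have hSev : (fun w => (G e (y w) (S w) (S w)).re) =ᶠ[𝓝 z]
      fun w => (∑ i, ∑ j, h i j w * S w i * (starRingEnd ℂ) (S w j)).re := by
    filter_upwards [hyev] with w hw
    rw [(G_sesq hG he hw).expand]
    unfold KB.mform
    congr 1
    refine Finset.sum_congr rfl fun i _ => Finset.sum_congr rfl fun j _ => ?_
    rw [hh]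
  have hct : ∀ i j, ContDiffAt ℝ 2 (fun w => h i j w * S w i * (starRingEnd ℂ) (S w j)) z :=
    fun i j => ((hch i j).mul (Eca_cd (hSc i).1)).mul (Eca_cdc (hSc j).1)
  rw [KB.LPB_congr hSev, KB.LPB_re (ContDiffAt.sum fun i _ => ContDiffAt.sum fun j _ => hct i j),
    Eca_sum _ (fun i _ => ContDiffAt.sum fun j _ => hct i j)]
  have hsum : ∑ i, lapC (fun w => ∑ j, h i j w * S w i * (starRingEnd ℂ) (S w j)) z =
      4 * levi (fun x => G e x (S z) (S z)) (y z) (deriv y z) + 4 * G e (y z) Γ S' +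
        4 * G e (y z) S' Γ + 4 * G e (y z) S' S' := by
    rw [← hT1, ← hT2, ← hT3, ← hT4, Finset.mul_sum, Finset.mul_sum, Finset.mul_sum,
      ← Finset.sum_add_distrib, ← Finset.sum_add_distrib, ← Finset.sum_add_distrib]
    refine Finset.sum_congr rfl fun i _ => ?_
    rw [Eca_sum _ (fun j _ => hct i j), Finset.mul_sum, Finset.mul_sum, Finset.mul_sum,
      ← Finset.sum_add_distrib, ← Finset.sum_add_distrib, ← Finset.sum_add_distrib]
    refine Finset.sum_congr rfl fun j _ => ?_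
    rw [lapC_prod3 (hch i j) (hSc i).1 (hSc j).1, (hSc i).2, (hSc j).2, ← hS']
    ring
  rw [hsum, ← hΓ, ← hS']
  unfold bkN
  rw [← hΓ, hB.add, hB.add_right, hB.add_right]
  simp only [Complex.add_re, Complex.neg_re, Complex.mul_re, Complex.re_ofNat, Complex.im_ofNat,
    zero_mul, sub_zero]
  ring

end KI
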