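import Pool.Agent.H50.KI.Che
import Pool.Agent.H49.KB.KA2

/-! # Ecb: sectional and bisectional curvature of a Kähler metric

PROOFS. `isSec_secN`: `isChristoffel_Gam` three times. `sec_add`: as in Pool/Agent/H49/KB/KA1.lean
(`kaehler_one`) and KA2.lean (`griffiths_of_sec`), with `u = a`, `v = b`:
(1) for `y ∈ e.target`: `DR (hR · a b) y b + DR (hR · a (I b)) y (I b) = DR (hR · b b) y a`: by `G_deriv`
the left side is `h(Γ(b,a),b) + h(a,Γ(b,b)) + h(Γ(Ib,a),Ib) + h(a,Γ(Ib,Ib)) = 2 h(Γ(b,a),b)`
(`Γ(Ib,a) = I Γ(b,a)`, `h(I c, I d) = h(c, d)`, `Γ(Ib,Ib) = -Γ(b,b)`), the right side `2 h(Γ(a,b),b)`, `Gam_symm`.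
(2) Differentiate (1) at `y` in the direction `a` (germs; all functions `C²` on the open set `e.target`):
`DR(DR(h a b) b) a + DR(DR(h a (Ib)) (Ib)) a = DR(DR(h b b) a) a`. (3) `hR · (Ib) (Ib) = hR · b b` near `y`, so the
two terms `-1/2 DR(DR(h b b) a) a` cancel it. (4) `DR(DR(h a a) b) b + DR(DR(h a a) (Ib)) (Ib) =
4 (levi (G · a a) y b).re` (unfold `levi`; derivative of the real part). (5) `Γ(a, Ib) = I Γ(a,b)`:
`h(Γ(a,Ib),Γ(a,Ib)) = h(Γ(a,b),Γ(a,b))`; `h(Γ(a,a), Γ(Ib,Ib)) = -h(Γ(a,a), Γ(b,b))`. Sum: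
`-2 (levi (G · a a) y b).re + 2 h(Γ(a,b),Γ(a,b)) = 2 bkN G e y b a` (`Gam_symm`). -/

set_option autoImplicit false

namespace KI

open Complex Metric Set Filter Topology Manifold ContDiff
open KB (V DR wirt levi rho Sesq lap lapC dz)

variable {n : ℕ} {X : Type} [MetricSpace X] [ChartedSpace (V n) X]
  {G : OpenPartialHomeomorph X (V n) → V n → V n → V n → ℂ}

theorem Ecb_two (hG : IsHermMetric G) {e : OpenPartialHomeomorph X (V n)}
    (he : e ∈ atlas (V n) X) {y : V n} (hy : y ∈ e.target) (a b v w : V n) :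
    DR (fun z => DR (fun z' => hR G e z' a b) z v) y w =
      (KB.D (fun z => KB.D (fun z' => G e z' a b) z v) y w).re := by
  have hc : ContDiffAt ℝ 2 (fun z => G e z a b) y := by
    exact_mod_cast contDiffAt_infty.1 (G_cd hG he hy a b) 2
  have hg : (fun z => DR (fun z' => hR G e z' a b) z v) =ᶠ[𝓝 y]
      fun z => (KB.D (fun z' => G e z' a b) z v).re := by
    filter_upwards [KB.KA2_ev hc] with z hz
    exact KB.KA2_re1 hz v
  rw [KB.KA2_congr hg, KB.KA2_re1 (KB.KA2_df hc v)]

theorem Ecb_diff (hG : IsHermMetric G) {e : OpenPartialHomeomorph X (V n)}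
    (he : e ∈ atlas (V n) X) {y : V n} (hy : y ∈ e.target) (a b v : V n) :
    DifferentiableAt ℝ (fun z => DR (fun z' => hR G e z' a b) z v) y := by
  have hc : ContDiffAt ℝ 2 (fun z => G e z a b) y := by
    exact_mod_cast contDiffAt_infty.1 (G_cd hG he hy a b) 2
  have hg : (fun z => DR (fun z' => hR G e z' a b) z v) =ᶠ[𝓝 y]
      fun z => (KB.D (fun z' => G e z' a b) z v).re := by
    filter_upwards [KB.KA2_ev hc] with z hz
    exact KB.KA2_re1 hz v
  refine DifferentiableAt.congr_of_eventuallyEq ?_ hg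
  exact Complex.reCLM.differentiableAt.comp y (KB.KA2_df hc v)

theorem Ecb_hR_I (hG : IsHermMetric G) {e : OpenPartialHomeomorph X (V n)}
    (he : e ∈ atlas (V n) X) {y : V n} (hy : y ∈ e.target) (a b : V n) :
    hR G e y (Complex.I • a) (Complex.I • b) = hR G e y a b := by
  have h := G_sesq hG he hy
  unfold hR
  rw [h.smul, h.smul_right, Complex.conj_I]
  congr 1
  linear_combination (-(G e y a b)) * Complex.I_mul_I

theorem Ecb_one (hG : IsHermMetric G) (hK : Kaehler G) {e : OpenPartialHomeomorph X (V n)}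
    (he : e ∈ atlas (V n) X) {y : V n} (hy : y ∈ e.target) (a b : V n) :
    DR (fun z => hR G e z a b) y b + DR (fun z => hR G e z a (Complex.I • b)) y (Complex.I • b)
      = DR (fun z => hR G e z b b) y a := by
  have h := G_sesq hG he hy
  rw [G_deriv hG he hy, G_deriv hG he hy, G_deriv hG he hy, Gam_smul_left hG he hy,
    Gam_smul_left hG he hy, Gam_smul_right hG he hy, Ecb_hR_I hG he hy, Gam_symm hG hK he hy b a]
  have h1 : Complex.I • Complex.I • Gam G e y b b = -Gam G e y b b := by
    rw [smul_smul, Complex.I_mul_I, neg_one_smul]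
  have h2 : hR G e y a (-Gam G e y b b) = -hR G e y a (Gam G e y b b) := by
    unfold hR
    rw [h.neg_right]
    simp
  have h3 : hR G e y b (Gam G e y a b) = hR G e y (Gam G e y a b) b := h.re_symm _ _
  rw [h1, h2, h3]
  ring

theorem isSec_secN (hG : IsHermMetric G) (hK : Kaehler G) {e : OpenPartialHomeomorph X (V n)}
    (he : e ∈ atlas (V n) X) {y : V n} (hy : y ∈ e.target) (a b : V n) :
    IsSec G e y a b (secN G e y a b) :=
  ⟨Gam G e y a b, Gam G e y a a, Gam G e y b b, isChristoffel_Gam hG hK he hy a b,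
    isChristoffel_Gam hG hK he hy a a, isChristoffel_Gam hG hK he hy b b, rfl⟩

theorem sec_add (hG : IsHermMetric G) (hK : Kaehler G) {e : OpenPartialHomeomorph X (V n)}
    (he : e ∈ atlas (V n) X) {y : V n} (hy : y ∈ e.target) (a b : V n) :
    secN G e y a b + secN G e y a (Complex.I • b) = 2 * bkN G e y b a := by
  have hB := G_sesq hG he hy
  have hk : DR (fun z => DR (fun z' => hR G e z' a b) z b) y a +
      DR (fun z => DR (fun z' => hR G e z' a (Complex.I • b)) z (Complex.I • b)) y a =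
      DR (fun z => DR (fun z' => hR G e z' b b) z a) y a := by
    have h1 : (fun z => DR (fun z' => hR G e z' b b) z a) =ᶠ[𝓝 y]
        fun z => DR (fun z' => hR G e z' a b) z b +
          DR (fun z' => hR G e z' a (Complex.I • b)) z (Complex.I • b) := by
      filter_upwards [e.open_target.mem_nhds hy] with z hz
      exact (Ecb_one hG hK he hz a b).symm
    rw [KB.KA2_congr h1]
    have h2 := fderiv_fun_add (Ecb_diff hG he hy a b b)
      (Ecb_diff hG he hy a (Complex.I • b) (Complex.I • b))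
    show _ = fderiv ℝ (fun z => DR (fun z' => hR G e z' a b) z b +
          DR (fun z' => hR G e z' a (Complex.I • b)) z (Complex.I • b)) y a
    rw [h2]
    rfl
  have hI : DR (fun z => DR (fun z' => hR G e z' (Complex.I • b) (Complex.I • b)) z a) y a =
      DR (fun z => DR (fun z' => hR G e z' b b) z a) y a := by
    apply KB.KA2_congr
    have h1 : ∀ᶠ z in 𝓝 y, z ∈ e.target := e.open_target.mem_nhds hy
    filter_upwards [h1.eventually_nhds] with z hz
    apply KB.KA2_congr
    filter_upwards [hz] with z' hz'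
    exact Ecb_hR_I hG he hz' b b
  have hl : DR (fun z => DR (fun z' => hR G e z' a a) z b) y b +
      DR (fun z => DR (fun z' => hR G e z' a a) z (Complex.I • b)) y (Complex.I • b) =
      4 * (levi (fun z => G e z a a) y b).re := by
    rw [Ecb_two hG he hy, Ecb_two hG he hy]
    unfold levi
    have h4 : ∀ w : ℂ, ((1 / 4 : ℂ) * w).re = 1 / 4 * w.re := by
      intro w
      have h5 : (1 / 4 : ℂ) = ((1 / 4 : ℝ) : ℂ) := by push_cast; ring
      rw [h5, Complex.re_ofReal_mul]
    rw [h4, Complex.add_re]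
    ring
  have hΓ1 : hR G e y (Gam G e y a (Complex.I • b)) (Gam G e y a (Complex.I • b))
      = hR G e y (Gam G e y a b) (Gam G e y a b) := by
    rw [Gam_smul_right hG he hy, Ecb_hR_I hG he hy]
  have hΓ2 : hR G e y (Gam G e y a a) (Gam G e y (Complex.I • b) (Complex.I • b))
      = -hR G e y (Gam G e y a a) (Gam G e y b b) := by
    have h1 : Gam G e y (Complex.I • b) (Complex.I • b) = -Gam G e y b b := by
      rw [Gam_smul_left hG he hy, Gam_smul_right hG he hy, smul_smul, Complex.I_mul_I,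
        neg_one_smul]
    rw [h1]
    unfold hR
    rw [hB.neg_right]
    simp
  have hbk : bkN G e y b a = -(levi (fun z => G e z a a) y b).re
      + hR G e y (Gam G e y a b) (Gam G e y a b) := by
    unfold bkN
    rw [Complex.add_re, Complex.neg_re, Gam_symm hG hK he hy b a]
    rfl
  unfold secN
  rw [hI, hΓ1, hΓ2, hbk]
  linarith

end KI
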