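import Pool.Agent.H50.KI.Ecb

/-! # Ecc: sign of the bisectional curvature

PROOFS. `sec_add` with `(a, b) := (b, a)`: `secN b a + secN b (I a) = 2 bkN a b`, and `secN ≥ 0` by `hS` and
`isSec_secN`. `bkN_pos`: one of the pairs `(b, a)`, `(b, I a)` is linearly independent over `ℝ`: otherwise (`b ≠ 0`)
`a = s • b` and `I • a = t • b` with real `s, t` (`LinearIndependent.pair_iff'`), so `(t - I s) • b = 0`, `s = 0`, `a = 0`.
For this pair `secN > 0` (`hP`, `isSec_secN`), for the other one `secN ≥ 0`. -/

set_option autoImplicit false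

namespace KI

open Complex Metric Set Filter Topology Manifold ContDiff
open KB (V DR wirt levi rho Sesq lap lapC dz)

variable {n : ℕ} {X : Type} [MetricSpace X] [ChartedSpace (V n) X]
  {G : OpenPartialHomeomorph X (V n) → V n → V n → V n → ℂ}

theorem bkN_nonneg (hG : IsHermMetric G) (hK : Kaehler G) (hS : SecNonneg G)
    {e : OpenPartialHomeomorph X (V n)} (he : e ∈ atlas (V n) X) {y : V n} (hy : y ∈ e.target)
    (a b : V n) : 0 ≤ bkN G e y a b := by
  have h1 := sec_add hG hK he hy b a
  have h2 := hS e he y hy b a _ (isSec_secN hG hK he hy b a)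
  have h3 := hS e he y hy b (Complex.I • a) _ (isSec_secN hG hK he hy b (Complex.I • a))
  linarith

theorem bkN_pos (hG : IsHermMetric G) (hK : Kaehler G) (hS : SecNonneg G) {S : Set X}
    (hP : SecPosOn G S) {e : OpenPartialHomeomorph X (V n)} (he : e ∈ atlas (V n) X) {y : V n}
    (hy : y ∈ e.target) (hyS : e.symm y ∈ S) {a b : V n} (ha : a ≠ 0) (hb : b ≠ 0) :
    0 < bkN G e y a b := by
  have h1 := sec_add hG hK he hy b a
  have h2 := hS e he y hy b a _ (isSec_secN hG hK he hy b a)
  have h3 := hS e he y hy b (Complex.I • a) _ (isSec_secN hG hK he hy b (Complex.I • a))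
  by_cases hli : LinearIndependent ℝ ![b, a]
  · have h4 := hP e he y hy hyS b a _ hli (isSec_secN hG hK he hy b a)
    linarith
  by_cases hli' : LinearIndependent ℝ ![b, Complex.I • a]
  · have h4 := hP e he y hy hyS b (Complex.I • a) _ hli'
      (isSec_secN hG hK he hy b (Complex.I • a))
    linarith
  exfalso
  rw [LinearIndependent.pair_iff' hb] at hli hli'
  push Not at hli hli'
  obtain ⟨s, hs⟩ := hli
  obtain ⟨t, ht⟩ := hli'
  have h5 : ((t : ℂ) - Complex.I * (s : ℂ)) • b = 0 := by
    rw [sub_smul, mul_smul, Complex.coe_smul, Complex.coe_smul, hs, ht, sub_self]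
  rcases smul_eq_zero.mp h5 with h6 | h6
  · have h7 := congrArg Complex.im h6
    simp at h7
    apply ha
    rw [← hs, h7, zero_smul]
  · exact hb h6

end KI
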