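import Pool.Agent.H49.KI.TopCH

/-! # Fra: the frame of a thickening and changes of charts

PROOFS. `thick_nhds`: `Φ` is continuous at `(z₀, 0)` within `closedBall 0 1 ×ˢ ball 0 r`, `Φ z₀ 0 = f z₀`
(`hΦ.zero`), `e.open_source`.
`frm_trans`: for `y` near 0, `Φ z y ∈ e.source` (`thick_nhds`) so `e' (Φ z y) = trans e e' (e (Φ z y))`
(`e.left_inv`); chain rule with `hΦ.holy z hz 0 _ e he _` (`Φ z 0 = f z`) and `trans_analyticAt`.
`vsq_chart`: the same in one variable, then `G_trans` (TopCH) between `chartAt (V n) (f z)` and `e`.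
`Bf_chart`: `frm_trans` and `G_trans`. -/

set_option autoImplicit false

namespace KI

open Complex Metric Set Filter Topology Manifold ContDiff
open KB (V DR wirt levi rho Sesq lap lapC dz)

variable {n : ℕ} {X : Type} [MetricSpace X] [ChartedSpace (V n) X]
  {G : OpenPartialHomeomorph X (V n) → V n → V n → V n → ℂ}

theorem thick_nhds {f : ℂ → X} {r : ℝ} {Φ : ℂ → V n → X} (hΦ : Thick f r Φ) {z₀ : ℂ}
    (hz₀ : z₀ ∈ closedBall (0 : ℂ) 1) {e : OpenPartialHomeomorph X (V n)}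
    (hfe : f z₀ ∈ e.source) : ∃ ρ > 0, ∃ s > 0, s ≤ r ∧
      ∀ z ∈ closedBall (0 : ℂ) 1 ∩ ball z₀ ρ, ∀ y ∈ ball (0 : V n) s, Φ z y ∈ e.source := by
  have hcw : ContinuousWithinAt (fun q : ℂ × V n => Φ q.1 q.2) (closedBall 0 1 ×ˢ ball 0 r)
      (z₀, 0) := hΦ.cont (z₀, 0) ⟨hz₀, mem_ball_self hΦ.pos⟩
  have hmem : e.source ∈ 𝓝 ((fun q : ℂ × V n => Φ q.1 q.2) (z₀, 0)) := by
    refine e.open_source.mem_nhds ?_
    show Φ z₀ 0 ∈ e.source
    rw [hΦ.zero z₀ hz₀]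
    exact hfe
  have hpre := hcw.preimage_mem_nhdsWithin hmem
  obtain ⟨ε, hε, hsub⟩ := Metric.mem_nhdsWithin_iff.1 hpre
  refine ⟨ε, hε, min ε r, lt_min hε hΦ.pos, min_le_right _ _, ?_⟩
  intro z hz y hy
  have hy' : y ∈ ball (0 : V n) ε := ball_subset_ball (min_le_left _ _) hy
  have hyr : y ∈ ball (0 : V n) r := ball_subset_ball (min_le_right _ _) hy
  have hq : ((z, y) : ℂ × V n) ∈ ball ((z₀, 0) : ℂ × V n) ε ∩ closedBall 0 1 ×ˢ ball 0 r := by
    refine ⟨?_, ⟨hz.1, hyr⟩⟩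
    rw [← ball_prod_same]
    exact ⟨hz.2, hy'⟩
  exact hsub hq

theorem frm_trans [IsManifold 𝓘(ℂ, V n) ω X] {f : ℂ → X} {r : ℝ} {Φ : ℂ → V n → X}
    (hΦ : Thick f r Φ) {z : ℂ} (hz : z ∈ closedBall (0 : ℂ) 1)
    {e e' : OpenPartialHomeomorph X (V n)} (he : e ∈ atlas (V n) X) (he' : e' ∈ atlas (V n) X)
    (hfe : f z ∈ e.source) (hfe' : f z ∈ e'.source) (a : V n) :
    frm Φ e' z a = fderiv ℂ (trans e e') (e (f z)) (frm Φ e z a) := by
  obtain ⟨ρ, hρ, s, hs, hsr, hsrc⟩ := thick_nhds hΦ hz hfe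
  have h0 : Φ z 0 = f z := hΦ.zero z hz
  have hev : (fun y => e' (Φ z y)) =ᶠ[𝓝 (0 : V n)] fun y => trans e e' (e (Φ z y)) := by
    filter_upwards [ball_mem_nhds (0 : V n) hs] with y hy
    have := hsrc z ⟨hz, mem_ball_self hρ⟩ y hy
    unfold trans
    rw [e.left_inv this]
  have h1 : DifferentiableAt ℂ (fun y => e (Φ z y)) 0 :=
    hΦ.holy z hz 0 (mem_ball_self hΦ.pos) e he (by rw [h0]; exact hfe)
  have h2 : DifferentiableAt ℂ (trans e e') (e (Φ z 0)) := by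
    rw [h0]
    exact (trans_analyticAt he he' hfe hfe').differentiableAt
  have h3 : HasFDerivAt (fun y => trans e e' (e (Φ z y)))
      ((fderiv ℂ (trans e e') (e (Φ z 0))).comp (fderiv ℂ (fun y => e (Φ z y)) 0)) 0 :=
    HasFDerivAt.comp (g := trans e e') (f := fun y => e (Φ z y)) (0 : V n) h2.hasFDerivAt
      h1.hasFDerivAt
  unfold frm
  rw [hev.fderiv_eq, h3.fderiv, h0]
  rfl

theorem vsq_chart [IsManifold 𝓘(ℂ, V n) ω X] (hG : IsHermMetric G) {f : ℂ → X} {z : ℂ}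
    (hf : ContinuousAt f z)
    (hd : ∀ e ∈ atlas (V n) X, f z ∈ e.source → DifferentiableAt ℂ (fun w => e (f w)) z)
    {e : OpenPartialHomeomorph X (V n)} (he : e ∈ atlas (V n) X) (hfe : f z ∈ e.source) :
    vsq G f z = (G e (e (f z)) (deriv (fun w => e (f w)) z)
      (deriv (fun w => e (f w)) z)).re := by
  set e₀ := chartAt (V n) (f z) with he₀
  have he₀m : e₀ ∈ atlas (V n) X := chart_mem_atlas (V n) (f z)
  have hs₀ : f z ∈ e₀.source := mem_chart_source (V n) (f z)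
  have hev : (fun w => e (f w)) =ᶠ[𝓝 z] fun w => trans e₀ e (e₀ (f w)) := by
    filter_upwards [hf (e₀.open_source.mem_nhds hs₀)] with w hw
    unfold trans
    rw [e₀.left_inv hw]
  have h1 : DifferentiableAt ℂ (fun w => e₀ (f w)) z := hd e₀ he₀m hs₀
  have h2 : DifferentiableAt ℂ (trans e₀ e) (e₀ (f z)) :=
    (trans_analyticAt he₀m he hs₀ hfe).differentiableAt
  have h3 : HasDerivAt (fun w => trans e₀ e (e₀ (f w)))
      ((fderiv ℂ (trans e₀ e) (e₀ (f z))) (deriv (fun w => e₀ (f w)) z)) z :=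
    HasFDerivAt.comp_hasDerivAt (l := trans e₀ e) (f := fun w => e₀ (f w)) z h2.hasFDerivAt
      h1.hasDerivAt
  have h4 : deriv (fun w => e (f w)) z =
      fderiv ℂ (trans e₀ e) (e₀ (f z)) (deriv (fun w => e₀ (f w)) z) := by
    rw [hev.deriv_eq, h3.deriv]
  rw [h4, ← G_trans hG he₀m he hs₀ hfe]
  rfl

/-- the metric in the frame does not depend on the chart -/
theorem Bf_chart [IsManifold 𝓘(ℂ, V n) ω X] (ctx : Ctx G) {f : ℂ → X}
    {r : ℝ} {Φ : ℂ → V n → X} (hΦ : Thick f r Φ) {z : ℂ} (hz : z ∈ closedBall (0 : ℂ) 1)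
    {e : OpenPartialHomeomorph X (V n)} (he : e ∈ atlas (V n) X) (hfe : f z ∈ e.source)
    (a b : V n) : Bf G f Φ z a b = G e (e (f z)) (frm Φ e z a) (frm Φ e z b) := by
  set e₀ := chartAt (V n) (f z) with he₀
  have he₀m : e₀ ∈ atlas (V n) X := chart_mem_atlas (V n) (f z)
  have hs₀ : f z ∈ e₀.source := mem_chart_source (V n) (f z)
  rw [frm_trans hΦ hz he₀m he hs₀ hfe a, frm_trans hΦ hz he₀m he hs₀ hfe b,
    ← G_trans ctx.herm he₀m he hs₀ hfe]
  rfl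

end KI
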