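import Pool.Agent.H50.KI.Fra
import Pool.Agent.H50.KI.Cdy
import Pool.Agent.H50.KI.Cdh

/-! # Frb: continuity and holomorphy of the frame, first order expansion of a thickening

PROOFS. `thick_nhds` gives `ρ, s`. Put `K = closedBall 0 1 ∩ ball z₀ ρ`, `g z y = e (Φ z y)`: continuous on
`K ×ˢ ball 0 s` (`hΦ.cont`, `e.continuousOn`), holomorphic in `y` (`hΦ.holy`). `cdy` gives the continuity of
`(z, y) ↦ fderiv ℂ (g z) y`; `frm Φ e z` is its value at `(z, 0)`: `frm_cont`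
(`K` is a neighbourhood of `z₀` within the closed ball).
`frm_holo`: for `z₀` in the open ball take `U = ball 0 1 ∩ ball z₀ ρ`, `hΦ.holo`, `cdh`, and
`DifferentiableOn.analyticAt`.
`thick_taylor`: by `cdy` at `(z₀, 0)` there are `ρ' ≤ ρ`, `s' ≤ s` with
`‖fderiv ℂ (g z) y - fderiv ℂ (g z₀) 0‖ ≤ ε/2` for `z ∈ closedBall 0 1 ∩ ball z₀ ρ'`, `‖y‖ < s'`; so
`‖fderiv ℂ (g z) y - fderiv ℂ (g z) 0‖ ≤ ε` and the mean value inequality
(`Convex.norm_image_sub_le_of_norm_fderiv_le'` on the ball, `φ = fderiv ℂ (g z) 0`) gives the claim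
(`Φ z 0 = f z`). -/

set_option autoImplicit false

namespace KI

open Complex Metric Set Filter Topology Manifold ContDiff
open KB (V DR wirt levi rho Sesq lap lapC dz)

variable {n : ℕ} {X : Type} [MetricSpace X] [ChartedSpace (V n) X]

private theorem Frb_key {f : ℂ → X} {r : ℝ} {Φ : ℂ → V n → X}
    (hΦ : Thick f r Φ) {z₀ : ℂ} (hz₀ : z₀ ∈ closedBall (0 : ℂ) 1)
    {e : OpenPartialHomeomorph X (V n)} (he : e ∈ atlas (V n) X) (hfe : f z₀ ∈ e.source) :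
    ∃ ρ > 0, ∃ s > 0, s ≤ r ∧
      (∀ z ∈ closedBall (0 : ℂ) 1 ∩ ball z₀ ρ, ∀ y ∈ ball (0 : V n) s, Φ z y ∈ e.source) ∧
      ContinuousOn (fun q : ℂ × V n => fderiv ℂ (fun y' => e (Φ q.1 y')) q.2)
        ((closedBall (0 : ℂ) 1 ∩ ball z₀ ρ) ×ˢ ball 0 s) := by
  obtain ⟨ρ, hρ, s, hs, hsr, h⟩ := thick_nhds hΦ hz₀ hfe
  refine ⟨ρ, hρ, s, hs, hsr, h, ?_⟩
  refine cdy (g := fun z y => e (Φ z y)) ?_ ?_
  · have h1 : ContinuousOn (fun q : ℂ × V n => Φ q.1 q.2)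
        ((closedBall (0 : ℂ) 1 ∩ ball z₀ ρ) ×ˢ ball 0 s) :=
      hΦ.cont.mono (Set.prod_mono inter_subset_left (ball_subset_ball hsr))
    exact e.continuousOn.comp h1 fun q hq => h q.1 hq.1 q.2 hq.2
  · intro z hz y hy
    exact hΦ.holy z hz.1 y (ball_subset_ball hsr hy) e he (h z hz y hy)

theorem frm_cont {f : ℂ → X} {r : ℝ} {Φ : ℂ → V n → X}
    (hΦ : Thick f r Φ) {z₀ : ℂ} (hz₀ : z₀ ∈ closedBall (0 : ℂ) 1)
    {e : OpenPartialHomeomorph X (V n)} (he : e ∈ atlas (V n) X) (hfe : f z₀ ∈ e.source) :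
    ContinuousWithinAt (fun z => frm Φ e z) (closedBall 0 1) z₀ := by
  obtain ⟨ρ, hρ, s, hs, hsr, h, hc⟩ := Frb_key hΦ hz₀ he hfe
  have hK : closedBall (0 : ℂ) 1 ∩ ball z₀ ρ ∈ 𝓝[closedBall (0 : ℂ) 1] z₀ :=
    inter_mem_nhdsWithin _ (ball_mem_nhds z₀ hρ)
  have h1 : ContinuousOn (fun z : ℂ => fderiv ℂ (fun y' => e (Φ z y')) (0 : V n))
      (closedBall (0 : ℂ) 1 ∩ ball z₀ ρ) := by
    have h2 : ContinuousOn (fun z : ℂ => ((z, (0 : V n)) : ℂ × V n))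
        (closedBall (0 : ℂ) 1 ∩ ball z₀ ρ) := by fun_prop
    exact hc.comp h2 fun z hz => ⟨hz, mem_ball_self hs⟩
  exact (h1 z₀ ⟨hz₀, mem_ball_self hρ⟩).mono_of_mem_nhdsWithin hK

theorem frm_holo {f : ℂ → X} {r : ℝ} {Φ : ℂ → V n → X}
    (hΦ : Thick f r Φ) {z₀ : ℂ} (hz₀ : z₀ ∈ ball (0 : ℂ) 1)
    {e : OpenPartialHomeomorph X (V n)} (he : e ∈ atlas (V n) X) (hfe : f z₀ ∈ e.source)
    (a : V n) : AnalyticAt ℂ (fun z => frm Φ e z a) z₀ := by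
  have hz₀' : z₀ ∈ closedBall (0 : ℂ) 1 := ball_subset_closedBall hz₀
  obtain ⟨ρ, hρ, s, hs, hsr, h, -⟩ := Frb_key hΦ hz₀' he hfe
  have hU : IsOpen (ball (0 : ℂ) 1 ∩ ball z₀ ρ) := isOpen_ball.inter isOpen_ball
  have h1 : DifferentiableOn ℂ (fun z => fderiv ℂ (fun y' => e (Φ z y')) (0 : V n) a)
      (ball (0 : ℂ) 1 ∩ ball z₀ ρ) := by
    refine cdh hU hs (g := fun z y => e (Φ z y)) ?_ a
    intro z hz y hy
    exact hΦ.holo z hz.1 y (ball_subset_ball hsr hy) e he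
      (h z ⟨ball_subset_closedBall hz.1, hz.2⟩ y hy)
  exact h1.analyticAt (hU.mem_nhds ⟨hz₀, mem_ball_self hρ⟩)

theorem thick_taylor {f : ℂ → X} {r : ℝ} {Φ : ℂ → V n → X}
    (hΦ : Thick f r Φ) {z₀ : ℂ} (hz₀ : z₀ ∈ closedBall (0 : ℂ) 1)
    {e : OpenPartialHomeomorph X (V n)} (he : e ∈ atlas (V n) X) (hfe : f z₀ ∈ e.source)
    {ε : ℝ} (hε : 0 < ε) : ∃ ρ > 0, ∃ s > 0, s ≤ r ∧
      ∀ z ∈ closedBall (0 : ℂ) 1 ∩ ball z₀ ρ, ∀ y ∈ ball (0 : V n) s, Φ z y ∈ e.source ∧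
        ‖e (Φ z y) - e (f z) - frm Φ e z y‖ ≤ ε * ‖y‖ := by
  obtain ⟨ρ, hρ, s, hs, hsr, h, hc⟩ := Frb_key hΦ hz₀ he hfe
  have h0 := hc (z₀, (0 : V n)) ⟨⟨hz₀, mem_ball_self hρ⟩, mem_ball_self hs⟩
  obtain ⟨δ, hδ, hδ'⟩ := Metric.continuousWithinAt_iff.1 h0 (ε / 2) (half_pos hε)
  refine ⟨min ρ δ, lt_min hρ hδ, min s δ, lt_min hs hδ, (min_le_left _ _).trans hsr, ?_⟩
  intro z hz y hy
  have hzρ : z ∈ closedBall (0 : ℂ) 1 ∩ ball z₀ ρ :=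
    ⟨hz.1, ball_subset_ball (min_le_left _ _) hz.2⟩
  have hzδ : dist z z₀ < δ := lt_of_lt_of_le (mem_ball.1 hz.2) (min_le_right _ _)
  have hys : ∀ y' ∈ ball (0 : V n) (min s δ), y' ∈ ball (0 : V n) s := fun y' hy' =>
    ball_subset_ball (min_le_left _ _) hy'
  refine ⟨h z hzρ y (hys y hy), ?_⟩
  have hD : ∀ y' ∈ ball (0 : V n) (min s δ),
      ‖fderiv ℂ (fun y' => e (Φ z y')) y' - fderiv ℂ (fun y' => e (Φ z₀ y')) (0 : V n)‖ < ε / 2 := by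
    intro y' hy'
    have h3 : dist ((z, y') : ℂ × V n) (z₀, (0 : V n)) < δ := by
      rw [Prod.dist_eq]
      exact max_lt hzδ (lt_of_lt_of_le (mem_ball.1 hy') (min_le_right _ _))
    have h4 := hδ' (x := ((z, y') : ℂ × V n)) ⟨hzρ, hys y' hy'⟩ h3
    rwa [dist_eq_norm] at h4
  have h0s : (0 : V n) ∈ ball (0 : V n) (min s δ) := mem_ball_self (lt_min hs hδ)
  have key := (convex_ball (0 : V n) (min s δ)).norm_image_sub_le_of_norm_fderiv_le'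
    (𝕜 := ℂ) (f := fun y' => e (Φ z y')) (φ := fderiv ℂ (fun y' => e (Φ z y')) (0 : V n)) (C := ε)
    (fun y' hy' => hΦ.holy z hz.1 y' (ball_subset_ball hsr (hys y' hy')) e he (h z hzρ y' (hys y' hy')))
    (fun y' hy' => by
      have h5 := hD y' hy'
      have h6 := hD 0 h0s
      calc ‖fderiv ℂ (fun y' => e (Φ z y')) y' - fderiv ℂ (fun y' => e (Φ z y')) (0 : V n)‖
          = ‖(fderiv ℂ (fun y' => e (Φ z y')) y' - fderiv ℂ (fun y' => e (Φ z₀ y')) (0 : V n)) -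
              (fderiv ℂ (fun y' => e (Φ z y')) (0 : V n) - fderiv ℂ (fun y' => e (Φ z₀ y')) (0 : V n))‖ := by
            congr 1
            abel
        _ ≤ _ := norm_sub_le _ _
        _ ≤ ε := by linarith)
    h0s hy
  simp only [sub_zero] at key
  have h7 : Φ z 0 = f z := hΦ.zero z hz.1
  rw [h7] at key
  exact key

end KI
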