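import Pool.Agent.H49.KI.Defs
import Pool.Agent.H49.KB.K1

/-! # Kb2: the Kobayashi pseudodistance is a pseudodistance

PROOFS. Copy Pool/Agent/H49/KB/K2.lean: replace `IsDisc M f` by
`MDifferentiableOn 𝓘(ℂ) 𝓘(ℂ, V n) f (ball 0 1)`, `chainLengths M` by `chainLengths n X`,
`kobayashi M` by `kobayashi n X`; constant discs: `mdifferentiableOn_const`. `KB.rho_self`, `KB.rho_comm`
from Pool/Agent/H49/KB/K1.lean. -/

set_option autoImplicit false

namespace KI

open Complex Metric Set Filter Topology Manifold ContDiff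
open KB (V DR wirt levi rho Sesq lap lapC dz)

variable {n : ℕ} {X : Type} [TopologicalSpace X] [ChartedSpace (V n) X]

theorem kobayashi_le_rho {f : ℂ → X} (hf : MDifferentiableOn 𝓘(ℂ) 𝓘(ℂ, V n) f (ball 0 1))
    {a b : ℂ} (ha : a ∈ ball (0 : ℂ) 1) (hb : b ∈ ball (0 : ℂ) 1) : kobayashi n X (f a) (f b) ≤ ENNReal.ofReal (rho a b) := by
  refine iInf₂_le (rho a b) ⟨0, fun _ => f, fun _ => a, fun _ => b, ?_, rfl, ?_, rfl, ?_⟩
  · intro i _
    exact ⟨hf, ha, hb⟩
  · intro i hi
    exact absurd hi (Nat.not_lt_zero i)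
  · simp

theorem kobayashi_self (p : X) : kobayashi n X p p = 0 := by
  have h0 : (0 : ℂ) ∈ ball (0 : ℂ) 1 := mem_ball_self one_pos
  have hd : MDifferentiableOn 𝓘(ℂ) 𝓘(ℂ, V n) (fun _ : ℂ => p) (ball 0 1) := mdifferentiableOn_const
  have h := kobayashi_le_rho hd h0 h0
  rw [KB.rho_self, ENNReal.ofReal_zero] at h
  exact nonpos_iff_eq_zero.mp h

theorem Kb2_rev {p q : X} {L : ℝ} (h : L ∈ chainLengths n X p q) : L ∈ chainLengths n X q p := by
  obtain ⟨k, f, a, b, h1, h2, h3, h4, h5⟩ := h
  refine ⟨k, fun i => f (k - i), fun i => b (k - i), fun i => a (k - i), ?_, ?_, ?_, ?_, ?_⟩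
  · intro i _
    obtain ⟨u1, u2, u3⟩ := h1 (k - i) (Nat.sub_le _ _)
    exact ⟨u1, u3, u2⟩
  · simpa using h4
  · intro i hi
    have e1 : k - i = (k - (i + 1)) + 1 := by omega
    have e2 := h3 (k - (i + 1)) (by omega)
    simp only
    rw [e1]
    exact e2.symm
  · simpa using h2
  · rw [h5]
    have h6 := Finset.sum_range_reflect (fun i => rho (a i) (b i)) (k + 1)
    rw [← h6]
    refine Finset.sum_congr rfl fun i hi => ?_
    have e3 : k + 1 - 1 - i = k - i := by omega
    simp only [e3]
    exact KB.rho_comm _ _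

theorem kobayashi_comm (p q : X) : kobayashi n X p q = kobayashi n X q p := by
  have h : chainLengths n X p q = chainLengths n X q p :=
    Set.ext fun L => ⟨Kb2_rev, Kb2_rev⟩
  unfold kobayashi
  rw [h]

theorem Kb2_cat {p q s : X} {L L' : ℝ} (h : L ∈ chainLengths n X p q)
    (h' : L' ∈ chainLengths n X q s) : L + L' ∈ chainLengths n X p s := by
  obtain ⟨k, f, a, b, h1, h2, h3, h4, h5⟩ := h
  obtain ⟨k', f', a', b', h1', h2', h3', h4', h5'⟩ := h'
  refine ⟨k + k' + 1, fun i => if i ≤ k then f i else f' (i - (k + 1)),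
    fun i => if i ≤ k then a i else a' (i - (k + 1)),
    fun i => if i ≤ k then b i else b' (i - (k + 1)), ?_, ?_, ?_, ?_, ?_⟩
  · intro i hi
    by_cases hk : i ≤ k
    · simp only [hk, if_true]
      exact h1 i hk
    · simp only [hk, if_false]
      exact h1' _ (by omega)
  · simpa using h2
  · intro i hi
    rcases Nat.lt_trichotomy i k with hk | hk | hk
    · have e1 : i ≤ k := hk.le
      have e2 : i + 1 ≤ k := hk
      simp only [e1, e2, if_true]
      exact h3 i hk
    · subst hk
      have e2 : ¬ (i + 1 ≤ i) := by omega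
      simp only [le_refl, e2, if_true, if_false, Nat.sub_self]
      rw [h4, h2']
    · have e1 : ¬ (i ≤ k) := by omega
      have e2 : ¬ (i + 1 ≤ k) := by omega
      have e3 : i + 1 - (k + 1) = (i - (k + 1)) + 1 := by omega
      simp only [e1, e2, if_false, e3]
      exact h3' _ (by omega)
  · have e1 : ¬ (k + k' + 1 ≤ k) := by omega
    have e2 : k + k' + 1 - (k + 1) = k' := by omega
    simp only [e1, if_false, e2]
    exact h4'
  · have e0 : k + k' + 1 + 1 = (k + 1) + (k' + 1) := by omega
    rw [e0, Finset.sum_range_add, h5, h5']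
    congr 1
    · refine Finset.sum_congr rfl fun i hi => ?_
      have e1 : i ≤ k := by
        have := Finset.mem_range.mp hi
        omega
      simp only [e1, if_true]
    · refine Finset.sum_congr rfl fun i hi => ?_
      have e1 : ¬ (k + 1 + i ≤ k) := by omega
      have e2 : k + 1 + i - (k + 1) = i := by omega
      simp only [e1, if_false, e2]

theorem kobayashi_triangle (p q s : X) :
    kobayashi n X p s ≤ kobayashi n X p q + kobayashi n X q s := by
  have key : ∀ L ∈ chainLengths n X p q, ∀ L' ∈ chainLengths n X q s,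
      kobayashi n X p s ≤ ENNReal.ofReal L + ENNReal.ofReal L' := by
    intro L hL L' hL'
    refine le_trans (iInf₂_le (L + L') (Kb2_cat hL hL')) ENNReal.ofReal_add_le
  have h2 : ∀ L ∈ chainLengths n X p q,
      kobayashi n X p s ≤ ENNReal.ofReal L + kobayashi n X q s := by
    intro L hL
    conv_rhs => unfold kobayashi
    rw [ENNReal.add_iInf]
    refine le_iInf fun L' => ?_
    rw [ENNReal.add_iInf]
    exact le_iInf fun hL' => key L hL L' hL'
  have h3 : kobayashi n X p q + kobayashi n X q s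
      = ⨅ L : ℝ, ⨅ _ : L ∈ chainLengths n X p q, (ENNReal.ofReal L + kobayashi n X q s) := by
    conv_lhs => rw [show kobayashi n X p q = ⨅ L ∈ chainLengths n X p q, ENNReal.ofReal L from rfl]
    rw [ENNReal.iInf_add]
    refine iInf_congr fun L => ?_
    rw [ENNReal.iInf_add]
  rw [h3]
  exact le_iInf fun L => le_iInf fun hL => h2 L hL

end KI
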