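import Pool.Agent.H50.KI.Mdf
import Pool.Agent.H50.KI.Kb2

/-! # Kb3: the Kobayashi pseudodistance is locally Lipschitz in charts

PROOF. As Pool/Agent/H49/KB/K3.lean with `e.symm` instead of `r`. Choose `ρ > 0` with `ball y₀ (6 ρ) ⊆ e.target`.
Let `y ≠ y'`, `‖y - y₀‖ < ρ`, `‖y' - y₀‖ < ρ`, `s = ‖y' - y‖ / (4 ρ)`, so `0 < s < 1/2`.
`f z := e.symm (y + (z / s) • (y' - y))`: for `‖z‖ < 1` the argument is within `ρ + 4 ρ` of `y₀`, so in
`e.target`; `f` is holomorphic on the ball (`mdiffOn_symm`), `f 0 = e.symm y`, `f s = e.symm y'`.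
`kobayashi_le_rho`, `KB.rho_zero_le`: `≤ ofReal (rho 0 s) ≤ ofReal (4 s) = ofReal (‖y - y'‖ / ρ)`. `C = 1/ρ`.
For `y = y'` use `kobayashi_self`. -/

set_option autoImplicit false

namespace KI

open Complex Metric Set Filter Topology Manifold ContDiff
open KB (V DR wirt levi rho Sesq lap lapC dz)

variable {n : ℕ} {X : Type} [MetricSpace X] [ChartedSpace (V n) X]

theorem kobayashi_local [IsManifold 𝓘(ℂ, V n) ω X] {e : OpenPartialHomeomorph X (V n)}
    (he : e ∈ atlas (V n) X) {y₀ : V n} (hy₀ : y₀ ∈ e.target) :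
    ∃ ρ > 0, ∃ C > 0, ball y₀ ρ ⊆ e.target ∧ ∀ y y' : V n, ‖y - y₀‖ < ρ → ‖y' - y₀‖ < ρ →
      kobayashi n X (e.symm y) (e.symm y') ≤ ENNReal.ofReal (C * ‖y - y'‖) := by
  obtain ⟨R, hR, hRU⟩ := Metric.isOpen_iff.1 e.open_target y₀ hy₀
  obtain ⟨ρ, hρdef⟩ : ∃ ρ : ℝ, ρ = R / 6 := ⟨_, rfl⟩
  have hρ : 0 < ρ := by rw [hρdef]; positivity
  have hR6 : R = 6 * ρ := by rw [hρdef]; ring
  refine ⟨ρ, hρ, 1 / ρ, by positivity, ?_, fun x y hxr hyr => ?_⟩
  · exact (ball_subset_ball (by linarith)).trans hRU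
  by_cases hxy : x = y
  · rw [hxy, kobayashi_self]
    exact zero_le
  have hd : 0 < ‖y - x‖ := norm_pos_iff.2 (sub_ne_zero.2 (Ne.symm hxy))
  have hd2 : ‖y - x‖ < 2 * ρ := by
    have h1 : y - x = (y - y₀) - (x - y₀) := by abel
    rw [h1]
    exact (norm_sub_le _ _).trans_lt (by linarith)
  obtain ⟨s, hs⟩ : ∃ s : ℝ, s = ‖y - x‖ / (4 * ρ) := ⟨_, rfl⟩
  have hs0 : 0 < s := by rw [hs]; positivity
  have hs1 : s < 1 / 2 := by
    rw [hs, div_lt_iff₀ (by positivity)]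
    linarith
  have hsC : (s : ℂ) ≠ 0 := Complex.ofReal_ne_zero.2 hs0.ne'
  have hU : ∀ z ∈ ball (0:ℂ) 1, x + (z / s) • (y - x) ∈ e.target := by
    intro z hz
    apply hRU
    rw [mem_ball, dist_eq_norm]
    have h1 : x + (z / s) • (y - x) - y₀ = (x - y₀) + (z / s) • (y - x) := by abel
    rw [h1]
    refine (norm_add_le _ _).trans_lt ?_
    have h2 : ‖(z / s) • (y - x)‖ = ‖z‖ * (4 * ρ) := by
      rw [norm_smul, norm_div, Complex.norm_real, Real.norm_of_nonneg hs0.le, hs]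
      field_simp
    rw [h2]
    have h3 : ‖z‖ * (4 * ρ) ≤ 1 * (4 * ρ) :=
      mul_le_mul_of_nonneg_right (mem_ball_zero_iff.1 hz).le (by positivity)
    linarith
  have hdisc : MDifferentiableOn 𝓘(ℂ) 𝓘(ℂ, V n)
      (fun z : ℂ => e.symm (x + (z / s) • (y - x))) (ball 0 1) := by
    refine mdiffOn_symm he isOpen_ball ?_ hU
    have h2 : Differentiable ℂ (fun z : ℂ => x + (z / s) • (y - x)) := by fun_prop
    exact h2.differentiableOn
  have hsb : (s : ℂ) ∈ ball (0:ℂ) 1 := by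
    rw [mem_ball_zero_iff, Complex.norm_real, Real.norm_of_nonneg hs0.le]
    linarith
  have h1 := kobayashi_le_rho hdisc (mem_ball_self zero_lt_one) hsb
  have h2 : x + ((0:ℂ) / s) • (y - x) = x := by
    rw [zero_div, zero_smul, add_zero]
  have h3 : x + ((s:ℂ) / s) • (y - x) = y := by
    rw [div_self hsC, one_smul, add_sub_cancel]
  simp only [h2, h3] at h1
  refine h1.trans (ENNReal.ofReal_le_ofReal ?_)
  have h4 : ‖(s:ℂ)‖ = s := by rw [Complex.norm_real, Real.norm_of_nonneg hs0.le]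
  refine (KB.rho_zero_le (s := (s:ℂ)) (by rw [h4]; exact hs1.le)).trans (le_of_eq ?_)
  rw [h4, hs, norm_sub_rev]
  field_simp

end KI
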