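import Pool.Agent.H50.KI.Kb3

/-! # Kb4: if there are discs of arbitrarily large size in every direction, lines have zero length

PROOF. As Pool/Agent/H49/KB/K4.lean (with `γ t' = y + (t' - t) w`). Let `x = e.symm y`, `λ = 8 / ε`, `f` the disc with
`f 0 = x`, `(e ∘ f)' 0 = λ w`. `ρ, C` from `kobayashi_local` at `y`. For `h` near 0 put `a = h / λ` (complex),
`|a| ≤ 1/2`: `kobayashi n X x (f a) ≤ ofReal (rho 0 a) ≤ ofReal (4 |a|) = ofReal (ε/2 * |h|)`.
`e (f a) = y + a λ w + o(a) = y + h w + o(h)` and `f a ∈ e.source` for small `a` (`f` is continuous at 0, so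
`f a = e.symm (e (f a))`), so `‖e (f a) - (y + h w)‖ ≤ (ε/(2C)) |h|` and both points are within `ρ` of `y`:
`kobayashi n X (f a) (e.symm (y + h w)) ≤ ofReal (ε/2 |h|)`. Triangle inequality. -/

set_option autoImplicit false

namespace KI

open Complex Metric Set Filter Topology Manifold ContDiff
open KB (V DR wirt levi rho Sesq lap lapC dz)

variable {n : ℕ} {X : Type} [MetricSpace X] [ChartedSpace (V n) X]

theorem kobayashi_inf [IsManifold 𝓘(ℂ, V n) ω X] {e : OpenPartialHomeomorph X (V n)}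
    (he : e ∈ atlas (V n) X) {y w : V n} (hy : y ∈ e.target)
    (hdisc : ∀ lam : ℝ, 0 < lam → ∃ f : ℂ → X,
      MDifferentiableOn 𝓘(ℂ) 𝓘(ℂ, V n) f (ball 0 1) ∧ f 0 = e.symm y ∧
        HasDerivAt (fun z => e (f z)) ((lam : ℂ) • w) 0)
    {ε : ℝ} (hε : 0 < ε) :
    ∀ᶠ h : ℝ in 𝓝 (0 : ℝ), kobayashi n X (e.symm y) (e.symm (y + (h : ℂ) • w)) ≤
      ENNReal.ofReal (ε * |h|) := by
  obtain ⟨ρ, hρ, C, hC, hsub, hloc⟩ := kobayashi_local he hy
  obtain ⟨lam, hlam⟩ : ∃ lam : ℝ, lam = 8 / ε := ⟨_, rfl⟩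
  have hlam0 : 0 < lam := by rw [hlam]; positivity
  obtain ⟨f, hf, hf0, hfd⟩ := hdisc lam hlam0
  have hex : e (f 0) = y := by rw [hf0]; exact e.right_inv hy
  -- the parameter in the disc
  have ha : Tendsto (fun h : ℝ => ((h / lam : ℝ) : ℂ)) (𝓝 0) (𝓝 0) := by
    have h1 : Tendsto (fun h : ℝ => ((h / lam : ℝ) : ℂ)) (𝓝 0)
        (𝓝 (((0 : ℝ) / lam : ℝ) : ℂ)) := by
      apply Continuous.tendsto
      fun_prop
    simpa only [zero_div, Complex.ofReal_zero] using h1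
  have hnorm : ∀ h : ℝ, ‖((h / lam : ℝ) : ℂ)‖ = |h| / lam := by
    intro h
    rw [Complex.norm_real, Real.norm_eq_abs, abs_div, abs_of_pos hlam0]
  have e1 : ∀ᶠ a in 𝓝 (0 : ℂ), ‖e (f a) - y - a • ((lam : ℂ) • w)‖ ≤ (4 / C) * ‖a‖ := by
    have h1 := (hasDerivAt_iff_isLittleO.1 hfd).bound (show 0 < 4 / C by positivity)
    filter_upwards [h1] with a ha'
    simpa only [hex, sub_zero] using ha'
  have e3 : ∀ᶠ a in 𝓝 (0 : ℂ), ‖e (f a) - y‖ < ρ := by
    have h1 : Tendsto (fun a => ‖e (f a) - y‖) (𝓝 0) (𝓝 ‖e (f 0) - y‖) :=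
      (hfd.continuousAt.tendsto.sub_const y).norm
    rw [hex, sub_self, norm_zero] at h1
    exact h1.eventually_lt_const hρ
  have e4 : ∀ᶠ h : ℝ in 𝓝 (0 : ℝ), ‖y + (h : ℂ) • w - y‖ < ρ := by
    have h1 : Tendsto (fun h : ℝ => ‖y + (h : ℂ) • w - y‖) (𝓝 0)
        (𝓝 ‖y + ((0 : ℝ) : ℂ) • w - y‖) := by
      apply Continuous.tendsto
      fun_prop
    simp only [Complex.ofReal_zero, zero_smul, add_zero, sub_self, norm_zero] at h1
    exact h1.eventually_lt_const hρ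
  have e5 : ∀ᶠ a in 𝓝 (0 : ℂ), ‖a‖ < 1 / 2 := by
    have h1 : Tendsto (fun a : ℂ => ‖a‖) (𝓝 0) (𝓝 ‖(0 : ℂ)‖) := continuous_norm.tendsto _
    rw [norm_zero] at h1
    exact h1.eventually_lt_const (by norm_num)
  have e6 : ∀ᶠ a in 𝓝 (0 : ℂ), f a ∈ e.source := by
    have h01 : ball (0 : ℂ) 1 ∈ 𝓝 (0 : ℂ) := ball_mem_nhds _ one_pos
    have h1 : ContinuousAt f 0 := hf.continuousOn.continuousAt h01
    refine h1.eventually_mem (e.open_source.mem_nhds ?_)
    rw [hf0]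
    exact e.map_target hy
  filter_upwards [ha.eventually e1, ha.eventually e3, e4, ha.eventually e5, ha.eventually e6]
    with h h1 h3 h4 h5 h6
  rw [hnorm] at h1 h5
  obtain ⟨a, haeq⟩ : ∃ a : ℂ, a = ((h / lam : ℝ) : ℂ) := ⟨_, rfl⟩
  have hna : ‖a‖ = |h| / lam := by rw [haeq, hnorm]
  rw [← haeq] at h1 h3 h6
  have ha1 : a ∈ ball (0 : ℂ) 1 := by
    rw [mem_ball_zero_iff, hna]
    linarith
  have h01 : (0 : ℂ) ∈ ball (0 : ℂ) 1 := by simp
  have hsm : a • ((lam : ℂ) • w) = (h : ℂ) • w := by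
    rw [smul_smul, haeq, ← Complex.ofReal_mul, div_mul_cancel₀ _ hlam0.ne']
  rw [hsm] at h1
  have k1 : kobayashi n X (e.symm y) (f a) ≤ ENNReal.ofReal (ε / 2 * |h|) := by
    have q1 := kobayashi_le_rho hf h01 ha1
    rw [hf0] at q1
    refine q1.trans (ENNReal.ofReal_le_ofReal ((KB.rho_zero_le (by rw [hna]; exact h5.le)).trans
      (le_of_eq ?_)))
    rw [hna, hlam]
    field_simp
    ring
  have k2 : kobayashi n X (f a) (e.symm (y + (h : ℂ) • w)) ≤ ENNReal.ofReal (ε / 2 * |h|) := by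
    have q0 := hloc (e (f a)) (y + (h : ℂ) • w) h3 h4
    rw [e.left_inv h6] at q0
    refine q0.trans (ENNReal.ofReal_le_ofReal ?_)
    have q1 : ‖e (f a) - (y + (h : ℂ) • w)‖ ≤ (4 / C) * (|h| / lam) := by
      have q2 : e (f a) - (y + (h : ℂ) • w) = e (f a) - y - (h : ℂ) • w := by abel
      rw [q2]
      exact h1
    refine (mul_le_mul_of_nonneg_left q1 hC.le).trans (le_of_eq ?_)
    rw [hlam]
    field_simp
    ring
  calc kobayashi n X (e.symm y) (e.symm (y + (h : ℂ) • w))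
      ≤ kobayashi n X (e.symm y) (f a) + kobayashi n X (f a) (e.symm (y + (h : ℂ) • w)) :=
        kobayashi_triangle _ _ _
    _ ≤ ENNReal.ofReal (ε / 2 * |h|) + ENNReal.ofReal (ε / 2 * |h|) := add_le_add k1 k2
    _ = ENNReal.ofReal (ε * |h|) := by
        rw [← ENNReal.ofReal_add (by positivity) (by positivity)]
        congr 1
        ring

end KI
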