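import Pool.Agent.H50.KI.Kb4

/-! # Kb5: the Kobayashi pseudodistance vanishes

PROOF. As Pool/Agent/H49/KB/K5.lean. (near) `p ∈ e.source`, `e = chartAt (V n) p`, `y₀ = e p`,
`ball y₀ ρ ⊆ e.target`; for `y` in this ball let `γ t = y₀ + t (y - y₀)`,
`u t = (min (kobayashi n X p (e.symm (γ t))) 1).toReal` on `Icc 0 1`. `|u t' - u t| ≤ (min (kobayashi n X (e.symm (γ t)) (e.symm (γ t'))) 1).toReal`
(copy `K5_real`) and `kobayashi_inf` at `γ t` in the direction `y - y₀` (`hdisc` at the point `e.symm (γ t)`,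
chart `e`; `deriv` to `HasDerivAt`: `Hol.diff` at `0`) give `HasDerivWithinAt u 0 (Icc 0 1) t`; so `u 1 = u 0 = 0`:
`kobayashi n X p (e.symm y) = 0`. So every point `x` has a neighbourhood `U x` with `kobayashi n X x x' = 0` on it
(`e.source ∩ e ⁻¹' ball`). (global) `{q | kobayashi n X p q = 0}` is open and closed (triangle inequality,
`kobayashi_comm`) and contains `p`: `IsClopen.eq_univ`. -/

set_option autoImplicit false

namespace KI

open Complex Metric Set Filter Topology Manifold ContDiff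
open KB (V DR wirt levi rho Sesq lap lapC dz)

variable {n : ℕ} {X : Type} [MetricSpace X] [ChartedSpace (V n) X]

theorem Kb5_real {A A' B : ENNReal} (h1 : A' ≤ A + B) (h2 : A ≤ A' + B) :
    |(min A' 1).toReal - (min A 1).toReal| ≤ (min B 1).toReal := by
  have f1 : ∀ Y : ENNReal, min Y 1 ≠ ⊤ := fun Y =>
    ne_top_of_le_ne_top ENNReal.one_ne_top (min_le_right Y 1)
  have key : ∀ Z Y : ENNReal, Z ≤ Y + B → (min Z 1).toReal ≤ (min Y 1).toReal + (min B 1).toReal := by
    intro Z Y h
    rw [← ENNReal.toReal_add (f1 Y) (f1 B)]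
    refine ENNReal.toReal_mono (ENNReal.add_ne_top.mpr ⟨f1 Y, f1 B⟩) ?_
    rcases le_total Y 1 with hY | hY
    · rcases le_total B 1 with hB | hB
      · rw [min_eq_left hY, min_eq_left hB]
        exact (min_le_left _ _).trans h
      · rw [min_eq_right hB]
        exact (min_le_right _ _).trans (le_add_self)
    · rw [min_eq_right hY]
      exact (min_le_right _ _).trans (le_self_add)
  rw [abs_le]
  constructor
  · have := key A A' h2
    linarith
  · have := key A' A h1
    linarith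

theorem Kb5_near [IsManifold 𝓘(ℂ, V n) ω X]
    (hdisc : ∀ (p : X) (e : OpenPartialHomeomorph X (V n)), e ∈ atlas (V n) X → p ∈ e.source →
      ∀ (v : V n) (lam : ℝ), 0 < lam → ∃ f : ℂ → X, Hol n (closedBall (0 : ℂ) 1) f ∧ f 0 = p ∧
        deriv (fun z => e (f z)) 0 = (lam : ℂ) • v) (p : X) :
    ∃ U ∈ 𝓝 p, ∀ q ∈ U, kobayashi n X p q = 0 := by
  set e : OpenPartialHomeomorph X (V n) := chartAt (V n) p with he'
  have he : e ∈ atlas (V n) X := chart_mem_atlas (V n) p
  have hpe : p ∈ e.source := mem_chart_source (V n) p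
  set y₀ : V n := e p with hy₀
  have hy₀t : y₀ ∈ e.target := e.map_source hpe
  obtain ⟨ρ, hρ, hball⟩ := Metric.isOpen_iff.mp e.open_target y₀ hy₀t
  refine ⟨e.source ∩ e ⁻¹' ball y₀ ρ,
    (e.isOpen_inter_preimage isOpen_ball).mem_nhds ⟨hpe, mem_ball_self hρ⟩, fun q hq => ?_⟩
  set y : V n := e q with hy
  have hyb : ‖y - y₀‖ < ρ := by
    have := hq.2
    rw [mem_preimage, mem_ball, dist_eq_norm] at this
    exact this
  set s : Set ℝ := Icc 0 1 with hs
  set γ : ℝ → V n := fun t => y₀ + (t : ℂ) • (y - y₀) with hγdef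
  have hline : ∀ t ∈ s, γ t ∈ e.target := by
    intro t ht
    apply hball
    rw [mem_ball, dist_eq_norm]
    simp only [hγdef, add_sub_cancel_left]
    rw [norm_smul, Complex.norm_real, Real.norm_of_nonneg ht.1]
    calc t * ‖y - y₀‖ ≤ 1 * ‖y - y₀‖ := mul_le_mul_of_nonneg_right ht.2 (norm_nonneg _)
      _ = ‖y - y₀‖ := one_mul _
      _ < ρ := hyb
  set u : ℝ → ℝ := fun t => (min (kobayashi n X p (e.symm (γ t))) 1).toReal with hu
  have hder : ∀ t ∈ s, HasDerivWithinAt u 0 s t := by
    intro t ht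
    have hsrc : e.symm (γ t) ∈ e.source := e.map_target (hline t ht)
    have hd : ∀ lam : ℝ, 0 < lam → ∃ f : ℂ → X,
        MDifferentiableOn 𝓘(ℂ) 𝓘(ℂ, V n) f (ball 0 1) ∧ f 0 = e.symm (γ t) ∧
          HasDerivAt (fun z => e (f z)) ((lam : ℂ) • (y - y₀)) 0 := by
      intro lam hlam
      obtain ⟨f, hf, hf0, hfd⟩ := hdisc (e.symm (γ t)) e he hsrc (y - y₀) lam hlam
      refine ⟨f, hf.mdifferentiableOn, hf0, ?_⟩
      have h0 : (0 : ℂ) ∈ interior (closedBall (0 : ℂ) 1) := by
        rw [interior_closedBall _ one_ne_zero]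
        exact mem_ball_self one_pos
      have h1 := (hf.diff 0 h0 e he (by rw [hf0]; exact hsrc)).hasDerivAt
      rwa [hfd] at h1
    rw [hasDerivWithinAt_iff_isLittleO, Asymptotics.isLittleO_iff]
    intro ε hε
    have hinf := kobayashi_inf he (w := y - y₀) (hline t ht) hd hε
    have htend : Tendsto (fun t' : ℝ => t' - t) (𝓝[s] t) (𝓝 0) := by
      have h1 : Tendsto (fun t' : ℝ => t' - t) (𝓝 t) (𝓝 (t - t)) :=
        (continuous_id.sub continuous_const).tendsto t
      rw [sub_self] at h1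
      exact h1.mono_left nhdsWithin_le_nhds
    filter_upwards [htend.eventually hinf] with t' ht'
    have hγ' : γ t + ((t' - t : ℝ) : ℂ) • (y - y₀) = γ t' := by
      simp only [hγdef]
      rw [add_assoc, ← add_smul]
      congr 2
      push_cast
      ring
    rw [hγ'] at ht'
    rw [smul_zero, sub_zero, Real.norm_eq_abs, Real.norm_eq_abs]
    have h1 := kobayashi_triangle (n := n) p (e.symm (γ t)) (e.symm (γ t'))
    have h2 := kobayashi_triangle (n := n) p (e.symm (γ t')) (e.symm (γ t))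
    rw [kobayashi_comm (e.symm (γ t')) (e.symm (γ t))] at h2
    refine (Kb5_real h1 h2).trans ?_
    have h3 : min (kobayashi n X (e.symm (γ t)) (e.symm (γ t'))) 1 ≤ ENNReal.ofReal (ε * |t' - t|) :=
      (min_le_left _ _).trans ht'
    have h4 := ENNReal.toReal_mono ENNReal.ofReal_ne_top h3
    rwa [ENNReal.toReal_ofReal (by positivity)] at h4
  have h01 : ‖u 1 - u 0‖ ≤ 0 * ‖(1 : ℝ) - 0‖ :=
    Convex.norm_image_sub_le_of_norm_hasDerivWithin_le (f := u) (f' := fun _ => 0) (C := 0)
      hder (fun _ _ => by simp) (convex_Icc 0 1) (left_mem_Icc.mpr zero_le_one)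
      (right_mem_Icc.mpr zero_le_one)
  have hu0 : u 0 = 0 := by
    have e1 : e.symm (γ 0) = p := by
      simp only [hγdef, Complex.ofReal_zero, zero_smul, add_zero]
      exact e.left_inv hpe
    simp only [hu, e1, kobayashi_self]
    simp
  have e2 : e.symm (γ 1) = q := by
    simp only [hγdef, Complex.ofReal_one, one_smul, add_sub_cancel]
    exact e.left_inv hq.1
  have hu1 : u 1 = 0 := by
    rw [zero_mul, norm_le_zero_iff, sub_eq_zero] at h01
    rw [h01, hu0]
  simp only [hu, e2] at hu1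
  rw [ENNReal.toReal_eq_zero_iff] at hu1
  rcases hu1 with h | h
  · by_contra hne
    have h5 : 0 < min (kobayashi n X p q) 1 :=
      lt_min (pos_iff_ne_zero.mpr hne) one_pos
    exact h5.ne' h
  · exact absurd h (ne_top_of_le_ne_top ENNReal.one_ne_top (min_le_right _ 1))

theorem kobayashi_zero [IsManifold 𝓘(ℂ, V n) ω X] [ConnectedSpace X]
    (hdisc : ∀ (p : X) (e : OpenPartialHomeomorph X (V n)), e ∈ atlas (V n) X → p ∈ e.source →
      ∀ (v : V n) (lam : ℝ), 0 < lam → ∃ f : ℂ → X, Hol n (closedBall (0 : ℂ) 1) f ∧ f 0 = p ∧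
        deriv (fun z => e (f z)) 0 = (lam : ℂ) • v) :
    ∀ p q : X, kobayashi n X p q = 0 := by
  intro p q
  have hnear : ∀ x : X, ∃ U ∈ 𝓝 x, ∀ y ∈ U, kobayashi n X x y = 0 := Kb5_near hdisc
  set S : Set X := {x | kobayashi n X p x = 0} with hS
  have hopen : IsOpen S := by
    rw [isOpen_iff_mem_nhds]
    intro x hx
    obtain ⟨U, hU, hU0⟩ := hnear x
    filter_upwards [hU] with y hy
    have h := kobayashi_triangle (n := n) p x y
    rw [show kobayashi n X p x = 0 from hx, hU0 y hy, add_zero] at h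
    exact nonpos_iff_eq_zero.mp h
  have hclosed : IsClosed S := by
    rw [← isOpen_compl_iff, isOpen_iff_mem_nhds]
    intro x hx
    obtain ⟨U, hU, hU0⟩ := hnear x
    filter_upwards [hU] with y hy hy0
    apply hx
    have h := kobayashi_triangle (n := n) p y x
    rw [show kobayashi n X p y = 0 from hy0, kobayashi_comm y x, hU0 y hy, add_zero] at h
    exact nonpos_iff_eq_zero.mp h
  have huniv : S = univ := IsClopen.eq_univ ⟨hclosed, hopen⟩ ⟨p, kobayashi_self p⟩
  have : q ∈ S := by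
    rw [huniv]
    exact mem_univ q
  exact this

end KI
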