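import Pool.Agent.H50.KI.Bdf

/-! # Led: distance and energy of a C¹ curve in a chart

PROOF. `energy_lip` (Pool/Agent/H49/KI/GE2.lean): `dist² ≤ (b - a) ∫ (G e (w t) (deriv w t) (deriv w t)).re` for
Lipschitz `w`; here `w` is Lipschitz on `Icc a b` (bounded continuous derivative `w'`, convex set), and
`deriv w t = w' t` on `Ioo a b`, so the integral is `E = ∫ (G e (w t) (w' t) (w' t)).re`
(`intervalIntegral.integral_congr_ae` or `_Ioo`). `E ≥ 0`. `dist ≤ √((b-a) E) ≤ ((b - a) + E)/2`. -/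

set_option autoImplicit false

namespace KI

open Complex Metric Set Filter Topology Manifold ContDiff
open KB (V DR wirt levi rho Sesq lap lapC dz)

variable {n : ℕ} {X : Type} [MetricSpace X] [ChartedSpace (V n) X]
  {G : OpenPartialHomeomorph X (V n) → V n → V n → V n → ℂ}

theorem dist_le_energy [IsManifold 𝓘(ℂ, V n) ω X] (ctx : Ctx G)
    {e : OpenPartialHomeomorph X (V n)} (he : e ∈ atlas (V n) X) {w w' : ℝ → V n} {a b : ℝ}
    (hab : a < b) (hw : ∀ t ∈ Icc a b, HasDerivWithinAt w (w' t) (Icc a b) t)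
    (hw' : ContinuousOn w' (Icc a b)) (hwt : ∀ t ∈ Icc a b, w t ∈ e.target) :
    dist (e.symm (w a)) (e.symm (w b)) ≤
      ((b - a) + ∫ t in a..b, (G e (w t) (w' t) (w' t)).re) / 2 := by
  obtain ⟨M, hM⟩ := isCompact_Icc.exists_bound_of_continuousOn hw'
  have hM0 : 0 ≤ M := (norm_nonneg _).trans (hM a ⟨le_refl _, hab.le⟩)
  have hlip : LipschitzOnWith ⟨M, hM0⟩ w (Icc a b) :=
    (convex_Icc a b).lipschitzOnWith_of_nnnorm_hasDerivWithin_le hw fun t ht => hM t ht
  have h1 := energy_lip ctx he hab hlip hwt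
  have h2 : ∫ t in a..b, (G e (w t) (deriv w t) (deriv w t)).re =
      ∫ t in a..b, (G e (w t) (w' t) (w' t)).re := by
    apply intervalIntegral.integral_congr_Ioo_of_le hab.le
    intro t ht
    have h3 := ((hw t (Ioo_subset_Icc_self ht)).hasDerivAt (Icc_mem_nhds ht.1 ht.2)).deriv
    simp only [h3]
  rw [h2] at h1
  have hE : 0 ≤ ∫ t in a..b, (G e (w t) (w' t) (w' t)).re :=
    intervalIntegral.integral_nonneg hab.le fun t ht => G_nonneg ctx.herm he (hwt t ht) _
  have hd := dist_nonneg (x := e.symm (w a)) (y := e.symm (w b))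
  have hba : 0 < b - a := by linarith
  nlinarith [sq_nonneg ((b - a) - ∫ t in a..b, (G e (w t) (w' t) (w' t)).re)]

end KI
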