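import Pool.Agent.H49.KI.TopCH

/-! # Mdf: holomorphic maps of the disc into the manifold

PROOFS. `Hol.mdifferentiableOn`: at `z ∈ ball 0 1` (open, contained in the interior of the closed ball):
`MDifferentiableAt` from `mdifferentiableAt_iff` (continuity at `z` and differentiability of
`extChartAt … (f z) ∘ f`, which is `chartAt (V n) (f z) ∘ f`, at `z`; model `𝓘(ℂ, V n)` is the identity), then
`MDifferentiableAt.mdifferentiableWithinAt`.
`mdiffOn_symm`: for `z ∈ S` (open) the map `w ↦ e.symm (g w)` is continuous at `z`; with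
`e' = chartAt (V n) (e.symm (g z))`, `e' (e.symm (g w)) = trans e e' (g w)` is differentiable at `z` by
`trans_analyticAt` at `x = e.symm (g z)` (`e x = g z` by `e.right_inv`). Or Mathlib: `mdifferentiableOn_atlas_symm`
and composition. -/

set_option autoImplicit false

namespace KI

open Complex Metric Set Filter Topology Manifold ContDiff
open KB (V DR wirt levi rho Sesq lap lapC dz)



variable {n : ℕ} {X : Type} [MetricSpace X] [ChartedSpace (V n) X]

theorem Hol.mdifferentiableOn [IsManifold 𝓘(ℂ, V n) ω X] {f : ℂ → X}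
    (hf : Hol n (closedBall (0 : ℂ) 1) f) :
    MDifferentiableOn 𝓘(ℂ) 𝓘(ℂ, V n) f (ball 0 1) := by
  intro z hz
  apply MDifferentiableAt.mdifferentiableWithinAt
  rw [mdifferentiableAt_iff]
  refine ⟨hf.cont.continuousAt (Filter.mem_of_superset (isOpen_ball.mem_nhds hz) ball_subset_closedBall), ?_⟩
  have h1 := hf.diff z (ball_subset_interior_closedBall hz) (chartAt (V n) (f z))
    (chart_mem_atlas (V n) (f z)) (mem_chart_source (V n) (f z))
  simp only [mfld_simps]
  exact h1.differentiableWithinAt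




theorem mdiffOn_symm [IsManifold 𝓘(ℂ, V n) ω X] {e : OpenPartialHomeomorph X (V n)}
    (he : e ∈ atlas (V n) X) {S : Set ℂ} (hS : IsOpen S) {g : ℂ → V n}
    (hg : DifferentiableOn ℂ g S) (hm : ∀ z ∈ S, g z ∈ e.target) :
    MDifferentiableOn 𝓘(ℂ) 𝓘(ℂ, V n) (fun z => e.symm (g z)) S := by
  have : IsManifold 𝓘(ℂ, V n) 1 X := IsManifold.of_le (n := ω) le_top
  have h1 : MDifferentiableOn 𝓘(ℂ, V n) 𝓘(ℂ, V n) e.symm e.target := mdifferentiableOn_atlas_symm he
  have h2 : MDifferentiableOn 𝓘(ℂ) 𝓘(ℂ, V n) g S := hg.mdifferentiableOn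
  exact h1.comp h2 hm

end KI
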