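import Pool.Agent.H50.KI.Frb
import Pool.Agent.H49.KI.TopB

/-! # Mvd: distance of the moved disc

PROOF. Let `M ≥ 1` be a bound of `‖ζ z‖` on the closed ball (compact). It is enough to prove: for every
`z₀` in the closed ball there are `ρ, δ₀ > 0` such that the inequality holds for `z ∈ closedBall 0 1 ∩
ball z₀ ρ`, `0 < δ < δ₀` (finite subcover of the compact closed ball).
Local statement: `e = chartAt (V n) (f z₀)`, `y₀ = e (f z₀)`, `q a = Real.sqrt (G e y₀ a a).re` (a norm on `V n`: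
`G_sesq`, `ctx.herm.pos`; triangle inequality from `KB.Sesq.cs`, `q a ≤ L ‖a‖` with some `L`).
`B₀ z = Bf G f Φ z`, near `z₀` (within the closed ball) `B₀ z a b = G e (e (f z)) (frm Φ e z a) (frm Φ e z b)`
(`Bf_chart`). (a) by continuity and compactness of the unit sphere of `V n` (or of `closedBall 0 M'`), for `z` near `z₀`:
`q (frm Φ e z (ζ z)) ≤ Real.sqrt (Bf G f Φ z (ζ z) (ζ z)).re + ε/4`: both sides are functions of `z` continuous at `z₀`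
within the closed ball (`frm_cont`, `hζ`, smoothness of `G e`) with equal values at `z₀`; so this is just
continuity. (b) `thick_taylor` with a small `ε'`: `e (Φ z y) - e (f z) = frm Φ e z y + O(ε' ‖y‖)`, `y = δ ζ z`,
`‖y‖ ≤ δ M`. (c) `loc_upper ctx he _ hε'` (TopB) at `x₀ = f z₀`: for `z` near `z₀` and `δ` small both points `e (f z)`,
`e (Φ z (δ ζ z))` are in `ball y₀ ρ'` (continuity of `e ∘ f` at `z₀`, (b)), so
`dist (Φ z (δ ζ z)) (f z) ≤ (1+ε') q (e (Φ z (δ ζ z)) - e (f z)) ≤ (1+ε') (δ q (frm Φ e z (ζ z)) + L ε' δ M)`.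
Choose `ε'` small (the values `q (frm Φ e z (ζ z))` are bounded by some `Q` for `z` near `z₀`):
`(1+ε')(Q-term) ≤ … + ε/4`, total `≤ δ (Real.sqrt … + ε)`. -/

set_option autoImplicit false

namespace KI

open Complex Metric Set Filter Topology Manifold ContDiff
open KB (V DR wirt levi rho Sesq lap lapC dz)

variable {n : ℕ} {X : Type} [MetricSpace X] [ChartedSpace (V n) X]
  {G : OpenPartialHomeomorph X (V n) → V n → V n → V n → ℂ}

theorem Mvd_tri {B : V n → V n → ℂ} (h : Sesq B) (hnn : ∀ a, 0 ≤ (B a a).re) (a b : V n) :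
    Real.sqrt (B (a + b) (a + b)).re ≤ Real.sqrt (B a a).re + Real.sqrt (B b b).re := by
  have h1 : (B (a + b) (a + b)).re = (B a a).re + 2 * (B a b).re + (B b b).re := by
    rw [h.add, h.add_right, h.add_right, Complex.add_re, Complex.add_re, Complex.add_re,
      h.re_symm a b]
    ring
  have h2 : (B a b).re ≤ Real.sqrt (B a a).re * Real.sqrt (B b b).re := by
    rw [← Real.sqrt_mul (hnn a)]
    refine Real.le_sqrt_of_sq_le ?_
    refine le_trans ?_ (h.cs hnn a b)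
    have h3 : |(B a b).re| ≤ ‖B a b‖ := Complex.abs_re_le_norm _
    rw [← sq_abs]
    gcongr
  rw [Real.sqrt_le_left (by positivity), h1]
  have h4 := Real.sq_sqrt (hnn a)
  have h5 := Real.sq_sqrt (hnn b)
  nlinarith

theorem Mvd_smul {B : V n → V n → ℂ} (h : Sesq B) {δ : ℝ} (hδ : 0 ≤ δ) (a : V n) :
    Real.sqrt (B ((δ : ℂ) • a) ((δ : ℂ) • a)).re = δ * Real.sqrt (B a a).re := by
  rw [h.smul_diag, Real.sqrt_mul (sq_nonneg _), Real.sqrt_sq (norm_nonneg _), Complex.norm_real,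
    Real.norm_of_nonneg hδ]

theorem moved_dist_loc [IsManifold 𝓘(ℂ, V n) ω X] (ctx : Ctx G) {f : ℂ → X}
    (hf : Hol n (closedBall (0 : ℂ) 1) f) {r : ℝ} {Φ : ℂ → V n → X} (hΦ : Thick f r Φ)
    {ζ : ℂ → V n} (hζ : ContinuousOn ζ (closedBall 0 1)) {z₀ : ℂ}
    (hz₀ : z₀ ∈ closedBall (0 : ℂ) 1) {ε : ℝ} (hε : 0 < ε) :
    ∃ ρ > 0, ∃ δ₀ > 0, ∀ z ∈ closedBall (0 : ℂ) 1 ∩ ball z₀ ρ, ∀ δ : ℝ, 0 < δ → δ < δ₀ →
      dist (Φ z ((δ : ℂ) • ζ z)) (f z) ≤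
        δ * (Real.sqrt (Bf G f Φ z (ζ z) (ζ z)).re + ε) := by
  have he := chart_mem_atlas (V n) (f z₀)
  have hx₀ := mem_chart_source (V n) (f z₀)
  generalize chartAt (V n) (f z₀) = e at he hx₀
  have hy₀ : e (f z₀) ∈ e.target := e.map_source hx₀
  obtain ⟨q, hq⟩ : ∃ q : V n → ℝ, q = fun a => Real.sqrt (G e (e (f z₀)) a a).re := ⟨_, rfl⟩
  have hses : Sesq (G e (e (f z₀))) := G_sesq ctx.herm he hy₀
  have hnn : ∀ a, 0 ≤ (G e (e (f z₀)) a a).re := by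
    intro a
    by_cases ha : a = 0
    · rw [ha, hses.zero_left]; simp
    · exact (ctx.herm.pos e he _ hy₀ a ha).le
  have hqtri : ∀ a b, q (a + b) ≤ q a + q b := by
    intro a b; rw [hq]; exact Mvd_tri hses hnn a b
  have hqsm : ∀ (δ : ℝ) (a : V n), 0 ≤ δ → q ((δ : ℂ) • a) = δ * q a := by
    intro δ a hδ; rw [hq]; exact Mvd_smul hses hδ a
  obtain ⟨L, hL, hqL⟩ : ∃ L > 0, ∀ a, q a ≤ L * ‖a‖ := by
    obtain ⟨ρ', hρ', -, κ, -, C, hC, hnorm⟩ := rup_norm ctx.herm he hx₀ (ε := 1) one_pos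
    refine ⟨C, hC, fun a => ?_⟩
    rw [hq]
    exact (hnorm _ (mem_closedBall_self hρ'.le) a).2.1
  have hq0 : ∀ a, 0 ≤ q a := fun a => by rw [hq]; exact Real.sqrt_nonneg _
  -- the set where everything is in the chart
  have hS : f ⁻¹' e.source ∈ 𝓝[closedBall (0 : ℂ) 1] z₀ :=
    (hf.cont z₀ hz₀).preimage_mem_nhdsWithin (e.open_source.mem_nhds hx₀)
  have hSn : 𝓝[closedBall (0 : ℂ) 1 ∩ f ⁻¹' e.source] z₀ = 𝓝[closedBall (0 : ℂ) 1] z₀ :=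
    nhdsWithin_inter_of_mem' hS
  have hz₀S : z₀ ∈ closedBall (0 : ℂ) 1 ∩ f ⁻¹' e.source := ⟨hz₀, hx₀⟩
  have hef : ContinuousOn (fun z => e (f z)) (closedBall (0 : ℂ) 1 ∩ f ⁻¹' e.source) :=
    e.continuousOn.comp (hf.cont.mono inter_subset_left) fun z hz => hz.2
  obtain ⟨b, hb⟩ : ∃ b : ℂ → V n, b = fun z => frm Φ e z (ζ z) := ⟨_, rfl⟩
  have hbc : ContinuousOn b (closedBall (0 : ℂ) 1 ∩ f ⁻¹' e.source) := by
    rw [hb]
    refine ContinuousOn.clm_apply (fun z hz => ?_) (hζ.mono inter_subset_left)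
    exact (frm_cont hΦ hz.1 he hz.2).mono inter_subset_left
  have hG1 : ContinuousOn (fun z => G e (e (f z)) (b z) (b z))
      (closedBall (0 : ℂ) 1 ∩ f ⁻¹' e.source) := by
    refine KB.Sesq.continuousOn (A := fun z => G e (e (f z))) (fun z hz => ?_) (fun a c => ?_)
      hbc hbc
    · exact G_sesq ctx.herm he (e.map_source hz.2)
    · exact (ctx.herm.smooth e he a c).continuousOn.comp hef fun z hz => e.map_source hz.2
  have hG2 : ContinuousOn (fun z => G e (e (f z₀)) (b z) (b z))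
      (closedBall (0 : ℂ) 1 ∩ f ⁻¹' e.source) :=
    KB.Sesq.continuousOn (A := fun _ => G e (e (f z₀))) (fun z _ => hses)
      (fun a c => continuousOn_const) hbc hbc
  have hu : ContinuousWithinAt (fun z => Real.sqrt (G e (e (f z)) (b z) (b z)).re)
      (closedBall (0 : ℂ) 1) z₀ := by
    have := (Complex.continuous_re.comp_continuousOn hG1).sqrt z₀ hz₀S
    unfold ContinuousWithinAt at this ⊢
    rwa [hSn] at this
  have hw : ContinuousWithinAt (fun z => q (b z)) (closedBall (0 : ℂ) 1) z₀ := by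
    have := (Complex.continuous_re.comp_continuousOn hG2).sqrt z₀ hz₀S
    unfold ContinuousWithinAt at this ⊢
    rw [hSn] at this
    rw [hq]
    exact this
  have hbw : ContinuousWithinAt b (closedBall (0 : ℂ) 1) z₀ := by
    have := hbc z₀ hz₀S
    unfold ContinuousWithinAt at this ⊢
    rwa [hSn] at this
  have hew : ContinuousWithinAt (fun z => e (f z)) (closedBall (0 : ℂ) 1) z₀ := by
    have := hef z₀ hz₀S
    unfold ContinuousWithinAt at this ⊢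
    rwa [hSn] at this
  -- bound of ζ
  obtain ⟨M, hM1, hM⟩ : ∃ M : ℝ, 1 ≤ M ∧ ∀ z ∈ closedBall (0 : ℂ) 1, ‖ζ z‖ ≤ M := by
    obtain ⟨C, hC⟩ := (isCompact_closedBall (0 : ℂ) 1).exists_bound_of_continuousOn hζ
    exact ⟨max C 1, le_max_right _ _, fun z hz => (hC z hz).trans (le_max_left _ _)⟩
  obtain ⟨Q, hQ⟩ : ∃ Q : ℝ, Q = q (b z₀) + 1 := ⟨_, rfl⟩
  have hQ1 : 1 ≤ Q := by rw [hQ]; linarith [hq0 (b z₀)]
  obtain ⟨R, hR⟩ : ∃ R : ℝ, R = ‖b z₀‖ + 1 := ⟨_, rfl⟩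
  have hR1 : 1 ≤ R := by rw [hR]; linarith [norm_nonneg (b z₀)]
  obtain ⟨ε', hε'⟩ : ∃ ε' : ℝ, ε' = min 1 (ε / (2 * (Q + 2 * L * M))) := ⟨_, rfl⟩
  have hden : 0 < 2 * (Q + 2 * L * M) := by positivity
  have hε'0 : 0 < ε' := by rw [hε']; exact lt_min one_pos (div_pos hε hden)
  have hε'1 : ε' ≤ 1 := by rw [hε']; exact min_le_left _ _
  have hε'2 : ε' * (Q + 2 * L * M) ≤ ε / 2 := by
    have h1 : ε' ≤ ε / (2 * (Q + 2 * L * M)) := by rw [hε']; exact min_le_right _ _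
    rw [le_div_iff₀ hden] at h1
    linarith
  obtain ⟨ρ₁, hρ₁, s₁, hs₁, -, htay⟩ := thick_taylor hΦ hz₀ he hx₀ (ε := ε') hε'0
  obtain ⟨ρ₂, hρ₂, -, hloc⟩ := loc_upper ctx he hx₀ (ε := ε') hε'0
  -- the neighbourhood of z₀
  have hev : ∀ᶠ z in 𝓝[closedBall (0 : ℂ) 1] z₀, f z ∈ e.source ∧
      e (f z) ∈ ball (e (f z₀)) (ρ₂ / 2) ∧ ‖b z‖ ≤ R ∧ q (b z) ≤ Q ∧
      q (b z) ≤ Real.sqrt (G e (e (f z)) (b z) (b z)).re + ε / 4 := by
    have e1 : ∀ᶠ z in 𝓝[closedBall (0 : ℂ) 1] z₀, e (f z) ∈ ball (e (f z₀)) (ρ₂ / 2) :=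
      hew (ball_mem_nhds _ (by positivity))
    have e2 : ∀ᶠ z in 𝓝[closedBall (0 : ℂ) 1] z₀, ‖b z‖ < R := by
      refine hbw.norm.eventually_lt_const ?_
      rw [hR]; linarith
    have e3 : ∀ᶠ z in 𝓝[closedBall (0 : ℂ) 1] z₀, q (b z) < Q := by
      refine hw.eventually_lt_const ?_
      rw [hQ]; linarith
    have e4 : ∀ᶠ z in 𝓝[closedBall (0 : ℂ) 1] z₀,
        q (b z) - Real.sqrt (G e (e (f z)) (b z) (b z)).re < ε / 4 := by
      refine (hw.sub hu).eventually_lt_const ?_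
      have h5 : q (b z₀) = Real.sqrt (G e (e (f z₀)) (b z₀) (b z₀)).re := by rw [hq]
      show q (b z₀) - Real.sqrt (G e (e (f z₀)) (b z₀) (b z₀)).re < ε / 4
      rw [h5, sub_self]
      positivity
    filter_upwards [hS, e1, e2, e3, e4] with z h0 h1 h2 h3 h4
    exact ⟨h0, h1, h2.le, h3.le, by linarith⟩
  obtain ⟨ρ₃, hρ₃, hsub⟩ := Metric.mem_nhdsWithin_iff.1 hev
  refine ⟨min ρ₁ ρ₃, lt_min hρ₁ hρ₃, min (s₁ / M) (ρ₂ / (2 * (R + M))), by positivity, ?_⟩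
  intro z hz δ hδ hδ₀
  have hz1 : z ∈ closedBall (0 : ℂ) 1 ∩ ball z₀ ρ₁ :=
    ⟨hz.1, ball_subset_ball (min_le_left _ _) hz.2⟩
  have hz3 : z ∈ ball z₀ ρ₃ ∩ closedBall (0 : ℂ) 1 :=
    ⟨ball_subset_ball (min_le_right _ _) hz.2, hz.1⟩
  obtain ⟨hfz, hez, hbz, hqz, hqu⟩ := hsub hz3
  have hζz := hM z hz.1
  have hyn : ‖(δ : ℂ) • ζ z‖ ≤ δ * M := by
    rw [norm_smul, Complex.norm_real, Real.norm_of_nonneg hδ.le]
    exact mul_le_mul_of_nonneg_left hζz hδ.le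
  have hδ1 : δ * M < s₁ := by
    have h1 : δ < s₁ / M := hδ₀.trans_le (min_le_left _ _)
    rwa [lt_div_iff₀ (by linarith)] at h1
  have hδ2 : δ * (R + M) < ρ₂ / 2 := by
    have h1 : δ < ρ₂ / (2 * (R + M)) := hδ₀.trans_le (min_le_right _ _)
    rw [lt_div_iff₀ (by positivity)] at h1
    linarith
  obtain ⟨hsrc, hrem⟩ := htay z hz1 ((δ : ℂ) • ζ z)
    (by rw [mem_ball_zero_iff]; exact hyn.trans_lt hδ1)
  have hfr : frm Φ e z ((δ : ℂ) • ζ z) = (δ : ℂ) • b z := by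
    rw [hb]; exact map_smul _ _ _
  rw [hfr] at hrem
  obtain ⟨R₁, hR₁⟩ : ∃ R₁, R₁ = e (Φ z ((δ : ℂ) • ζ z)) - e (f z) - (δ : ℂ) • b z := ⟨_, rfl⟩
  rw [← hR₁] at hrem
  have hR₁n : ‖R₁‖ ≤ ε' * (δ * M) := hrem.trans (mul_le_mul_of_nonneg_left hyn hε'0.le)
  have hdiff : e (Φ z ((δ : ℂ) • ζ z)) - e (f z) = (δ : ℂ) • b z + R₁ := by
    rw [hR₁]; abel
  have hdn : ‖e (Φ z ((δ : ℂ) • ζ z)) - e (f z)‖ < ρ₂ / 2 := by
    rw [hdiff]
    have h1 : ‖(δ : ℂ) • b z‖ ≤ δ * R := by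
      rw [norm_smul, Complex.norm_real, Real.norm_of_nonneg hδ.le]
      exact mul_le_mul_of_nonneg_left hbz hδ.le
    have h2 : ε' * (δ * M) ≤ δ * M := by
      have : 0 ≤ δ * M := by positivity
      nlinarith
    calc ‖(δ : ℂ) • b z + R₁‖ ≤ ‖(δ : ℂ) • b z‖ + ‖R₁‖ := norm_add_le _ _
      _ ≤ δ * R + δ * M := add_le_add h1 (hR₁n.trans h2)
      _ = δ * (R + M) := by ring
      _ < ρ₂ / 2 := hδ2
  have hb1 : e (f z) ∈ ball (e (f z₀)) ρ₂ := ball_subset_ball (by linarith) hez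
  have hb2 : e (Φ z ((δ : ℂ) • ζ z)) ∈ ball (e (f z₀)) ρ₂ := by
    rw [mem_ball, dist_eq_norm]
    rw [mem_ball, dist_eq_norm] at hez
    calc ‖e (Φ z ((δ : ℂ) • ζ z)) - e (f z₀)‖
        = ‖(e (Φ z ((δ : ℂ) • ζ z)) - e (f z)) + (e (f z) - e (f z₀))‖ := by
          congr 1; abel
      _ ≤ ‖e (Φ z ((δ : ℂ) • ζ z)) - e (f z)‖ + ‖e (f z) - e (f z₀)‖ := norm_add_le _ _
      _ < ρ₂ := by linarith
  have hd := hloc _ hb1 _ hb2
  rw [e.left_inv hfz, e.left_inv hsrc] at hd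
  rw [dist_comm]
  have hqd : q (e (Φ z ((δ : ℂ) • ζ z)) - e (f z)) ≤ δ * q (b z) + L * (ε' * (δ * M)) := by
    rw [hdiff]
    refine (hqtri _ _).trans ?_
    rw [hqsm δ (b z) hδ.le]
    have := (hqL R₁).trans (mul_le_mul_of_nonneg_left hR₁n hL.le)
    linarith
  have hd' : dist (f z) (Φ z ((δ : ℂ) • ζ z)) ≤
      (1 + ε') * (δ * q (b z) + L * (ε' * (δ * M))) := by
    refine hd.trans (mul_le_mul_of_nonneg_left ?_ (by positivity))
    rw [hq] at hqd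
    rw [hq]
    exact hqd
  have hBf : Bf G f Φ z (ζ z) (ζ z) = G e (e (f z)) (b z) (b z) := by
    rw [Bf_chart ctx hΦ hz.1 he hfz, hb]
  rw [hBf]
  refine hd'.trans ?_
  have hLM : 0 ≤ L * M := by positivity
  have h1 : (1 + ε') * (q (b z) + L * (ε' * M)) ≤ q (b z) + ε / 2 := by
    have h2 : ε' * q (b z) ≤ ε' * Q := mul_le_mul_of_nonneg_left hqz hε'0.le
    have h3 : ε' * (ε' * (L * M)) ≤ ε' * (L * M) := by
      have : 0 ≤ ε' * (L * M) := by positivity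
      nlinarith
    nlinarith
  calc (1 + ε') * (δ * q (b z) + L * (ε' * (δ * M)))
      = δ * ((1 + ε') * (q (b z) + L * (ε' * M))) := by ring
    _ ≤ δ * (q (b z) + ε / 2) := mul_le_mul_of_nonneg_left h1 hδ.le
    _ ≤ δ * (Real.sqrt (G e (e (f z)) (b z) (b z)).re + ε) := by
        refine mul_le_mul_of_nonneg_left ?_ hδ.le
        linarith

theorem moved_dist [IsManifold 𝓘(ℂ, V n) ω X] (ctx : Ctx G) {f : ℂ → X}
    (hf : Hol n (closedBall (0 : ℂ) 1) f) {r : ℝ} {Φ : ℂ → V n → X} (hΦ : Thick f r Φ)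
    {ζ : ℂ → V n} (hζ : ContinuousOn ζ (closedBall 0 1)) {ε : ℝ} (hε : 0 < ε) :
    ∀ᶠ δ : ℝ in 𝓝[>] (0 : ℝ), ∀ z ∈ closedBall (0 : ℂ) 1,
      dist (Φ z ((δ : ℂ) • ζ z)) (f z) ≤
        δ * (Real.sqrt (Bf G f Φ z (ζ z) (ζ z)).re + ε) := by
  have h1 : ∃ δ₀ > 0, ∀ z ∈ closedBall (0 : ℂ) 1, ∀ δ : ℝ, 0 < δ → δ < δ₀ →
      dist (Φ z ((δ : ℂ) • ζ z)) (f z) ≤
        δ * (Real.sqrt (Bf G f Φ z (ζ z) (ζ z)).re + ε) := by
    refine IsCompact.induction_on (p := fun s : Set ℂ => ∃ δ₀ > 0, ∀ z ∈ s, ∀ δ : ℝ, 0 < δ →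
      δ < δ₀ → dist (Φ z ((δ : ℂ) • ζ z)) (f z) ≤
        δ * (Real.sqrt (Bf G f Φ z (ζ z) (ζ z)).re + ε)) (isCompact_closedBall (0 : ℂ) 1)
      ⟨1, one_pos, fun z hz => absurd hz (notMem_empty z)⟩ ?_ ?_ ?_
    · rintro s t hst ⟨δ₀, hδ₀, h⟩
      exact ⟨δ₀, hδ₀, fun z hz => h z (hst hz)⟩
    · rintro s t ⟨δ₁, hδ₁, h⟩ ⟨δ₂, hδ₂, h'⟩
      refine ⟨min δ₁ δ₂, lt_min hδ₁ hδ₂, fun z hz δ hδ hδ' => ?_⟩
      rcases hz with hz | hz
      · exact h z hz δ hδ (hδ'.trans_le (min_le_left _ _))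
      · exact h' z hz δ hδ (hδ'.trans_le (min_le_right _ _))
    · intro z₀ hz₀
      obtain ⟨ρ, hρ, δ₀, hδ₀, h⟩ := moved_dist_loc ctx hf hΦ hζ hz₀ hε
      exact ⟨closedBall 0 1 ∩ ball z₀ ρ, inter_mem_nhdsWithin _ (ball_mem_nhds _ hρ), δ₀, hδ₀, h⟩
  obtain ⟨δ₀, hδ₀, h⟩ := h1
  filter_upwards [Ioo_mem_nhdsGT hδ₀] with δ hδ z hz
  exact h z hz δ hδ.1 hδ.2

end KI
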