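import Pool.Agent.H50.KI.Fra

/-! # Mvh: moving a disc in its thickening

PROOFS. `moved_hol`: continuity on the closed ball: `hΦ.cont` composed with `z ↦ (z, ζ z)`; at `z` in the
interior (`interior_closedBall`: the open ball) and `e` with `Φ z (ζ z) ∈ e.source`: `hΦ.holo z _ (ζ z) _ e he _`
composed with the differentiable map `w ↦ (w, ζ w)` (chain rule).
`moved_deriv`: `D := fderiv ℂ (fun q : ℂ × V n => e (Φ q.1 q.2)) (0, 0)` exists by `hΦ.holo`
(`Φ 0 0 = f 0 ∈ e.source`). Chain rule along `z ↦ (z, ζ z)`: derivative at 0 is `D (1, deriv ζ 0) =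
D (1, 0) + D (0, deriv ζ 0)`. `D (1, 0)` is the derivative at 0 of `z ↦ e (Φ z 0) = e (f z)` (equal for
`z` near 0, `hΦ.zero`), `D (0, a) = frm Φ e 0 a` (chain rule for `y ↦ (0, y)`). -/

set_option autoImplicit false

namespace KI

open Complex Metric Set Filter Topology Manifold ContDiff
open KB (V DR wirt levi rho Sesq lap lapC dz)

variable {n : ℕ} {X : Type} [MetricSpace X] [ChartedSpace (V n) X]

theorem moved_hol {f : ℂ → X} {r : ℝ} {Φ : ℂ → V n → X} (hΦ : Thick f r Φ) {ζ : ℂ → V n}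
    (hζ : Differentiable ℂ ζ) (hr : ∀ z ∈ closedBall (0 : ℂ) 1, ζ z ∈ ball (0 : V n) r) :
    Hol n (closedBall (0 : ℂ) 1) (fun z => Φ z (ζ z)) := by
  constructor
  · have h1 := hΦ.cont.comp (continuousOn_id.prodMk hζ.continuous.continuousOn)
      (fun z hz => ⟨hz, hr z hz⟩)
    exact h1
  · intro z hz e he hze
    rw [interior_closedBall (0 : ℂ) one_ne_zero] at hz
    have h1 := hΦ.holo z hz (ζ z) (hr z (ball_subset_closedBall hz)) e he hze
    have h2 : DifferentiableAt ℂ (fun w : ℂ => (w, ζ w)) z := differentiableAt_id.prodMk (hζ z)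
    exact DifferentiableAt.comp (f := fun w : ℂ => (w, ζ w)) z h1 h2

theorem moved_deriv {f : ℂ → X} {r : ℝ} {Φ : ℂ → V n → X} (hΦ : Thick f r Φ) {ζ : ℂ → V n}
    (hζ : Differentiable ℂ ζ) (h0 : ζ 0 = 0) {e : OpenPartialHomeomorph X (V n)}
    (he : e ∈ atlas (V n) X) (hfe : f 0 ∈ e.source) :
    deriv (fun z => e (Φ z (ζ z))) 0 =
      deriv (fun z => e (f z)) 0 + frm Φ e 0 (deriv ζ 0) := by
  have hf0 : Φ 0 0 = f 0 := hΦ.zero 0 (by simp)
  have hD : DifferentiableAt ℂ (fun q : ℂ × V n => e (Φ q.1 q.2)) (0, 0) :=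
    hΦ.holo 0 (by simp) 0 (by simpa using hΦ.pos) e he (by rw [hf0]; exact hfe)
  have hD0 := hD.hasFDerivAt
  -- along the section
  have h1 : HasDerivAt (fun z : ℂ => (z, ζ z)) ((1 : ℂ), deriv ζ 0) 0 :=
    (hasDerivAt_id (0 : ℂ)).prodMk (hζ 0).hasDerivAt
  have h2 : HasDerivAt (fun z => e (Φ z (ζ z)))
      (fderiv ℂ (fun q : ℂ × V n => e (Φ q.1 q.2)) (0, 0) ((1 : ℂ), deriv ζ 0)) 0 := by
    have h3 : HasFDerivAt (fun q : ℂ × V n => e (Φ q.1 q.2))
        (fderiv ℂ (fun q : ℂ × V n => e (Φ q.1 q.2)) (0, 0)) ((0 : ℂ), ζ 0) := by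
      rw [h0]
      exact hD0
    exact HasFDerivAt.comp_hasDerivAt (f := fun z : ℂ => (z, ζ z)) 0 h3 h1
  -- along the zero section
  have h4 : HasDerivAt (fun z => e (f z))
      (fderiv ℂ (fun q : ℂ × V n => e (Φ q.1 q.2)) (0, 0) ((1 : ℂ), (0 : V n))) 0 := by
    have h5 : HasDerivAt (fun z : ℂ => (z, (0 : V n))) ((1 : ℂ), (0 : V n)) 0 :=
      (hasDerivAt_id (0 : ℂ)).prodMk (hasDerivAt_const _ _)
    have h6 : HasDerivAt (fun z => e (Φ z 0))
        (fderiv ℂ (fun q : ℂ × V n => e (Φ q.1 q.2)) (0, 0) ((1 : ℂ), (0 : V n))) 0 :=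
      HasFDerivAt.comp_hasDerivAt (f := fun z : ℂ => (z, (0 : V n))) 0 hD0 h5
    refine h6.congr_of_eventuallyEq ?_
    filter_upwards [ball_mem_nhds (0 : ℂ) one_pos] with z hz
    rw [hΦ.zero z (ball_subset_closedBall hz)]
  -- along the fibre
  have h7 : HasFDerivAt (fun y' => e (Φ 0 y'))
      ((fderiv ℂ (fun q : ℂ × V n => e (Φ q.1 q.2)) (0, 0)).comp
        (ContinuousLinearMap.inr ℂ ℂ (V n))) (0 : V n) := by
    have h8 : HasFDerivAt (fun y' : V n => ((0 : ℂ), y')) (ContinuousLinearMap.inr ℂ ℂ (V n)) 0 :=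
      hasFDerivAt_prodMk_right (0 : ℂ) (0 : V n)
    exact HasFDerivAt.comp (f := fun y' : V n => ((0 : ℂ), y')) (0 : V n) hD0 h8
  have h9 : frm Φ e 0 (deriv ζ 0) =
      fderiv ℂ (fun q : ℂ × V n => e (Φ q.1 q.2)) (0, 0) ((0 : ℂ), deriv ζ 0) := by
    unfold frm
    rw [h7.fderiv]
    simp
  rw [h2.deriv, h4.deriv, h9, ← map_add]
  simp

end KI
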