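import Pool.Agent.H49.KI.Ctx

/-! # Psh: strict plurisubharmonicity in the sense of four point means -/

set_option autoImplicit false

namespace KI

open Complex Metric Set Filter Topology Manifold ContDiff
open KB (V DR wirt levi rho Sesq lap lapC dz)

variable {n : ℕ} {X : Type} [MetricSpace X] [ChartedSpace (V n) X]

/-- `ψ` (a function on `X`) is strictly plurisubharmonic with constant `k` on the set `K`, in the
sense of four point means. -/
def StrictPSH (G : OpenPartialHomeomorph X (V n) → V n → V n → V n → ℂ) (ψ : X → ℝ) (K : Set X)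
    (k : ℝ) : Prop :=
  ∀ (f : ℂ → X) (z₀ : ℂ) (r : ℝ), 0 < r → Hol n (ball z₀ r) f → f z₀ ∈ K → ∀ ε > 0,
    ∀ᶠ ρ in 𝓝[>] (0 : ℝ), (k * vsq G f z₀ - ε) * ρ ^ 2 ≤
      avg4 (fun z => ψ (f z)) z₀ ρ - ψ (f z₀)

theorem Hol.ball_of_closedBall {f : ℂ → X} (hf : Hol n (closedBall (0 : ℂ) 1) f) {z : ℂ}
    (hz : z ∈ ball (0 : ℂ) 1) : ∃ r > 0, Hol n (ball z r) f := by
  obtain ⟨r, hr, hrz⟩ := Metric.isOpen_iff.1 isOpen_ball z hz
  refine ⟨r, hr, hf.cont.mono (hrz.trans ball_subset_closedBall), fun w hw e he hwe => ?_⟩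
  refine hf.diff w ?_ e he hwe
  rw [interior_closedBall (0 : ℂ) one_ne_zero]
  exact hrz (interior_subset hw)

theorem Hol.continuousAt {f : ℂ → X} (hf : Hol n (closedBall (0 : ℂ) 1) f) {z : ℂ}
    (hz : z ∈ ball (0 : ℂ) 1) : ContinuousAt f z :=
  hf.cont.continuousAt (mem_of_superset (isOpen_ball.mem_nhds hz) ball_subset_closedBall)

theorem Hol.diff' {f : ℂ → X} (hf : Hol n (closedBall (0 : ℂ) 1) f) {z : ℂ}
    (hz : z ∈ ball (0 : ℂ) 1) {e : OpenPartialHomeomorph X (V n)} (he : e ∈ atlas (V n) X)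
    (hfe : f z ∈ e.source) : DifferentiableAt ℂ (fun w => e (f w)) z := by
  refine hf.diff z ?_ e he hfe
  rwa [interior_closedBall (0 : ℂ) one_ne_zero]

end KI
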