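import Pool.Agent.H50.KI.St1
import Pool.Agent.H50.KI.Int
import Pool.Agent.H50.KI.Dmt
import Pool.Agent.H50.KI.Llg
import Pool.Agent.H50.KI.Mvh
import Pool.Agent.H50.KI.Mvd
import Pool.Agent.H50.KI.Psh
import Pool.Agent.H49.KI.TopG

/-! # Mov: one infinitesimal move, with uniform rates -/

set_option autoImplicit false

namespace KI

open Complex Metric Set Filter Topology Manifold ContDiff
open KB (V DR wirt levi rho Sesq lap lapC dz)

variable {n : ℕ} {X : Type} [MetricSpace X] [ChartedSpace (V n) X]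
  {G : OpenPartialHomeomorph X (V n) → V n → V n → V n → ℂ}

/-- one infinitesimal move, with uniform rates: `C'` depends only on the set `K`. -/
theorem move [IsManifold 𝓘(ℂ, V n) ω X] (ctx : Ctx G) (hS : SecNonneg G) {K : Set X}
    (hK : IsCompact K) {ψ : X → ℝ} {k : ℝ} (hk : 0 < k) (hψc : Continuous ψ)
    (hψ : StrictPSH G ψ K k) : ∃ C' > 0, ∀ f : ℂ → X, Hol n (closedBall (0 : ℂ) 1) f →
      (∀ z ∈ closedBall (0 : ℂ) 1, f z ∈ K) → ∀ e ∈ atlas (V n) X, f 0 ∈ e.source → ∀ ε > 0,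
      ∀ᶠ δ in 𝓝[>] (0 : ℝ), ∃ f' : ℂ → X, Hol n (closedBall (0 : ℂ) 1) f' ∧ f' 0 = f 0 ∧
        deriv (fun z => e (f' z)) 0 = ((1 + δ : ℝ) : ℂ) • deriv (fun z => e (f z)) 0 ∧
        (∀ z ∈ sphere (0 : ℂ) 1, dist (f' z) (f z) ≤ δ * (Real.sqrt (vsq G f 0) + ε)) ∧
        ∀ z ∈ closedBall (0 : ℂ) 1,
          dist (f' z) (f z) ≤ δ * C' * (Real.sqrt (vsq G f 0) + ε) := by
  obtain ⟨C, hC0, hC⟩ := bkN_bound ctx.herm ctx.kaehler hK
  -- bound of ψ on K
  obtain ⟨M, hM⟩ : ∃ M : ℝ, ∀ x ∈ K, |ψ x| ≤ M := by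
    obtain ⟨M, hM⟩ := hK.exists_bound_of_continuousOn hψc.continuousOn
    exact ⟨M, fun x hx => hM x hx⟩
  set E : ℝ := Real.exp (C / k * (M - -M)) with hE
  have hE0 : 0 < E := Real.exp_pos _
  refine ⟨Real.sqrt E + 1, by positivity, fun f hf hfK e he hfe ε hε => ?_⟩
  have h00 : (0 : ℂ) ∈ closedBall (0 : ℂ) 1 := mem_closedBall_self zero_le_one
  have h0b : (0 : ℂ) ∈ ball (0 : ℂ) 1 := mem_ball_self zero_lt_one
  obtain ⟨r, Φ, hΦ⟩ := exists_thick hf
  have hB := discMet_of_thick ctx hS hf hΦ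
  -- the vector
  obtain ⟨w, hw⟩ := (hΦ.inv 0 h00 e he hfe).2 (deriv (fun z => e (f z)) 0)
  have hvsq : (Bf G f Φ 0 w w).re = vsq G f 0 := by
    rw [Bf_chart ctx hΦ h00 he hfe, vsq_chart ctx.herm (hf.continuousAt h0b)
      (fun e' he' hfe' => hf.diff' h0b he' hfe') he hfe]
    have : frm Φ e 0 w = deriv (fun z => e (f z)) 0 := hw
    rw [this]
  have hv0 : 0 ≤ vsq G f 0 := by
    rw [← hvsq]
    exact sec_nonneg hB h00 w
  set ε₁ : ℝ := (ε / 4) ^ 2 with hε₁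
  obtain ⟨η, hη1, hη2, hη3⟩ := step1' hB w (ε := ε₁) (by positivity)
  rw [hvsq] at hη3
  have hsq : Real.sqrt (vsq G f 0 + ε₁) ≤ Real.sqrt (vsq G f 0) + ε / 4 := by
    rw [Real.sqrt_le_left (by positivity)]
    have h1 := Real.sq_sqrt hv0
    have h2 := Real.sqrt_nonneg (vsq G f 0)
    rw [hε₁]
    nlinarith [mul_nonneg h2 hε.le]
  -- interior estimate
  have hint := interior hB (m := fun z => vsq G f z) (ψ := fun z => ψ (f z)) (C := C) (k := k)
    hC0.le hk (hψc.comp_continuousOn hf.cont)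
    (fun z hz η' hη' hη'z => lap_log ctx hf hΦ hC hfK hz hη' hη'z)
    (fun z hz ε' hε' => by
      obtain ⟨r', hr', hfr⟩ := hf.ball_of_closedBall hz
      exact hψ f z r' hr' hfr (hfK z (ball_subset_closedBall hz)) ε' hε')
    (a := -M) (b := M) (fun z hz => abs_le.1 (hM _ (hfK z hz))) hη1 hη3
  -- the vector field along the disc
  set ζ : ℂ → V n := fun z => z • η z with hζ
  have hζd : Differentiable ℂ ζ := differentiable_id.smul hη1
  have hζ0 : ζ 0 = 0 := by simp [hζ]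
  have hζ' : deriv ζ 0 = w := by
    have h1 : HasDerivAt ζ ((0 : ℂ) • deriv η 0 + (1 : ℂ) • η 0) 0 :=
      (hasDerivAt_id (0 : ℂ)).smul (hη1 0).hasDerivAt
    rw [h1.deriv, hη2]
    simp
  have hBζ : ∀ z ∈ closedBall (0 : ℂ) 1,
      (Bf G f Φ z (ζ z) (ζ z)).re ≤ (Bf G f Φ z (η z) (η z)).re := by
    intro z hz
    rw [hζ, (hB.sesq z hz).smul_diag]
    have h1 := sec_nonneg hB hz (η z)
    have h2 : ‖z‖ ^ 2 ≤ 1 := by
      have := mem_closedBall_zero_iff.1 hz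
      exact pow_le_one₀ (norm_nonneg _) this
    nlinarith
  have hdist := moved_dist ctx hf hΦ hζd.continuous.continuousOn (ε := ε / 4) (by positivity)
  -- smallness
  obtain ⟨Mz, hMz⟩ := (isCompact_closedBall (0 : ℂ) 1).exists_bound_of_continuousOn
    hζd.continuous.continuousOn
  have hMz0 : 0 ≤ Mz := (norm_nonneg _).trans (hMz 0 h00)
  have hsmall : ∀ᶠ δ : ℝ in 𝓝[>] (0 : ℝ), δ * (Mz + 1) < r := by
    have h1 : Tendsto (fun δ : ℝ => δ * (Mz + 1)) (𝓝[>] 0) (𝓝 (0 * (Mz + 1))) :=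
      Tendsto.mono_left (Continuous.tendsto (by fun_prop) 0) nhdsWithin_le_nhds
    rw [zero_mul] at h1
    exact h1.eventually_lt_const hΦ.pos
  filter_upwards [hdist, hsmall, self_mem_nhdsWithin] with δ hδ1 hδ2 hδ3
  have hδ0 : 0 < δ := hδ3
  have hζδ : Differentiable ℂ (fun z => (δ : ℂ) • ζ z) := hζd.fun_const_smul _
  have hnorm : ∀ z ∈ closedBall (0 : ℂ) 1, (δ : ℂ) • ζ z ∈ ball (0 : V n) r := by
    intro z hz
    rw [mem_ball_zero_iff, norm_smul, Complex.norm_real, Real.norm_of_nonneg hδ0.le]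
    have := hMz z hz
    nlinarith
  refine ⟨fun z => Φ z ((δ : ℂ) • ζ z), moved_hol hΦ hζδ hnorm, ?_, ?_, ?_, ?_⟩
  · show Φ 0 ((δ : ℂ) • ζ 0) = f 0
    rw [hζ0, smul_zero, hΦ.zero 0 h00]
  · rw [moved_deriv hΦ hζδ (by simp [hζ0]) he hfe]
    have h1 : deriv (fun z => (δ : ℂ) • ζ z) 0 = (δ : ℂ) • w := by
      rw [deriv_fun_const_smul _ (hζd 0), hζ']
    have h2 : frm Φ e 0 w = deriv (fun z => e (f z)) 0 := hw
    rw [h1, map_smul, h2]
    push_cast
    rw [add_smul, one_smul]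
  · intro z hz
    have hz' := sphere_subset_closedBall hz
    refine (hδ1 z hz').trans (mul_le_mul_of_nonneg_left ?_ hδ0.le)
    have h1 : Real.sqrt (Bf G f Φ z (ζ z) (ζ z)).re ≤ Real.sqrt (vsq G f 0 + ε₁) :=
      Real.sqrt_le_sqrt ((hBζ z hz').trans (hη3 z hz))
    linarith
  · intro z hz
    refine (hδ1 z hz).trans ?_
    rw [mul_assoc]
    refine mul_le_mul_of_nonneg_left ?_ hδ0.le
    have h1 : Real.sqrt (Bf G f Φ z (ζ z) (ζ z)).re ≤
        Real.sqrt E * Real.sqrt (vsq G f 0 + ε₁) := by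
      rw [← Real.sqrt_mul hE0.le]
      exact Real.sqrt_le_sqrt ((hBζ z hz).trans (hint z hz))
    have h2 : Real.sqrt E * Real.sqrt (vsq G f 0 + ε₁) ≤
        Real.sqrt E * (Real.sqrt (vsq G f 0) + ε / 4) :=
      mul_le_mul_of_nonneg_left hsq (Real.sqrt_nonneg _)
    have h3 := Real.sqrt_nonneg E
    have h4 := Real.sqrt_nonneg (vsq G f 0)
    nlinarith [mul_nonneg h3 hε.le]

end KI
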