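import Pool.Agent.H50.KI.Bdf

/-! # Qsm: smoothness of the quadratic family

PROOFS. `Qf_open`: preimage of the open set `e.target` under a continuous map. `Qf_smooth`: on this open set
`Qf G e c ζ = re ∑ i, ∑ j, G e (Y) (bv i) (bv j) * S i * conj (S j)` (`KB.Sesq.expand`, `G_sesq`) with
`Y = c 0 + ζ • c 1 + ζ ^ 2 • c 2`, `S = c 3 + ζ • c 4 + ζ ^ 2 • c 5`, polynomial (so smooth) functions of
`(c, ζ)`; `hG.smooth` composed with `Y`; coordinates `EuclideanSpace.proj`, `Complex.conjCLE`, `Complex.reCLM`.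
`Qf_cont`: continuity of `Qf` at `ζ = 0` etc. is a consequence. -/

set_option autoImplicit false

namespace KI

open Complex Metric Set Filter Topology Manifold ContDiff
open KB (V DR wirt levi rho Sesq lap lapC dz)

variable {n : ℕ} {X : Type} [MetricSpace X] [ChartedSpace (V n) X]
  {G : OpenPartialHomeomorph X (V n) → V n → V n → V n → ℂ}

/-- quadratic families are smooth -/
private theorem Qsm_quad (i j k : Fin 6) : ContDiff ℝ ∞ (fun q : (Fin 6 → V n) × ℂ =>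
    q.1 i + q.2 • q.1 j + q.2 ^ 2 • q.1 k) := by
  have h1 : ∀ l : Fin 6, ContDiff ℝ ∞ (fun q : (Fin 6 → V n) × ℂ => q.1 l) := fun l =>
    (contDiff_apply ℝ (V n) l).comp contDiff_fst
  have h2 : ContDiff ℝ ∞ (fun q : (Fin 6 → V n) × ℂ => q.2) := contDiff_snd
  exact ((h1 i).add (h2.smul (h1 j))).add ((h2.pow 2).smul (h1 k))

theorem Qf_open (e : OpenPartialHomeomorph X (V n)) :
    IsOpen {q : (Fin 6 → V n) × ℂ | q.1 0 + q.2 • q.1 1 + q.2 ^ 2 • q.1 2 ∈ e.target} :=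
  e.open_target.preimage (Qsm_quad (n := n) 0 1 2).continuous

theorem Qf_smooth (hG : IsHermMetric G) {e : OpenPartialHomeomorph X (V n)}
    (he : e ∈ atlas (V n) X) :
    ContDiffOn ℝ 2 (fun q : (Fin 6 → V n) × ℂ => Qf G e q.1 q.2)
      {q : (Fin 6 → V n) × ℂ | q.1 0 + q.2 • q.1 1 + q.2 ^ 2 • q.1 2 ∈ e.target} := by
  obtain ⟨Y, hY⟩ : ∃ Y : (Fin 6 → V n) × ℂ → V n,
      Y = fun q => q.1 0 + q.2 • q.1 1 + q.2 ^ 2 • q.1 2 := ⟨_, rfl⟩
  obtain ⟨S, hS⟩ : ∃ S : (Fin 6 → V n) × ℂ → V n,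
      S = fun q => q.1 3 + q.2 • q.1 4 + q.2 ^ 2 • q.1 5 := ⟨_, rfl⟩
  have cY : ContDiff ℝ ∞ Y := by rw [hY]; exact Qsm_quad 0 1 2
  have cS : ContDiff ℝ ∞ S := by rw [hS]; exact Qsm_quad 3 4 5
  have cSi : ∀ i : Fin n, ContDiff ℝ ∞ (fun q => S q i) := fun i =>
    ((EuclideanSpace.proj i : V n →L[ℂ] ℂ).restrictScalars ℝ).contDiff.comp cS
  have cSj : ∀ i : Fin n, ContDiff ℝ ∞ (fun q => (starRingEnd ℂ) (S q i)) := fun i =>
    Complex.conjCLE.toContinuousLinearMap.contDiff.comp (cSi i)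
  have hset : {q : (Fin 6 → V n) × ℂ | q.1 0 + q.2 • q.1 1 + q.2 ^ 2 • q.1 2 ∈ e.target} =
      {q | Y q ∈ e.target} := by rw [hY]
  rw [hset]
  have h1 : ContDiffOn ℝ ∞ (fun q : (Fin 6 → V n) × ℂ => ∑ i, ∑ j,
      G e (Y q) (KB.bv i) (KB.bv j) * S q i * (starRingEnd ℂ) (S q j)) {q | Y q ∈ e.target} := by
    refine ContDiffOn.sum fun i _ => ContDiffOn.sum fun j _ => ?_
    exact (((hG.smooth e he (KB.bv i) (KB.bv j)).comp cY.contDiffOn (fun q hq => hq)).mul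
      (cSi i).contDiffOn).mul (cSj j).contDiffOn
  have h2 : ContDiffOn ℝ ∞ (fun q : (Fin 6 → V n) × ℂ => (∑ i, ∑ j,
      G e (Y q) (KB.bv i) (KB.bv j) * S q i * (starRingEnd ℂ) (S q j)).re)
      {q | Y q ∈ e.target} :=
    Complex.reCLM.contDiff.comp_contDiffOn h1
  have h3 : ContDiffOn ℝ ∞ (fun q : (Fin 6 → V n) × ℂ => Qf G e q.1 q.2) {q | Y q ∈ e.target} := by
    refine h2.congr fun q hq => ?_
    have h4 : Qf G e q.1 q.2 = (G e (Y q) (S q) (S q)).re := by rw [hY, hS]; rfl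
    rw [h4, (G_sesq hG he hq).expand (S q) (S q)]
    rfl
  exact h3.of_le (by norm_cast)

end KI
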