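import Pool.Agent.H50.KI.Utx
import Pool.Agent.H50.KI.Qsm
import Pool.Agent.H50.KI.Led

/-! # Pcd: second order estimate of the distance of the endpoints of a moved curve (one piece)

PROOF. `c t = ![y t, w t, u t, p t, w1 t, u1 t]`, continuous on `Icc s t₁`, `K = c '' Icc s t₁` compact. For small `ρ`
and all `α ∈ A`, `r ∈ Icc s t₁`: `y r + ζ • w r + ζ ^ 2 • u r ∈ e.target`, `ζ = ρ α` (compactness, `Qf_open`). The curve
`r ↦ y r + ζ • w r + ζ ^ 2 • u r` has derivative `p r + ζ • w1 r + ζ ^ 2 • u1 r` (continuous in `r`), so by `dist_le_energy`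
`dist ≤ ((t₁ - s) + ∫ Qf G e (c r) ζ dr)/2`. Mean over `α ∈ A` (`mn` of a sum/integral: finite sums; the integrals are of
continuous functions): `mn A dist ρ ≤ ((t₁ - s) + ∫ mn A (Qf G e (c r)) ρ dr)/2`. `uniform_taylor` with
`P = Fin 6 → V n`, `F q = Qf G e q.1 q.2`, `ε' = ε/(2 (t₁ - s))`-small: `mn A (Qf (c r)) ρ ≤ 1 + ρ²/2 * 2 β r + ε' ρ²`
(`Qf G e (c r) 0 = (G e (y r) (p r) (p r)).re = 1`). Integrate (`intervalIntegral.integral_mono_on`; the left side is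
continuous in `r`, the right side integrable): `mn A dist ρ ≤ ((t₁-s) + (t₁-s) + ρ² ∫ β + ε' ρ² (t₁-s))/2`. -/

set_option autoImplicit false

namespace KI

open Complex Metric Set Filter Topology Manifold ContDiff
open KB (V DR wirt levi rho Sesq lap lapC dz)

variable {n : ℕ} {X : Type} [MetricSpace X] [ChartedSpace (V n) X]
  {G : OpenPartialHomeomorph X (V n) → V n → V n → V n → ℂ}

theorem Pcd_a {S : Set ℝ} {w : ℝ → V n} {w1 : V n} {t : ℝ} (h : HasDerivWithinAt w w1 S t) (ζ : ℂ) :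
    HasDerivWithinAt (fun t => ζ • w t) (ζ • w1) S t := by
  exact h.const_smul ζ

theorem Pcd_b {S : Set ℝ} {w y : ℝ → V n} {w1 y1 : V n} {t : ℝ} (h2 : HasDerivWithinAt y y1 S t)
    (h : HasDerivWithinAt w w1 S t) :
    HasDerivWithinAt (fun t => y t + w t) (y1 + w1) S t := by
  exact h2.add h

theorem Pcd_c {S : Set ℝ} {w y : ℝ → V n} (h2 : ContinuousOn y S) (h : ContinuousOn w S) (ζ : ℂ) :
    ContinuousOn (fun t => y t + ζ • w t) S := by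
  exact h2.add (h.const_smul ζ)

theorem Pcd_en [IsManifold 𝓘(ℂ, V n) ω X] (ctx : Ctx G)
    {e : OpenPartialHomeomorph X (V n)} (he : e ∈ atlas (V n) X)
    {s t₁ : ℝ} (hst : s < t₁) {y w u p w1 u1 : ℝ → V n}
    (hy : ∀ t ∈ Icc s t₁, HasDerivWithinAt y (p t) (Icc s t₁) t)
    (hw : ∀ t ∈ Icc s t₁, HasDerivWithinAt w (w1 t) (Icc s t₁) t)
    (hu : ∀ t ∈ Icc s t₁, HasDerivWithinAt u (u1 t) (Icc s t₁) t)
    (hp : ContinuousOn p (Icc s t₁)) (hw1 : ContinuousOn w1 (Icc s t₁))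
    (hu1 : ContinuousOn u1 (Icc s t₁)) (c : ℝ → Fin 6 → V n)
    (hc : ∀ t, c t = ![y t, w t, u t, p t, w1 t, u1 t]) (z : ℂ)
    (hmem : ∀ t ∈ Icc s t₁, c t 0 + z • c t 1 + z ^ 2 • c t 2 ∈ e.target) :
    dist (e.symm (y s + z • w s + z ^ 2 • u s)) (e.symm (y t₁ + z • w t₁ + z ^ 2 • u t₁)) ≤
      ((t₁ - s) + ∫ t in s..t₁, Qf G e (c t) z) / 2 := by
  obtain ⟨W, hW⟩ : ∃ W : ℝ → V n, W = fun t => y t + z • w t + z ^ 2 • u t := ⟨_, rfl⟩
  obtain ⟨W', hW'⟩ : ∃ W' : ℝ → V n, W' = fun t => p t + z • w1 t + z ^ 2 • u1 t := ⟨_, rfl⟩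
  have h1 : ∀ t ∈ Icc s t₁, HasDerivWithinAt W (W' t) (Icc s t₁) t := by
    intro t ht
    rw [hW, hW']
    exact Pcd_b (Pcd_b (hy t ht) (Pcd_a (hw t ht) z)) (Pcd_a (hu t ht) (z ^ 2))
  have h2 : ContinuousOn W' (Icc s t₁) := by
    rw [hW']
    exact Pcd_c (Pcd_c hp hw1 z) hu1 (z ^ 2)
  have h3 : ∀ t ∈ Icc s t₁, W t ∈ e.target := by
    intro t ht
    have h5 := hmem t ht
    rw [hc] at h5
    rw [hW]
    exact h5
  have h4 := dist_le_energy ctx he hst h1 h2 h3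
  have h6 : (fun t => Qf G e (c t) z) = fun t => (G e (W t) (W' t) (W' t)).re := by
    funext t
    rw [hc, hW, hW']
    rfl
  rw [h6]
  have h7 : W s = y s + z • w s + z ^ 2 • u s := by rw [hW]
  have h8 : W t₁ = y t₁ + z • w t₁ + z ^ 2 • u t₁ := by rw [hW]
  rw [h7, h8] at h4
  exact h4

theorem piece_dist [IsManifold 𝓘(ℂ, V n) ω X] (ctx : Ctx G)
    {e : OpenPartialHomeomorph X (V n)} (he : e ∈ atlas (V n) X) {A : Finset ℂ} (hA : Dirs A)
    {s t₁ : ℝ} (hst : s < t₁) {y w u p w1 u1 : ℝ → V n}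
    (hy : ∀ t ∈ Icc s t₁, HasDerivWithinAt y (p t) (Icc s t₁) t)
    (hw : ∀ t ∈ Icc s t₁, HasDerivWithinAt w (w1 t) (Icc s t₁) t)
    (hu : ∀ t ∈ Icc s t₁, HasDerivWithinAt u (u1 t) (Icc s t₁) t)
    (hp : ContinuousOn p (Icc s t₁)) (hw1 : ContinuousOn w1 (Icc s t₁))
    (hu1 : ContinuousOn u1 (Icc s t₁)) (hmem : ∀ t ∈ Icc s t₁, y t ∈ e.target)
    (hunit : ∀ t ∈ Icc s t₁, (G e (y t) (p t) (p t)).re = 1) {β : ℝ → ℝ}
    (hβi : IntervalIntegrable β MeasureTheory.volume s t₁)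
    (hβ : ∀ t ∈ Icc s t₁, qA A (Qf G e ![y t, w t, u t, p t, w1 t, u1 t]) ≤ 2 * β t)
    {ε : ℝ} (hε : 0 < ε) :
    ∀ᶠ ρ : ℝ in 𝓝[>] (0 : ℝ),
      mn A (fun ζ => dist (e.symm (y s + ζ • w s + ζ ^ 2 • u s))
        (e.symm (y t₁ + ζ • w t₁ + ζ ^ 2 • u t₁))) ρ ≤
        (t₁ - s) + ρ ^ 2 / 2 * ((∫ t in s..t₁, β t) + ε) := by
  obtain ⟨c, hc⟩ : ∃ c : ℝ → Fin 6 → V n, ∀ t, c t = ![y t, w t, u t, p t, w1 t, u1 t] :=
    ⟨_, fun t => rfl⟩
  have hcy : ContinuousOn y (Icc s t₁) := fun t ht => (hy t ht).continuousWithinAt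
  have hcw : ContinuousOn w (Icc s t₁) := fun t ht => (hw t ht).continuousWithinAt
  have hcu : ContinuousOn u (Icc s t₁) := fun t ht => (hu t ht).continuousWithinAt
  have hcc : ContinuousOn c (Icc s t₁) := by
    have h1 : c = fun t => ![y t, w t, u t, p t, w1 t, u1 t] := funext hc
    rw [h1]
    refine continuousOn_pi.2 fun i => ?_
    fin_cases i
    · exact hcy
    · exact hcw
    · exact hcu
    · exact hp
    · exact hw1
    · exact hu1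
  obtain ⟨K, hK⟩ : ∃ K : Set (Fin 6 → V n), K = c '' Icc s t₁ := ⟨_, rfl⟩
  have hKc : IsCompact K := by
    rw [hK]
    exact isCompact_Icc.image_of_continuousOn hcc
  obtain ⟨O, hO⟩ : ∃ O : Set ((Fin 6 → V n) × ℂ), O =
      {q : (Fin 6 → V n) × ℂ | q.1 0 + q.2 • q.1 1 + q.2 ^ 2 • q.1 2 ∈ e.target} := ⟨_, rfl⟩
  have hOo : IsOpen O := by
    rw [hO]
    exact Qf_open e
  have hFO : ContDiffOn ℝ 2 (fun q : (Fin 6 → V n) × ℂ => Qf G e q.1 q.2) O := by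
    rw [hO]
    exact Qf_smooth ctx.herm he
  have hKO : ∀ c' ∈ K, (c', (0 : ℂ)) ∈ O := by
    rw [hK, hO]
    rintro _ ⟨t, ht, rfl⟩
    rw [Set.mem_ofPred_eq]
    simp only [zero_smul, add_zero, ne_eq, OfNat.ofNat_ne_zero, not_false_eq_true, zero_pow]
    rw [hc]
    exact hmem t ht
  have hlen : 0 < t₁ - s := sub_pos.2 hst
  have htay := uniform_taylor hOo hFO hKc hKO hA (ε := ε / (t₁ - s)) (div_pos hε hlen)
  have hev : ∀ᶠ ζ : ℂ in 𝓝 0, ∀ c' ∈ K, (c', ζ) ∈ O := by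
    refine hKc.eventually_forall_of_forall_eventually fun c' hc' => ?_
    have h1 : ∀ᶠ q : (Fin 6 → V n) × ℂ in 𝓝 (c', (0 : ℂ)), q ∈ O := hOo.mem_nhds (hKO c' hc')
    have h2 : Tendsto (fun z : ℂ × (Fin 6 → V n) => (z.2, z.1)) (𝓝 ((0 : ℂ), c'))
        (𝓝 (c', (0 : ℂ))) := (continuous_swap.tendsto _)
    exact h2.eventually h1
  obtain ⟨δ, hδ, hδO⟩ := Metric.eventually_nhds_iff.1 hev
  have hρδ : ∀ᶠ ρ : ℝ in 𝓝[>] (0 : ℝ), ρ < δ :=
    (eventually_lt_nhds hδ).filter_mono nhdsWithin_le_nhds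
  have hρ0 : ∀ᶠ ρ : ℝ in 𝓝[>] (0 : ℝ), 0 < ρ := eventually_mem_nhdsWithin
  filter_upwards [htay, hρδ, hρ0] with ρ h1 h2 h3
  have hzO : ∀ α ∈ A, ∀ t ∈ Icc s t₁, (c t, (ρ : ℂ) * α) ∈ O := by
    intro α hα t ht
    refine hδO ?_ (c t) (by rw [hK]; exact ⟨t, ht, rfl⟩)
    rw [dist_zero_right, norm_mul, Complex.norm_real, Real.norm_eq_abs, abs_of_pos h3]
    have := hA.le α hα
    nlinarith [norm_nonneg α]
  have hcard : (0 : ℝ) < A.card := by exact_mod_cast hA.ne.card_pos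
  -- energies
  have hcont : ∀ α ∈ A, ContinuousOn (fun t => Qf G e (c t) ((ρ : ℂ) * α)) (Icc s t₁) := by
    intro α hα
    have h4 : ContinuousOn (fun t => (c t, (ρ : ℂ) * α)) (Icc s t₁) := hcc.prodMk continuousOn_const
    exact hFO.continuousOn.comp h4 (fun t ht => hzO α hα t ht)
  have hen : ∀ α ∈ A, dist (e.symm (y s + ((ρ : ℂ) * α) • w s + ((ρ : ℂ) * α) ^ 2 • u s))
      (e.symm (y t₁ + ((ρ : ℂ) * α) • w t₁ + ((ρ : ℂ) * α) ^ 2 • u t₁)) ≤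
      ((t₁ - s) + ∫ t in s..t₁, Qf G e (c t) ((ρ : ℂ) * α)) / 2 := by
    intro α hα
    obtain ⟨z, hz⟩ : ∃ z : ℂ, z = (ρ : ℂ) * α := ⟨_, rfl⟩
    have hzO' := hzO α hα
    rw [← hz] at hzO' ⊢
    exact Pcd_en ctx he hst hy hw hu hp hw1 hu1 c hc z (fun t ht => by
      have h5 := hzO' t ht
      rw [hO] at h5
      exact h5)
  have hmnI : mn A (fun ζ => ∫ t in s..t₁, Qf G e (c t) ζ) ρ =
      ∫ t in s..t₁, mn A (fun ζ => Qf G e (c t) ζ) ρ := by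
    simp only [mn]
    rw [intervalIntegral.integral_div, intervalIntegral.integral_finsetSum]
    intro α hα
    exact ContinuousOn.intervalIntegrable_of_Icc hst.le (hcont α hα)
  have hmnc : ContinuousOn (fun t => mn A (fun ζ => Qf G e (c t) ζ) ρ) (Icc s t₁) := by
    simp only [mn]
    exact (continuousOn_finsetSum _ fun α hα => hcont α hα).div_const _
  have hmn1 : mn A (fun ζ => dist (e.symm (y s + ζ • w s + ζ ^ 2 • u s))
        (e.symm (y t₁ + ζ • w t₁ + ζ ^ 2 • u t₁))) ρ ≤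
      ((t₁ - s) + mn A (fun ζ => ∫ t in s..t₁, Qf G e (c t) ζ) ρ) / 2 := by
    have h4 : ∑ α ∈ A, dist (e.symm (y s + ((ρ : ℂ) * α) • w s + ((ρ : ℂ) * α) ^ 2 • u s))
        (e.symm (y t₁ + ((ρ : ℂ) * α) • w t₁ + ((ρ : ℂ) * α) ^ 2 • u t₁)) ≤
        ∑ α ∈ A, ((t₁ - s) + ∫ t in s..t₁, Qf G e (c t) ((ρ : ℂ) * α)) / 2 :=
      Finset.sum_le_sum hen
    rw [← Finset.sum_div, Finset.sum_add_distrib, Finset.sum_const, nsmul_eq_mul] at h4
    simp only [mn]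
    rw [div_le_iff₀ hcard]
    refine h4.trans (le_of_eq ?_)
    field_simp
  have hpt : ∀ t ∈ Icc s t₁, mn A (fun ζ => Qf G e (c t) ζ) ρ ≤
      1 + ρ ^ 2 * β t + ε / (t₁ - s) * ρ ^ 2 := by
    intro t ht
    have h4 := h1 (c t) (by rw [hK]; exact ⟨t, ht, rfl⟩)
    have h5 : Qf G e (c t) 0 = 1 := by
      rw [hc]
      have h6 : Qf G e ![y t, w t, u t, p t, w1 t, u1 t] 0 =
        (G e (y t + (0 : ℂ) • w t + (0 : ℂ) ^ 2 • u t) (p t + (0 : ℂ) • w1 t + (0 : ℂ) ^ 2 • u1 t)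
          (p t + (0 : ℂ) • w1 t + (0 : ℂ) ^ 2 • u1 t)).re := rfl
      rw [h6]
      simp only [zero_smul, add_zero, ne_eq, OfNat.ofNat_ne_zero, not_false_eq_true, zero_pow]
      exact hunit t ht
    have h7 := hβ t ht
    rw [← hc] at h7
    have h8 : qA A (fun ζ => Qf G e (c t) ζ) ≤ 2 * β t := h7
    rw [h5] at h4
    have h9 := (abs_le.1 h4).2
    nlinarith [mul_le_mul_of_nonneg_left h8 (by positivity : (0 : ℝ) ≤ ρ ^ 2 / 2)]
  have hint : (∫ t in s..t₁, mn A (fun ζ => Qf G e (c t) ζ) ρ) ≤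
      ∫ t in s..t₁, (1 + ρ ^ 2 * β t + ε / (t₁ - s) * ρ ^ 2) := by
    refine intervalIntegral.integral_mono_on hst.le
      (ContinuousOn.intervalIntegrable_of_Icc hst.le hmnc) ?_ hpt
    exact (intervalIntegrable_const.add (hβi.const_mul _)).add intervalIntegrable_const
  have hint2 : (∫ t in s..t₁, (1 + ρ ^ 2 * β t + ε / (t₁ - s) * ρ ^ 2)) =
      (t₁ - s) + ρ ^ 2 * (∫ t in s..t₁, β t) + ε * ρ ^ 2 := by
    rw [intervalIntegral.integral_add (intervalIntegrable_const.add (hβi.const_mul _))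
      intervalIntegrable_const, intervalIntegral.integral_add intervalIntegrable_const
      (hβi.const_mul _), intervalIntegral.integral_const, intervalIntegral.integral_const,
      intervalIntegral.integral_const_mul, smul_eq_mul, smul_eq_mul, mul_one]
    congr 1
    field_simp
  rw [hmnI] at hmn1
  rw [hint2] at hint
  linarith

end KI
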