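import Pool.Agent.H50.KI.Pcd
import Pool.Agent.H50.KI.Pnm
import Pool.Agent.H50.KI.Wdr

/-! # Ppr: the second variation inequality on one piece

PROOF. `piece_dist` on `[s, t₁]` with `y r = e (σ r)`, `w r = ww ℓ r (W r)`,
`u r = -(1/2) • Gam G e (y r) (w r) (w r) + ((t₁ - r)/(t₁ - s) : ℂ) • a`,
`w1 r = -(1/ℓ) • W r - Gam G e (y r) (p r) (w r)` (`ww_deriv`), `u1 r = dg G e (y r) (p r) (w r) (w1 r) - (1/(t₁ - s)) • a`
(`gam_deriv`), continuity: `hgeo.vel`, `hgeo.acc`, `Gam_cont`, `dg_cont`; `hgeo.unit`; `β r = vv/ℓ² - κ r`; `hβ` is `hQ` at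
time `r`, with `v = W r` (`par_norm`: `(G e (y r) (W r) (W r)).re = vv`), `a := ((t₁-r)/(t₁-s)) • a`,
`a1 := -(1/(t₁-s)) • a` (both 0 if `a = 0`). At `r = s`: `y s + ζ w + ζ² u = jet … + ζ² • a`; at `r = t₁`: `jet` (the coefficient
of `a` is 0). `∫ β = vv (t₁ - s)/ℓ² - ∫ κ`. -/

set_option autoImplicit false

namespace KI

open Complex Metric Set Filter Topology Manifold ContDiff
open KB (V DR wirt levi rho Sesq lap lapC dz)

variable {n : ℕ} {X : Type} [MetricSpace X] [ChartedSpace (V n) X]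
  {G : OpenPartialHomeomorph X (V n) → V n → V n → V n → ℂ}

/-- continuity of the Christoffel vector along a curve -/
theorem Ppr_gam (hG : IsHermMetric G) {e : OpenPartialHomeomorph X (V n)}
    (he : e ∈ atlas (V n) X) {S : Set ℝ} {y v w : ℝ → V n} (hyt : ∀ t ∈ S, y t ∈ e.target)
    (hy : ContinuousOn y S) (hv : ContinuousOn v S) (hw : ContinuousOn w S) :
    ContinuousOn (fun t => Gam G e (y t) (v t) (w t)) S := by
  have h1 : ∀ t ∈ S, Gam G e (y t) (v t) (w t) =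
      ∑ i, ∑ j, (v t i * w t j) • Gam G e (y t) (KB.bv i) (KB.bv j) := by
    intro t ht
    have hL : ∀ c : V n, Gam G e (y t) (v t) c = ∑ i, v t i • Gam G e (y t) (KB.bv i) c := by
      intro c
      let L : V n →ₗ[ℂ] V n :=
        { toFun := fun a => Gam G e (y t) a c
          map_add' := fun a a' => Gam_add_left hG he (hyt t ht) a a' c
          map_smul' := fun z a => Gam_smul_left hG he (hyt t ht) z a c }
      have h2 : L (v t) = ∑ i, v t i • L (KB.bv i) := by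
        conv_lhs => rw [KB.sum_bv (v t)]
        rw [map_sum]
        simp only [map_smul]
      exact h2
    have hR : ∀ c : V n, Gam G e (y t) c (w t) = ∑ j, w t j • Gam G e (y t) c (KB.bv j) := by
      intro c
      let L : V n →ₗ[ℂ] V n :=
        { toFun := fun a => Gam G e (y t) c a
          map_add' := fun a a' => Gam_add_right hG he (hyt t ht) c a a'
          map_smul' := fun z a => Gam_smul_right hG he (hyt t ht) z c a }
      have h2 : L (w t) = ∑ i, w t i • L (KB.bv i) := by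
        conv_lhs => rw [KB.sum_bv (w t)]
        rw [map_sum]
        simp only [map_smul]
      exact h2
    rw [hL]
    refine Finset.sum_congr rfl fun i _ => ?_
    rw [hR, Finset.smul_sum]
    refine Finset.sum_congr rfl fun j _ => ?_
    rw [smul_smul]
  refine ContinuousOn.congr ?_ h1
  refine continuousOn_finsetSum _ fun i _ => continuousOn_finsetSum _ fun j _ =>
    ContinuousOn.fun_smul ?_ ?_
  · exact ((EuclideanSpace.proj i : V n →L[ℂ] ℂ).continuous.comp_continuousOn hv).mul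
      ((EuclideanSpace.proj j : V n →L[ℂ] ℂ).continuous.comp_continuousOn hw)
  · exact (Gam_smooth hG he (KB.bv i) (KB.bv j)).continuousOn.comp hy hyt

theorem piece_par [IsManifold 𝓘(ℂ, V n) ω X] (ctx : Ctx G) {A : Finset ℂ} (hA : Dirs A)
    {σ : ℝ → X} {ℓ vv : ℝ} (hℓ : 0 < ℓ) {κ : ℝ → ℝ} {cplx : Prop}
    (hQ : HQ G A σ ℓ vv κ cplx)
    {e : OpenPartialHomeomorph X (V n)} (he : e ∈ atlas (V n) X) {s t₁ : ℝ} (hs : 0 ≤ s)
    (hst : s < t₁) (ht : t₁ ≤ ℓ)
    (hκ : IntervalIntegrable κ MeasureTheory.volume s t₁)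
    (hmem : ∀ t ∈ Icc s t₁, σ t ∈ e.source) {p W : ℝ → V n}
    (hgeo : IsGeodOn G e (fun t => e (σ t)) p s t₁)
    (hW : ∀ r ∈ Icc s t₁, HasDerivWithinAt W (-Gam G e (e (σ r)) (p r) (W r)) (Icc s t₁) r)
    (hWs : (G e (e (σ s)) (W s) (W s)).re = vv) (a : V n) (ha : cplx ∨ a = 0)
    {ε : ℝ} (hε : 0 < ε) :
    ∀ᶠ ρ : ℝ in 𝓝[>] (0 : ℝ),
      mn A (fun ζ => dist (e.symm (jet G e (e (σ s)) (ww ℓ s (W s)) ζ + ζ ^ 2 • a))
        (e.symm (jet G e (e (σ t₁)) (ww ℓ t₁ (W t₁)) ζ))) ρ ≤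
        (t₁ - s) + ρ ^ 2 / 2 * (vv * (t₁ - s) / ℓ ^ 2 - (∫ t in s..t₁, κ t) + ε) := by
  have hG := ctx.herm
  have hts : 0 < t₁ - s := by linarith
  obtain ⟨y, hy⟩ : ∃ y : ℝ → V n, y = fun r => e (σ r) := ⟨_, rfl⟩
  have hyr : ∀ r, e (σ r) = y r := fun r => by rw [hy]
  rw [← hy] at hgeo
  simp only [hyr] at hW hWs ⊢
  have hyt : ∀ r ∈ Icc s t₁, y r ∈ e.target := hgeo.mem
  have hyc : ContinuousOn y (Icc s t₁) := fun r hr => (hgeo.vel r hr).continuousWithinAt
  have hpc : ContinuousOn p (Icc s t₁) := fun r hr => (hgeo.acc r hr).continuousWithinAt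
  have hWc : ContinuousOn W (Icc s t₁) := fun r hr => (hW r hr).continuousWithinAt
  obtain ⟨w, hw⟩ : ∃ w : ℝ → V n, w = fun r => ww ℓ r (W r) := ⟨_, rfl⟩
  have hwr : ∀ r, ww ℓ r (W r) = w r := fun r => by rw [hw]
  obtain ⟨w1, hw1⟩ : ∃ w1 : ℝ → V n, w1 = fun r => -((1 / ℓ : ℝ) : ℂ) • W r -
    Gam G e (y r) (p r) (w r) := ⟨_, rfl⟩
  have hwd : ∀ r ∈ Icc s t₁, HasDerivWithinAt w (w1 r) (Icc s t₁) r := by
    intro r hr
    have h1 := ww_deriv (ℓ := ℓ) hG he (hyt r hr) (hW r hr)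
    rw [hwr] at h1
    rw [hw1]
    simp only [hwr] at h1
    exact h1
  have hwc : ContinuousOn w (Icc s t₁) := fun r hr => (hwd r hr).continuousWithinAt
  have hw1c : ContinuousOn w1 (Icc s t₁) := by
    rw [hw1]
    exact (hWc.const_smul (-((1 / ℓ : ℝ) : ℂ))).sub (Ppr_gam hG he hyt hyc hpc hwc)
  -- the second order term
  obtain ⟨c, hc⟩ : ∃ c : ℝ → ℂ, c = fun r => (((t₁ - r) / (t₁ - s) : ℝ) : ℂ) := ⟨_, rfl⟩
  obtain ⟨c1, hc1⟩ : ∃ c1 : ℂ, c1 = ((-1 / (t₁ - s) : ℝ) : ℂ) := ⟨_, rfl⟩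
  have hcd : ∀ r, HasDerivAt c c1 r := by
    intro r
    have h1 : HasDerivAt (fun r : ℝ => (t₁ - r) / (t₁ - s)) (-1 / (t₁ - s)) r :=
      ((hasDerivAt_id r).const_sub t₁).div_const (t₁ - s)
    rw [hc, hc1]
    exact h1.ofReal_comp
  have hcs : c s = 1 := by
    rw [hc]
    simp only
    rw [div_self hts.ne', Complex.ofReal_one]
  have hct : c t₁ = 0 := by
    rw [hc]
    simp
  have hud : ∀ r ∈ Icc s t₁, HasDerivWithinAt
      (fun r => -(1 / 2 : ℂ) • Gam G e (y r) (w r) (w r) + c r • a)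
      (dg G e (y r) (p r) (w r) (w1 r) + c1 • a) (Icc s t₁) r := by
    intro r hr
    have h1 := gam_deriv hG ctx.kaehler he hyt hr (hgeo.vel r hr) (hwd r hr)
    have h2 : HasDerivWithinAt (fun r => c r • a) (c1 • a) (Icc s t₁) r :=
      ((hcd r).smul_const a).hasDerivWithinAt
    exact h1.add h2
  have hu1c : ContinuousOn (fun r => dg G e (y r) (p r) (w r) (w1 r) + c1 • a) (Icc s t₁) :=
    (dg_cont hG he hyt hyc hpc hwc hw1c).add continuousOn_const
  have hnorm := par_norm hG he hst hyt hgeo.vel hW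
  have hβi : IntervalIntegrable (fun r => vv / ℓ ^ 2 - κ r) MeasureTheory.volume s t₁ :=
    intervalIntegrable_const.sub hκ
  have hmain := piece_dist ctx he hA hst hgeo.vel hwd hud hpc hw1c hu1c hyt hgeo.unit hβi
    (fun r hr => by
      have hrI : r ∈ Icc (0 : ℝ) ℓ := ⟨hs.trans hr.1, hr.2.trans ht⟩
      have h1 := hQ e he r hrI (hmem r hr) (p r) (W r) (w1 r) (c r • a) (c1 • a)
        (by rw [hyr]; exact hgeo.unit r hr) (by rw [hyr, hnorm r hr]; exact hWs)
        (by rw [hyr, hwr, hw1]) (by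
          rcases ha with h | h
          · exact Or.inl h
          · exact Or.inr ⟨by rw [h, smul_zero], by rw [h, smul_zero]⟩)
      rw [hyr, hwr] at h1
      exact h1) hε
  have hint : ∫ r in s..t₁, (vv / ℓ ^ 2 - κ r) = vv * (t₁ - s) / ℓ ^ 2 - ∫ t in s..t₁, κ t := by
    rw [intervalIntegral.integral_sub intervalIntegrable_const hκ,
      intervalIntegral.integral_const, smul_eq_mul]
    ring
  rw [hint] at hmain
  filter_upwards [hmain] with ρ hρ
  refine le_trans (le_of_eq ?_) hρ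
  congr 1
  funext ζ
  simp only [hwr]
  unfold jet
  rw [hcs, hct, one_smul, zero_smul, add_zero, smul_add, ← add_assoc]

end KI
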