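import Pool.Agent.H50.KI.Bdf

/-! # Utx: uniform second order Taylor formula for the means

PROOF. Fix `α ∈ A` (finite set). `g c s = F (c, s * α)` for real `s`; near `K × {0}` it is `C²` in `s`,
`g' c s = fderiv ℝ (F (c, ·)) (s α) α`, `g'' c s = fderiv ℝ (fun z => fderiv ℝ (F (c, ·)) z α) (s α) α`, and
`g''` is jointly continuous at `(c, 0)` (the derivatives of `F (c, ·)` are `fderiv ℝ F (c, z) (0, α)` etc.; `F` is `C²` on
the open set `O`), `g'' c 0 = d2 (F (c, ·)) α`. By compactness of `K` (for each `c₀ ∈ K` there is a neighbourhood of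
`(c₀, 0)` on which `|g'' c s - g'' c 0| ≤ ε`; `IsCompact.eventually_forall_of_forall_eventually` or finite cover) there is
`s₀ > 0` with `|g'' c s - g'' c 0| ≤ ε` for `c ∈ K`, `0 ≤ s < s₀`, all points in `O`. Mean value inequality twice:
`|g c s - g c 0 - s g' c 0 - s²/2 g'' c 0| ≤ ε s²`. Sum over `α`, divide by the cardinality; the linear terms are
`s * fderiv ℝ (F (c, ·)) 0 (∑ α) = 0` by `hA.sum`. -/

set_option autoImplicit false

namespace KI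

open Complex Metric Set Filter Topology Manifold ContDiff
open KB (V DR wirt levi rho Sesq lap lapC dz)

private theorem Utx_line {P : Type} [NormedAddCommGroup P] [NormedSpace ℝ P] (c : P) (α : ℂ)
    (s : ℝ) : HasDerivAt (fun s : ℝ => ((c, (s : ℂ) * α) : P × ℂ)) (0, α) s := by
  have h1 : HasDerivAt (fun s : ℝ => (s : ℂ) * α) α s := by
    have := (Complex.ofRealCLM.hasDerivAt (x := s)).mul_const α
    simpa using this
  exact (hasDerivAt_const s c).prodMk h1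

private theorem Utx_slice {P : Type} [NormedAddCommGroup P] [NormedSpace ℝ P] {E : P × ℂ → ℝ}
    {c : P} {z : ℂ} (h : DifferentiableAt ℝ E (c, z)) (α : ℂ) :
    fderiv ℝ (fun z => E (c, z)) z α = fderiv ℝ E (c, z) (0, α) := by
  have h1 : HasFDerivAt (fun z => E (c, z)) ((fderiv ℝ E (c, z)).comp
      (ContinuousLinearMap.inr ℝ P ℂ)) z :=
    h.hasFDerivAt.comp z (hasFDerivAt_prodMk_right c z)
  rw [h1.fderiv]
  rfl

/-- one direction -/
private theorem Utx_one {P : Type} [NormedAddCommGroup P] [NormedSpace ℝ P] {F : P × ℂ → ℝ}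
    {O : Set (P × ℂ)} (hO : IsOpen O) (hF : ContDiffOn ℝ 2 F O) {K : Set P} (hK : IsCompact K)
    (hKO : ∀ c ∈ K, (c, (0 : ℂ)) ∈ O) (α : ℂ) {ε : ℝ} (hε : 0 < ε) :
    ∀ᶠ ρ : ℝ in 𝓝[>] (0 : ℝ), ∀ c ∈ K,
      |F (c, (ρ : ℂ) * α) - F (c, 0) - ρ * fderiv ℝ (fun z => F (c, z)) 0 α -
        ρ ^ 2 / 2 * d2 (fun ζ => F (c, ζ)) α| ≤ ε * ρ ^ 2 := by
  have hF2 : ∀ q ∈ O, ContDiffAt ℝ 2 F q := fun q hq => hF.contDiffAt (hO.mem_nhds hq)
  set A : P × ℂ → ℝ := fun q => fderiv ℝ F q (0, α) with hA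
  set B : P × ℂ → ℝ := fun q => fderiv ℝ A q (0, α) with hB
  have hFd : ∀ q ∈ O, DifferentiableAt ℝ F q := fun q hq =>
    (hF2 q hq).differentiableAt (by norm_num)
  have hA1 : ∀ q ∈ O, ContDiffAt ℝ 1 A q := by
    intro q hq
    have h1 : ContDiffAt ℝ 1 (fderiv ℝ F) q := (hF2 q hq).fderiv_right (by norm_num)
    exact h1.clm_apply contDiffAt_const
  have hAd : ∀ q ∈ O, DifferentiableAt ℝ A q := fun q hq =>
    (hA1 q hq).differentiableAt (by norm_num)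
  have hBc : ∀ q ∈ O, ContinuousAt B q := by
    intro q hq
    have h1 : ContDiffAt ℝ 0 (fderiv ℝ A) q := (hA1 q hq).fderiv_right (by norm_num)
    exact (h1.clm_apply contDiffAt_const).continuousAt
  -- the second derivative of the slice
  have hd2 : ∀ c ∈ K, d2 (fun ζ => F (c, ζ)) α = B (c, 0) := by
    intro c hc
    unfold d2
    have h1 : (fun z => fderiv ℝ (fun ζ => F (c, ζ)) z α) =ᶠ[𝓝 (0 : ℂ)] fun z => A (c, z) := by
      have h2 : ∀ᶠ z in 𝓝 (0 : ℂ), (c, z) ∈ O := by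
        have h3 : Continuous (fun z : ℂ => ((c, z) : P × ℂ)) := by fun_prop
        exact h3.continuousAt.preimage_mem_nhds (hO.mem_nhds (hKO c hc))
      filter_upwards [h2] with z hz
      exact Utx_slice (hFd _ hz) α
    rw [h1.fderiv_eq]
    exact Utx_slice (hAd _ (hKO c hc)) α
  have hd1 : ∀ c ∈ K, fderiv ℝ (fun z => F (c, z)) 0 α = A (c, 0) := fun c hc =>
    Utx_slice (hFd _ (hKO c hc)) α
  -- uniformity
  have hun : ∀ᶠ s : ℝ in 𝓝 0, ∀ c ∈ K, (c, (s : ℂ) * α) ∈ O ∧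
      |B (c, (s : ℂ) * α) - B (c, 0)| ≤ ε := by
    refine hK.eventually_forall_of_forall_eventually
      (P := fun (s : ℝ) (c : P) => (c, (s : ℂ) * α) ∈ O ∧
        |B (c, (s : ℂ) * α) - B (c, 0)| ≤ ε) ?_
    intro c hc
    have h1 : Continuous (fun z : ℝ × P => ((z.2, (z.1 : ℂ) * α) : P × ℂ)) := by fun_prop
    have h2 : Continuous (fun z : ℝ × P => ((z.2, 0) : P × ℂ)) := by fun_prop
    have e1 : ((((0 : ℝ), c) : ℝ × P).2, ((((0 : ℝ), c) : ℝ × P).1 : ℂ) * α) = (c, (0 : ℂ)) := by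
      simp
    have h3 : ∀ᶠ z : ℝ × P in 𝓝 ((0 : ℝ), c), (z.2, (z.1 : ℂ) * α) ∈ O := by
      refine h1.continuousAt.preimage_mem_nhds ?_
      rw [e1]
      exact hO.mem_nhds (hKO c hc)
    have h4 : ContinuousAt (fun z : ℝ × P => B (z.2, (z.1 : ℂ) * α)) ((0 : ℝ), c) := by
      refine ContinuousAt.comp (f := fun z : ℝ × P => ((z.2, (z.1 : ℂ) * α) : P × ℂ)) (g := B) ?_
        h1.continuousAt
      rw [e1]
      exact hBc _ (hKO c hc)
    have h5 : ContinuousAt (fun z : ℝ × P => B (z.2, 0)) ((0 : ℝ), c) := by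
      refine ContinuousAt.comp (f := fun z : ℝ × P => ((z.2, 0) : P × ℂ)) (g := B) ?_
        h2.continuousAt
      exact hBc _ (hKO c hc)
    have h6 := (h4.sub h5).abs
    have h7 : ∀ᶠ z : ℝ × P in 𝓝 ((0 : ℝ), c), |B (z.2, (z.1 : ℂ) * α) - B (z.2, 0)| < ε := by
      refine h6.tendsto.eventually_lt_const ?_
      simp [hε]
    filter_upwards [h3, h7] with z hz1 hz2
    exact ⟨hz1, hz2.le⟩
  obtain ⟨δ, hδ, hball⟩ := Metric.eventually_nhds_iff.mp hun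
  filter_upwards [Ioo_mem_nhdsGT hδ] with ρ hρ c hc
  have hin : ∀ s ∈ Icc (0 : ℝ) ρ, (c, (s : ℂ) * α) ∈ O ∧ |B (c, (s : ℂ) * α) - B (c, 0)| ≤ ε := by
    intro s hs
    refine hball (y := s) ?_ c hc
    rw [Real.dist_eq, sub_zero, abs_of_nonneg hs.1]
    exact hs.2.trans_lt hρ.2
  rw [hd1 c hc, hd2 c hc]
  have hρ0 : 0 ≤ ρ := hρ.1.le
  -- first derivative
  have hg1 : ∀ s ∈ Icc (0 : ℝ) ρ, HasDerivAt (fun s : ℝ => F (c, (s : ℂ) * α))
      (A (c, (s : ℂ) * α)) s := by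
    intro s hs
    exact (hFd _ (hin s hs).1).hasFDerivAt.comp_hasDerivAt s (Utx_line c α s)
  have hg2 : ∀ s ∈ Icc (0 : ℝ) ρ, HasDerivAt (fun s : ℝ => A (c, (s : ℂ) * α))
      (B (c, (s : ℂ) * α)) s := by
    intro s hs
    exact (hAd _ (hin s hs).1).hasFDerivAt.comp_hasDerivAt s (Utx_line c α s)
  have hk2 : ∀ s ∈ Icc (0 : ℝ) ρ, HasDerivAt
      (fun s : ℝ => A (c, (s : ℂ) * α) - A (c, 0) - s * B (c, 0))
      (B (c, (s : ℂ) * α) - B (c, 0)) s := by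
    intro s hs
    have h1 := ((hg2 s hs).sub_const (A (c, 0))).sub ((hasDerivAt_id s).mul_const (B (c, 0)))
    convert! h1 using 1
    simp
  have hk1 : ∀ s ∈ Icc (0 : ℝ) ρ, HasDerivAt
      (fun s : ℝ => F (c, (s : ℂ) * α) - F (c, 0) - s * A (c, 0) - s ^ 2 / 2 * B (c, 0))
      (A (c, (s : ℂ) * α) - A (c, 0) - s * B (c, 0)) s := by
    intro s hs
    have h1 := (((hg1 s hs).sub_const (F (c, 0))).sub
      ((hasDerivAt_id s).mul_const (A (c, 0)))).sub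
      ((((hasDerivAt_id s).pow 2).div_const 2).mul_const (B (c, 0)))
    convert! h1 using 1
    simp
  have hb1 : ∀ s ∈ Icc (0 : ℝ) ρ, |A (c, (s : ℂ) * α) - A (c, 0) - s * B (c, 0)| ≤ ε * ρ := by
    intro s hs
    have h1 := norm_image_sub_le_of_norm_deriv_le_segment'
      (fun x hx => (hk2 x hx).hasDerivWithinAt) (C := ε)
      (fun x hx => (hin x ⟨hx.1, hx.2.le⟩).2) s hs
    have h2 : A (c, ((0 : ℝ) : ℂ) * α) - A (c, 0) - 0 * B (c, 0) = 0 := by simp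
    rw [h2, sub_zero, sub_zero, Real.norm_eq_abs] at h1
    exact h1.trans (mul_le_mul_of_nonneg_left hs.2 hε.le)
  have h1 := norm_image_sub_le_of_norm_deriv_le_segment'
    (fun x hx => (hk1 x hx).hasDerivWithinAt) (C := ε * ρ)
    (fun x hx => hb1 x ⟨hx.1, hx.2.le⟩) ρ ⟨hρ0, le_rfl⟩
  have h2 : F (c, ((0 : ℝ) : ℂ) * α) - F (c, 0) - 0 * A (c, 0) - 0 ^ 2 / 2 * B (c, 0) = 0 := by
    simp
  rw [h2, sub_zero, sub_zero, Real.norm_eq_abs] at h1
  calc _ ≤ ε * ρ * ρ := h1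
    _ = ε * ρ ^ 2 := by ring

theorem uniform_taylor {P : Type} [NormedAddCommGroup P] [NormedSpace ℝ P] {F : P × ℂ → ℝ}
    {O : Set (P × ℂ)} (hO : IsOpen O) (hF : ContDiffOn ℝ 2 F O) {K : Set P} (hK : IsCompact K)
    (hKO : ∀ c ∈ K, (c, (0 : ℂ)) ∈ O) {A : Finset ℂ} (hA : Dirs A) {ε : ℝ} (hε : 0 < ε) :
    ∀ᶠ ρ : ℝ in 𝓝[>] (0 : ℝ), ∀ c ∈ K,
      |mn A (fun ζ => F (c, ζ)) ρ - F (c, 0) - ρ ^ 2 / 2 * qA A (fun ζ => F (c, ζ))| ≤
        ε * ρ ^ 2 := by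
  have h1 : ∀ᶠ ρ : ℝ in 𝓝[>] (0 : ℝ), ∀ α ∈ A, ∀ c ∈ K,
      |F (c, (ρ : ℂ) * α) - F (c, 0) - ρ * fderiv ℝ (fun z => F (c, z)) 0 α -
        ρ ^ 2 / 2 * d2 (fun ζ => F (c, ζ)) α| ≤ ε * ρ ^ 2 := by
    rw [Filter.eventually_all_finset]
    intro α _
    exact Utx_one hO hF hK hKO α hε
  have hN : 0 < (A.card : ℝ) := by exact_mod_cast hA.ne.card_pos
  filter_upwards [h1] with ρ hρ c hc
  have h2 : mn A (fun ζ => F (c, ζ)) ρ - F (c, 0) - ρ ^ 2 / 2 * qA A (fun ζ => F (c, ζ)) =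
      (∑ α ∈ A, (F (c, (ρ : ℂ) * α) - F (c, 0) - ρ * fderiv ℝ (fun z => F (c, z)) 0 α -
        ρ ^ 2 / 2 * d2 (fun ζ => F (c, ζ)) α)) / (A.card : ℝ) := by
    have h3 : ∑ α ∈ A, ρ * fderiv ℝ (fun z => F (c, z)) 0 α = 0 := by
      rw [← Finset.mul_sum, ← map_sum, hA.sum, map_zero, mul_zero]
    rw [Finset.sum_sub_distrib, Finset.sum_sub_distrib, Finset.sum_sub_distrib, h3,
      Finset.sum_const, ← Finset.mul_sum, nsmul_eq_mul]
    unfold mn qA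
    field_simp
    ring
  rw [h2, abs_div, abs_of_pos hN, div_le_iff₀ hN]
  refine (Finset.abs_sum_le_sum_abs _ _).trans ?_
  refine (Finset.sum_le_sum fun α hα => hρ α hα c hc).trans ?_
  rw [Finset.sum_const, nsmul_eq_mul]
  linarith

end KI
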